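import Pool.Agent.H43.PX.Defs

/-!
# PROJECT PX (MP_967f73_nt), ROW CRT: the minorant `Yx S T ≤ 1_P` on `[N/4, 4N]`

For a sieve pair `T ≤ rg y ≤ S`: `om m * rg y m ≤ S2 S m`, since `rg y m ≤ rg y (m/p) ≤ S (m/p)` for `p ∣ m`.
If `nu m = 0` and `rg y m = 1`, then all prime factors of `m` are `> z`, so that a composite `m ≤ 4N ≤ w²` has `om m ≥ 1`.
If `nu m ≥ 1`, then `Yx ≤ rg y m (1 - om) - Bx = 0`.
-/

set_option autoImplicit false

namespace Pool.Agent.H43.PX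

open Finset
open Pool.Agent.H43.TP (pr)
open Pool.Agent.H76.TP (yN zz rg nu PY Adm)
open Pool.Agent.H91.TQ (om)

private theorem crt_rg_nonneg (y m : ℕ) : 0 ≤ rg y m := by
  unfold rg
  split_ifs <;> norm_num

private theorem crt_rg_le (y m k : ℕ) (h : k ∣ m) : rg y m ≤ rg y k := by
  classical
  unfold rg
  by_cases h1 : ∀ p : ℕ, p.Prime → p ∣ m → y < p
  · have h2 : ∀ p : ℕ, p.Prime → p ∣ k → y < p := fun p hp hk => h1 p hp (hk.trans h)
    rw [if_pos h1, if_pos h2]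
  · rw [if_neg h1]
    split_ifs <;> norm_num

private theorem crt_pr_nonneg (m : ℕ) : 0 ≤ pr m := by
  unfold pr
  split_ifs <;> norm_num

/-- `om m * rg y m ≤ S2 S m` -/
private theorem crt_s2 (y J J1 m : ℕ) (S : ℕ → ℝ) (hm : 1 ≤ m) (hS : ∀ k, 1 ≤ k → rg y k ≤ S k) :
    (om y J J1 m : ℝ) * rg y m ≤ S2 S y J J1 m := by
  classical
  have hset : (PY (zz y J) (zz y J1)).filter (fun p => p ∣ m) =
      m.primeFactors.filter (fun p => zz y J < p ∧ p ≤ zz y J1) := by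
    ext p
    simp only [PY, mem_filter, mem_Ioc, Nat.mem_primeFactors]
    constructor
    · rintro ⟨⟨⟨h1, h2⟩, h3⟩, h4⟩
      exact ⟨⟨h3, h4, by omega⟩, h1, h2⟩
    · rintro ⟨⟨h3, h4, _⟩, h1, h2⟩
      exact ⟨⟨⟨h1, h2⟩, h3⟩, h4⟩
  unfold S2
  rw [hset]
  have h1 : (om y J J1 m : ℝ) * rg y m =
      ∑ p ∈ m.primeFactors.filter (fun p => zz y J < p ∧ p ≤ zz y J1), rg y m := by
    rw [sum_const, nsmul_eq_mul]
    rfl
  rw [h1]
  apply sum_le_sum
  intro p hp
  rw [mem_filter, Nat.mem_primeFactors] at hp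
  obtain ⟨⟨hp, hpm, _⟩, _⟩ := hp
  have hd : m / p ∣ m := Nat.div_dvd_of_dvd hpm
  have h1 : 1 ≤ m / p := Nat.div_pos (Nat.le_of_dvd (by omega) hpm) hp.pos
  exact (crt_rg_le y m _ hd).trans (hS _ h1)

/-- a composite number without prime factors `≤ z` has a prime factor in `(z, w]` -/
private theorem crt_om (N y J J1 m : ℕ) (hw : 4 * N ≤ zz y J1 ^ 2) (hm : m ≤ 4 * N) (h2 : 2 ≤ m) (hnp : ¬ m.Prime)
    (hz : ∀ p : ℕ, p.Prime → p ∣ m → zz y J < p) : 1 ≤ om y J J1 m := by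
  classical
  have hp : m.minFac.Prime := Nat.minFac_prime (by omega)
  have hd : m.minFac ∣ m := Nat.minFac_dvd m
  have hsq : m.minFac ^ 2 ≤ m := Nat.minFac_sq_le_self (by omega) hnp
  have hle : m.minFac ≤ zz y J1 := by
    by_contra hcon
    push Not at hcon
    have h3 : zz y J1 ^ 2 < m.minFac ^ 2 := Nat.pow_lt_pow_left hcon (by norm_num)
    omega
  unfold om
  apply Nat.one_le_iff_ne_zero.mpr
  apply card_ne_zero_of_mem (a := m.minFac)
  rw [mem_filter, Nat.mem_primeFactors]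
  exact ⟨⟨hp, hd, by omega⟩, hz _ hp hd, hle⟩

/-- **ROW CRT**: `Yx ≤ 1_P` on `[N/4, 4N]` -/
theorem yx_le (e1 : ℝ) (he1 : 0 < e1) (he2 : e1 ≤ 1 / 1000) : ∃ N0 : ℕ, ∀ N : ℕ, N0 ≤ N → ∀ (J J1 : ℕ) (S T : ℕ → ℝ),
    LevX N (yN e1 N) J J1 → (∀ m, 1 ≤ m → T m ≤ rg (yN e1 N) m ∧ rg (yN e1 N) m ≤ S m) →
    ∀ m : ℕ, N ≤ 4 * m → m ≤ 4 * N → Yx S T (yN e1 N) J J1 m ≤ pr m := by
  classical
  refine ⟨5, fun N hN J J1 S T hL hST m hm1 hm2 => ?_⟩
  generalize yN e1 N = y at hL hST ⊢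
  obtain ⟨_, _, _, hw, _⟩ := hL
  have hm : 1 ≤ m := by omega
  have hm' : 2 ≤ m := by omega
  have hT := (hST m hm).1
  have hS2 := crt_s2 y J J1 m S hm (fun k hk => (hST k hk).2)
  have hr0 := crt_rg_nonneg y m
  have hp0 := crt_pr_nonneg m
  unfold Yx Bx
  by_cases hnu : nu y J m = 0
  · rw [if_pos hnu]
    by_cases hrg : ∀ p : ℕ, p.Prime → p ∣ m → y < p
    · have hr1 : rg y m = 1 := by
        unfold rg
        rw [if_pos hrg]
      rw [hr1] at hT hS2
      by_cases hmp : m.Prime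
      · have h1 : pr m = 1 := by
          unfold pr
          rw [if_pos hmp]
        have h2 : (0 : ℝ) ≤ (om y J J1 m : ℝ) := Nat.cast_nonneg _
        linarith
      · have hz : ∀ p : ℕ, p.Prime → p ∣ m → zz y J < p := by
          intro p hp hpm
          by_contra hcon
          push Not at hcon
          unfold nu at hnu
          rw [card_eq_zero] at hnu
          have h3 : p ∈ m.primeFactors.filter (fun p => y < p ∧ p ≤ zz y J) := by
            rw [mem_filter, Nat.mem_primeFactors]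
            exact ⟨⟨hp, hpm, by omega⟩, hrg p hp hpm, hcon⟩
          rw [hnu] at h3
          simp at h3
        have h4 := crt_om N y J J1 m hw hm2 hm' hmp hz
        have h5 : (1 : ℝ) ≤ (om y J J1 m : ℝ) := by exact_mod_cast h4
        linarith
    · have hr1 : rg y m = 0 := by
        unfold rg
        rw [if_neg hrg]
      rw [hr1] at hT hS2
      linarith
  · rw [if_neg hnu]
    nlinarith

end Pool.Agent.H43.PX
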