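import Mathlib

/-!
# PX Cub: a divisor-type sum

`∑_{t ≤ D squarefree} k^ω(t) / t ≤ (1 + log D)^k` by induction on `k` (`(k+1)^ω(n) = ∑_{d ∣ n} k^ω(d)` for squarefree `n`), so the inner
sum is at most `3^ω(s) / s * (1 + log D)^3`, and the outer sum is at most `(1 + log D)^6 ∑_s 9^ω(s) / s ≤ (1 + log D)^15`.
-/

set_option autoImplicit false

namespace Pool.Agent.H43.PX

open Finset

/-- the squarefree integers up to `D` -/
private def cubE (D : ℕ) : Finset ℕ := (Icc 1 D).filter Squarefree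

private theorem cub_img (D s : ℕ) (hs : 1 ≤ s) (G : ℕ → ℝ) (hG : ∀ e ∈ cubE D, 0 ≤ G (s * e)) :
    ∑ r ∈ (Icc 1 D).filter (fun r => s ∣ r ∧ Squarefree r), G r ≤ ∑ e ∈ cubE D, G (s * e) := by
  have hinj : Set.InjOn (fun e => s * e) (cubE D : Set ℕ) := by
    intro a _ b _ hab
    exact Nat.eq_of_mul_eq_mul_left (by omega) hab
  rw [← Finset.sum_image (f := G) hinj]
  refine Finset.sum_le_sum_of_subset_of_nonneg ?_ ?_
  · intro r hr
    rw [mem_filter, mem_Icc] at hr
    obtain ⟨⟨h1, h2⟩, ⟨e, rfl⟩, h3⟩ := hr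
    rw [mem_image]
    refine ⟨e, ?_, rfl⟩
    unfold cubE
    rw [mem_filter, mem_Icc]
    have h4 : e ≠ 0 := by
      rintro rfl
      omega
    refine ⟨⟨by omega, ?_⟩, h3.squarefree_of_dvd (dvd_mul_left _ _)⟩
    calc e = 1 * e := (one_mul e).symm
      _ ≤ s * e := Nat.mul_le_mul_right _ hs
      _ ≤ D := h2
  · intro r hr _
    rw [mem_image] at hr
    obtain ⟨e, he, rfl⟩ := hr
    exact hG e he

/-- `k ^ ω(n)` as an arithmetic function -/
private noncomputable def cubF (k : ℝ) : ArithmeticFunction ℝ where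
  toFun n := if n = 0 then 0 else k ^ n.primeFactors.card
  map_zero' := if_pos rfl

private theorem cubF_apply (k : ℝ) {n : ℕ} (hn : n ≠ 0) : cubF k n = k ^ n.primeFactors.card :=
  if_neg hn

private theorem cubF_mult (k : ℝ) : (cubF k).IsMultiplicative := by
  refine ArithmeticFunction.IsMultiplicative.iff_ne_zero.mpr ⟨?_, fun {m n} hm hn h => ?_⟩
  · rw [cubF_apply k one_ne_zero]
    simp
  · rw [cubF_apply k hm, cubF_apply k hn, cubF_apply k (mul_ne_zero hm hn), h.primeFactors_mul,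
      Finset.card_union_of_disjoint h.disjoint_primeFactors, pow_add]

private theorem cub_pow (k : ℝ) {n : ℕ} (hn : Squarefree n) :
    (1 + k) ^ n.primeFactors.card = ∑ d ∈ n.divisors, k ^ d.primeFactors.card := by
  have h1 := (cubF_mult k).prodPrimeFactors_one_add_of_squarefree hn
  have h2 : ∏ p ∈ n.primeFactors, (1 + cubF k p) = (1 + k) ^ n.primeFactors.card := by
    rw [Finset.prod_congr rfl (g := fun _ => 1 + k), Finset.prod_const]
    intro p hp
    have hp' := Nat.prime_of_mem_primeFactors hp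
    rw [cubF_apply k hp'.ne_zero, hp'.primeFactors, Finset.card_singleton, pow_one]
  rw [← h2, h1]
  refine Finset.sum_congr rfl fun d hd => cubF_apply k ?_
  exact (Nat.pos_of_mem_divisors hd).ne'

private theorem cub_harm (D : ℕ) : ∑ e ∈ Icc 1 D, 1 / (e : ℝ) ≤ 1 + Real.log D := by
  have h := harmonic_le_one_add_log D
  rw [harmonic_eq_sum_Icc] at h
  push_cast at h
  simpa [one_div] using h

private theorem cub_A (D : ℕ) (hD : 1 ≤ D) (k : ℕ) :
    ∑ t ∈ cubE D, (k : ℝ) ^ t.primeFactors.card / t ≤ (1 + Real.log D) ^ k := by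
  have hl : 0 ≤ Real.log D := Real.log_nonneg (by exact_mod_cast hD)
  induction k with
  | zero =>
    rw [pow_zero]
    calc ∑ t ∈ cubE D, ((0 : ℕ) : ℝ) ^ t.primeFactors.card / t
        ≤ ∑ t ∈ ({1} : Finset ℕ), ((0 : ℕ) : ℝ) ^ t.primeFactors.card / t := by
          refine le_of_eq (Finset.sum_subset_zero_on_sdiff ?_ ?_ ?_).symm
          · intro t ht
            rw [mem_singleton] at ht
            subst ht
            unfold cubE
            rw [mem_filter, mem_Icc]
            exact ⟨⟨le_rfl, hD⟩, squarefree_one⟩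
          · intro t ht
            rw [mem_sdiff, mem_singleton] at ht
            obtain ⟨h1, h2⟩ := ht
            unfold cubE at h1
            rw [mem_filter, mem_Icc] at h1
            have h3 : t.primeFactors.card ≠ 0 := by
              rw [Ne, Finset.card_eq_zero, Nat.primeFactors_eq_empty]
              omega
            rw [Nat.cast_zero, zero_pow h3, zero_div]
          · intro t _
            rfl
      _ = 1 := by simp
  | succ k ih =>
    have e1 : ∀ n ∈ cubE D, ((k + 1 : ℕ) : ℝ) ^ n.primeFactors.card / n =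
        ∑ d ∈ cubE D, if d ∣ n then (k : ℝ) ^ d.primeFactors.card / n else 0 := by
      intro n hn
      unfold cubE at hn
      rw [mem_filter, mem_Icc] at hn
      obtain ⟨⟨h1, h2⟩, h3⟩ := hn
      have h4 := cub_pow (k : ℝ) h3
      push_cast
      rw [add_comm (k : ℝ) 1, h4, Finset.sum_div, ← Finset.sum_filter]
      refine Finset.sum_congr ?_ fun _ _ => rfl
      ext d
      unfold cubE
      rw [Nat.mem_divisors, mem_filter, mem_filter, mem_Icc]
      constructor
      · rintro ⟨h5, h6⟩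
        exact ⟨⟨⟨Nat.pos_of_dvd_of_pos h5 h1, (Nat.le_of_dvd h1 h5).trans h2⟩,
          h3.squarefree_of_dvd h5⟩, h5⟩
      · rintro ⟨_, h5⟩
        exact ⟨h5, by omega⟩
    rw [Finset.sum_congr rfl e1, Finset.sum_comm]
    have e2 : ∀ d ∈ cubE D, (∑ n ∈ cubE D, if d ∣ n then (k : ℝ) ^ d.primeFactors.card / n else 0) ≤
        (k : ℝ) ^ d.primeFactors.card / d * (1 + Real.log D) := by
      intro d hd
      unfold cubE at hd
      rw [mem_filter, mem_Icc] at hd
      have hd0 : (0 : ℝ) < d := by exact_mod_cast hd.1.1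
      rw [← Finset.sum_filter]
      have h5 : (cubE D).filter (fun n => d ∣ n) =
          (Icc 1 D).filter (fun r => d ∣ r ∧ Squarefree r) := by
        ext n
        unfold cubE
        rw [mem_filter, mem_filter, mem_filter]
        tauto
      rw [h5]
      refine (cub_img D d hd.1.1 (fun r => (k : ℝ) ^ d.primeFactors.card / r) (fun e _ => by
        positivity)).trans ?_
      calc ∑ e ∈ cubE D, (k : ℝ) ^ d.primeFactors.card / ((d * e : ℕ) : ℝ)
          ≤ ∑ e ∈ Icc 1 D, (k : ℝ) ^ d.primeFactors.card / ((d * e : ℕ) : ℝ) := by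
            refine Finset.sum_le_sum_of_subset_of_nonneg (Finset.filter_subset _ _) fun e _ _ => ?_
            positivity
        _ = (k : ℝ) ^ d.primeFactors.card / d * ∑ e ∈ Icc 1 D, 1 / (e : ℝ) := by
            rw [Finset.mul_sum]
            refine Finset.sum_congr rfl fun e _ => ?_
            push_cast
            rw [div_mul_div_comm, mul_one]
        _ ≤ _ := mul_le_mul_of_nonneg_left (cub_harm D) (by positivity)
    refine (Finset.sum_le_sum e2).trans ?_
    rw [← Finset.sum_mul, pow_succ]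
    exact mul_le_mul_of_nonneg_right ih (by linarith)

theorem cub_sum (D : ℕ) (hD : 1 ≤ D) (c : ℕ → ℝ) (h0 : ∀ n, ¬ Squarefree n → c n = 0) (h1 : ∀ n, |c n| ≤ 3 ^ n.primeFactors.card) :
    ∑ s ∈ Icc 1 D, (s : ℝ) * (∑ r ∈ (Icc 1 D).filter (fun r => s ∣ r), |c r| / r) ^ 2 ≤ (2 + Real.log D) ^ 15 := by
  have hl : 0 ≤ Real.log D := Real.log_nonneg (by exact_mod_cast hD)
  -- the inner sum
  have e0 : ∀ s : ℕ, ∑ r ∈ (Icc 1 D).filter (fun r => s ∣ r), |c r| / (r : ℝ) =
      ∑ r ∈ (Icc 1 D).filter (fun r => s ∣ r ∧ Squarefree r), |c r| / (r : ℝ) := by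
    intro s
    refine (Finset.sum_subset_zero_on_sdiff ?_ ?_ fun _ _ => rfl).symm
    · intro r hr
      rw [mem_filter] at hr ⊢
      exact ⟨hr.1, hr.2.1⟩
    · intro r hr
      rw [mem_sdiff, mem_filter, mem_filter] at hr
      have h2 : ¬ Squarefree r := fun h3 => hr.2 ⟨hr.1.1, hr.1.2, h3⟩
      rw [h0 r h2, abs_zero, zero_div]
  have e1 : ∀ s ∈ cubE D, ∑ r ∈ (Icc 1 D).filter (fun r => s ∣ r), |c r| / (r : ℝ) ≤
      3 ^ s.primeFactors.card / s * (1 + Real.log D) ^ 3 := by
    intro s hs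
    unfold cubE at hs
    rw [mem_filter, mem_Icc] at hs
    have hs0 : (0 : ℝ) < s := by exact_mod_cast hs.1.1
    rw [e0]
    have h2 : ∀ r ∈ (Icc 1 D).filter (fun r => s ∣ r ∧ Squarefree r), |c r| / (r : ℝ) ≤
        3 ^ s.primeFactors.card * 3 ^ (r / s).primeFactors.card / (r : ℝ) := by
      intro r hr
      rw [mem_filter, mem_Icc] at hr
      obtain ⟨_, ⟨e, rfl⟩, h3⟩ := hr
      refine div_le_div_of_nonneg_right ((h1 _).trans (le_of_eq ?_)) (Nat.cast_nonneg _)
      rw [Nat.mul_div_cancel_left e (by omega)]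
      have h4 : Nat.Coprime s e := Nat.coprime_of_squarefree_mul h3
      rw [h4.primeFactors_mul, Finset.card_union_of_disjoint h4.disjoint_primeFactors, pow_add]
    refine (Finset.sum_le_sum h2).trans ?_
    refine (cub_img D s hs.1.1 (fun r => (3 : ℝ) ^ s.primeFactors.card *
      3 ^ (r / s).primeFactors.card / (r : ℝ)) (fun e _ => by positivity)).trans ?_
    calc ∑ e ∈ cubE D, (3 : ℝ) ^ s.primeFactors.card *
          3 ^ (s * e / s).primeFactors.card / ((s * e : ℕ) : ℝ)
        = 3 ^ s.primeFactors.card / s * ∑ e ∈ cubE D, ((3 : ℕ) : ℝ) ^ e.primeFactors.card / e := by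
          rw [Finset.mul_sum]
          refine Finset.sum_congr rfl fun e _ => ?_
          rw [Nat.mul_div_cancel_left e (by omega)]
          push_cast
          rw [div_mul_div_comm]
      _ ≤ _ := mul_le_mul_of_nonneg_left (cub_A D hD 3) (by positivity)
  -- the outer sum
  have e2 : ∑ s ∈ Icc 1 D, (s : ℝ) * (∑ r ∈ (Icc 1 D).filter (fun r => s ∣ r), |c r| / r) ^ 2 =
      ∑ s ∈ cubE D, (s : ℝ) * (∑ r ∈ (Icc 1 D).filter (fun r => s ∣ r), |c r| / r) ^ 2 := by
    refine (Finset.sum_subset_zero_on_sdiff (Finset.filter_subset _ _) ?_ fun _ _ => rfl).symm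
    intro s hs
    rw [mem_sdiff] at hs
    have h2 : ¬ Squarefree s := fun h3 => hs.2 (mem_filter.mpr ⟨hs.1, h3⟩)
    have h3 : ∑ r ∈ (Icc 1 D).filter (fun r => s ∣ r), |c r| / (r : ℝ) = 0 := by
      refine Finset.sum_eq_zero fun r hr => ?_
      rw [mem_filter] at hr
      rw [h0 r (fun h4 => h2 (h4.squarefree_of_dvd hr.2)), abs_zero, zero_div]
    rw [h3]
    ring
  rw [e2]
  have e3 : ∀ s ∈ cubE D, (s : ℝ) * (∑ r ∈ (Icc 1 D).filter (fun r => s ∣ r), |c r| / r) ^ 2 ≤
      ((9 : ℕ) : ℝ) ^ s.primeFactors.card / s * (1 + Real.log D) ^ 6 := by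
    intro s hs
    have h2 := e1 s hs
    unfold cubE at hs
    rw [mem_filter, mem_Icc] at hs
    have hs0 : (0 : ℝ) < s := by exact_mod_cast hs.1.1
    have h3 : 0 ≤ ∑ r ∈ (Icc 1 D).filter (fun r => s ∣ r), |c r| / (r : ℝ) :=
      Finset.sum_nonneg fun r _ => by positivity
    calc (s : ℝ) * (∑ r ∈ (Icc 1 D).filter (fun r => s ∣ r), |c r| / r) ^ 2
        ≤ (s : ℝ) * (3 ^ s.primeFactors.card / s * (1 + Real.log D) ^ 3) ^ 2 :=
          mul_le_mul_of_nonneg_left (pow_le_pow_left₀ h3 h2 2) hs0.le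
      _ = _ := by
          have h4 : ((9 : ℕ) : ℝ) ^ s.primeFactors.card = (3 ^ s.primeFactors.card) ^ 2 := by
            rw [← pow_mul, mul_comm, pow_mul]
            norm_num
          rw [h4]
          field_simp
  refine (Finset.sum_le_sum e3).trans ?_
  rw [← Finset.sum_mul]
  calc (∑ s ∈ cubE D, ((9 : ℕ) : ℝ) ^ s.primeFactors.card / s) * (1 + Real.log D) ^ 6
      ≤ (1 + Real.log D) ^ 9 * (1 + Real.log D) ^ 6 :=
        mul_le_mul_of_nonneg_right (cub_A D hD 9) (by positivity)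
    _ = (1 + Real.log D) ^ 15 := by ring
    _ ≤ (2 + Real.log D) ^ 15 := pow_le_pow_left₀ (by linarith) (by linarith) 15

end Pool.Agent.H43.PX
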