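import Pool.Agent.H43.PX.Defs
import Pool.Agent.H92.EH.Ramanujan

/-!
# PX Den: class densities from the exponential sums on long blocks

For a multiple `M` of all relevant moduli the sum of `f = S - k lamR R` over the class `a` modulo `d` in `[M, 2M)` is exactly
`M (den Q g d a - k [gcd(a,d) = 1] / φ(d))`; by orthogonality it is an average of the sums `Bs f M 1 (j/d)` with unimodular weights.
-/

set_option autoImplicit false

namespace Pool.Agent.H43.PX

open Finset
open Pool.Agent.H91.PK (ee)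
open Pool.Agent.H91.EHA (Lam lamR ramS)
open Pool.Agent.H53.MID (VKp Bs Fp)
open Pool.Agent.H76.TP (yN zz rg nu PY Adm)

/-- the number of elements of a class which are divisible by `r` -/
private theorem den_cnt (r d a M : ℕ) (hr : 1 ≤ r) (hd : 1 ≤ d) (hM : Nat.lcm r d ∣ M) :
    (((Ico M (2 * M)).filter (fun m => m % d = a % d ∧ r ∣ m)).card : ℝ) =
      if Nat.gcd r d ∣ a then (M : ℝ) / (Nat.lcm r d : ℝ) else 0 := by
  have hl : 0 < Nat.lcm r d := Nat.lcm_pos hr hd
  split_ifs with h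
  · have h0 : 0 ≡ a [MOD Nat.gcd r d] := ((Nat.modEq_zero_iff_dvd).mpr h).symm
    obtain ⟨m0, h1, h2⟩ := Nat.chineseRemainder' h0
    have hP : ∀ m : ℕ, (m % d = a % d ∧ r ∣ m) ↔ m ≡ m0 [MOD Nat.lcm r d] := by
      intro m
      constructor
      · rintro ⟨h3, h4⟩
        have h5 : m ≡ m0 [MOD r] := ((Nat.modEq_zero_iff_dvd).mpr h4).trans h1.symm
        have h6 : m ≡ m0 [MOD d] := Nat.ModEq.trans h3 h2.symm
        rw [Nat.modEq_iff_dvd] at h5 h6 ⊢
        exact Int.natCast_dvd.mpr (Nat.lcm_dvd (Int.natCast_dvd.mp h5) (Int.natCast_dvd.mp h6))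
      · intro h3
        refine ⟨?_, ?_⟩
        · exact (Nat.ModEq.of_dvd (Nat.dvd_lcm_right r d) h3).trans h2
        · exact (Nat.modEq_zero_iff_dvd).mp ((Nat.ModEq.of_dvd (Nat.dvd_lcm_left r d) h3).trans h1)
    have hf : (Ico M (2 * M)).filter (fun m => m % d = a % d ∧ r ∣ m) =
        (Ico M (M + M)).filter (fun m => m ≡ m0 [MOD Nat.lcm r d]) := by
      rw [two_mul]
      exact filter_congr fun m _ => hP m
    have hper : Function.Periodic (fun m => m ≡ m0 [MOD Nat.lcm r d]) M := by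
      intro m
      obtain ⟨t, ht⟩ := hM
      simp only [eq_iff_iff]
      have h3 : m + M ≡ m [MOD Nat.lcm r d] := by
        unfold Nat.ModEq
        rw [ht, Nat.add_mul_mod_self_left]
      exact ⟨fun h4 => h3.symm.trans h4, fun h4 => h3.trans h4⟩
    rw [hf, Nat.filter_Ico_card_eq_of_periodic _ _ _ hper, Nat.count_modEq_card _ hl, Nat.mod_eq_zero_of_dvd hM]
    simp only [not_lt_zero, if_false, add_zero]
    rw [Nat.cast_div hM (by exact_mod_cast hl.ne')]
  · rw [Nat.cast_eq_zero, card_eq_zero, filter_eq_empty_iff]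
    rintro m _ ⟨h1, h2⟩
    apply h
    have h3 : m ≡ a [MOD Nat.gcd r d] := Nat.ModEq.of_dvd (Nat.gcd_dvd_right r d) h1
    have h4 : m ≡ 0 [MOD Nat.gcd r d] := (Nat.modEq_zero_iff_dvd).mpr ((Nat.gcd_dvd_left r d).trans h2)
    exact (Nat.modEq_zero_iff_dvd).mp (h3.symm.trans h4)

/-- `gcd(e,d) [gcd(e,d) ∣ a]` -/
private noncomputable def denH (d a : ℕ) : ArithmeticFunction ℝ :=
  ⟨fun e => if e = 0 then 0 else if Nat.gcd e d ∣ a then (Nat.gcd e d : ℝ) else 0, by simp⟩

private theorem denH_apply (d a e : ℕ) (he : e ≠ 0) :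
    denH d a e = if Nat.gcd e d ∣ a then (Nat.gcd e d : ℝ) else 0 := by
  show (if e = 0 then (0 : ℝ) else if Nat.gcd e d ∣ a then (Nat.gcd e d : ℝ) else 0) = _
  rw [if_neg he]

private theorem denH_mult (d a : ℕ) : (denH d a).IsMultiplicative := by
  refine ⟨by rw [denH_apply _ _ _ one_ne_zero]; simp, fun {m n} h => ?_⟩
  rcases Nat.eq_zero_or_pos m with hm | hm
  · subst hm; simp
  rcases Nat.eq_zero_or_pos n with hn | hn
  · subst hn; simp
  rw [denH_apply _ _ _ (Nat.mul_ne_zero hm.ne' hn.ne'), denH_apply _ _ _ hm.ne', denH_apply _ _ _ hn.ne']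
  have h1 : Nat.gcd (m * n) d = Nat.gcd m d * Nat.gcd n d := by
    rw [Nat.gcd_comm (m * n) d, Nat.Coprime.gcd_mul d h, Nat.gcd_comm d m, Nat.gcd_comm d n]
  have h2 : Nat.Coprime (Nat.gcd m d) (Nat.gcd n d) :=
    Nat.Coprime.coprime_dvd_left (Nat.gcd_dvd_left m d) (Nat.Coprime.coprime_dvd_right (Nat.gcd_dvd_left n d) h)
  rw [h1]
  by_cases h3 : Nat.gcd m d ∣ a
  · by_cases h4 : Nat.gcd n d ∣ a
    · rw [if_pos (Nat.Coprime.mul_dvd_of_dvd_of_dvd h2 h3 h4), if_pos h3, if_pos h4]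
      push_cast
      ring
    · rw [if_neg (fun h5 => h4 ((Dvd.intro_left _ rfl).trans h5)), if_neg h4, mul_zero]
  · rw [if_neg (fun h5 => h3 ((Dvd.intro _ rfl).trans h5)), if_neg h3, zero_mul]

private noncomputable def denG (d a : ℕ) : ArithmeticFunction ℝ :=
  denH d a * ((ArithmeticFunction.moebius : ArithmeticFunction ℤ) : ArithmeticFunction ℝ)

private theorem denG_mult (d a : ℕ) : (denG d a).IsMultiplicative :=
  (denH_mult d a).mul ArithmeticFunction.isMultiplicative_moebius.intCast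

private theorem denG_apply (d a c : ℕ) :
    denG d a c = ∑ e ∈ c.divisors, denH d a e * (ArithmeticFunction.moebius (c / e) : ℝ) := by
  unfold denG
  rw [ArithmeticFunction.mul_apply,
    Nat.sum_divisorsAntidiagonal (f := fun x y => denH d a x *
      (((ArithmeticFunction.moebius : ArithmeticFunction ℤ) : ArithmeticFunction ℝ) y))]
  rfl

private noncomputable def denF (d a : ℕ) : ArithmeticFunction ℝ :=
  ⟨fun c => (ArithmeticFunction.moebius c : ℝ) / (c.totient : ℝ) * denG d a c, by simp⟩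

private theorem denF_apply (d a c : ℕ) :
    denF d a c = (ArithmeticFunction.moebius c : ℝ) / (c.totient : ℝ) * denG d a c := rfl

private theorem denF_mult (d a : ℕ) : (denF d a).IsMultiplicative := by
  refine ⟨by simp [denF_apply, (denG_mult d a).map_one], fun {m n} h => ?_⟩
  rw [denF_apply, denF_apply, denF_apply, Nat.totient_mul h,
    ArithmeticFunction.isMultiplicative_moebius.map_mul_of_coprime h, (denG_mult d a).map_mul_of_coprime h]
  push_cast
  rw [mul_div_mul_comm]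
  ring

private theorem denF_prime (d a p : ℕ) (hp : p.Prime) :
    denF d a p = -(1 / ((p : ℝ) - 1)) * (denH d a p - 1) := by
  have h1 : denG d a p = denH d a p - 1 := by
    rw [denG_apply, hp.sum_divisors, Nat.div_self hp.pos, Nat.div_one,
      ArithmeticFunction.moebius_apply_one, ArithmeticFunction.moebius_apply_prime hp, (denH_mult d a).map_one]
    push_cast
    ring
  rw [denF_apply, h1, ArithmeticFunction.moebius_apply_prime hp, Nat.totient_prime hp, Nat.cast_sub hp.one_lt.le]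
  push_cast
  ring

/-- `F c = 0` unless `c ∣ d` -/
private theorem denF_zero (d a c : ℕ) (hc : 1 ≤ c) (h : ¬ c ∣ d) : denF d a c = 0 := by
  by_cases hs : Squarefree c
  · have h1 : ∃ p : ℕ, p.Prime ∧ p ∣ c ∧ ¬ p ∣ d := by
      by_contra hcon
      push Not at hcon
      apply h
      rw [← Nat.prod_primeFactors_of_squarefree hs]
      exact Finset.prod_primes_dvd d (fun p hp => (Nat.prime_of_mem_primeFactors hp).prime)
        (fun p hp => hcon p (Nat.prime_of_mem_primeFactors hp) (Nat.dvd_of_mem_primeFactors hp))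
    obtain ⟨p, hp, hpc, hpd⟩ := h1
    obtain ⟨c', rfl⟩ := hpc
    have hcop : Nat.Coprime p c' := (Nat.squarefree_mul_iff.mp hs).1
    rw [(denF_mult d a).map_mul_of_coprime hcop, denF_prime d a p hp, denH_apply _ _ _ hp.ne_zero]
    have hg : Nat.gcd p d = 1 := (Nat.Prime.coprime_iff_not_dvd hp).mpr hpd
    rw [hg, if_pos (one_dvd a)]
    simp
  · rw [denF_apply, ArithmeticFunction.moebius_eq_zero_of_not_squarefree hs]
    simp

/-- `∑_{c ∣ d} F c = [gcd(a,d) = 1] d / φ(d)` -/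
private theorem denF_sum (d a : ℕ) (hd : 1 ≤ d) :
    ∑ c ∈ d.divisors, denF d a c = if Nat.Coprime a d then (d : ℝ) / (d.totient : ℝ) else 0 := by
  have hT : ((denF d a) * (ArithmeticFunction.zeta : ArithmeticFunction ℝ)).IsMultiplicative :=
    (denF_mult d a).mul ArithmeticFunction.isMultiplicative_zeta.natCast
  have hT0 : ∑ c ∈ d.divisors, denF d a c = ((denF d a) * (ArithmeticFunction.zeta : ArithmeticFunction ℝ)) d := by
    rw [ArithmeticFunction.coe_mul_zeta_apply]
  have hpp : ∀ p k : ℕ, p.Prime → p ∣ d → 1 ≤ k → ((denF d a) * (ArithmeticFunction.zeta : ArithmeticFunction ℝ)) (p ^ k) =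
      if p ∣ a then 0 else (p : ℝ) / ((p : ℝ) - 1) := by
    intro p k hp hpd hk
    obtain ⟨k, rfl⟩ : ∃ k', k = k' + 1 := ⟨k - 1, by omega⟩
    rw [ArithmeticFunction.coe_mul_zeta_apply, Nat.sum_divisors_prime_pow hp, sum_range_succ', sum_range_succ', sum_eq_zero]
    · rw [zero_add, zero_add, pow_one, pow_zero, (denF_mult d a).map_one, denF_prime d a p hp, denH_apply _ _ _ hp.ne_zero]
      have hg : Nat.gcd p d = p := Nat.gcd_eq_left hpd
      have hp1 : (1 : ℝ) < p := by exact_mod_cast hp.one_lt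
      have hp1ne : (p : ℝ) - 1 ≠ 0 := by linarith
      rw [hg]
      split_ifs with h
      · field_simp
        ring
      · field_simp
        ring
    · intro j _
      rw [denF_apply, ArithmeticFunction.moebius_apply_prime_pow hp (by omega), if_neg (by omega)]
      simp
  rw [hT0, hT.multiplicative_factorization _ (by omega)]
  rw [Finsupp.prod, Nat.support_factorization]
  have h1 : ∀ p ∈ d.primeFactors, ((denF d a) * (ArithmeticFunction.zeta : ArithmeticFunction ℝ)) (p ^ (d.factorization p)) =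
      if p ∣ a then 0 else (p : ℝ) / ((p : ℝ) - 1) := by
    intro p hp
    have hpp' := Nat.prime_of_mem_primeFactors hp
    have hpd := Nat.dvd_of_mem_primeFactors hp
    exact hpp p _ hpp' hpd ((hpp'.dvd_iff_one_le_factorization (by omega)).mp hpd)
  rw [prod_congr rfl h1]
  split_ifs with h
  · have h2 : ∀ p ∈ d.primeFactors, (if p ∣ a then 0 else (p : ℝ) / ((p : ℝ) - 1)) = (p : ℝ) / ((p : ℝ) - 1) := by
      intro p hp
      rw [if_neg]
      intro hpa
      have h3 := Nat.dvd_gcd hpa (Nat.dvd_of_mem_primeFactors hp)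
      rw [h] at h3
      exact (Nat.prime_of_mem_primeFactors hp).one_lt.ne' (Nat.dvd_one.mp h3)
    rw [prod_congr rfl h2, prod_div_distrib]
    have h3 := Nat.totient_mul_prod_primeFactors d
    have h4 : ((d.totient : ℝ)) * ∏ p ∈ d.primeFactors, (p : ℝ) = d * ∏ p ∈ d.primeFactors, ((p : ℝ) - 1) := by
      have h5 : ((d.totient * ∏ p ∈ d.primeFactors, p : ℕ) : ℝ) = ((d * ∏ p ∈ d.primeFactors, (p - 1) : ℕ) : ℝ) := by
        rw [h3]
      push_cast at h5
      rw [h5]
      congr 1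
      refine prod_congr rfl fun p hp => ?_
      rw [Nat.cast_sub (Nat.prime_of_mem_primeFactors hp).one_lt.le, Nat.cast_one]
    have h5 : (0 : ℝ) < ∏ p ∈ d.primeFactors, ((p : ℝ) - 1) := by
      refine prod_pos fun p hp => ?_
      have : (1 : ℝ) < p := by exact_mod_cast (Nat.prime_of_mem_primeFactors hp).one_lt
      linarith
    have h6 : (0 : ℝ) < d.totient := by exact_mod_cast Nat.totient_pos.mpr hd
    rw [div_eq_div_iff h5.ne' h6.ne']
    linarith
  · obtain ⟨p, hp, hpa, hpd⟩ := Nat.Prime.not_coprime_iff_dvd.mp h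
    exact prod_eq_zero (Nat.mem_primeFactors.mpr ⟨hp, hpd, by omega⟩) (if_pos hpa)

/-- the sum of `lamR` over a class -/
private theorem den_lam (R d a M : ℕ) (hd : 1 ≤ d) (hdR : d ≤ R) (hM : ∀ r, 1 ≤ r → r ≤ R → Nat.lcm r d ∣ M) :
    ∑ m ∈ (Ico M (2 * M)).filter (fun m => m % d = a % d), lamR R m =
      M * (if Nat.Coprime a d then 1 / (d.totient : ℝ) else 0) := by
  have hd0 : (d : ℝ) ≠ 0 := by exact_mod_cast (by omega : d ≠ 0)
  have h1 : ∀ c ∈ Icc 1 R, ∑ m ∈ (Ico M (2 * M)).filter (fun m => m % d = a % d), ramS c m = (M : ℝ) / d * denG d a c := by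
    intro c hc
    rw [mem_Icc] at hc
    have h2 : ∀ m ∈ (Ico M (2 * M)).filter (fun m => m % d = a % d), ramS c m =
        ∑ e ∈ c.divisors, if e ∣ m then (e : ℝ) * (ArithmeticFunction.moebius (c / e) : ℝ) else 0 := by
      intro m hm
      rw [mem_filter, mem_Ico] at hm
      unfold ramS
      rw [← sum_filter]
      refine sum_congr ?_ fun _ _ => rfl
      ext e
      simp only [Nat.mem_divisors, mem_filter, Nat.dvd_gcd_iff]
      constructor
      · rintro ⟨⟨h3, h4⟩, _⟩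
        exact ⟨⟨h3, by omega⟩, h4⟩
      · rintro ⟨⟨h3, _⟩, h4⟩
        refine ⟨⟨h3, h4⟩, ?_⟩
        have := Nat.gcd_pos_of_pos_left m (by omega : 0 < c)
        omega
    rw [sum_congr rfl h2, sum_comm, denG_apply, mul_sum]
    refine sum_congr rfl fun e he => ?_
    have he1 : 1 ≤ e := Nat.pos_of_mem_divisors he
    have heR : e ≤ R := (Nat.divisor_le he).trans hc.2
    rw [← sum_filter, sum_const, nsmul_eq_mul, filter_filter, den_cnt e d a M he1 hd (hM e he1 heR),
      denH_apply _ _ _ (by omega)]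
    split_ifs with h3
    · have h4 : ((Nat.gcd e d : ℕ) : ℝ) * (Nat.lcm e d : ℕ) = (e : ℝ) * d := by
        exact_mod_cast Nat.gcd_mul_lcm e d
      have h5 : ((Nat.lcm e d : ℕ) : ℝ) ≠ 0 := by
        exact_mod_cast (Nat.lcm_pos he1 hd).ne'
      have h6 : (e : ℝ) / (Nat.lcm e d : ℕ) = (Nat.gcd e d : ℕ) / (d : ℝ) := by
        rw [div_eq_div_iff h5 hd0]
        linarith
      calc (M : ℝ) / (Nat.lcm e d : ℕ) * ((e : ℝ) * (ArithmeticFunction.moebius (c / e) : ℝ))
          = (M : ℝ) * ((e : ℝ) / (Nat.lcm e d : ℕ)) * (ArithmeticFunction.moebius (c / e) : ℝ) := by ring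
        _ = _ := by rw [h6]; ring
    · ring
  unfold lamR
  rw [sum_comm]
  have h2 : ∑ c ∈ Icc 1 R, ∑ m ∈ (Ico M (2 * M)).filter (fun m => m % d = a % d),
      (ArithmeticFunction.moebius c : ℝ) / (c.totient : ℝ) * ramS c m = (M : ℝ) / d * ∑ c ∈ Icc 1 R, denF d a c := by
    rw [mul_sum]
    refine sum_congr rfl fun c hc => ?_
    rw [← mul_sum, h1 c hc, denF_apply]
    ring
  rw [h2]
  have h3 : ∑ c ∈ Icc 1 R, denF d a c = ∑ c ∈ d.divisors, denF d a c := by
    symm
    apply sum_subset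
    · intro c hc
      rw [mem_Icc]
      exact ⟨Nat.pos_of_mem_divisors hc, (Nat.divisor_le hc).trans hdR⟩
    · intro c hc hc2
      rw [mem_Icc] at hc
      apply denF_zero d a c hc.1
      intro h4
      exact hc2 (Nat.mem_divisors.mpr ⟨h4, by omega⟩)
  rw [h3, denF_sum d a hd]
  split_ifs with h
  · have h6 : (d.totient : ℝ) ≠ 0 := by exact_mod_cast (Nat.totient_pos.mpr hd).ne'
    field_simp
  · ring

/-- the sum of `S` over a class -/
private theorem den_S (Q : ℕ) (g S : ℕ → ℝ) (hg : Adm Q g S) (d a M : ℕ) (hd : 1 ≤ d) (hM1 : 1 ≤ M)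
    (hM : ∀ r, 1 ≤ r → r ≤ Q → Nat.lcm r d ∣ M) :
    ∑ m ∈ (Ico M (2 * M)).filter (fun m => m % d = a % d), S m = M * den Q g d a := by
  have h2 : ∀ m ∈ (Ico M (2 * M)).filter (fun m => m % d = a % d), S m =
      ∑ n ∈ Icc 1 Q, if n ∣ m then g n else 0 := by
    intro m hm
    rw [mem_filter, mem_Ico] at hm
    rw [hg.2.2 m (by omega), sum_filter]
  rw [sum_congr rfl h2, sum_comm]
  unfold den
  rw [mul_sum, sum_filter]
  refine sum_congr rfl fun n hn => ?_
  rw [mem_Icc] at hn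
  rw [← sum_filter, sum_const, nsmul_eq_mul, filter_filter, den_cnt n d a M hn.1 hd (hM n hn.1 hn.2)]
  split_ifs with h
  · ring
  · ring

/-- orthogonality -/
private theorem den_orth (f : ℕ → ℝ) (d a M : ℕ) (hd : 1 ≤ d) :
    ((∑ m ∈ (Ico M (2 * M)).filter (fun m => m % d = a % d), f m : ℝ) : ℂ) =
      1 / (d : ℂ) * ∑ j ∈ range d, ee ((a : ℝ) * ((j : ℝ) / d)) * Bs f M 1 ((j : ℝ) / d) := by
  have hd0 : (d : ℂ) ≠ 0 := by exact_mod_cast (by omega : d ≠ 0)
  have hee : ∀ t : ℝ, ee t = Pool.Agent.H92.EH.e t := by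
    intro t
    unfold ee Pool.Agent.H92.EH.e
    congr 1
    push_cast
    ring
  have h1 : ∀ m : ℕ, ∑ j ∈ range d, ee ((a : ℝ) * ((j : ℝ) / d)) * ee (-((m : ℝ) * ((j : ℝ) / d))) =
      if m % d = a % d then (d : ℂ) else 0 := by
    intro m
    have h2 := Pool.Agent.H92.EH.sum_complete d (by omega) ((a : ℤ) - (m : ℤ))
    have h3 : ((d : ℤ) ∣ (a : ℤ) - (m : ℤ)) ↔ m % d = a % d := (Nat.modEq_iff_dvd).symm
    rw [if_congr h3 rfl rfl] at h2
    rw [← h2]
    refine sum_congr rfl fun j _ => ?_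
    rw [hee, hee, ← Pool.Agent.H92.EH.e_add]
    congr 1
    push_cast
    ring
  have h2 : ∑ j ∈ range d, ee ((a : ℝ) * ((j : ℝ) / d)) * Bs f M 1 ((j : ℝ) / d) =
      ∑ m ∈ Ico M (2 * M), (f m : ℂ) * (if m % d = a % d then (d : ℂ) else 0) := by
    have h3 : ∀ j ∈ range d, ee ((a : ℝ) * ((j : ℝ) / d)) * Bs f M 1 ((j : ℝ) / d) =
        ∑ m ∈ Ico M (2 * M), (f m : ℂ) * (ee ((a : ℝ) * ((j : ℝ) / d)) * ee (-((m : ℝ) * ((j : ℝ) / d)))) := by
      intro j _
      unfold Bs
      rw [one_mul, mul_sum]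
      refine sum_congr (by norm_num) fun m _ => ?_
      ring
    rw [sum_congr rfl h3, sum_comm]
    refine sum_congr rfl fun m _ => ?_
    rw [← mul_sum, h1]
  rw [h2, mul_sum, sum_filter]
  push_cast
  refine sum_congr rfl fun m _ => ?_
  split_ifs with h
  · field_simp
  · simp

theorem den_bs (Q : ℕ) (g S : ℕ → ℝ) (k E : ℝ) (R H0 : ℕ) (hg : Adm Q g S) (hE : 0 ≤ E)
    (hb : ∀ (H : ℕ) (α : ℝ), H0 ≤ H → ‖Bs (fun m => S m - k * lamR R m) H 1 α‖ ≤ H * E) (d a : ℕ) (hd : 1 ≤ d) (hdR : d ≤ R) :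
    |den Q g d a - (if Nat.Coprime a d then k / d.totient else 0)| ≤ E := by
  obtain ⟨M, hMdef⟩ : ∃ M : ℕ, M = (H0 + 1) * (d * (Q + R).factorial) := ⟨_, rfl⟩
  have hP : 0 < d * (Q + R).factorial := Nat.mul_pos (by omega) (Nat.factorial_pos _)
  have hM0 : H0 ≤ M := by rw [hMdef]; nlinarith
  have hM1 : 1 ≤ M := by rw [hMdef]; exact Nat.mul_pos (by omega) hP
  have hM : ∀ r, 1 ≤ r → r ≤ Q + R → Nat.lcm r d ∣ M := by
    intro r hr1 hr2
    rw [hMdef]
    refine Dvd.dvd.mul_left ?_ _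
    apply Nat.lcm_dvd
    · exact Dvd.dvd.mul_left (Nat.dvd_factorial (by omega) hr2) _
    · exact Dvd.intro _ rfl
  have h1 := den_S Q g S hg d a M hd hM1 (fun r h1 h2 => hM r h1 (by omega))
  have h2 := den_lam R d a M hd hdR (fun r h1 h2 => hM r h1 (by omega))
  have h3 := den_orth (fun m => S m - k * lamR R m) d a M hd
  have h4 : ∑ m ∈ (Ico M (2 * M)).filter (fun m => m % d = a % d), (S m - k * lamR R m) =
      M * (den Q g d a - (if Nat.Coprime a d then k / d.totient else 0)) := by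
    rw [sum_sub_distrib, ← mul_sum, h1, h2]
    split_ifs with h
    · ring
    · ring
  rw [h4] at h3
  have hdpos : (0 : ℝ) < d := by exact_mod_cast hd
  have hMpos : (0 : ℝ) < M := by exact_mod_cast hM1
  have hnorm : ∀ t : ℝ, ‖ee t‖ = 1 := by
    intro t
    unfold ee
    rw [show (2 * (Real.pi : ℂ) * (t : ℂ) * Complex.I) = ((2 * Real.pi * t : ℝ) : ℂ) * Complex.I by push_cast; ring]
    exact Complex.norm_exp_ofReal_mul_I _
  have h5 : ‖((M * (den Q g d a - (if Nat.Coprime a d then k / d.totient else 0)) : ℝ) : ℂ)‖ ≤ M * E := by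
    rw [h3, norm_mul]
    have h6 : ‖(1 / (d : ℂ))‖ = 1 / (d : ℝ) := by simp
    rw [h6]
    have h7 : ‖∑ j ∈ range d, ee ((a : ℝ) * ((j : ℝ) / d)) * Bs (fun m => S m - k * lamR R m) M 1 ((j : ℝ) / d)‖ ≤
        ∑ j ∈ range d, (M : ℝ) * E := by
      refine norm_sum_le_of_le _ fun j _ => ?_
      rw [norm_mul, hnorm, one_mul]
      exact hb M _ hM0
    rw [sum_const, card_range, nsmul_eq_mul] at h7
    calc 1 / (d : ℝ) * _ ≤ 1 / (d : ℝ) * ((d : ℝ) * (M * E)) := mul_le_mul_of_nonneg_left h7 (by positivity)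
      _ = M * E := by field_simp
  rw [Complex.norm_real, Real.norm_eq_abs, abs_mul, abs_of_pos hMpos] at h5
  exact le_of_mul_le_mul_left h5 hMpos

end Pool.Agent.H43.PX
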