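import Pool.Agent.H43.PX.Defs
import Pool.Agent.H91.GoldMertens3

/-!
# PX DensY: the density of `Yx`

Pointwise (`m ≥ 1`) `gX = rg y - om rg y - Bx`.  `∑_{m ∈ (x,x+H1]} om m rg y m = ∑_{p ∈ PY z w} ∑_{k ∈ (x/p, (x+H1)/p]} rg y k`, every inner sum is
`≥ kS l_p - ε l_p/L`, so `kS W12 ≤ gam (om rg) + small`.  `W12 ≤ 2` by `mertens_wz`.  `-Bx ≤ 4 rg y` (`om ≤ 5`), and the density of `rg y` is at most
`φ(30030)/30030 + small < 1/5`.
-/

set_option autoImplicit false

namespace Pool.Agent.H43.PX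

open Finset
open Pool.Agent.H91.PK (ee)
open Pool.Agent.H91.EHA (Lam lamR)
open Pool.Agent.H43.MP (blk Hn idx Rn)
open Pool.Agent.H43.TP (pr)
open Pool.Agent.H43.TS (badQ)
open Pool.Agent.H76.TP (yN zz rg nu PY Adm)
open Pool.Agent.H91.TQ (om)
open Pool.Agent.H31.EQ (Gs gam WDx)
open Pool.Agent.H46.TPQ (SvI)

private theorem DensY_rg_nonneg (y k : ℕ) : 0 ≤ rg y k := by
  unfold rg
  split_ifs <;> norm_num

private theorem DensY_rg_le (y k : ℕ) : rg y k ≤ 1 := by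
  unfold rg
  split_ifs <;> norm_num

private theorem DensY_zz (y J : ℕ) : y ≤ zz y J := by
  unfold zz
  exact Nat.le_mul_of_pos_left _ (by positivity)

private theorem DensY_gX (y J J1 : ℕ) {m : ℕ} (hm : 1 ≤ m) :
    gX y J J1 m = rg y m - om y J J1 m * rg y m - Bx y J J1 m := by
  have hyz := DensY_zz y J
  by_cases h : nu y J m = 0
  · have h1 : rg (zz y J) m = rg y m := by
      unfold rg
      by_cases h2 : ∀ p : ℕ, p.Prime → p ∣ m → y < p
      · have h3 : ∀ p : ℕ, p.Prime → p ∣ m → zz y J < p := by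
          intro p hp hpm
          by_contra hlt
          rw [not_lt] at hlt
          unfold nu at h
          rw [card_eq_zero, filter_eq_empty_iff] at h
          exact h (Nat.mem_primeFactors.mpr ⟨hp, hpm, by omega⟩) ⟨h2 p hp hpm, hlt⟩
        rw [if_pos h2, if_pos h3]
      · have h3 : ¬ ∀ p : ℕ, p.Prime → p ∣ m → zz y J < p := fun h3 => h2 fun p hp hpm => lt_of_le_of_lt hyz (h3 p hp hpm)
        rw [if_neg h2, if_neg h3]
    unfold gX Bx
    rw [if_pos h, h1]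
    ring
  · have h1 : rg (zz y J) m = 0 := by
      unfold rg
      rw [if_neg]
      intro h3
      apply h
      unfold nu
      rw [card_eq_zero, filter_eq_empty_iff]
      rintro p hp ⟨-, h5⟩
      have h6 := h3 p (Nat.prime_of_mem_primeFactors hp) (Nat.dvd_of_mem_primeFactors hp)
      omega
    unfold gX Bx
    rw [if_neg h, h1]
    ring

private theorem DensY_om (y J J1 : ℕ) {m : ℕ} (hm : 1 ≤ m) :
    (om y J J1 m : ℝ) = ∑ p ∈ PY (zz y J) (zz y J1), if p ∣ m then 1 else 0 := by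
  rw [← sum_filter, sum_const, nsmul_eq_mul, mul_one]
  congr 1
  unfold om PY
  congr 1
  ext p
  rw [mem_filter, mem_filter, mem_filter, mem_Ioc, Nat.mem_primeFactors]
  constructor
  · rintro ⟨⟨h1, h2, -⟩, h3⟩
    exact ⟨⟨h3, h1⟩, h2⟩
  · rintro ⟨⟨h3, h1⟩, h2⟩
    exact ⟨⟨h1, h2, by omega⟩, h3⟩

private theorem DensY_rg_mul {y p k : ℕ} (hp : p.Prime) (hyp : y < p) : rg y (p * k) = rg y k := by
  unfold rg
  by_cases h : ∀ q : ℕ, q.Prime → q ∣ k → y < q
  · rw [if_pos h, if_pos]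
    intro q hq hqk
    rcases (Nat.Prime.dvd_mul hq).mp hqk with h1 | h1
    · rw [(Nat.prime_dvd_prime_iff_eq hq hp).mp h1]
      exact hyp
    · exact h q hq h1
  · rw [if_neg h, if_neg]
    intro h1
    exact h fun q hq hqk => h1 q hq (hqk.mul_left p)

private theorem DensY_fib (y x H : ℕ) {p : ℕ} (hp : p.Prime) (hyp : y < p) :
    ∑ m ∈ (Ioc x (x + H)).filter (fun m => p ∣ m), rg y m = ∑ k ∈ Ioc (x / p) ((x + H) / p), rg y k := by
  symm
  refine sum_nbij (fun k => p * k) ?_ ?_ ?_ ?_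
  · intro k hk
    rw [mem_Ioc] at hk
    rw [mem_filter, mem_Ioc]
    refine ⟨⟨?_, ?_⟩, dvd_mul_right p k⟩
    · have h1 := (Nat.div_lt_iff_lt_mul hp.pos).mp hk.1
      rw [mul_comm]
      exact h1
    · have h1 := (Nat.le_div_iff_mul_le hp.pos).mp hk.2
      rw [mul_comm]
      exact h1
  · intro a _ b _ hab
    exact Nat.eq_of_mul_eq_mul_left hp.pos hab
  · rintro m hm
    rw [mem_coe, mem_filter, mem_Ioc] at hm
    obtain ⟨⟨h1, h2⟩, k, rfl⟩ := hm
    refine ⟨k, ?_, rfl⟩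
    rw [mem_coe, mem_Ioc]
    constructor
    · exact (Nat.div_lt_iff_lt_mul hp.pos).mpr (by rw [mul_comm]; exact h1)
    · exact (Nat.le_div_iff_mul_le hp.pos).mpr (by rw [mul_comm]; exact h2)
  · intro k _
    exact (DensY_rg_mul hp hyp).symm

private theorem DensY_count (y J J1 x H : ℕ) : ∑ m ∈ Ioc x (x + H), (om y J J1 m : ℝ) * rg y m =
    ∑ p ∈ PY (zz y J) (zz y J1), ∑ k ∈ Ioc (x / p) ((x + H) / p), rg y k := by
  have h1 : ∀ m ∈ Ioc x (x + H), (om y J J1 m : ℝ) * rg y m = ∑ p ∈ PY (zz y J) (zz y J1), if p ∣ m then rg y m else 0 := by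
    intro m hm
    rw [mem_Ioc] at hm
    rw [DensY_om y J J1 (by omega), sum_mul]
    refine sum_congr rfl fun p _ => ?_
    split_ifs <;> simp
  rw [sum_congr rfl h1, sum_comm]
  refine sum_congr rfl fun p hp => ?_
  unfold PY at hp
  rw [mem_filter, mem_Ioc] at hp
  rw [← sum_filter]
  exact DensY_fib y x H hp.2 (lt_of_le_of_lt (DensY_zz y J) hp.1.1)

private theorem DensY_tot : Nat.totient 30030 = 5760 := by
  have e : 30030 = 2 * (3 * (5 * (7 * (11 * 13)))) := by norm_num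
  rw [e, Nat.totient_mul (by norm_num), Nat.totient_mul (by norm_num), Nat.totient_mul (by norm_num), Nat.totient_mul (by norm_num),
    Nat.totient_mul (by norm_num), Nat.totient_prime (by norm_num), Nat.totient_prime (by norm_num), Nat.totient_prime (by norm_num),
    Nat.totient_prime (by norm_num), Nat.totient_prime (by norm_num), Nat.totient_prime (by norm_num)]

private theorem DensY_rough {y : ℕ} (hy : 13 ≤ y) (x H : ℕ) :
    ∑ m ∈ Ioc x (x + H), rg y m ≤ 5760 * ((H : ℝ) / 30030 + 1) := by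
  have h1 : ∀ m ∈ Ioc x (x + H), rg y m ≤ if Nat.Coprime 30030 m then 1 else 0 := by
    intro m _
    by_cases h : ∀ q : ℕ, q.Prime → q ∣ m → y < q
    · rw [if_pos]
      · exact DensY_rg_le y m
      · have e : 30030 = 2 * (3 * (5 * (7 * (11 * 13)))) := by norm_num
        have key : ∀ q : ℕ, q.Prime → q ≤ 13 → Nat.Coprime q m := by
          intro q hq hq13
          rw [Nat.Prime.coprime_iff_not_dvd hq]
          intro hqm
          have := h q hq hqm
          omega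
        rw [e]
        refine Nat.Coprime.mul_left (key 2 (by norm_num) (by norm_num)) (Nat.Coprime.mul_left (key 3 (by norm_num) (by norm_num))
          (Nat.Coprime.mul_left (key 5 (by norm_num) (by norm_num)) (Nat.Coprime.mul_left (key 7 (by norm_num) (by norm_num))
          (Nat.Coprime.mul_left (key 11 (by norm_num) (by norm_num)) (key 13 (by norm_num) (by norm_num))))))
    · have : rg y m = 0 := by
        unfold rg
        rw [if_neg h]
      rw [this]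
      split_ifs <;> norm_num
  refine (sum_le_sum h1).trans ?_
  rw [← sum_filter, sum_const, nsmul_eq_mul, mul_one]
  have h2 : (Ioc x (x + H)).filter (fun m => Nat.Coprime 30030 m) = (Ico (x + 1) (x + 1 + H)).filter (fun m => Nat.Coprime 30030 m) := by
    congr 1
    ext m
    rw [mem_Ioc, mem_Ico]
    omega
  rw [h2]
  have h3 := Nat.Ico_filter_coprime_le (a := 30030) (x + 1) H (by norm_num)
  rw [DensY_tot] at h3
  have h4 : (((Ico (x + 1) (x + 1 + H)).filter (fun m => Nat.Coprime 30030 m)).card : ℝ) ≤ ((5760 * (H / 30030 + 1) : ℕ) : ℝ) := by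
    exact_mod_cast h3
  refine h4.trans ?_
  push_cast
  have h5 : ((H / 30030 : ℕ) : ℝ) ≤ (H : ℝ) / 30030 := by
    have := Nat.cast_div_le (α := ℝ) (m := H) (n := 30030)
    exact_mod_cast this
  linarith

private theorem DensY_om_le {y J J1 m : ℕ} (hm : 1 ≤ m) (hz : m < zz y J ^ 6) : om y J J1 m ≤ 5 := by
  by_contra hcon
  have h6 : 6 ≤ om y J J1 m := by omega
  unfold om at h6
  obtain ⟨s, hs⟩ : ∃ s, s = m.primeFactors.filter (fun p => zz y J < p ∧ p ≤ zz y J1) := ⟨_, rfl⟩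
  rw [← hs] at h6
  have h1 : ∏ p ∈ s, p ∣ m := by
    have h2 : ∏ p ∈ s, p ∣ ∏ p ∈ m.primeFactors, p := prod_dvd_prod_of_subset _ _ _ (by rw [hs]; exact filter_subset _ _)
    exact h2.trans (Nat.prod_primeFactors_dvd m)
  have h2 : ∏ p ∈ s, p ≤ m := Nat.le_of_dvd (by omega) h1
  have h3 : zz y J ^ s.card ≤ ∏ p ∈ s, p := by
    rw [← prod_const]
    refine prod_le_prod (fun _ _ => Nat.zero_le _) fun p hp => ?_
    rw [hs, mem_filter] at hp
    exact hp.2.1.le
  have hz1 : 1 ≤ zz y J := by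
    rcases Nat.eq_zero_or_pos (zz y J) with h0 | h0
    · rw [h0] at hz
      norm_num at hz
    · exact h0
  have h4 : zz y J ^ 6 ≤ zz y J ^ s.card := Nat.pow_le_pow_right hz1 h6
  omega

private theorem DensY_Bx {y J J1 m : ℕ} (hm : 1 ≤ m) (hz : m < zz y J ^ 6) : -(4 * rg y m) ≤ Bx y J J1 m := by
  have h1 := DensY_rg_nonneg y m
  have h2 : (om y J J1 m : ℝ) ≤ 5 := by exact_mod_cast DensY_om_le hm hz
  unfold Bx
  split_ifs
  · linarith
  · nlinarith

/-- the lengths of the fibres -/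
private theorem DensY_len (x H : ℕ) {p : ℕ} (hp : 0 < p) : ∃ l : ℕ, (x + H) / p = x / p + l ∧ (H : ℝ) / p - 1 ≤ l ∧ (l : ℝ) ≤ H / p + 1 := by
  have h0 : x / p ≤ (x + H) / p := Nat.div_le_div_right (by omega)
  refine ⟨(x + H) / p - x / p, by omega, ?_, ?_⟩
  all_goals
    rw [Nat.cast_sub h0]
    have hp' : (0 : ℝ) < p := by exact_mod_cast hp
    have a1 : (((x + H) / p : ℕ) : ℝ) ≤ ((x : ℝ) + H) / p := by
      have := Nat.cast_div_le (α := ℝ) (m := x + H) (n := p)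
      push_cast at this
      exact this
    have a2 : ((x / p : ℕ) : ℝ) ≤ (x : ℝ) / p := Nat.cast_div_le
    have a3 : ((x : ℝ) + H) / p - 1 ≤ (((x + H) / p : ℕ) : ℝ) := by
      have h1 : x + H < ((x + H) / p + 1) * p := by
        rw [mul_comm]
        exact Nat.lt_mul_div_succ _ hp
      have h2 : ((x : ℝ) + H) < ((((x + H) / p : ℕ) : ℝ) + 1) * p := by exact_mod_cast h1
      rw [sub_le_iff_le_add, div_le_iff₀ hp']
      exact h2.le
    have a4 : (x : ℝ) / p - 1 ≤ ((x / p : ℕ) : ℝ) := by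
      have h1 : x < (x / p + 1) * p := by
        rw [mul_comm]
        exact Nat.lt_mul_div_succ _ hp
      have h2 : (x : ℝ) < (((x / p : ℕ) : ℝ) + 1) * p := by exact_mod_cast h1
      rw [sub_le_iff_le_add, div_le_iff₀ hp']
      exact h2.le
    rw [add_div] at a1 a3
    linarith

/-- the size conditions -/
private theorem DensY_ev (e1 : ℝ) (A1 : ℕ) (he1 : 0 < e1) : ∃ N0 : ℕ, ∀ N : ℕ, N0 ≤ N →
    1 ≤ N ∧ Real.log N ^ A1 ≤ (N : ℝ) ^ (1 / 100 : ℝ) ∧ Real.log N ≤ (N : ℝ) ^ (1 / 100 : ℝ) ∧ 10 ≤ (N : ℝ) ^ (1 / 100 : ℝ) ∧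
      13 ≤ yN e1 N := by
  have hE : ∀ k : ℕ, ∀ᶠ N : ℕ in Filter.atTop, Real.log N ^ k ≤ (N : ℝ) ^ (1 / 100 : ℝ) := by
    intro k
    have h := (isLittleO_log_rpow_rpow_atTop (k : ℝ) (by norm_num : (0 : ℝ) < 1 / 100)).bound one_pos
    have h2 := tendsto_natCast_atTop_atTop.eventually h
    filter_upwards [h2, Filter.eventually_ge_atTop 1] with N h3 h4
    have h5 : (1 : ℝ) ≤ N := by exact_mod_cast h4
    have h6 : 0 ≤ Real.log N := Real.log_nonneg h5
    rw [Real.rpow_natCast, Real.norm_of_nonneg (pow_nonneg h6 _), Real.norm_of_nonneg (Real.rpow_nonneg (by linarith) _), one_mul] at h3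
    exact h3
  have h1 := hE 1
  have hT : ∀ e : ℝ, 0 < e → ∀ K : ℝ, ∀ᶠ N : ℕ in Filter.atTop, K ≤ (N : ℝ) ^ e := by
    intro e he K
    exact ((tendsto_rpow_atTop he).comp tendsto_natCast_atTop_atTop).eventually_ge_atTop K
  obtain ⟨N0, hN0⟩ := Filter.eventually_atTop.mp
    ((Filter.eventually_ge_atTop 1).and ((hE A1).and (h1.and ((hT (1 / 100) (by norm_num) 10).and (hT e1 he1 13)))))
  refine ⟨N0, fun N hN => ?_⟩
  obtain ⟨a1, a2, a3, a4, a5⟩ := hN0 N hN
  rw [pow_one] at a3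
  refine ⟨a1, a2, a3, a4, ?_⟩
  unfold yN
  exact Nat.le_floor (by exact_mod_cast a5)

private theorem DensY_pow {N : ℕ} {t : ℝ} (ht : t = (N : ℝ) ^ (1 / 100 : ℝ)) (a : ℝ) (k : ℕ) (h : a = k / 100) : (N : ℝ) ^ a = t ^ k := by
  rw [ht, ← Real.rpow_natCast, ← Real.rpow_mul (Nat.cast_nonneg N), h]
  congr 1
  ring

/-- `W12 ≤ 2` -/
private theorem DensY_W {N y J J1 : ℕ} (hL : LevX N y J J1) {t : ℝ} (ht : t = (N : ℝ) ^ (1 / 100 : ℝ)) (ht10 : 10 ≤ t) (hN : 1 ≤ N) :
    W12 y J J1 ≤ 2 := by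
  obtain ⟨hJ, h1, h2, h3, h4⟩ := hL
  obtain ⟨z, hz⟩ : ∃ z, z = zz y J := ⟨_, rfl⟩
  obtain ⟨w, hw⟩ : ∃ w, w = zz y J1 := ⟨_, rfl⟩
  rw [← hz] at h1 h2
  rw [← hw] at h3 h4
  have hN1 : (1 : ℝ) ≤ N := by exact_mod_cast hN
  have hN0 : (0 : ℝ) < N := by linarith
  have hlogt : Real.log t = Real.log N / 100 := by
    rw [ht, Real.log_rpow hN0]
    ring
  have hlog10 : 2 ≤ Real.log t := by
    have h5 : Real.log 10 ≤ Real.log t := Real.log_le_log (by norm_num) ht10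
    have h6 : 2 ≤ Real.log 10 := by
      rw [Real.le_log_iff_exp_le (by norm_num)]
      have h7 := Real.exp_one_lt_d9
      have h8 : Real.exp 2 = Real.exp 1 * Real.exp 1 := by
        rw [← Real.exp_add]
        norm_num
      rw [h8]
      have h9 := Real.exp_pos 1
      nlinarith
    linarith
  have hLN : 200 ≤ Real.log N := by
    rw [hlogt] at hlog10
    linarith
  have hz18 : t ^ 18 ≤ z := by
    rw [← DensY_pow ht (18 / 100) 18 (by norm_num)]
    exact (Real.rpow_le_rpow_of_exponent_le hN1 (by norm_num)).trans h1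
  have hz65536 : 65536 ≤ z := by
    have h5 : (10 : ℝ) ^ 5 ≤ t ^ 5 := pow_le_pow_left₀ (by norm_num) ht10 5
    have h5' : t ^ 5 ≤ t ^ 18 := pow_le_pow_right₀ (by linarith) (by norm_num)
    have h6 : (65536 : ℝ) ≤ z := by
      refine le_trans ?_ (h5.trans (h5'.trans hz18))
      norm_num
    exact_mod_cast h6
  have hz0 : (0 : ℝ) < z := by
    have : 0 < z := by omega
    exact_mod_cast this
  have hlogz : 1898 / 10000 * Real.log N ≤ Real.log z := by
    have h5 := Real.log_le_log (Real.rpow_pos_of_pos hN0 _) h1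
    rw [Real.log_rpow hN0] at h5
    exact h5
  have hzw : z ≤ w := by
    rw [hz, hw]
    unfold zz
    exact Nat.mul_le_mul_right _ (Nat.pow_le_pow_right (by norm_num) hJ)
  have hw0 : (0 : ℝ) < w := by
    have : 0 < w := by omega
    exact_mod_cast this
  have hlogw : Real.log w ≤ 51 / 100 * Real.log N := by
    have h5 : ((w : ℝ)) ^ 2 ≤ 16 * N := by exact_mod_cast h4
    have h6 := Real.log_le_log (by positivity) h5
    rw [Real.log_pow, Real.log_mul (by norm_num) hN0.ne'] at h6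
    have h7 : Real.log 16 ≤ 4 := by
      have h8 : (16 : ℝ) = 2 ^ 4 := by norm_num
      rw [h8, Real.log_pow]
      have := Real.log_two_lt_d9
      push_cast
      linarith
    push_cast at h6
    linarith
  have hM := Pool.Agent.H91.Gold.mertens_wz hz65536 hzw
  have e1 : W12 y J J1 = ∑ p ∈ Pool.Agent.H91.Gold.Pr z w, (1 : ℝ) / p := by
    unfold W12 PY Pool.Agent.H91.Gold.Pr
    rw [hz, hw]
  rw [e1]
  refine hM.trans ?_
  have hlz0 : 0 < Real.log z := by
    have : 0 < 1898 / 10000 * Real.log N := by linarith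
    linarith
  have hr : Real.log w / Real.log z ≤ 27 / 10 := by
    rw [div_le_iff₀ hlz0]
    linarith
  have hr0 : 0 < Real.log w / Real.log z := by
    refine div_pos (lt_of_lt_of_le hlz0 (Real.log_le_log hz0 (by exact_mod_cast hzw))) hlz0
  have h5 := Real.log_le_sub_one_of_pos hr0
  have h6 : 0.2295 / Real.log z ≤ 1 / 100 := by
    rw [div_le_div_iff₀ hlz0 (by norm_num)]
    linarith
  linarith

private theorem DensY_W0 (y J J1 : ℕ) : 0 ≤ W12 y J J1 := by
  unfold W12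
  exact sum_nonneg fun p _ => by positivity

/-- the main estimate with explicit size conditions -/
private theorem DensY_core {N y J J1 A1 x : ℕ} {S T : ℕ → ℝ} {kS kT t : ℝ} (hL : LevX N y J J1) (ht : t = (N : ℝ) ^ (1 / 100 : ℝ))
    (ht10 : 10 ≤ t) (hN : 1 ≤ N) (hA : Real.log N ^ A1 ≤ t) (hlog : Real.log N ≤ t) (hy : 13 ≤ y)
    (hS : SvI N y (1 / 1000) S T kS kT) (hx1 : N ≤ 8 * x) (hx2 : x ≤ 8 * N) :
      gam (gX y J J1) ⌊(N : ℝ) / Real.log N ^ A1⌋₊ x - 1 / 100 / Real.log N ≤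
        kT - kS * W12 y J J1 - gam (Bx y J J1) ⌊(N : ℝ) / Real.log N ^ A1⌋₊ x ∧
      kT - kS * W12 y J J1 - gam (Bx y J J1) ⌊(N : ℝ) / Real.log N ^ A1⌋₊ x ≤ 1 ∧ |kS * W12 y J J1| ≤ 2 := by
  have hW := DensY_W hL ht ht10 hN
  have hW0 := DensY_W0 y J J1
  obtain ⟨hST, hkS, hkT, hTS, hsv⟩ := hS
  obtain ⟨hJ, hl1, hl2, hl3, hl4⟩ := hL
  have hN1 : (1 : ℝ) ≤ N := by exact_mod_cast hN
  have hN0 : (0 : ℝ) < N := by linarith
  have ht0 : 0 < t := by linarith
  have ht1 : 1 ≤ t := by linarith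
  have hNt : (N : ℝ) = t ^ 100 := by
    rw [← DensY_pow ht 1 100 (by norm_num), Real.rpow_one]
  have hlogt : Real.log t = Real.log N / 100 := by
    rw [ht, Real.log_rpow hN0]
    ring
  have hlog1 : 1 ≤ Real.log N := by
    have h5 : Real.log 10 ≤ Real.log t := Real.log_le_log (by norm_num) ht10
    have h6 : Real.exp 1 ≤ 10 := by
      have := Real.exp_one_lt_d9
      linarith
    have h7 : 1 ≤ Real.log 10 := by
      rw [Real.le_log_iff_exp_le (by norm_num)]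
      exact h6
    rw [hlogt] at h5
    linarith
  have hlog0 : 0 < Real.log N := by linarith
  obtain ⟨H, hH⟩ : ∃ H : ℕ, H = ⌊(N : ℝ) / Real.log N ^ A1⌋₊ := ⟨_, rfl⟩
  rw [← hH]
  have hA0 : 1 ≤ Real.log N ^ A1 := one_le_pow₀ hlog1
  -- bounds for H
  have hHle : (H : ℝ) ≤ N := by
    rw [hH]
    refine (Nat.floor_le (by positivity)).trans ?_
    exact div_le_self hN0.le hA0
  have hHge : t ^ 98 ≤ H := by
    have h1 : (N : ℝ) / Real.log N ^ A1 < H + 1 := by
      rw [hH]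
      exact Nat.lt_floor_add_one _
    have h2 : (N : ℝ) / t ≤ (N : ℝ) / Real.log N ^ A1 := div_le_div_of_nonneg_left hN0.le (by linarith) hA
    have h3 : (N : ℝ) / t = t ^ 99 := by
      rw [hNt, pow_succ t 99, mul_div_assoc, div_self ht0.ne', mul_one]
    have h4 : t ^ 99 = t ^ 98 * t := pow_succ t 98
    have h5 : 1 ≤ t ^ 98 := one_le_pow₀ ht1
    rw [h3] at h2
    nlinarith
  have hHpos : (0 : ℝ) < H := lt_of_lt_of_le (by positivity) hHge
  have hHle' : H ≤ N := by exact_mod_cast hHle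
  -- x
  have hx0 : 1 ≤ x := by omega
  -- w
  obtain ⟨w, hw⟩ : ∃ w, w = zz y J1 := ⟨_, rfl⟩
  rw [← hw] at hl3 hl4
  have hwt : (w : ℝ) ≤ 4 * t ^ 50 := by
    have h1 : ((w : ℝ)) ^ 2 ≤ 16 * N := by exact_mod_cast hl4
    have h2 : ((w : ℝ)) ^ 2 ≤ (4 * t ^ 50) ^ 2 := by
      rw [mul_pow, ← pow_mul]
      norm_num
      rw [← hNt]
      exact h1
    exact (pow_le_pow_iff_left₀ (by positivity) (by positivity) two_ne_zero).mp h2
  have hε0 : 0 ≤ 1 / 1000 / Real.log N := by positivity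
  -- the sieve at (x, x + H]
  have hq : (N : ℝ) ^ (1 / 4 : ℝ) = t ^ 25 := DensY_pow ht (1 / 4) 25 (by norm_num)
  have hHq : (N : ℝ) ^ (1 / 4 : ℝ) ≤ H := by
    rw [hq]
    exact (pow_le_pow_right₀ ht1 (by norm_num)).trans hHge
  have hs0 := hsv x H hx0 (by omega) hHq
  obtain ⟨R, hR⟩ : ∃ R : ℝ, R = ∑ m ∈ Ioc x (x + H), rg y m := ⟨_, rfl⟩
  rw [← hR] at hs0
  obtain ⟨hs1, hs2⟩ := hs0
  rw [abs_le] at hs1 hs2
  have hR0 : 0 ≤ R := by
    rw [hR]
    exact sum_nonneg fun m _ => DensY_rg_nonneg y m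
  obtain ⟨ε, hε⟩ : ∃ ε : ℝ, ε = 1 / 1000 / Real.log N := ⟨_, rfl⟩
  have hεH : 1 / 1000 * (H : ℝ) / Real.log N = ε * H := by
    rw [hε]
    ring
  rw [hεH] at hs1 hs2
  rw [← hε] at hε0
  have hkS0 : -ε ≤ kS := by
    have h1 : -ε * H ≤ kS * H := by linarith [hs1.1]
    exact le_of_mul_le_mul_right h1 hHpos
  -- the fibres
  obtain ⟨P, hP⟩ : ∃ P : Finset ℕ, P = PY (zz y J) w := ⟨_, rfl⟩
  have hPw : ∀ p ∈ P, p ≤ w ∧ p.Prime := by
    intro p hp
    rw [hP] at hp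
    unfold PY at hp
    rw [mem_filter, mem_Ioc] at hp
    exact ⟨hp.1.2, hp.2⟩
  have hcard : (P.card : ℝ) ≤ w := by
    have h1 : P.card ≤ w := by
      rw [hP]
      unfold PY
      refine (card_filter_le _ _).trans ?_
      rw [Nat.card_Ioc]
      omega
    exact_mod_cast h1
  have hWP : W12 y J J1 = ∑ p ∈ P, 1 / (p : ℝ) := by
    unfold W12
    rw [hP, hw]
  have hfib : ∀ p ∈ P, kS * ((H : ℝ) / p) - 1 - ε * ((H : ℝ) / p + 1) ≤ ∑ k ∈ Ioc (x / p) ((x + H) / p), rg y k := by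
    intro p hp
    obtain ⟨hpw, hpp⟩ := hPw p hp
    have hp0 : (0 : ℝ) < p := by exact_mod_cast hpp.pos
    have hpw' : (p : ℝ) ≤ 4 * t ^ 50 := le_trans (by exact_mod_cast hpw) hwt
    obtain ⟨l, hl, hla, hlb⟩ := DensY_len x H hpp.pos
    have hHp : 2 * t ^ 25 ≤ (H : ℝ) / p := by
      rw [le_div_iff₀ hp0]
      have h1 : t ^ 98 = t ^ 23 * (t ^ 25 * t ^ 50) := by
        rw [← pow_add, ← pow_add]
      have h2 : (8 : ℝ) ≤ t ^ 23 := by
        have : t ^ 1 ≤ t ^ 23 := pow_le_pow_right₀ ht1 (by norm_num)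
        rw [pow_one] at this
        linarith
      have h3 : 2 * t ^ 25 * p ≤ 2 * t ^ 25 * (4 * t ^ 50) := mul_le_mul_of_nonneg_left hpw' (by positivity)
      have h4 : 8 * (t ^ 25 * t ^ 50) ≤ t ^ 23 * (t ^ 25 * t ^ 50) := mul_le_mul_of_nonneg_right h2 (by positivity)
      linarith
    have ht25 : 1 ≤ t ^ 25 := one_le_pow₀ ht1
    have hlq : (N : ℝ) ^ (1 / 4 : ℝ) ≤ l := by
      rw [hq]
      linarith
    have hxp : 1 ≤ x / p := by
      rw [Nat.one_le_div_iff hpp.pos]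
      have h1 : (p : ℝ) ≤ x := by
        have h2 : (N : ℝ) ≤ 8 * x := by exact_mod_cast hx1
        have h3 : t ^ 100 = t ^ 50 * t ^ 50 := by rw [← pow_add]
        have h4 : (32 : ℝ) ≤ t ^ 50 := by
          have : t ^ 2 ≤ t ^ 50 := pow_le_pow_right₀ ht1 (by norm_num)
          nlinarith
        have h5 : 32 * t ^ 50 ≤ t ^ 50 * t ^ 50 := mul_le_mul_of_nonneg_right h4 (by positivity)
        rw [hNt, h3] at h2
        linarith
      exact_mod_cast h1
    have hxp2 : x / p ≤ 16 * N := (Nat.div_le_self _ _).trans (by omega)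
    have h1 := (hsv (x / p) l hxp hxp2 hlq).1
    rw [← hl, abs_le] at h1
    have h2 : 1 / 1000 * (l : ℝ) / Real.log N = ε * l := by
      rw [hε]
      ring
    rw [h2] at h1
    have h3 : |kS * ((l : ℝ) - H / p)| ≤ 1 := by
      rw [abs_mul]
      have h4 : |(l : ℝ) - H / p| ≤ 1 := by
        rw [abs_le]
        constructor <;> linarith
      calc |kS| * |(l : ℝ) - H / p| ≤ 1 * 1 := mul_le_mul hkS h4 (abs_nonneg _) zero_le_one
        _ = 1 := one_mul 1
    have h5 := (abs_le.mp h3).1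
    have h6 : ε * l ≤ ε * ((H : ℝ) / p + 1) := mul_le_mul_of_nonneg_left hlb hε0
    have h7 : kS * ((l : ℝ) - H / p) = kS * l - kS * (H / p) := by ring
    rw [h7] at h5
    linarith [h1.2]
  have hsum : kS * (H * W12 y J J1) - P.card - ε * (H * W12 y J J1 + P.card) ≤ ∑ m ∈ Ioc x (x + H), (om y J J1 m : ℝ) * rg y m := by
    rw [DensY_count, ← hw, ← hP]
    refine le_trans (le_of_eq ?_) (sum_le_sum hfib)
    rw [sum_sub_distrib, sum_sub_distrib, ← mul_sum, ← mul_sum, sum_add_distrib, hWP, mul_sum]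
    have e1 : ∑ p ∈ P, (H : ℝ) * (1 / (p : ℝ)) = ∑ p ∈ P, (H : ℝ) / p := sum_congr rfl fun p _ => by ring
    rw [e1]
    simp
  obtain ⟨O, hO⟩ : ∃ O : ℝ, O = ∑ m ∈ Ioc x (x + H), (om y J J1 m : ℝ) * rg y m := ⟨_, rfl⟩
  rw [← hO] at hsum
  obtain ⟨Bs, hBs⟩ : ∃ Bs : ℝ, Bs = ∑ m ∈ Ioc x (x + H), Bx y J J1 m := ⟨_, rfl⟩
  have hgX : gam (gX y J J1) H x = (R - O - Bs) / H := by
    unfold gam
    congr 1
    rw [hR, hO, hBs, ← sum_sub_distrib, ← sum_sub_distrib]
    refine sum_congr rfl fun m hm => ?_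
    rw [mem_Ioc] at hm
    exact DensY_gX y J J1 (by omega)
  have hgB : gam (Bx y J J1) H x = Bs / H := by
    unfold gam
    rw [hBs]
  rw [hgX, hgB]
  -- the error terms
  have hwH : (P.card : ℝ) ≤ ε * H := by
    have h1 : (w : ℝ) * (1000 * Real.log N) ≤ 4 * t ^ 50 * (1000 * t) :=
      mul_le_mul hwt (mul_le_mul_of_nonneg_left hlog (by norm_num)) (by positivity) (by positivity)
    have h2 : 4 * t ^ 50 * (1000 * t) ≤ t ^ 98 := by
      have h3 : t ^ 98 = t ^ 47 * (t ^ 50 * t) := by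
        rw [← pow_succ, ← pow_add]
      have h4 : (4000 : ℝ) ≤ t ^ 47 := by
        have h5 : (10 : ℝ) ^ 4 ≤ t ^ 4 := pow_le_pow_left₀ (by norm_num) ht10 4
        have h6 : t ^ 4 ≤ t ^ 47 := pow_le_pow_right₀ ht1 (by norm_num)
        have h7 : (4000 : ℝ) ≤ 10 ^ 4 := by norm_num
        exact h7.trans (h5.trans h6)
      have h5 : 4000 * (t ^ 50 * t) ≤ t ^ 47 * (t ^ 50 * t) := mul_le_mul_of_nonneg_right h4 (by positivity)
      linarith
    have h3 : (w : ℝ) * (1000 * Real.log N) ≤ H := by linarith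
    have h4 : ε * H = H / (1000 * Real.log N) := by
      rw [hε]
      field_simp
    rw [h4, le_div_iff₀ (by positivity)]
    exact le_trans (mul_le_mul_of_nonneg_right hcard (by positivity)) h3
  have hε1 : ε ≤ 1 / 1000 := by
    rw [hε]
    exact div_le_self (by norm_num) hlog1
  have hc0 : (0 : ℝ) ≤ P.card := Nat.cast_nonneg _
  have hcH : (P.card : ℝ) ≤ H := by
    refine hwH.trans ?_
    exact mul_le_of_le_one_left hHpos.le (hε1.trans (by norm_num))
  have hHW : (H : ℝ) * W12 y J J1 ≤ H * 2 := mul_le_mul_of_nonneg_left hW hHpos.le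
  have hHW0 : 0 ≤ (H : ℝ) * W12 y J J1 := by positivity
  have herr : ε * (H * W12 y J J1 + P.card) ≤ ε * (3 * H) := mul_le_mul_of_nonneg_left (by linarith) hε0
  refine ⟨?_, ?_, ?_⟩
  · have h1 : 1 / 100 / Real.log N = 10 * ε := by
      rw [hε]
      ring
    rw [h1, ← sub_nonneg]
    have h2 : kT - kS * W12 y J J1 - Bs / H - ((R - O - Bs) / H - 10 * ε) =
        (kT * H - kS * (H * W12 y J J1) - R + O + 10 * ε * H) / H := by
      field_simp
      ring
    rw [h2]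
    refine div_nonneg ?_ hHpos.le
    have h3 : 0 ≤ ε * H := by positivity
    linarith [hs2.1]
  · have hBl : -(4 * R) ≤ Bs := by
      rw [hR, hBs, mul_sum, ← sum_neg_distrib]
      refine sum_le_sum fun m hm => ?_
      rw [mem_Ioc] at hm
      refine DensY_Bx (by omega) ?_
      have h1 : (m : ℝ) ≤ 9 * N := by
        have h2 : m ≤ 9 * N := by omega
        exact_mod_cast h2
      have h3 : t ^ 18 ≤ zz y J := by
        rw [← DensY_pow ht (18 / 100) 18 (by norm_num)]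
        exact (Real.rpow_le_rpow_of_exponent_le hN1 (by norm_num)).trans hl1
      have h4 : (t ^ 18) ^ 6 ≤ ((zz y J : ℕ) : ℝ) ^ 6 := pow_le_pow_left₀ (by positivity) h3 6
      have h5 : (t ^ 18) ^ 6 = t ^ 8 * t ^ 100 := by
        rw [← pow_mul, ← pow_add]
      have h6 : (10 : ℝ) ≤ t ^ 8 := by
        have : t ^ 1 ≤ t ^ 8 := pow_le_pow_right₀ ht1 (by norm_num)
        rw [pow_one] at this
        linarith
      have h7 : 10 * t ^ 100 ≤ t ^ 8 * t ^ 100 := mul_le_mul_of_nonneg_right h6 (by positivity)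
      have h8 : (m : ℝ) < ((zz y J : ℕ) : ℝ) ^ 6 := by
        rw [← h5, ← hNt] at h7
        linarith
      exact_mod_cast h8
    have hRu : R ≤ 5760 * ((H : ℝ) / 30030 + 1) := by
      rw [hR]
      exact DensY_rough hy x H
    have hHbig : (10000000 : ℝ) ≤ H := by
      have h1 : (10 : ℝ) ^ 7 ≤ t ^ 7 := pow_le_pow_left₀ (by norm_num) ht10 7
      have h2 : t ^ 7 ≤ t ^ 98 := pow_le_pow_right₀ ht1 (by norm_num)
      have h3 : (10 : ℝ) ^ 7 = 10000000 := by norm_num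
      rw [h3] at h1
      exact h1.trans (h2.trans hHge)
    have hkW : -(2 * ε) ≤ kS * W12 y J J1 := by
      have h1 : -ε * W12 y J J1 ≤ kS * W12 y J J1 := mul_le_mul_of_nonneg_right hkS0 hW0
      have h2 : ε * W12 y J J1 ≤ ε * 2 := mul_le_mul_of_nonneg_left hW hε0
      linarith
    have hkTu : kT ≤ R / H + ε := by
      rw [← sub_le_iff_le_add, le_div_iff₀ hHpos]
      linarith [hs2.2]
    have hBd : -(4 * (R / H)) ≤ Bs / H := by
      have h1 : -(4 * R) / H ≤ Bs / H := div_le_div_of_nonneg_right hBl hHpos.le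
      have h2 : -(4 * R) / H = -(4 * (R / H)) := by ring
      rw [h2] at h1
      exact h1
    have hRd : R / H ≤ 199 / 1000 := by
      rw [div_le_iff₀ hHpos]
      linarith
    linarith
  · rw [abs_mul, abs_of_nonneg hW0]
    calc |kS| * W12 y J J1 ≤ 1 * 2 := mul_le_mul hkS hW hW0 zero_le_one
      _ = 2 := one_mul 2

theorem dens_y (e1 : ℝ) (A1 : ℕ) (he1 : 0 < e1) (he2 : e1 ≤ 1 / 1000) : ∃ N0 : ℕ, ∀ N : ℕ, N0 ≤ N → ∀ (J J1 : ℕ) (S T : ℕ → ℝ) (kS kT : ℝ),
    LevX N (yN e1 N) J J1 → SvI N (yN e1 N) (1 / 1000) S T kS kT → ∀ x : ℕ, N ≤ 8 * x → x ≤ 8 * N →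
      gam (gX (yN e1 N) J J1) ⌊(N : ℝ) / Real.log N ^ A1⌋₊ x - 1 / 100 / Real.log N ≤
        kT - kS * W12 (yN e1 N) J J1 - gam (Bx (yN e1 N) J J1) ⌊(N : ℝ) / Real.log N ^ A1⌋₊ x ∧
      kT - kS * W12 (yN e1 N) J J1 - gam (Bx (yN e1 N) J J1) ⌊(N : ℝ) / Real.log N ^ A1⌋₊ x ≤ 1 ∧ |kS * W12 (yN e1 N) J J1| ≤ 2 := by
  obtain ⟨N0, hN0⟩ := DensY_ev e1 A1 he1
  refine ⟨N0, fun N hN J J1 S T kS kT hL hS x hx1 hx2 => ?_⟩
  obtain ⟨a1, a2, a3, a4, a5⟩ := hN0 N hN
  exact DensY_core hL rfl a4 a1 a2 a3 a5 hS hx1 hx2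

end Pool.Agent.H43.PX
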