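import Pool.Agent.H43.MP.PPw

/-!
# PX PpG: the integers `n` which meet proper prime powers, for every `P ≤ N^(1/80)` (copy of `H43/MP/PPw`)
-/

set_option autoImplicit false

namespace Pool.Agent.H43.PX

open Finset
open Pool.Agent.H91.PK (ee)
open Pool.Agent.H91.EHA (Lam hR lamR ramS)
open Pool.Agent.H35.W (pb)
open Pool.Agent.H43.MP

/-- the von Mangoldt function on the non-primes -/
private noncomputable def PpG_L2 (n : ℕ) : ℝ := if n.Prime then 0 else Lam n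

private theorem PpG_L2_nn (n : ℕ) : 0 ≤ PpG_L2 n := by
  unfold PpG_L2
  split_ifs
  · exact le_rfl
  · exact ArithmeticFunction.vonMangoldt_nonneg

private theorem PpG_sum2 (x : ℕ) (hx : 1 ≤ x) :
    ∑ n ∈ Ioc 0 x, PpG_L2 n ≤ 2 * Real.sqrt x * Real.log x := by
  have h1 := Chebyshev.psi_sub_theta_le (x := (x : ℝ)) (by exact_mod_cast hx)
  rw [Chebyshev.psi_sub_theta_eq_sum_not_prime, Nat.floor_natCast] at h1
  refine le_trans (le_of_eq ?_) h1
  rw [sum_filter]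
  refine sum_congr rfl fun n _ => ?_
  unfold PpG_L2
  by_cases hn : n.Prime
  · rw [if_pos hn, if_neg (not_not.2 hn)]
  · rw [if_neg hn, if_pos hn]
    rfl

open Classical in
/-- the proper prime powers up to `y` -/
private noncomputable def PpG_S (y : ℕ) : Finset ℕ :=
  (Ioc 0 y).filter (fun m => Lam m ≠ 0 ∧ ¬ m.Prime)

private theorem PpG_Lam_ge (m : ℕ) (h : Lam m ≠ 0) : Real.log 2 ≤ Lam m := by
  unfold Lam at h ⊢
  rw [ArithmeticFunction.vonMangoldt_ne_zero_iff] at h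
  rw [ArithmeticFunction.vonMangoldt_apply, if_pos h]
  have h2 : 2 ≤ m.minFac := (Nat.minFac_prime h.ne_one).two_le
  exact Real.log_le_log (by norm_num) (by exact_mod_cast h2)

private theorem PpG_card_S (y : ℕ) :
    ((PpG_S y).card : ℝ) ≤ 4 * Real.sqrt y * Real.log y := by
  rcases Nat.eq_zero_or_pos y with hy | hy
  · subst hy
    simp [PpG_S]
  have h1 : ((PpG_S y).card : ℝ) * Real.log 2 ≤ ∑ n ∈ Ioc 0 y, PpG_L2 n := by
    calc ((PpG_S y).card : ℝ) * Real.log 2 = ∑ _n ∈ PpG_S y, Real.log 2 := by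
          rw [sum_const, nsmul_eq_mul]
      _ ≤ ∑ n ∈ PpG_S y, PpG_L2 n := by
          refine sum_le_sum fun n hn => ?_
          unfold PpG_S at hn
          rw [mem_filter] at hn
          unfold PpG_L2
          rw [if_neg hn.2.2]
          exact PpG_Lam_ge n hn.2.1
      _ ≤ ∑ n ∈ Ioc 0 y, PpG_L2 n :=
          sum_le_sum_of_subset_of_nonneg (filter_subset _ _) fun m _ _ => PpG_L2_nn m
  have h2 := PpG_sum2 y hy
  have h3 : (1 / 2 : ℝ) ≤ Real.log 2 := by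
    have := Real.log_two_gt_d9
    linarith
  have h4 : ((PpG_S y).card : ℝ) * (1 / 2) ≤ ((PpG_S y).card : ℝ) * Real.log 2 :=
    mul_le_mul_of_nonneg_left h3 (Nat.cast_nonneg _)
  linarith

private theorem PpG_near {H n m : ℕ} (hH : 1 ≤ H) (hm : m ∈ blk H (n / H)) :
    m < n + H ∧ n < m + H := by
  unfold blk at hm
  rw [mem_Ico] at hm
  have h1 := Nat.div_mul_le_self n H
  have h2 := Nat.lt_div_mul_add (a := n) hH
  have h3 : (n / H + 1) * H = n / H * H + H := by ring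
  rw [h3] at hm
  omega

private theorem PpG_sub {N P H : ℕ} (hH : 1 ≤ H) (hHN : H ≤ N) (hP : 1 ≤ P) :
    ppE N P H ⊆ (PpG_S (3 * N)).biUnion (fun m => Icc (m - H) (m + H)) ∪
      (pb P ×ˢ PpG_S (3 * N / P)).biUnion (fun q => Icc (q.1 * q.2 - H) (q.1 * q.2 + H)) := by
  intro n hn
  unfold ppE at hn
  rw [mem_filter, mem_Ioc] at hn
  obtain ⟨⟨hn1, hn2⟩, m, hm, hh⟩ := hn
  obtain ⟨e1, e2⟩ := PpG_near hH hm
  rw [mem_union, mem_biUnion, mem_biUnion]
  rcases hh with ⟨h1, h2⟩ | ⟨p, hp, hpd, h1, h2⟩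
  · left
    refine ⟨m, ?_, ?_⟩
    · unfold PpG_S
      rw [mem_filter, mem_Ioc]
      exact ⟨by omega, h1, h2⟩
    · rw [mem_Icc]
      omega
  · right
    refine ⟨(p, (2 * n - m) / p), ?_, ?_⟩
    · rw [mem_product]
      refine ⟨hp, ?_⟩
      unfold PpG_S
      rw [mem_filter, mem_Ioc]
      refine ⟨⟨?_, ?_⟩, h1, h2⟩
      · rcases Nat.eq_zero_or_pos ((2 * n - m) / p) with h0 | h0
        · exfalso
          apply h1
          rw [h0]
          unfold Lam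
          simp
        · exact h0
      · unfold pb at hp
        rw [mem_filter, mem_Ioc] at hp
        exact Nat.div_le_div (by omega) hp.1.1.le (by omega)
    · have e3 : p * ((2 * n - m) / p) = 2 * n - m := Nat.mul_div_cancel' hpd
      show n ∈ Icc (p * ((2 * n - m) / p) - H) (p * ((2 * n - m) / p) + H)
      rw [e3, mem_Icc]
      omega

private theorem PpG_card {N P H : ℕ} (hH : 1 ≤ H) (hHN : H ≤ N) (hP : 1 ≤ P) :
    ((ppE N P H).card : ℝ) ≤
      ((PpG_S (3 * N)).card + P * (PpG_S (3 * N / P)).card) * (2 * H + 1) := by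
  have h1 := card_le_card (PpG_sub hH hHN hP)
  have h2 : ((PpG_S (3 * N)).biUnion (fun m => Icc (m - H) (m + H))).card ≤
      (PpG_S (3 * N)).card * (2 * H + 1) := by
    refine card_biUnion_le_card_mul _ _ _ fun m _ => ?_
    rw [Nat.card_Icc]
    omega
  have h3 : ((pb P ×ˢ PpG_S (3 * N / P)).biUnion
      (fun q => Icc (q.1 * q.2 - H) (q.1 * q.2 + H))).card ≤
      (pb P ×ˢ PpG_S (3 * N / P)).card * (2 * H + 1) := by
    refine card_biUnion_le_card_mul _ _ _ fun m _ => ?_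
    rw [Nat.card_Icc]
    omega
  have h4 : (pb P ×ˢ PpG_S (3 * N / P)).card ≤ P * (PpG_S (3 * N / P)).card := by
    rw [card_product]
    refine Nat.mul_le_mul_right _ ?_
    have h5 : (pb P).card ≤ (Ioc P (2 * P)).card := card_filter_le _ _
    rw [Nat.card_Ioc] at h5
    omega
  have h6 : (ppE N P H).card ≤
      ((PpG_S (3 * N)).card + P * (PpG_S (3 * N / P)).card) * (2 * H + 1) := by
    refine h1.trans ((card_union_le _ _).trans ?_)
    have h7 : (pb P ×ˢ PpG_S (3 * N / P)).card * (2 * H + 1) ≤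
        P * (PpG_S (3 * N / P)).card * (2 * H + 1) := Nat.mul_le_mul_right _ h4
    nlinarith
  exact_mod_cast h6

theorem pp_card_g (θ : ℝ) (h0 : 0 < θ) (h1 : θ ≤ 1 / 4) (A : ℕ) : ∃ N0 : ℕ, ∀ N : ℕ, N0 ≤ N →
    ∀ P : ℕ, 1 ≤ P → (P : ℝ) ≤ (N : ℝ) ^ (1 / 80 : ℝ) →
    ((ppE N P (Hn θ N)).card : ℝ) ≤ N / Real.log N ^ A := by
  have hlo := (isLittleO_log_rpow_rpow_atTop ((A : ℝ) + 1) (show (0 : ℝ) < 3 / 16 by norm_num)).bound
    (show (0 : ℝ) < 1 / 200 by norm_num)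
  have hev := tendsto_natCast_atTop_atTop.eventually hlo
  obtain ⟨N1, hN1⟩ := Filter.eventually_atTop.1 hev
  refine ⟨max N1 3, fun N hN P hP1 hPle => ?_⟩
  have hN3 : 3 ≤ N := (le_max_right _ _).trans hN
  have hb := hN1 N ((le_max_left _ _).trans hN)
  have hNr : (3 : ℝ) ≤ N := by exact_mod_cast hN3
  have hN0 : (0 : ℝ) < N := by linarith
  have hN1r : (1 : ℝ) ≤ N := by linarith
  obtain ⟨L, hL⟩ : ∃ L, L = Real.log N := ⟨_, rfl⟩
  have hL1 : 1 ≤ L := by
    rw [hL, Real.le_log_iff_exp_le hN0]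
    have := Real.exp_one_lt_d9
    linarith
  rw [← hL]
  have hL0 : 0 < L := by linarith
  have hb2 : L ^ (A + 1) ≤ 1 / 200 * (N : ℝ) ^ (3 / 16 : ℝ) := by
    rw [← hL, Real.norm_of_nonneg (Real.rpow_nonneg hL0.le _),
      Real.norm_of_nonneg (Real.rpow_nonneg hN0.le _)] at hb
    have e : L ^ ((A : ℝ) + 1) = L ^ (A + 1) := by
      rw [← Real.rpow_natCast]
      push_cast
      rfl
    rw [e] at hb
    exact hb
  -- the parameters
  obtain ⟨H, hH⟩ : ∃ H, H = Hn θ N := ⟨_, rfl⟩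
  rw [← hH]
  have hH1 : 1 ≤ H := by
    rw [hH]
    unfold Hn
    rw [Nat.one_le_floor_iff]
    exact Real.one_le_rpow hN1r h0.le
  have hHle : (H : ℝ) ≤ (N : ℝ) ^ (1 / 4 : ℝ) := by
    rw [hH]
    unfold Hn
    exact (Nat.floor_le (Real.rpow_nonneg hN0.le _)).trans
      (Real.rpow_le_rpow_of_exponent_le hN1r h1)
  have hHN : H ≤ N := by
    have : (H : ℝ) ≤ N := hHle.trans (by
      calc (N : ℝ) ^ (1 / 4 : ℝ) ≤ (N : ℝ) ^ (1 : ℝ) :=
            Real.rpow_le_rpow_of_exponent_le hN1r (by norm_num)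
        _ = N := Real.rpow_one _)
    exact_mod_cast this
  have hP0 : (0 : ℝ) < P := by exact_mod_cast hP1
  have hPr : (1 : ℝ) ≤ P := by exact_mod_cast hP1
  have hc := PpG_card hH1 hHN hP1
  -- the logarithm
  have hlog : Real.log (3 * N) ≤ 2 * L := by
    rw [Real.log_mul (by norm_num) hN0.ne', ← hL]
    have : Real.log 3 ≤ L := by
      rw [hL]
      exact Real.log_le_log (by norm_num) hNr
    linarith
  have hlog0 : 0 ≤ Real.log (3 * N) := Real.log_nonneg (by linarith)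
  -- the square root
  obtain ⟨S, hS⟩ : ∃ S, S = Real.sqrt (3 * N * P) := ⟨_, rfl⟩
  have hS0 : 0 ≤ S := by rw [hS]; exact Real.sqrt_nonneg _
  have hSle : S ≤ 2 * (N : ℝ) ^ (81 / 160 : ℝ) := by
    rw [hS]
    refine Real.sqrt_le_iff.2 ⟨by positivity, ?_⟩
    have e1 : (2 * (N : ℝ) ^ (81 / 160 : ℝ)) ^ 2 = 4 * (N * (N : ℝ) ^ (1 / 80 : ℝ)) := by
      rw [mul_pow, ← Real.rpow_natCast, ← Real.rpow_natCast, ← Real.rpow_mul hN0.le]
      have e2 : (N : ℝ) * (N : ℝ) ^ (1 / 80 : ℝ) = (N : ℝ) ^ (1 + 1 / 80 : ℝ) := by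
        rw [Real.rpow_add hN0, Real.rpow_one]
      rw [e2]
      norm_num
    rw [e1]
    have e3 : (N : ℝ) * P ≤ N * (N : ℝ) ^ (1 / 80 : ℝ) := mul_le_mul_of_nonneg_left hPle hN0.le
    nlinarith [mul_pos hN0 hP0]
  have hc1 : ((PpG_S (3 * N)).card : ℝ) ≤ 4 * S * (2 * L) := by
    have h2 := PpG_card_S (3 * N)
    push_cast at h2
    refine h2.trans ?_
    have h3 : Real.sqrt (3 * N) ≤ S := by
      rw [hS]
      refine Real.sqrt_le_sqrt ?_
      nlinarith
    gcongr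
  have hc2 : (P : ℝ) * ((PpG_S (3 * N / P)).card : ℝ) ≤ 4 * S * (2 * L) := by
    have h2 := PpG_card_S (3 * N / P)
    have h3 : ((3 * N / P : ℕ) : ℝ) ≤ 3 * N / P := by
      have := @Nat.cast_div_le ℝ _ _ _ (3 * N) P
      push_cast at this
      exact this
    have h4 : Real.log ((3 * N / P : ℕ) : ℝ) ≤ 2 * L := by
      rcases Nat.eq_zero_or_pos (3 * N / P) with h5 | h5
      · rw [h5]
        simp only [Nat.cast_zero, Real.log_zero]
        linarith
      · refine le_trans (Real.log_le_log (by exact_mod_cast h5) ?_) hlog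
        refine h3.trans ?_
        rw [div_le_iff₀ hP0]
        nlinarith
    have h6 : (P : ℝ) * Real.sqrt ((3 * N / P : ℕ) : ℝ) ≤ S := by
      have h7 : Real.sqrt ((3 * N / P : ℕ) : ℝ) ≤ Real.sqrt (3 * N / P) := Real.sqrt_le_sqrt h3
      have h8 : (P : ℝ) * Real.sqrt (3 * N / P) = S := by
        rw [hS]
        have e1 : (P : ℝ) = Real.sqrt (P ^ 2) := (Real.sqrt_sq hP0.le).symm
        calc (P : ℝ) * Real.sqrt (3 * N / P) = Real.sqrt (P ^ 2) * Real.sqrt (3 * N / P) := by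
              rw [← e1]
          _ = Real.sqrt (P ^ 2 * (3 * N / P)) := (Real.sqrt_mul (by positivity) _).symm
          _ = Real.sqrt (3 * N * P) := by
              congr 1
              field_simp
      rw [← h8]
      exact mul_le_mul_of_nonneg_left h7 hP0.le
    calc (P : ℝ) * ((PpG_S (3 * N / P)).card : ℝ)
        ≤ P * (4 * Real.sqrt ((3 * N / P : ℕ) : ℝ) * Real.log ((3 * N / P : ℕ) : ℝ)) :=
          mul_le_mul_of_nonneg_left h2 hP0.le
      _ = 4 * (P * Real.sqrt ((3 * N / P : ℕ) : ℝ)) * Real.log ((3 * N / P : ℕ) : ℝ) := by ring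
      _ ≤ 4 * (P * Real.sqrt ((3 * N / P : ℕ) : ℝ)) * (2 * L) :=
          mul_le_mul_of_nonneg_left h4 (by positivity)
      _ ≤ 4 * S * (2 * L) := by
          refine mul_le_mul_of_nonneg_right ?_ (by positivity)
          linarith
  have hH1r : (1 : ℝ) ≤ (N : ℝ) ^ (1 / 4 : ℝ) := Real.one_le_rpow hN1r (by norm_num)
  have hH2 : 2 * (H : ℝ) + 1 ≤ 3 * (N : ℝ) ^ (1 / 4 : ℝ) := by linarith
  rw [le_div_iff₀ (by positivity)]
  have hLA : 0 < L ^ A := by positivity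
  have hsum : ((PpG_S (3 * N)).card : ℝ) + P * ((PpG_S (3 * N / P)).card : ℝ) ≤ 16 * S * L := by
    linarith
  have hNN : (N : ℝ) ^ (81 / 160 : ℝ) * (N : ℝ) ^ (1 / 4 : ℝ) * (N : ℝ) ^ (3 / 16 : ℝ) ≤ N := by
    rw [← Real.rpow_add hN0, ← Real.rpow_add hN0]
    calc (N : ℝ) ^ (81 / 160 + 1 / 4 + 3 / 16 : ℝ) ≤ (N : ℝ) ^ (1 : ℝ) :=
          Real.rpow_le_rpow_of_exponent_le hN1r (by norm_num)
      _ = N := Real.rpow_one _
  calc ((ppE N P H).card : ℝ) * L ^ A
      ≤ (((PpG_S (3 * N)).card : ℝ) + P * ((PpG_S (3 * N / P)).card : ℝ)) * (2 * H + 1) * L ^ A :=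
        mul_le_mul_of_nonneg_right hc hLA.le
    _ ≤ (16 * S * L) * (3 * (N : ℝ) ^ (1 / 4 : ℝ)) * L ^ A := by
        refine mul_le_mul_of_nonneg_right ?_ hLA.le
        exact mul_le_mul hsum hH2 (by positivity) (by positivity)
    _ = 48 * S * (N : ℝ) ^ (1 / 4 : ℝ) * L ^ (A + 1) := by ring
    _ ≤ 48 * (2 * (N : ℝ) ^ (81 / 160 : ℝ)) * (N : ℝ) ^ (1 / 4 : ℝ) *
          (1 / 200 * (N : ℝ) ^ (3 / 16 : ℝ)) := by
        gcongr
    _ = 96 / 200 * ((N : ℝ) ^ (81 / 160 : ℝ) * (N : ℝ) ^ (1 / 4 : ℝ) * (N : ℝ) ^ (3 / 16 : ℝ)) := by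
        ring
    _ ≤ 1 * N := by
        refine mul_le_mul (by norm_num) hNN (by positivity) (by norm_num)
    _ = N := one_mul _

end Pool.Agent.H43.PX
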