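import Pool.Agent.H43.PX.Defs
import Pool.Agent.H43.PX.Main
import Pool.Agent.H43.MP.MainTerm
import Pool.Agent.H43.MP.WPb
import Pool.Agent.H43.MP.Cnt
import Pool.Agent.H43.PX.PpG

/-!
# PX Fin2: prime + `E_2` with a small prime factor in `(P, 2P]`, for all `exp(L^t) ≤ P ≤ N^(θ/20)` (model: `Fin`)
-/

set_option autoImplicit false

namespace Pool.Agent.H43.PX

open Finset
open Pool.Agent.H91.PK (ee)
open Pool.Agent.H91.EHA (Lam hR lamR ramS)
open Pool.Agent.H35.W (pb)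
open Pool.Agent.H76.GB (SR)
open Pool.Agent.H43.MP
open Pool.Agent.H43.TP (pr)
open Pool.Agent.H43.TS (badQ)

private theorem fin_blk_card (H i : ℕ) : (blk H i).card = H := by
  unfold blk
  rw [Nat.card_Ico]
  have : (i + 1) * H = i * H + H := by ring
  omega

private theorem fin_mem_blk (H n : ℕ) (hH : 1 ≤ H) : n ∈ blk H (n / H) := by
  unfold blk
  rw [mem_Ico]
  refine ⟨Nat.div_mul_le_self n H, ?_⟩
  have := Nat.lt_mul_div_succ n (show 0 < H by omega)
  rw [mul_comm]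
  exact this

/-- `exp (L^t)` beats every power of `L` -/
theorem exp_pow_ge (t : ℝ) (ht : 0 < t) (K : ℕ) (c : ℝ) (hc : 0 < c) : ∃ N0 : ℕ, ∀ N : ℕ, N0 ≤ N →
    c * Real.log N ^ K ≤ Real.exp (Real.log N ^ t) := by
  obtain ⟨n, hn⟩ := exists_nat_ge ((K : ℝ) / t)
  have h1 := (Real.isLittleO_pow_exp_atTop (n := n)).bound (show (0 : ℝ) < 1 / c by positivity)
  have hlog : Filter.Tendsto (fun N : ℕ => Real.log N) Filter.atTop Filter.atTop :=
    Real.tendsto_log_atTop.comp tendsto_natCast_atTop_atTop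
  have h2 : Filter.Tendsto (fun N : ℕ => Real.log N ^ t) Filter.atTop Filter.atTop :=
    (tendsto_rpow_atTop ht).comp hlog
  obtain ⟨N1, hN1⟩ := Filter.eventually_atTop.1 ((h2.eventually h1).and (hlog.eventually_ge_atTop 1))
  refine ⟨N1, fun N hN => ?_⟩
  obtain ⟨a1, a2⟩ := hN1 N hN
  have a0 : (0 : ℝ) < Real.log N := by linarith
  have b1 : (1 : ℝ) ≤ Real.log N ^ t := Real.one_le_rpow a2 ht.le
  rw [Real.norm_of_nonneg (by positivity), Real.norm_of_nonneg (Real.exp_pos _).le, one_div_mul_eq_div,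
    le_div_iff₀ hc] at a1
  have b2 : Real.log N ^ K ≤ (Real.log N ^ t) ^ n := by
    rw [← Real.rpow_natCast, ← Real.rpow_natCast, ← Real.rpow_mul a0.le]
    refine Real.rpow_le_rpow_of_exponent_le a2 ?_
    rw [div_le_iff₀ ht] at hn
    linarith
  nlinarith

/-- facts for large `N` -/
private theorem fin_large (θ t : ℝ) (ht : 0 < t) (h0 : 0 < θ) (h1 : θ ≤ 1 / 4) (A B P0 : ℕ) :
    ∃ N0 : ℕ, ∀ N : ℕ, N0 ≤ N → 1000 ≤ Real.log N ∧ (N : ℝ) ^ θ / 2 ≤ Hn θ N ∧ 4 * Hn θ N ≤ N ∧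
      (Rn B N : ℝ) ≤ Real.log N ^ B ∧ 1 ≤ Rn B N ∧
      ∀ P : ℕ, Real.exp (Real.log N ^ t) ≤ P → P ≤ Pn θ N → P0 ≤ P ∧
      2 ≤ P ∧ 4 * P ^ 2 ≤ Hn θ N ∧ Real.log P ≤ Real.log N / 80 ∧
      40 * Real.log N ^ (2 * B + A + 6) ≤ P ∧ Rn B N ≤ P ∧ (P : ℝ) ≤ (N : ℝ) ^ (1 / 80 : ℝ) := by
  obtain ⟨x1, hx1⟩ := Pool.Agent.H76.GB.log_ge 1000
  obtain ⟨x2, hx2⟩ := exp_pow_ge t ht (2 * B + A + 6) (80 + 2 * P0 : ℝ) (by positivity)
  obtain ⟨x3, hx3⟩ := Pool.Agent.H76.GB.log_pow_le (9 * θ / 10) 8 (by positivity) (by norm_num) 0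
  obtain ⟨x4, hx4⟩ := Pool.Agent.H76.GB.log_pow_le (3 / 4) 4 (by norm_num) (by norm_num) 0
  refine ⟨max (max x1 x2) (max x3 x4), fun N hN => ?_⟩
  have g1 := hx1 N (((le_max_left _ _).trans (le_max_left _ _)).trans hN)
  have g2 := hx2 N (((le_max_right _ _).trans (le_max_left _ _)).trans hN)
  have g3 := hx3 N (((le_max_left _ _).trans (le_max_right _ _)).trans hN)
  have g4 := hx4 N (((le_max_right _ _).trans (le_max_right _ _)).trans hN)
  rw [pow_zero, mul_one] at g3 g4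
  set L := Real.log N with hL
  have hN0 : N ≠ 0 := by
    rintro rfl
    rw [hL] at g1
    norm_num at g1
  have hN1 : (1 : ℝ) ≤ N := by exact_mod_cast Nat.one_le_iff_ne_zero.2 hN0
  have hNpos : (0 : ℝ) < N := by linarith
  have hL1 : 1 ≤ L := by linarith
  have hLp : 1 ≤ L ^ (2 * B + A + 6) := one_le_pow₀ hL1
  have hLB : 1 ≤ L ^ B := one_le_pow₀ hL1
  have hP0 : (0 : ℝ) ≤ P0 := Nat.cast_nonneg _
  have hNθ1 : (1 : ℝ) ≤ (N : ℝ) ^ θ := Real.one_le_rpow hN1 h0.le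
  -- H
  have q1 : (N : ℝ) ^ θ < Hn θ N + 1 := Nat.lt_floor_add_one _
  have q2 : (Hn θ N : ℝ) ≤ (N : ℝ) ^ θ := Nat.floor_le (by positivity)
  have q3 : 1 ≤ Hn θ N := by
    have : 0 < Hn θ N := Nat.floor_pos.2 hNθ1
    exact this
  have q4 : (1 : ℝ) ≤ Hn θ N := by exact_mod_cast q3
  have q5 : (N : ℝ) ^ θ / 2 ≤ Hn θ N := by linarith
  -- 4 H ≤ N
  have e3 : 4 * Hn θ N ≤ N := by
    have t1 : (N : ℝ) ^ θ ≤ (N : ℝ) ^ (1 / 4 : ℝ) := Real.rpow_le_rpow_of_exponent_le hN1 h1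
    have t2 : (N : ℝ) = (N : ℝ) ^ (1 / 4 : ℝ) * (N : ℝ) ^ (3 / 4 : ℝ) := by
      rw [← Real.rpow_add hNpos]
      norm_num
    have t3 : (0 : ℝ) ≤ (N : ℝ) ^ (1 / 4 : ℝ) := by positivity
    have t4 : (4 : ℝ) * Hn θ N ≤ N := by
      rw [t2]
      nlinarith
    exact_mod_cast t4
  have e5 : (Rn B N : ℝ) ≤ L ^ B := Nat.floor_le (by positivity)
  have e6 : 1 ≤ Rn B N := Nat.floor_pos.2 hLB
  refine ⟨g1, q5, e3, e5, e6, fun P hPt hPn => ?_⟩
  have p2 : (P : ℝ) ≤ (N : ℝ) ^ (θ / 20) := by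
    have t1 : (Pn θ N : ℝ) ≤ (N : ℝ) ^ (θ / 20) := Nat.floor_le (by positivity)
    exact le_trans (by exact_mod_cast hPn) t1
  have p3 : 80 + 2 * (P0 : ℝ) ≤ P := by
    refine le_trans ?_ (g2.trans hPt)
    nlinarith
  have p4 : 40 * L ^ (2 * B + A + 6) ≤ P := by
    have : (80 + 2 * (P0 : ℝ)) * L ^ (2 * B + A + 6) ≥ 80 * L ^ (2 * B + A + 6) := by nlinarith
    linarith [g2.trans hPt]
  have p5 : P0 ≤ P := by
    have : (P0 : ℝ) ≤ P := by linarith
    exact_mod_cast this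
  have p6 : 2 ≤ P := by
    have : (2 : ℝ) ≤ P := by linarith
    exact_mod_cast this
  -- 4 P² ≤ H
  have e1 : 4 * P ^ 2 ≤ Hn θ N := by
    have t1 : ((N : ℝ) ^ (θ / 20)) ^ 2 = (N : ℝ) ^ (θ / 10) := by
      rw [← Real.rpow_natCast, ← Real.rpow_mul hNpos.le]
      congr 1
      push_cast
      ring
    have t2 : (N : ℝ) ^ θ = (N : ℝ) ^ (θ / 10) * (N : ℝ) ^ (9 * θ / 10) := by
      rw [← Real.rpow_add hNpos]
      congr 1
      ring
    have t3 : (0 : ℝ) ≤ (N : ℝ) ^ (θ / 10) := by positivity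
    have t4 : ((P : ℝ)) ^ 2 ≤ (N : ℝ) ^ (θ / 10) := by
      rw [← t1]
      exact pow_le_pow_left₀ (Nat.cast_nonneg _) p2 2
    have t5 : 4 * (P : ℝ) ^ 2 ≤ Hn θ N := by
      nlinarith
    exact_mod_cast t5
  -- log P
  have e2 : Real.log P ≤ L / 80 := by
    have hPpos : (0 : ℝ) < P := by
      have : (2 : ℝ) ≤ P := by exact_mod_cast p6
      linarith
    have t1 := Real.log_le_log hPpos p2
    rw [Real.log_rpow hNpos] at t1
    nlinarith
  have e4 : Rn B N ≤ P := by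
    have t1 : L ^ B ≤ L ^ (2 * B + A + 6) := pow_le_pow_right₀ hL1 (by omega)
    have : (Rn B N : ℝ) ≤ P := by nlinarith
    exact_mod_cast this
  have e7 : (P : ℝ) ≤ (N : ℝ) ^ (1 / 80 : ℝ) :=
    p2.trans (Real.rpow_le_rpow_of_exponent_le hN1 (by linarith))
  exact ⟨p5, p6, e1, e2, p4, e4, e7⟩

private theorem fin_SR (R E : ℕ) (hR : 1 ≤ R) (hE : 1 ≤ E) : 1 ≤ SR R (2 * E) := by
  rcases Nat.lt_or_ge 1 R with h | h
  · exact Pool.Agent.H76.GB.sr_ge R (2 * E) h (by omega) (dvd_mul_right 2 E)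
  · have : R = 1 := by omega
    subst this
    unfold SR ramS
    simp

/-- the number of `n` in given blocks -/
private theorem fin_cnt (N H : ℕ) (hH : 1 ≤ H) (S : Finset ℕ) :
    ((Ioc N (2 * N)).filter (fun n => n / H ∈ S)).card ≤ S.card * H := by
  have h1 : (Ioc N (2 * N)).filter (fun n => n / H ∈ S) ⊆ S.biUnion (blk H) := by
    intro n hn
    rw [mem_filter] at hn
    rw [mem_biUnion]
    exact ⟨n / H, hn.2, fin_mem_blk H n hH⟩
  refine (card_le_card h1).trans (card_biUnion_le.trans ?_)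
  rw [sum_congr rfl fun i _ => fin_blk_card H i, sum_const, smul_eq_mul]

/-- Chebyshev's inequality -/
private theorem fin_cheb (S : Finset ℕ) (f : ℕ → ℝ) (T X : ℝ) (hT : 0 < T)
    (h : ∑ n ∈ S, f n ^ 2 ≤ X) : ((S.filter (fun n => T < |f n|)).card : ℝ) ≤ X / T ^ 2 := by
  rw [le_div_iff₀ (by positivity)]
  refine le_trans ?_ h
  calc ((S.filter (fun n => T < |f n|)).card : ℝ) * T ^ 2
      = ∑ n ∈ S.filter (fun n => T < |f n|), T ^ 2 := by rw [sum_const, nsmul_eq_mul]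
    _ ≤ ∑ n ∈ S.filter (fun n => T < |f n|), f n ^ 2 := by
        refine sum_le_sum fun n hn => ?_
        rw [mem_filter] at hn
        rw [← sq_abs (f n)]
        exact pow_le_pow_left₀ hT.le hn.2.le 2
    _ ≤ ∑ n ∈ S, f n ^ 2 := sum_le_sum_of_subset_of_nonneg (filter_subset _ _)
        fun n _ _ => sq_nonneg _

private theorem fin_lam (m : ℕ) : 0 ≤ Lam m := ArithmeticFunction.vonMangoldt_nonneg

private theorem fin_c1 (N H L a : ℝ) (C : ℕ) (hH : 0 < H) (hL : 0 < L) (ha : 0 < a) :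
    2 * (N / H) * (9 * (H / a) ^ 2 * (H * L ^ C) / (H / L ^ 3) ^ 2) = 18 * N * L ^ (C + 6) / a ^ 2 := by
  field_simp
  ring

private theorem fin_c2 (N H L R P : ℝ) (C : ℕ) (hH : 0 < H) (hL : 0 < L) (hP : 0 < P) :
    2 * (N / H) * (10 * R ^ 2 * H ^ 2 / P * (H * L ^ C) / (H / L ^ 3) ^ 2)
      = 20 * N * R ^ 2 * L ^ (C + 6) / P := by
  field_simp
  ring

private theorem fin_d4 (N H L : ℝ) (A C : ℕ) (hN : 0 < N) (hH : 0 < H) (hL : 1000 ≤ L) :
    2 * (N / H) * (9 * (H / L ^ (C + A + 8)) ^ 2 * (H * L ^ C) / (H / L ^ 3) ^ 2)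
      ≤ N / L ^ A / 10 := by
  have hL0 : 0 < L := by linarith
  have hL1 : 1 ≤ L := by linarith
  have t2 : (L ^ (C + A + 8)) ^ 2 = L ^ (C + 6) * (L ^ A * (L ^ (C + A) * L ^ 10)) := by ring
  rw [fin_c1 N H L (L ^ (C + A + 8)) C hH hL0 (by positivity), t2, div_div,
    div_le_div_iff₀ (by positivity) (by positivity)]
  have t3 : 1 ≤ L ^ (C + A) := one_le_pow₀ hL1
  have t4 : (180 : ℝ) ≤ L ^ 10 := by
    calc (180 : ℝ) ≤ 1000 ^ 10 := by norm_num
      _ ≤ L ^ 10 := pow_le_pow_left₀ (by norm_num) hL 10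
  have t5 : (180 : ℝ) ≤ L ^ (C + A) * L ^ 10 := by nlinarith
  have t6 : 0 < N * L ^ (C + 6) * L ^ A := by positivity
  nlinarith

private theorem fin_d5 (N H L R P : ℝ) (A B C : ℕ) (hN : 0 < N) (hH : 0 < H) (hL : 1000 ≤ L)
    (hP : 0 < P) (hR : 0 ≤ R) (hRL : R ≤ L ^ B) (hPL : 40 * L ^ (2 * B + (A + C + 2) + 6) ≤ P) :
    2 * (N / H) * (10 * R ^ 2 * H ^ 2 / P * (H * L ^ C) / (H / L ^ 3) ^ 2)
      ≤ N / L ^ A / 10 := by
  have hL0 : 0 < L := by linarith
  rw [fin_c2 N H L R P C hH hL0 hP, div_div, div_le_div_iff₀ hP (by positivity)]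
  have t2 : R ^ 2 ≤ L ^ B * L ^ B := by
    have := mul_le_mul hRL hRL hR (by positivity)
    nlinarith
  have t3 : L ^ (2 * B + (A + C + 2) + 6) = (L ^ B * L ^ B) * L ^ A * (L ^ (C + 6) * L ^ 2) := by ring
  rw [t3] at hPL
  have t4 : (5 : ℝ) ≤ L ^ 2 := by nlinarith
  have t5 : 0 < L ^ (C + 6) := by positivity
  have t6 : 0 < L ^ A := by positivity
  have t7 : 0 ≤ L ^ B * L ^ B := by positivity
  have t8 : 200 * (R ^ 2 * L ^ A * L ^ (C + 6)) ≤ P := by
    refine le_trans ?_ hPL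
    have a1 : R ^ 2 * L ^ A * L ^ (C + 6) ≤ (L ^ B * L ^ B) * L ^ A * L ^ (C + 6) := by gcongr
    have a2 : (L ^ B * L ^ B) * L ^ A * L ^ (C + 6) * 5 ≤ (L ^ B * L ^ B) * L ^ A * L ^ (C + 6) * L ^ 2 :=
      mul_le_mul_of_nonneg_left t4 (by positivity)
    nlinarith
  calc 20 * N * R ^ 2 * L ^ (C + 6) * (L ^ A * 10) = N * (200 * (R ^ 2 * L ^ A * L ^ (C + 6))) := by ring
    _ ≤ N * P := mul_le_mul_of_nonneg_left t8 hN.le

private theorem fin_FF (P m : ℕ) : 0 ≤ FF P m := by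
  unfold FF
  exact sum_nonneg fun p _ => fin_lam (m / p)

/-- from `Y` to `Λ` -/
private theorem fin_rrY (Y : ℕ → ℝ) (N P H n : ℕ) (hL : 4 ≤ Real.log N) (hH : 1 ≤ H) (h4H : 4 * H ≤ N)
    (hn : n ∈ Ioc N (2 * N)) (hY : ∀ m : ℕ, N ≤ 4 * m → m ≤ 4 * N → Y m ≤ pr m) :
    rrY Y P H (n / H) n ≤ 2 / Real.log N * rr P H (n / H) n := by
  unfold rrY rr
  rw [mul_sum]
  refine sum_le_sum fun m hm => ?_
  rw [mem_Ioc] at hn
  have hN0 : N ≠ 0 := by omega
  have hNpos : (0 : ℝ) < N := by exact_mod_cast Nat.pos_of_ne_zero hN0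
  have hb : n < m + H ∧ m < n + H := by
    unfold blk at hm
    rw [mem_Ico] at hm
    have h1 := Nat.div_mul_le_self n H
    have h2 := Nat.lt_mul_div_succ n (show 0 < H by omega)
    have h3 : (n / H + 1) * H = n / H * H + H := by ring
    have h4 : H * (n / H + 1) = n / H * H + H := by ring
    omega
  have hm1 : N ≤ 4 * m := by omega
  have hm2 : m ≤ 4 * N := by omega
  have hm3 : N ≤ 2 * m := by omega
  rw [← mul_assoc]
  refine mul_le_mul_of_nonneg_right ((hY m hm1 hm2).trans ?_) (fin_FF P _)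
  have hlam := fin_lam m
  unfold pr
  split_ifs with hp
  · have h5 : Lam m = Real.log m := by
      unfold Pool.Agent.H91.EHA.Lam
      exact ArithmeticFunction.vonMangoldt_apply_prime hp
    rw [h5, div_mul_eq_mul_div, le_div_iff₀ (by linarith), one_mul]
    have h6 : Real.log N ≤ Real.log (2 * m) := Real.log_le_log hNpos (by exact_mod_cast hm3)
    have hmpos : (0 : ℝ) < m := by exact_mod_cast hp.pos
    rw [Real.log_mul (by norm_num) hmpos.ne'] at h6
    have h7 := Real.log_two_lt_d9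
    linarith
  · exact mul_nonneg (by positivity) hlam

/-- the theorem, from the interface `YIN` -/
theorem fin_px2 (θ t : ℝ) (ht : 0 < t) (h0 : 0 < θ) (h1 : θ ≤ 1 / 4)
    (hlfu : ∀ A : ℕ, ∃ B N0 : ℕ, ∀ N : ℕ, N0 ≤ N → ∀ P : ℕ, Real.exp (Real.log N ^ t) ≤ P → P ≤ Pn θ N →
      ((badL N (Hn θ N) P (Rn B N) A).card : ℝ) ≤ (N : ℝ) / (Hn θ N) / Real.log N ^ A)
    (hy : YIN θ (1 / 25)) (A : ℕ) :
    ∃ N0 : ℕ, ∀ N : ℕ, N0 ≤ N → ∀ P : ℕ, Real.exp (Real.log N ^ t) ≤ P → P ≤ Pn θ N →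
      (((Ioc N (2 * N)).filter (fun n =>
        ((sols P (Hn θ N) n).ncard : ℝ) < (N : ℝ) ^ θ / (30000 * Real.log N ^ 2 * Real.log P))).card : ℝ)
      ≤ N / Real.log N ^ A := by
  classical
  obtain ⟨C0, hy⟩ := hy
  obtain ⟨C, hC⟩ : ∃ C, C = C0 + (A + 2) := ⟨_, rfl⟩
  obtain ⟨B, N1, hL⟩ := hlfu (C + A + 8)
  obtain ⟨N2, hY⟩ := hy (A + 2) (A + B + 4) B
  obtain ⟨P0, hW⟩ := WP_ge
  obtain ⟨N3, hF⟩ := fin_large θ t ht h0 h1 (A + C + 2) B P0
  obtain ⟨N4, hpp⟩ := pp_card_g θ h0 h1 (A + 1)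
  refine ⟨max (max N1 N2) (max N3 N4), fun N hN P hPt hPn => ?_⟩
  replace hL := hL N (((le_max_left _ _).trans (le_max_left _ _)).trans hN) P hPt hPn
  obtain ⟨Y, g, y1, y2, y3, y4⟩ := hY N (((le_max_right _ _).trans (le_max_left _ _)).trans hN)
  rw [← hC] at y3
  obtain ⟨f1, f2, f8, f10, f11, fP⟩ :=
    hF N (((le_max_left _ _).trans (le_max_right _ _)).trans hN)
  obtain ⟨f3, f4, f5, f6, f7, f9, f12⟩ := fP P hPt hPn
  replace hpp := hpp N (((le_max_right _ _).trans (le_max_right _ _)).trans hN) P (by omega) f12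
  replace hW := hW P f3
  set L := Real.log N with hLdef
  set H := Hn θ N with hHdef
  set R := Rn B N with hRdef
  have hN0 : N ≠ 0 := by
    rintro rfl
    rw [hLdef] at f1
    norm_num at f1
  have hN1 : (1 : ℝ) ≤ N := by exact_mod_cast Nat.one_le_iff_ne_zero.2 hN0
  have hNpos : (0 : ℝ) < N := by linarith
  have hL0 : 0 < L := by linarith
  have hL1 : 1 ≤ L := by linarith
  have hP2 : (2 : ℝ) ≤ P := by exact_mod_cast f4
  have hH1 : 1 ≤ H := by nlinarith
  have hH0 : (0 : ℝ) < H := by exact_mod_cast hH1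
  have h4H : 4 * (H : ℝ) ≤ N := by exact_mod_cast f8
  have hN4 : 4 ≤ N := by omega
  -- W
  have hlogP : 0 < Real.log P := Real.log_pos (by linarith)
  have hWlow : 1 / (16 * Real.log P) ≤ WP P := hW
  have hW0 : 0 ≤ WP P := le_trans (by positivity) hWlow
  have hWup : WP P ≤ 1 := WP_le P (by omega)
  set T : ℝ := H / L ^ 3 with hTdef
  have hT0 : 0 < T := by positivity
  -- the sets
  set idx1 := Icc (N / H) (2 * N / H) with hidx1
  have hq4 : 4 ≤ N / H := by
    rw [Nat.le_div_iff_mul_le (by omega)]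
    omega
  have hidxs : ∀ i ∈ idx1, 1 ≤ i ∧ i - 1 ∈ idx N H ∧ i ∈ idx N H ∧ i + 1 ∈ idx N H := by
    intro i hi
    rw [hidx1, mem_Icc] at hi
    unfold idx
    simp only [mem_Icc]
    have t1 : N / (2 * H) = N / H / 2 := by rw [mul_comm, Nat.div_div_eq_div_mul]
    have t2 : 2 * N / H + 1 ≤ 3 * N / H := by
      rw [← Nat.add_div_right _ (by omega)]
      exact Nat.div_le_div_right (by omega)
    omega
  set BL := badL N H P R (C + A + 8) with hBL
  set BQ := badQ N H (A + B + 4) B Y g with hBQ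
  set BS := (idx N H).filter (fun i => (H : ℝ) * L ^ C < ∑ m ∈ blk H i, Y m ^ 2) with hBS
  set BI := idx1.filter (fun i => i - 1 ∈ BL ∨ i ∈ BL ∨ i + 1 ∈ BL ∨ i ∈ BQ ∨ i ∈ BS) with hBI
  set GI := idx1.filter (fun i => ¬ (i - 1 ∈ BL ∨ i ∈ BL ∨ i + 1 ∈ BL ∨ i ∈ BQ ∨ i ∈ BS)) with hGI
  have hBIc : (BI.card : ℝ) ≤ 3 * (N / H / L ^ (C + A + 8)) + N / H / L ^ (A + B + 4) + N / H / L ^ (A + 2) := by
    have t1 : BI ⊆ (((BL.image (fun i => i + 1) ∪ BL) ∪ BL.image (fun i => i - 1)) ∪ BQ) ∪ BS := by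
      intro i hi
      rw [hBI, mem_filter] at hi
      have := hidxs i hi.1
      simp only [mem_union, mem_image]
      rcases hi.2 with h | h | h | h | h
      · left; left; left; left; exact ⟨i - 1, h, by omega⟩
      · left; left; left; right; exact h
      · left; left; right; exact ⟨i + 1, h, by omega⟩
      · left; right; exact h
      · right; exact h
    have t2 : BI.card ≤ 3 * BL.card + BQ.card + BS.card := by
      refine (card_le_card t1).trans ((card_union_le _ _).trans ?_)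
      have a0 := card_union_le ((BL.image (fun i => i + 1) ∪ BL) ∪ BL.image (fun i => i - 1)) BQ
      have a05 := card_union_le (BL.image (fun i => i + 1) ∪ BL) (BL.image (fun i => i - 1))
      have a2 := card_union_le (BL.image (fun i => i + 1)) BL
      have a3 : (BL.image (fun i => i + 1)).card ≤ BL.card := card_image_le
      have a4 : (BL.image (fun i => i - 1)).card ≤ BL.card := card_image_le
      omega
    have t3 : (BI.card : ℝ) ≤ 3 * BL.card + BQ.card + BS.card := by exact_mod_cast t2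
    linarith
  have hGIc : (GI.card : ℝ) ≤ 2 * (N / H) := by
    have t1 : GI.card ≤ 2 * N / H - N / H + 1 := by
      refine (card_le_card (filter_subset _ _)).trans ?_
      rw [hidx1, Nat.card_Icc]
      have : N / H ≤ 2 * N / H := Nat.div_le_div_right (by omega)
      omega
    have t2 : ((2 * N / H : ℕ) : ℝ) ≤ 2 * (N / H) := by
      refine (Nat.cast_div_le).trans (le_of_eq ?_)
      push_cast
      ring
    have t3 : (1 : ℝ) ≤ ((N / H : ℕ) : ℝ) := by exact_mod_cast (by omega : 1 ≤ N / H)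
    have t4 : (GI.card : ℝ) + ((N / H : ℕ) : ℝ) ≤ ((2 * N / H : ℕ) : ℝ) + 1 := by
      have : N / H ≤ 2 * N / H := Nat.div_le_div_right (by omega)
      exact_mod_cast (by omega : GI.card + N / H ≤ 2 * N / H + 1)
    linarith
  -- good blocks
  have hgood : ∀ i ∈ GI, ∃ E : ℕ → ℝ, (∀ n ∈ blk H i,
        |rmY Y P R H i n - WP P * (H * g i) * SR R (2 * n)| ≤ WP P * R * ((H : ℝ) / L ^ (A + B + 4)) + E n) ∧
      ∑ n ∈ blk H i, E n ^ 2 ≤ 10 * (R : ℝ) ^ 2 * (H : ℝ) ^ 2 / P * (H * L ^ C) ∧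
      ∑ n ∈ blk H i, rsY Y P R H i n ^ 2 ≤ 9 * (H / L ^ (C + A + 8)) ^ 2 * (H * L ^ C) := by
    intro i hi
    rw [hGI, mem_filter] at hi
    obtain ⟨hi1, hi2⟩ := hi
    push Not at hi2
    obtain ⟨k1, k2, k3, k4, k5⟩ := hi2
    obtain ⟨j1, j2, j3, j4⟩ := hidxs i hi1
    have hYs : ∑ m ∈ blk H i, Y m ^ 2 ≤ H * L ^ C := by
      by_contra hcon
      push Not at hcon
      apply k5
      rw [hBS, mem_filter]
      exact ⟨j3, hcon⟩
    obtain ⟨E, hE1, hE2⟩ := rmY_near Y g N (A + B + 4) B P H i f4 j1 f5 j3 k4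
    refine ⟨E, hE1, hE2.trans ?_, ?_⟩
    · exact mul_le_mul_of_nonneg_left hYs (by positivity)
    · have hlf : ∀ j ∈ idx N H, j ∉ BL → ∀ α : ℝ,
          ‖∑ m ∈ blk H j, ((Fs P R m : ℝ) : ℂ) * ee (-(α * m))‖ ≤ H / L ^ (C + A + 8) := by
        intro j hj hj2 α
        by_contra hcon
        push Not at hcon
        apply hj2
        rw [hBL]
        unfold badL
        simp only [mem_filter]
        exact ⟨hj, α, hcon⟩
      refine (rsY_l2 Y P R H i j1 _ (hlf _ j2 k1) (hlf _ j3 k2) (hlf _ j4 k3)).trans ?_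
      exact mul_le_mul_of_nonneg_left hYs (by positivity)
  choose! E hE1 hE2 hE3 using hgood
  -- the exceptional set
  set X1 := ppE N P H with hX1
  set X2 := (Ioc N (2 * N)).filter (fun n => n / H ∈ BI) with hX2
  set X3 := GI.biUnion (fun i => (blk H i).filter (fun n => T < |rsY Y P R H i n|)) with hX3
  set X4 := GI.biUnion (fun i => (blk H i).filter (fun n => T < |E i n|)) with hX4
  have hsub : (Ioc N (2 * N)).filter (fun n =>
        ((sols P H n).ncard : ℝ) < (N : ℝ) ^ θ / (30000 * L ^ 2 * Real.log P)) ⊆ X1 ∪ (X2 ∪ (X3 ∪ X4)) := by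
    intro n hn
    rw [mem_filter] at hn
    obtain ⟨hn1, hn2⟩ := hn
    by_contra hcon
    simp only [mem_union, not_or] at hcon
    obtain ⟨c1, c2, c3, c4⟩ := hcon
    have hn1' := mem_Ioc.1 hn1
    have hidx : n / H ∈ idx1 := by
      rw [hidx1, mem_Icc]
      exact ⟨Nat.div_le_div_right (by omega), Nat.div_le_div_right (by omega)⟩
    have hGn : n / H ∈ GI := by
      rw [hGI, mem_filter]
      refine ⟨hidx, fun h => c2 ?_⟩
      rw [hX2, mem_filter]
      refine ⟨hn1, ?_⟩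
      rw [hBI, mem_filter]
      exact ⟨hidx, h⟩
    have hnb := fin_mem_blk H n hH1
    have d3 : |rsY Y P R H (n / H) n| ≤ T := by
      by_contra h
      push Not at h
      apply c3
      rw [hX3, mem_biUnion]
      exact ⟨n / H, hGn, mem_filter.2 ⟨hnb, h⟩⟩
    have d4 : |E (n / H) n| ≤ T := by
      by_contra h
      push Not at h
      apply c4
      rw [hX4, mem_biUnion]
      exact ⟨n / H, hGn, mem_filter.2 ⟨hnb, h⟩⟩
    have d5 := hE1 (n / H) hGn n hnb
    have d6 := rrY_split Y P R H (n / H) n f9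
    have d7 := rr_le N P H n hN4 hH1 (by omega) hn1 c1
    have d7' := fin_rrY Y N P H n (by linarith) hH1 f8 hn1 y1
    rw [← hLdef] at d7 d7'
    have d8 : 1 ≤ SR R (2 * n) := fin_SR R n f11 (by omega)
    have dg := (y2 (n / H) (hidxs _ hidx).2.2.1).1
    -- the error
    have d9 : WP P * R * ((H : ℝ) / L ^ (A + B + 4)) ≤ H / L ^ 3 := by
      have t1 : WP P * R ≤ 1 * L ^ B := mul_le_mul hWup f10 (Nat.cast_nonneg _) zero_le_one
      have t2 : WP P * R * ((H : ℝ) / L ^ (A + B + 4)) ≤ L ^ B * ((H : ℝ) / L ^ (A + B + 4)) := by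
        refine mul_le_mul_of_nonneg_right ?_ (by positivity)
        linarith
      refine t2.trans ?_
      rw [mul_div_assoc', div_le_div_iff₀ (by positivity) (by positivity)]
      have t3 : L ^ B * L ^ 3 ≤ L ^ (A + B + 4) := by
        rw [← pow_add]
        exact pow_le_pow_right₀ hL1 (by omega)
      nlinarith
    have d10 : H / (400 * L * Real.log P) ≤ WP P * (H * g (n / H)) * SR R (2 * n) := by
      have t0 : H * (1 / 25 / L) ≤ H * g (n / H) := mul_le_mul_of_nonneg_left dg hH0.le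
      have t00 : 0 ≤ H * (1 / 25 / L) := by positivity
      have t1 : 1 / (16 * Real.log P) * (H * (1 / 25 / L)) ≤ WP P * (H * g (n / H)) :=
        mul_le_mul hWlow t0 t00 hW0
      have t2 : WP P * (H * g (n / H)) * 1 ≤ WP P * (H * g (n / H)) * SR R (2 * n) :=
        mul_le_mul_of_nonneg_left d8 (mul_nonneg hW0 (t00.trans t0))
      have t3 : H / (400 * L * Real.log P) = 1 / (16 * Real.log P) * (H * (1 / 25 / L)) := by
        field_simp
        norm_num
      linarith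
    have d105 : 3 * (H / L ^ 3) ≤ H / (800 * L * Real.log P) := by
      rw [← mul_div_assoc, div_le_div_iff₀ (by positivity) (by positivity)]
      have t1 : 2400 * Real.log P ≤ L ^ 2 := by nlinarith
      have t2 : 3 * (H : ℝ) * (800 * L * Real.log P) = (H * L) * (2400 * Real.log P) := by ring
      have t3 : (H : ℝ) * L ^ 3 = (H * L) * L ^ 2 := by ring
      rw [t2, t3]
      exact mul_le_mul_of_nonneg_left t1 (by positivity)
    have d106 : H / (400 * L * Real.log P) = 2 * (H / (800 * L * Real.log P)) := by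
      field_simp
      norm_num
    have d11 : H / (800 * L * Real.log P) ≤ rrY Y P H (n / H) n := by
      rw [d6]
      have t1 := (abs_le.1 d3).1
      have t2 := (abs_le.1 d4).2
      have t3 := (abs_le.1 d5).1
      rw [hTdef] at t1 t2
      linarith
    -- conclusion
    have d12 : H / (12800 * L ^ 2 * Real.log P) ≤ ((sols P H n).ncard : ℝ) := by
      have t1 : 2 / L * rr P H (n / H) n ≤ 2 / L * (8 * L ^ 2 * ((sols P H n).ncard : ℝ)) :=
        mul_le_mul_of_nonneg_left d7 (by positivity)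
      have t2 : 2 / L * (8 * L ^ 2 * ((sols P H n).ncard : ℝ)) = 16 * L * ((sols P H n).ncard : ℝ) := by
        field_simp
        ring
      have t3 : H / (800 * L * Real.log P) ≤ 16 * L * ((sols P H n).ncard : ℝ) := by linarith
      have t4 : H / (12800 * L ^ 2 * Real.log P) = H / (800 * L * Real.log P) / (16 * L) := by
        field_simp
        norm_num
      rw [t4, div_le_iff₀ (by positivity)]
      linarith
    have d13 : (N : ℝ) ^ θ / (30000 * L ^ 2 * Real.log P) ≤ H / (12800 * L ^ 2 * Real.log P) := by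
      have t0 : (0 : ℝ) < (N : ℝ) ^ θ := by positivity
      rw [div_le_div_iff₀ (by positivity) (by positivity)]
      have t1 : 0 < L ^ 2 * Real.log P := by positivity
      have t2 := mul_le_mul_of_nonneg_right f2 t1.le
      have t3 : 0 < (H : ℝ) * (L ^ 2 * Real.log P) := by positivity
      have t4 : (N : ℝ) ^ θ * (12800 * L ^ 2 * Real.log P) = 25600 * ((N : ℝ) ^ θ / 2 * (L ^ 2 * Real.log P)) := by ring
      have t5 : (H : ℝ) * (30000 * L ^ 2 * Real.log P) = 30000 * (H * (L ^ 2 * Real.log P)) := by ring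
      rw [t4, t5]
      linarith
    linarith
  -- the cardinalities
  have hX2c : (X2.card : ℝ) ≤ 3 * (N / L ^ (C + A + 8)) + N / L ^ (A + B + 4) + N / L ^ (A + 2) := by
    have t1 : (X2.card : ℝ) ≤ BI.card * H := by exact_mod_cast fin_cnt N H hH1 BI
    refine t1.trans ((mul_le_mul_of_nonneg_right hBIc hH0.le).trans (le_of_eq ?_))
    field_simp
  have hX3c : (X3.card : ℝ) ≤ 2 * (N / H) * (9 * (H / L ^ (C + A + 8)) ^ 2 * (H * L ^ C) / T ^ 2) := by
    have t1 : (X3.card : ℝ) ≤ ∑ i ∈ GI, (9 * (H / L ^ (C + A + 8)) ^ 2 * (H * L ^ C) / T ^ 2) := by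
      have t2 : (X3.card : ℝ) ≤ ∑ i ∈ GI, (((blk H i).filter (fun n => T < |rsY Y P R H i n|)).card : ℝ) := by
        exact_mod_cast card_biUnion_le
      refine t2.trans (sum_le_sum fun i hi => ?_)
      exact fin_cheb (blk H i) (fun n => rsY Y P R H i n) T _ hT0 (hE3 i hi)
    refine t1.trans ?_
    rw [sum_const, nsmul_eq_mul]
    exact mul_le_mul_of_nonneg_right hGIc (by positivity)
  have hX4c : (X4.card : ℝ) ≤ 2 * (N / H) * (10 * (R : ℝ) ^ 2 * (H : ℝ) ^ 2 / P * (H * L ^ C) / T ^ 2) := by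
    have t1 : (X4.card : ℝ) ≤ ∑ i ∈ GI, (10 * (R : ℝ) ^ 2 * (H : ℝ) ^ 2 / P * (H * L ^ C) / T ^ 2) := by
      have t2 : (X4.card : ℝ) ≤ ∑ i ∈ GI, (((blk H i).filter (fun n => T < |E i n|)).card : ℝ) := by
        exact_mod_cast card_biUnion_le
      refine t2.trans (sum_le_sum fun i hi => ?_)
      exact fin_cheb (blk H i) (fun n => E i n) T _ hT0 (hE2 i hi)
    refine t1.trans ?_
    rw [sum_const, nsmul_eq_mul]
    exact mul_le_mul_of_nonneg_right hGIc (by positivity)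
  have hcard : (((Ioc N (2 * N)).filter (fun n =>
        ((sols P H n).ncard : ℝ) < (N : ℝ) ^ θ / (30000 * L ^ 2 * Real.log P))).card : ℝ)
      ≤ X1.card + (X2.card + (X3.card + X4.card)) := by
    have t1 := (card_le_card hsub).trans (card_union_le _ _)
    have t2 := card_union_le X2 (X3 ∪ X4)
    have t3 := card_union_le X3 X4
    exact_mod_cast (by omega)
  refine hcard.trans ?_
  -- numerical estimates
  have hLA : 0 < L ^ A := by positivity
  set M : ℝ := N / L ^ A with hM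
  have hM0 : 0 < M := by positivity
  have m1 : (N : ℝ) / L ^ (A + 1) = M / L := by
    rw [hM, pow_succ, div_div]
  have hLs : (100 : ℝ) ≤ L ^ 2 := by nlinarith
  have m2 : (N : ℝ) / L ^ (C + A + 8) ≤ M / 100 := by
    rw [hM, div_div]
    refine div_le_div_of_nonneg_left hNpos.le (by positivity) ?_
    have : L ^ (C + A + 8) = L ^ A * (L ^ C * L ^ 6 * L ^ 2) := by ring
    rw [this]
    refine mul_le_mul_of_nonneg_left ?_ hLA.le
    have t1 : 1 ≤ L ^ C := one_le_pow₀ hL1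
    have t2 : 1 ≤ L ^ 6 := one_le_pow₀ hL1
    have t3 : 1 ≤ L ^ C * L ^ 6 := one_le_mul_of_one_le_of_one_le t1 t2
    nlinarith
  have m3 : (N : ℝ) / L ^ (A + B + 4) ≤ M / 100 := by
    rw [hM, div_div]
    refine div_le_div_of_nonneg_left hNpos.le (by positivity) ?_
    have : L ^ (A + B + 4) = L ^ A * (L ^ B * L ^ 2 * L ^ 2) := by ring
    rw [this]
    refine mul_le_mul_of_nonneg_left ?_ hLA.le
    have t1 : 1 ≤ L ^ B := one_le_pow₀ hL1
    have t2 : 1 ≤ L ^ 2 := one_le_pow₀ hL1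
    have t3 : 1 ≤ L ^ B * L ^ 2 := one_le_mul_of_one_le_of_one_le t1 t2
    nlinarith
  have m35 : (N : ℝ) / L ^ (A + 2) ≤ M / 100 := by
    rw [hM, div_div]
    refine div_le_div_of_nonneg_left hNpos.le (by positivity) ?_
    rw [pow_add]
    exact mul_le_mul_of_nonneg_left hLs hLA.le
  have m4 : 2 * ((N : ℝ) / H) * (9 * (H / L ^ (C + A + 8)) ^ 2 * (H * L ^ C) / T ^ 2) ≤ M / 10 := by
    rw [hTdef, hM]
    exact fin_d4 N H L A C hNpos hH0 f1
  have m5 : 2 * ((N : ℝ) / H) * (10 * (R : ℝ) ^ 2 * (H : ℝ) ^ 2 / P * (H * L ^ C) / T ^ 2)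
      ≤ M / 10 := by
    rw [hTdef, hM]
    exact fin_d5 N H L R P A B C hNpos hH0 f1 (by linarith) (Nat.cast_nonneg R) f10 f7
  have m6 : M / L ≤ M / 10 := div_le_div_of_nonneg_left hM0.le (by norm_num) (by linarith)
  rw [m1] at hpp
  linarith

end Pool.Agent.H43.PX
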