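import Pool.Agent.H43.PX.Defs

/-!
# PX Lev: existence of the levels

`J` is the largest exponent with `2^J y ≤ N^0.1899`, `J1` the least one with `(2^J1 y)² ≥ 4 N`.
-/

set_option autoImplicit false

namespace Pool.Agent.H43.PX

open Finset
open Pool.Agent.H91.PK (ee)
open Pool.Agent.H91.EHA (Lam lamR)
open Pool.Agent.H43.MP (blk Hn idx Rn)
open Pool.Agent.H43.TP (pr)
open Pool.Agent.H43.TS (badQ)
open Pool.Agent.H76.TP (yN zz rg nu PY Adm)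
open Pool.Agent.H91.TQ (om)

private theorem Lev_ex {y : ℕ} (hy : 1 ≤ y) (b : ℝ) : ∃ J : ℕ, b < ((2 ^ (J + 1) * y : ℕ) : ℝ) := by
  obtain ⟨n, hn⟩ := exists_nat_gt b
  refine ⟨n, lt_of_lt_of_le hn ?_⟩
  have h1 : n < 2 ^ n := Nat.lt_two_pow_self
  have h2 : 2 ^ n ≤ 2 ^ (n + 1) * y := by
    calc 2 ^ n = 2 ^ n * 1 := (mul_one _).symm
      _ ≤ 2 ^ (n + 1) * y := Nat.mul_le_mul (Nat.pow_le_pow_right (by norm_num) (by omega)) hy
  exact_mod_cast (h1.le.trans h2)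

private theorem Lev_ex2 {y : ℕ} (hy : 1 ≤ y) (N : ℕ) : ∃ J : ℕ, 4 * N ≤ (2 ^ J * y) ^ 2 := by
  refine ⟨4 * N, ?_⟩
  have h1 : 4 * N < 2 ^ (4 * N) := Nat.lt_two_pow_self
  have h2 : 2 ^ (4 * N) ≤ 2 ^ (4 * N) * y := Nat.le_mul_of_pos_right _ hy
  have h3 : 1 ≤ 2 ^ (4 * N) * y := by
    have : 0 < 2 ^ (4 * N) := by positivity
    omega
  calc 4 * N ≤ 2 ^ (4 * N) * y := h1.le.trans h2
    _ = (2 ^ (4 * N) * y) * 1 := (mul_one _).symm
    _ ≤ (2 ^ (4 * N) * y) * (2 ^ (4 * N) * y) := Nat.mul_le_mul_left _ h3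
    _ = (2 ^ (4 * N) * y) ^ 2 := (sq _).symm

theorem lev_x (e1 : ℝ) (he1 : 0 < e1) (he2 : e1 ≤ 1 / 1000) : ∃ N0 : ℕ, ∀ N : ℕ, N0 ≤ N → ∃ J J1 : ℕ, LevX N (yN e1 N) J J1 := by
  have ht : Filter.Tendsto (fun N : ℕ => (N : ℝ) ^ (1 / 10000 : ℝ)) Filter.atTop Filter.atTop :=
    (tendsto_rpow_atTop (by norm_num : (0 : ℝ) < 1 / 10000)).comp tendsto_natCast_atTop_atTop
  obtain ⟨N0, hN0⟩ := Filter.eventually_atTop.mp (ht.eventually_ge_atTop 2)
  refine ⟨N0 + 1, fun N hN => ?_⟩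
  have hN1 : 1 ≤ N := by omega
  have hNR : (1 : ℝ) ≤ N := by exact_mod_cast hN1
  have hNp : (0 : ℝ) < N := by linarith
  have h2 : (2 : ℝ) ≤ (N : ℝ) ^ (1 / 10000 : ℝ) := hN0 N (by omega)
  set y : ℕ := yN e1 N with hyd
  have hy1 : 1 ≤ y := by
    rw [hyd]
    unfold yN
    rw [Nat.one_le_floor_iff]
    exact Real.one_le_rpow hNR he1.le
  have hyle : (y : ℝ) ≤ (N : ℝ) ^ e1 := by
    rw [hyd]
    unfold yN
    exact Nat.floor_le (Real.rpow_nonneg hNp.le _)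
  set b : ℝ := (N : ℝ) ^ (1899 / 10000 : ℝ) with hb
  have hyb : (y : ℝ) ≤ b := hyle.trans (Real.rpow_le_rpow_of_exponent_le hNR (by linarith))
  have hab : 2 * (N : ℝ) ^ (1898 / 10000 : ℝ) ≤ b := by
    have h3 : b = (N : ℝ) ^ (1 / 10000 : ℝ) * (N : ℝ) ^ (1898 / 10000 : ℝ) := by
      rw [hb, ← Real.rpow_add hNp]
      norm_num
    rw [h3]
    exact mul_le_mul_of_nonneg_right h2 (Real.rpow_nonneg hNp.le _)
  have hb2 : b ^ 2 ≤ N := by
    have h3 : b ^ 2 = (N : ℝ) ^ (1899 / 5000 : ℝ) := by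
      rw [hb, ← Real.rpow_natCast, ← Real.rpow_mul hNp.le]
      norm_num
    rw [h3]
    calc (N : ℝ) ^ (1899 / 5000 : ℝ) ≤ (N : ℝ) ^ (1 : ℝ) := Real.rpow_le_rpow_of_exponent_le hNR (by norm_num)
      _ = N := Real.rpow_one _
  have hbn : 0 ≤ b := Real.rpow_nonneg hNp.le _
  classical
  have hex := Lev_ex hy1 b
  have hex2 := Lev_ex2 hy1 N
  have hJs : b < ((2 ^ (Nat.find hex + 1) * y : ℕ) : ℝ) := Nat.find_spec hex
  have hJ1s : 4 * N ≤ (2 ^ (Nat.find hex2) * y) ^ 2 := Nat.find_spec hex2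
  have hJle : ((2 ^ (Nat.find hex) * y : ℕ) : ℝ) ≤ b := by
    rcases Nat.eq_zero_or_pos (Nat.find hex) with h0 | h0
    · rw [h0, pow_zero, one_mul]
      exact hyb
    · have h3 := Nat.find_min hex (m := Nat.find hex - 1) (by omega)
      rw [not_lt, Nat.sub_add_cancel h0] at h3
      exact h3
  refine ⟨Nat.find hex, Nat.find hex2, ?_, ?_, ?_, ?_, ?_⟩
  · by_contra hlt
    rw [not_le] at hlt
    have h3 : 2 ^ (Nat.find hex2) * y ≤ 2 ^ (Nat.find hex) * y :=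
      Nat.mul_le_mul_right _ (Nat.pow_le_pow_right (by norm_num) hlt.le)
    have h4 : ((2 ^ (Nat.find hex2) * y : ℕ) : ℝ) ≤ b := le_trans (by exact_mod_cast h3) hJle
    have h5 : ((2 ^ (Nat.find hex2) * y : ℕ) : ℝ) ^ 2 ≤ N := le_trans (pow_le_pow_left₀ (by positivity) h4 2) hb2
    have h6 : (2 ^ (Nat.find hex2) * y) ^ 2 ≤ N := by exact_mod_cast h5
    omega
  · unfold zz
    have h3 : ((2 ^ (Nat.find hex + 1) * y : ℕ) : ℝ) = 2 * ((2 ^ (Nat.find hex) * y : ℕ) : ℝ) := by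
      push_cast
      ring
    rw [h3] at hJs
    linarith
  · unfold zz
    exact hJle
  · unfold zz
    exact hJ1s
  · unfold zz
    rcases Nat.eq_zero_or_pos (Nat.find hex2) with h0 | h0
    · rw [h0, pow_zero, one_mul]
      have h3 : (y : ℝ) ^ 2 ≤ N := le_trans (pow_le_pow_left₀ (by positivity) hyb 2) hb2
      have h4 : y ^ 2 ≤ N := by exact_mod_cast h3
      omega
    · have h3 := Nat.find_min hex2 (m := Nat.find hex2 - 1) (by omega)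
      rw [not_le] at h3
      have h4 : 2 ^ (Nat.find hex2) = 2 * 2 ^ (Nat.find hex2 - 1) := by
        rw [← pow_succ', Nat.sub_add_cancel h0]
      have h5 : (2 ^ (Nat.find hex2) * y) ^ 2 = 4 * (2 ^ (Nat.find hex2 - 1) * y) ^ 2 := by
        rw [h4]
        ring
      rw [h5]
      omega

end Pool.Agent.H43.PX
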