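import Pool.Agent.H43.MP.Lnk
import Pool.Agent.H53.MIX.LfuX
import Pool.Agent.H53.MDB.Final
import Pool.Agent.H53.MID.SwH
import Pool.Agent.H76.VKT.Main

/-!
# PX LfuG: the local Fourier uniformity for all `exp(L^t) ≤ P ≤ N^(θ/20)`, `t > 2/3` (projects MIX, MDB, MDX, VKT)
-/

set_option autoImplicit false

namespace Pool.Agent.H43.PX

open Finset
open Pool.Agent.H91.PK (ee)
open Pool.Agent.H91.EHA (Lam hR lamR ramS)
open Pool.Agent.H35.W (pb)
open Pool.Agent.H43.MP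
open Pool.Agent.H53.MIX

/-- the local Fourier uniformity with the parameters of this project -/
theorem badL_g (θ t : ℝ) (h0 : 0 < θ) (h1 : θ ≤ 1 / 4) (ht : 2 / 3 < t) (ht1 : t < 1) (A : ℕ) :
    ∃ B N0 : ℕ, ∀ N : ℕ, N0 ≤ N → ∀ P : ℕ, Real.exp (Real.log N ^ t) ≤ P → P ≤ Pn θ N →
      ((badL N (Hn θ N) P (Rn B N) A).card : ℝ) ≤ (N : ℝ) / (Hn θ N) / Real.log N ^ A := by
  classical
  have e1 : 2 / 3 < 2 / 3 + (t - 2 / 3) / 4 := by linarith
  have e2 : 2 / 3 + (t - 2 / 3) / 4 < 1 := by linarith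
  have hVK : VKw (2 / 3 + (t - 2 / 3) / 4) := fun K B => Pool.Agent.H76.VKT.vk_class_t _ e1 e2 K B
  have hVE : VKe (2 / 3 + (t - 2 / 3) / 4) := fun A => Pool.Agent.H76.VKT.vk_exp_t _ e1 e2 A
  have hCX : CombX t (2 / 3) :=
    Pool.Agent.H53.MDB.comb_x_all (2 / 3 + (t - 2 / 3) / 4) _ _ (by linarith) (by linarith) (by linarith)
      (by linarith) (by linarith) hVE
  obtain ⟨B, hB⟩ := lfu_x t (2 / 3 + (t - 2 / 3) / 4) (2 / 3) (by linarith) (by linarith) ht1 (by norm_num) ht hVK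
    Pool.Agent.H53.MID.sw_holds hCX A
  obtain ⟨N1, hN1⟩ := hB B le_rfl
  obtain ⟨x2, hx2⟩ := Pool.Agent.H76.GB.log_pow_le (3 * θ / 4) 2 (by positivity) (by norm_num) 0
  refine ⟨B, max N1 (max x2 1), fun N hN P hPt hPn => ?_⟩
  simp only [max_le_iff] at hN
  obtain ⟨g1, g3, g4⟩ := hN
  have g3 := hx2 N g3
  rw [pow_zero, mul_one] at g3
  have hNr : (1 : ℝ) ≤ N := by exact_mod_cast g4
  have hN0 : (0 : ℝ) < N := by linarith
  have p2 : (P : ℝ) ≤ (N : ℝ) ^ (θ / 20) := by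
    have t1 : (Pn θ N : ℝ) ≤ (N : ℝ) ^ (θ / 20) := Nat.floor_le (by positivity)
    exact le_trans (by exact_mod_cast hPn) t1
  have q1 : (N : ℝ) ^ θ < Hn θ N + 1 := Nat.lt_floor_add_one _
  have q2 : (Hn θ N : ℝ) ≤ (N : ℝ) ^ θ := Nat.floor_le (by positivity)
  have h3 : P ^ 5 ≤ Hn θ N := by
    have t2 : ((P : ℕ) : ℝ) ^ 5 ≤ (N : ℝ) ^ (θ / 4) := by
      refine (pow_le_pow_left₀ (Nat.cast_nonneg _) p2 5).trans (le_of_eq ?_)
      rw [← Real.rpow_natCast, ← Real.rpow_mul hN0.le]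
      congr 1
      push_cast
      ring
    have t3 : (N : ℝ) ^ θ = (N : ℝ) ^ (θ / 4) * (N : ℝ) ^ (3 * θ / 4) := by
      rw [← Real.rpow_add hN0]
      congr 1
      ring
    have t4 : (1 : ℝ) ≤ (N : ℝ) ^ (θ / 4) := Real.one_le_rpow hNr (by positivity)
    have t5 : ((P : ℕ) : ℝ) ^ 5 ≤ Hn θ N := by nlinarith
    exact_mod_cast t5
  have h4 : Hn θ N ^ 2 ≤ N := by
    have t2 : ((Hn θ N : ℕ) : ℝ) ^ 2 ≤ N := by
      refine (pow_le_pow_left₀ (Nat.cast_nonneg _) q2 2).trans ?_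
      rw [← Real.rpow_natCast, ← Real.rpow_mul hN0.le]
      refine (Real.rpow_le_rpow_of_exponent_le hNr (?_ : θ * ((2 : ℕ) : ℝ) ≤ 1)).trans (le_of_eq ?_)
      · push_cast
        linarith
      · rw [Real.rpow_one]
    exact_mod_cast t2
  have h5 := hN1 N g1 (Hn θ N) P hPt h3 h4
  refine le_trans ?_ h5
  norm_cast
  refine card_le_card ?_
  intro i hi
  unfold badL at hi
  unfold Pool.Agent.H53.MID.badB Pool.Agent.H53.MID.Bs
  simp only [mem_filter] at hi ⊢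
  obtain ⟨hi1, α, hα⟩ := hi
  refine ⟨?_, α, ?_⟩
  · unfold idx at hi1
    rw [mem_Icc] at hi1 ⊢
    exact ⟨hi1.1, hi1.2.trans (Nat.div_le_div_right (by omega))⟩
  · refine lt_of_lt_of_le hα (le_of_eq ?_)
    unfold blk Rn
    congr 1
    refine sum_congr rfl fun m _ => ?_
    rw [mul_comm α (m : ℝ)]
    rfl

end Pool.Agent.H43.PX
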