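import Pool.Agent.H43.PX.Defs
import Pool.Agent.H91.PK.LSa
import Pool.Agent.H91.EHA.SwK2

/-!
# PROJECT PX, row LsVar: type I sums in almost all windows

For `r ≤ D` with `gcd(r, d) ∣ a` the conditions `r ∣ n`, `n ≡ a (mod d)` are together `lcm(r, d) ∣ n + A r`;
this is expanded in additive characters. The error term of a window is then a sum over reduced fractions
`b/s`, `2 ≤ s ≤ dD`, and its mean square is bounded by the dual of the additive large sieve.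
-/

set_option autoImplicit false

namespace Pool.Agent.H43.PX

open Finset
open Pool.Agent.H91.PK (ee additive_ls)
open Pool.Agent.H91.EHA (ramS ramS_eq)

/-! ### exponentials -/

private theorem ls_ee (t : ℝ) : ee t = Pool.Agent.H92.EH.e t := by
  unfold ee Pool.Agent.H92.EH.e
  congr 1
  push_cast
  ring

private theorem ls_add (s t : ℝ) : ee (s + t) = ee s * ee t := by
  unfold ee
  rw [← Complex.exp_add]
  congr 1
  push_cast
  ring

private theorem ls_norm (t : ℝ) : ‖ee t‖ = 1 := by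
  rw [ls_ee, Pool.Agent.H92.EH.norm_e]

/-- the exponential sum over `1 ≤ n ≤ H` -/
private noncomputable def lsK (H : ℕ) (t : ℝ) : ℂ := ∑ n ∈ Icc 1 H, ee (n * t)

private theorem ls_shift (H x : ℕ) (t : ℝ) :
    ∑ n ∈ Ioc x (x + H), ee (n * t) = ee (x * t) * lsK H t := by
  have h1 : Ioc x (x + H) = Ico (1 + x) (H + 1 + x) := by
    ext n
    rw [mem_Ioc, mem_Ico]
    omega
  have h2 : Icc 1 H = Ico 1 (H + 1) := by
    ext n
    rw [mem_Icc, mem_Ico]
    omega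
  unfold lsK
  rw [h1, h2, ← sum_Ico_add' (fun n : ℕ => ee (n * t)) 1 (H + 1) x, mul_sum]
  refine sum_congr rfl fun n _ => ?_
  rw [← ls_add]
  congr 1
  push_cast
  ring

private theorem ls_triv (H : ℕ) (t : ℝ) : ‖lsK H t‖ ≤ H := by
  unfold lsK
  refine (norm_sum_le _ _).trans ?_
  rw [sum_congr rfl fun n _ => ls_norm _, sum_const, Nat.card_Icc]
  simp

private theorem ls_geom (H : ℕ) (t δ : ℝ) (hδ : 0 < δ) (h : ∀ m : ℤ, δ ≤ |t - m|) :
    ‖lsK H t‖ ≤ 1 / (2 * δ) := by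
  have h3 := Pool.Agent.H92.EH.le_norm_e_sub_one h
  have h1 : lsK H t = Pool.Agent.H92.EH.e t *
        ∑ n ∈ range H, Pool.Agent.H92.EH.e t ^ n := by
    have h2 : Icc 1 H = Ico 1 (H + 1) := by
      ext n
      rw [mem_Icc, mem_Ico]
      omega
    unfold lsK
    rw [h2, sum_Ico_eq_sum_range, mul_sum]
    refine sum_congr (by simp) fun n _ => ?_
    rw [ls_ee, ← Pool.Agent.H92.EH.e_nat_mul, ← Pool.Agent.H92.EH.e_add]
    congr 1
    push_cast
    ring
  have h2 : (∑ n ∈ range H, Pool.Agent.H92.EH.e t ^ n) *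
      (Pool.Agent.H92.EH.e t - 1) = Pool.Agent.H92.EH.e t ^ H - 1 :=
    geom_sum_mul _ _
  have h4 : ‖(∑ n ∈ range H, Pool.Agent.H92.EH.e t ^ n)‖ *
      ‖Pool.Agent.H92.EH.e t - 1‖ ≤ 2 := by
    rw [← norm_mul, h2]
    refine (norm_sub_le _ _).trans ?_
    rw [norm_pow, Pool.Agent.H92.EH.norm_e, one_pow, norm_one]
    norm_num
  rw [h1, norm_mul, Pool.Agent.H92.EH.norm_e, one_mul, le_div_iff₀ (by positivity)]
  have h5 : ‖(∑ n ∈ range H, Pool.Agent.H92.EH.e t ^ n)‖ * (4 * δ) ≤ 2 :=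
    (mul_le_mul_of_nonneg_left h3 (norm_nonneg _)).trans h4
  linarith

/-- `‖K(t)‖ ≤ s/(k + s/(2H))` if `t` has distance at least `k/s` from the integers -/
private theorem ls_K1 (H s k : ℕ) (t : ℝ) (hH : 1 ≤ H) (hs : 1 ≤ s) (hk : 1 ≤ k)
    (h : ∀ m : ℤ, (k : ℝ) / s ≤ |t - m|) :
    ‖lsK H t‖ ≤ s / (k + s / (2 * H)) := by
  have hH0 : (0 : ℝ) < H := by exact_mod_cast hH
  have hs0 : (0 : ℝ) < s := by exact_mod_cast hs
  have hk0 : (0 : ℝ) < k := by exact_mod_cast hk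
  rcases le_total ((s : ℝ) / (2 * H)) k with h1 | h1
  · have h2 := ls_geom H t (k / s) (by positivity) h
    refine h2.trans ?_
    have h3 : 1 / (2 * ((k : ℝ) / s)) = s / (2 * k) := by
      field_simp
    rw [h3]
    apply div_le_div_of_nonneg_left hs0.le (by positivity)
    linarith
  · refine (ls_triv H t).trans ?_
    rw [le_div_iff₀ (by positivity)]
    have h2 : (H : ℝ) * (k + s / (2 * H)) = H * k + s / 2 := by
      field_simp
    rw [h2]
    rw [le_div_iff₀ (by positivity)] at h1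
    linarith

/-- the majorant -/
private noncomputable def lsg (H s k : ℕ) : ℝ :=
  (s : ℝ) ^ 2 / ((k + s / (2 * H)) * (k + 1 + s / (2 * H)))

private theorem ls_g_nonneg (H s k : ℕ) : 0 ≤ lsg H s k := by
  unfold lsg
  positivity

private theorem ls_tel (lam : ℝ) (hl : 0 < lam) (n : ℕ) :
    ∑ i ∈ range n, 1 / (((i : ℝ) + lam) * (i + 1 + lam)) = 1 / lam - 1 / (n + lam) := by
  induction n with
  | zero => simp
  | succ n ih =>
    rw [sum_range_succ, ih]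
    have h1 : (0 : ℝ) < n + lam := by positivity
    have h2 : (0 : ℝ) < n + 1 + lam := by positivity
    push_cast
    field_simp
    ring

private theorem ls_gsum (H s : ℕ) (hH : 1 ≤ H) (hs : 1 ≤ s) (n : ℕ) :
    ∑ i ∈ range n, lsg H s i ≤ 2 * H * s := by
  have hH0 : (0 : ℝ) < H := by exact_mod_cast hH
  have hs0 : (0 : ℝ) < s := by exact_mod_cast hs
  have hl : (0 : ℝ) < s / (2 * H) := by positivity
  have h1 : ∑ i ∈ range n, lsg H s i = (s : ℝ) ^ 2 *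
      ∑ i ∈ range n, 1 / (((i : ℝ) + s / (2 * H)) * (i + 1 + s / (2 * H))) := by
    rw [mul_sum]
    refine sum_congr rfl fun i _ => ?_
    unfold lsg
    rw [mul_one_div]
  rw [h1, ls_tel _ hl]
  have h2 : 0 ≤ 1 / ((n : ℝ) + s / (2 * H)) := by positivity
  calc (s : ℝ) ^ 2 * (1 / (s / (2 * H)) - 1 / (n + s / (2 * H)))
      ≤ (s : ℝ) ^ 2 * (1 / (s / (2 * H))) := by
        apply mul_le_mul_of_nonneg_left _ (by positivity)
        linarith
    _ = (2 : ℝ) * H * s := by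
        field_simp

private theorem ls_K2 (H s b : ℕ) (hH : 1 ≤ H) (hb : 1 ≤ b) (hbs : b < s) :
    ‖lsK H ((b : ℝ) / s)‖ ^ 2 ≤ lsg H s (b - 1) + lsg H s (s - b - 1) := by
  have hs : 1 ≤ s := by omega
  have hH0 : (0 : ℝ) < H := by exact_mod_cast hH
  have hs0 : (0 : ℝ) < s := by exact_mod_cast hs
  have key : ∀ k : ℕ, 1 ≤ k → k ≤ b → k ≤ s - b →
      ‖lsK H ((b : ℝ) / s)‖ ^ 2 ≤ lsg H s (k - 1) := by
    intro k hk h1 h2
    have hk0 : (0 : ℝ) < k := by exact_mod_cast hk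
    have h3 : ∀ m : ℤ, (k : ℝ) / s ≤ |(b : ℝ) / s - m| := by
      intro m
      rcases le_or_gt m 0 with hm | hm
      · have hm' : (m : ℝ) ≤ 0 := by exact_mod_cast hm
        have h4 : (k : ℝ) / s ≤ b / s := by
          apply div_le_div_of_nonneg_right _ hs0.le
          exact_mod_cast h1
        refine le_trans ?_ (le_abs_self _)
        linarith
      · have hm' : (1 : ℝ) ≤ m := by exact_mod_cast hm
        have h5 : (k : ℝ) ≤ s - b := by
          have : k + b ≤ s := by omega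
          have h6 : ((k + b : ℕ) : ℝ) ≤ s := by exact_mod_cast this
          push_cast at h6
          linarith
        have h4 : (k : ℝ) / s ≤ 1 - b / s := by
          rw [div_le_iff₀ hs0, sub_mul, div_mul_cancel₀ _ hs0.ne']
          linarith
        refine le_trans ?_ (neg_le_abs _)
        linarith
    have h4 := ls_K1 H s k _ hH hs hk h3
    have h5 : ‖lsK H ((b : ℝ) / s)‖ ^ 2 ≤ (s / (k + s / (2 * H))) ^ 2 := by
      gcongr
    refine h5.trans ?_
    unfold lsg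
    rw [div_pow]
    have h6 : ((k - 1 : ℕ) : ℝ) = k - 1 := by
      push_cast [Nat.cast_sub hk]
      ring
    have hl : (0 : ℝ) < s / (2 * H) := by positivity
    have hk1 : (1 : ℝ) ≤ k := by exact_mod_cast hk
    apply div_le_div_of_nonneg_left (by positivity)
    · rw [h6]
      have : 0 < (k : ℝ) - 1 + s / (2 * H) := by linarith
      have : 0 < (k : ℝ) - 1 + 1 + s / (2 * H) := by linarith
      positivity
    · rw [h6, sq]
      apply mul_le_mul _ (by linarith) (by linarith) (by linarith)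
      linarith
  rcases le_total b (s - b) with h | h
  · have := key b hb le_rfl h
    have h2 := ls_g_nonneg H s (s - b - 1)
    linarith
  · have := key (s - b) (by omega) h le_rfl
    have h2 := ls_g_nonneg H s (b - 1)
    linarith

private theorem ls_K3 (H s : ℕ) (hH : 1 ≤ H) (hs : 2 ≤ s) :
    ∑ b ∈ (Icc 1 s).filter (fun b => Nat.Coprime b s), ‖lsK H ((b : ℝ) / s)‖ ^ 2 ≤ 4 * H * s := by
  have h1 : ∑ b ∈ (Icc 1 s).filter (fun b => Nat.Coprime b s), ‖lsK H ((b : ℝ) / s)‖ ^ 2 ≤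
      ∑ b ∈ Ico 1 s, (lsg H s (b - 1) + lsg H s (s - b - 1)) := by
    refine (sum_le_sum_of_subset_of_nonneg (t := Ico 1 s) ?_ fun b _ _ => by positivity).trans
      (sum_le_sum fun b hb => ?_)
    · intro b hb
      rw [mem_filter, mem_Icc] at hb
      rw [mem_Ico]
      refine ⟨hb.1.1, lt_of_le_of_ne hb.1.2 ?_⟩
      rintro rfl
      have := hb.2
      rw [Nat.coprime_self] at this
      omega
    · rw [mem_Ico] at hb
      exact ls_K2 H s b hH hb.1 hb.2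
  refine h1.trans ?_
  rw [sum_add_distrib, sum_Ico_eq_sum_range, sum_Ico_eq_sum_range]
  have h2 : ∑ i ∈ range (s - 1), lsg H s (1 + i - 1) = ∑ i ∈ range (s - 1), lsg H s i := by
    refine sum_congr rfl fun i _ => ?_
    congr 1
    omega
  have h3 : ∑ i ∈ range (s - 1), lsg H s (s - (1 + i) - 1) = ∑ i ∈ range (s - 1), lsg H s i := by
    rw [← sum_range_reflect (fun i => lsg H s i) (s - 1)]
    refine sum_congr rfl fun i _ => ?_
    congr 1
    omega
  rw [h2, h3]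
  have h4 := ls_gsum H s hH (by omega) (s - 1)
  linarith

/-! ### duality -/

private theorem ls_dual (R M : ℕ) (z : ℕ → ℕ → ℂ) (E : ℕ → ℝ)
    (hE : ∀ x ∈ Ioc 0 (0 + M), (E x : ℂ) = ∑ s ∈ Icc 1 R,
      ∑ b ∈ (Icc 1 s).filter (fun b => Nat.Coprime b s), z s b * ee ((x : ℝ) * b / s)) :
    ∑ x ∈ Ioc 0 (0 + M), E x ^ 2 ≤ ((R : ℝ) ^ 2 + Real.pi * M) *
      ∑ s ∈ Icc 1 R, ∑ b ∈ (Icc 1 s).filter (fun b => Nat.Coprime b s), ‖z s b‖ ^ 2 := by
  set S : ℝ := ∑ x ∈ Ioc 0 (0 + M), E x ^ 2 with hS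
  have hS0 : 0 ≤ S := sum_nonneg fun _ _ => sq_nonneg _
  set T : ℕ → ℕ → ℂ := fun s b => ∑ x ∈ Ioc 0 (0 + M), (E x : ℂ) * ee ((x : ℝ) * b / s) with hT
  have h1 : (S : ℂ) = ∑ s ∈ Icc 1 R,
      ∑ b ∈ (Icc 1 s).filter (fun b => Nat.Coprime b s), z s b * T s b := by
    have h2 : (S : ℂ) = ∑ x ∈ Ioc 0 (0 + M), (E x : ℂ) * ∑ s ∈ Icc 1 R,
        ∑ b ∈ (Icc 1 s).filter (fun b => Nat.Coprime b s), z s b * ee ((x : ℝ) * b / s) := by
      rw [hS]
      push_cast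
      refine sum_congr rfl fun x hx => ?_
      rw [← hE x hx, sq]
    rw [h2]
    simp only [mul_sum, hT]
    rw [sum_comm]
    refine sum_congr rfl fun s _ => ?_
    rw [sum_comm]
    refine sum_congr rfl fun b _ => sum_congr rfl fun x _ => ?_
    ring
  have h3 : S ≤ ∑ s ∈ Icc 1 R,
      ∑ b ∈ (Icc 1 s).filter (fun b => Nat.Coprime b s), ‖z s b‖ * ‖T s b‖ := by
    have h4 : ‖(S : ℂ)‖ = S := by
      rw [Complex.norm_real, Real.norm_eq_abs, abs_of_nonneg hS0]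
    rw [← h4, h1]
    refine (norm_sum_le _ _).trans (sum_le_sum fun s _ => (norm_sum_le _ _).trans
      (sum_le_sum fun b _ => ?_))
    rw [norm_mul]
  have h5 : S ^ 2 ≤ (∑ s ∈ Icc 1 R, ∑ b ∈ (Icc 1 s).filter (fun b => Nat.Coprime b s), ‖z s b‖ ^ 2) *
      (∑ s ∈ Icc 1 R, ∑ b ∈ (Icc 1 s).filter (fun b => Nat.Coprime b s), ‖T s b‖ ^ 2) := by
    refine (pow_le_pow_left₀ hS0 h3 2).trans ?_
    rw [sum_sigma', sum_sigma', sum_sigma']
    exact sum_mul_sq_le_sq_mul_sq _ _ _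
  have h6 : ∑ s ∈ Icc 1 R, ∑ b ∈ (Icc 1 s).filter (fun b => Nat.Coprime b s), ‖T s b‖ ^ 2 ≤
      ((R : ℝ) ^ 2 + Real.pi * M) * S := by
    refine (additive_ls R 0 M (fun x => (E x : ℂ))).trans (le_of_eq ?_)
    congr 1
    rw [hS]
    refine sum_congr rfl fun x _ => ?_
    rw [Complex.norm_real, Real.norm_eq_abs, sq_abs]
  set Z : ℝ := ∑ s ∈ Icc 1 R, ∑ b ∈ (Icc 1 s).filter (fun b => Nat.Coprime b s), ‖z s b‖ ^ 2 with hZ
  have hZ0 : 0 ≤ Z := sum_nonneg fun _ _ => sum_nonneg fun _ _ => by positivity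
  have hp := Real.pi_pos
  rcases hS0.eq_or_lt with h7 | h7
  · rw [← h7]
    positivity
  · have h8 : S * S ≤ (((R : ℝ) ^ 2 + Real.pi * M) * Z) * S := by
      calc S * S = S ^ 2 := (sq S).symm
        _ ≤ Z * (((R : ℝ) ^ 2 + Real.pi * M) * S) := h5.trans (mul_le_mul_of_nonneg_left h6 hZ0)
        _ = _ := by ring
    exact le_of_mul_le_mul_right h8 h7

/-! ### the congruences -/

private theorem ls_crt (r d a : ℕ) (hd : 1 ≤ d) (h : Nat.gcd r d ∣ a) :
    ∃ A : ℕ, ∀ n : ℕ, (r ∣ n ∧ n % d = a % d) ↔ Nat.lcm r d ∣ n + A := by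
  have h0 : 0 ≡ a * (d - 1) [MOD Nat.gcd r d] := by
    refine (Nat.modEq_zero_iff_dvd.2 ?_).symm
    exact h.mul_right _
  obtain ⟨A, h1, h2⟩ := Nat.chineseRemainder' h0
  refine ⟨A, fun n => ?_⟩
  have h3 : r ∣ A := (Nat.modEq_zero_iff_dvd.1 h1)
  have h4 : a + A ≡ 0 [MOD d] := by
    have h5 : a + A ≡ a + a * (d - 1) [MOD d] := Nat.ModEq.add_left a h2
    refine h5.trans ?_
    refine Nat.modEq_zero_iff_dvd.2 ⟨a, ?_⟩
    obtain ⟨e, rfl⟩ : ∃ e, d = e + 1 := ⟨d - 1, by omega⟩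
    rw [Nat.add_sub_cancel]
    ring
  have h5 : n % d = a % d ↔ d ∣ n + A := by
    rw [← Nat.modEq_zero_iff_dvd]
    constructor
    · intro h6
      have h7 : n ≡ a [MOD d] := h6
      exact (Nat.ModEq.add_right A h7).trans h4
    · intro h6
      have h7 : n + A ≡ a + A [MOD d] := h6.trans h4.symm
      exact Nat.ModEq.add_right_cancel' A h7
  have h8 : r ∣ n ↔ r ∣ n + A := (Nat.dvd_add_left h3).symm
  rw [h5, h8]
  exact ⟨fun h6 => Nat.lcm_dvd h6.1 h6.2, fun h6 => ⟨(Nat.dvd_lcm_left r d).trans h6,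
    (Nat.dvd_lcm_right r d).trans h6⟩⟩

private theorem ls_none (r d a n : ℕ) (h : ¬ Nat.gcd r d ∣ a) : ¬ (r ∣ n ∧ n % d = a % d) := by
  rintro ⟨h1, h2⟩
  apply h
  have h3 : Nat.gcd r d ∣ n := (Nat.gcd_dvd_left r d).trans h1
  have h4 : n ≡ a [MOD Nat.gcd r d] := Nat.ModEq.of_dvd (Nat.gcd_dvd_right r d) h2
  exact Nat.modEq_zero_iff_dvd.1 (h4.symm.trans (Nat.modEq_zero_iff_dvd.2 h3))

private theorem ls_div (m : ℕ) (n : ℕ) (hn : 0 < n) :
    ∑ q ∈ n.divisors, ramS q m = if n ∣ m then (n : ℝ) else 0 := by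
  refine (ArithmeticFunction.sum_eq_iff_sum_mul_moebius_eq (f := fun q => ramS q m)
    (g := fun n => if n ∣ m then (n : ℝ) else 0)).2 ?_ n hn
  intro c hc
  unfold ramS
  have h1 : (Nat.gcd c m).divisors = c.divisors.filter (fun d => d ∣ m) := by
    ext d
    rw [Nat.mem_divisors, mem_filter, Nat.mem_divisors]
    constructor
    · rintro ⟨h1, h2⟩
      exact ⟨⟨h1.trans (Nat.gcd_dvd_left c m), by omega⟩, h1.trans (Nat.gcd_dvd_right c m)⟩
    · rintro ⟨⟨h1, h2⟩, h3⟩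
      refine ⟨Nat.dvd_gcd h1 h3, ?_⟩
      intro h4
      rw [Nat.gcd_eq_zero_iff] at h4
      omega
  rw [h1, sum_filter, Nat.sum_divisorsAntidiagonal' (f := fun a b : ℕ =>
    ((ArithmeticFunction.moebius a : ℤ) : ℝ) * (if b ∣ m then (b : ℝ) else 0))]
  apply sum_congr rfl
  intro d _
  by_cases h2 : d ∣ m
  · rw [if_pos h2, if_pos h2]
    ring
  · rw [if_neg h2, if_neg h2, mul_zero]

private theorem ls_one (n : ℕ) : ramS 1 n = 1 := by
  unfold ramS
  simp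

/-- the sum over a window, in terms of Ramanujan sums -/
private theorem ls_window (D d a H x : ℕ) (c : ℕ → ℝ) (A : ℕ → ℕ) (hd : 1 ≤ d)
    (hA : ∀ r, Nat.gcd r d ∣ a → ∀ n : ℕ, (r ∣ n ∧ n % d = a % d) ↔ Nat.lcm r d ∣ n + A r) :
    ∑ n ∈ (Ioc x (x + H)).filter (fun n => n % d = a % d), ∑ r ∈ (Icc 1 D).filter (fun r => r ∣ n), c r =
      ∑ s ∈ Icc 1 (d * D), ∑ r ∈ ((Icc 1 D).filter (fun r => Nat.gcd r d ∣ a)).filter (fun r => s ∣ Nat.lcm r d),
        c r / (Nat.lcm r d : ℝ) * ∑ n ∈ Ioc x (x + H), ramS s (n + A r) := by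
  have h1 : ∀ n, (if n % d = a % d then ∑ r ∈ (Icc 1 D).filter (fun r => r ∣ n), c r else 0) =
      ∑ r ∈ (Icc 1 D).filter (fun r => Nat.gcd r d ∣ a), (if Nat.lcm r d ∣ n + A r then c r else 0) := by
    intro n
    rw [sum_filter, sum_filter]
    have h2 : (if n % d = a % d then ∑ r ∈ Icc 1 D, (if r ∣ n then c r else 0) else 0) =
        ∑ r ∈ Icc 1 D, (if n % d = a % d then (if r ∣ n then c r else 0) else 0) := by
      split_ifs with h
      · rfl
      · rw [sum_const_zero]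
    rw [h2]
    refine sum_congr rfl fun r _ => ?_
    by_cases hg : Nat.gcd r d ∣ a
    · rw [if_pos hg]
      have h3 := hA r hg n
      by_cases h4 : n % d = a % d
      · by_cases h5 : r ∣ n
        · rw [if_pos h4, if_pos h5, if_pos (h3.1 ⟨h5, h4⟩)]
        · rw [if_pos h4, if_neg h5, if_neg fun h6 => h5 (h3.2 h6).1]
      · rw [if_neg h4, if_neg fun h6 => h4 (h3.2 h6).2]
    · rw [if_neg hg]
      have h3 := ls_none r d a n hg
      by_cases h4 : n % d = a % d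
      · by_cases h5 : r ∣ n
        · exact absurd ⟨h5, h4⟩ h3
        · rw [if_pos h4, if_neg h5]
      · rw [if_neg h4]
  rw [sum_filter, sum_congr rfl fun n _ => h1 n, sum_comm]
  have h2 : ∀ r ∈ (Icc 1 D).filter (fun r => Nat.gcd r d ∣ a),
      ∑ n ∈ Ioc x (x + H), (if Nat.lcm r d ∣ n + A r then c r else 0) =
      ∑ s ∈ Icc 1 (d * D), (if s ∣ Nat.lcm r d then
        c r / (Nat.lcm r d : ℝ) * ∑ n ∈ Ioc x (x + H), ramS s (n + A r) else 0) := by
    intro r hr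
    rw [mem_filter, mem_Icc] at hr
    have hm : 0 < Nat.lcm r d := Nat.lcm_pos (by omega) (by omega)
    have hm' : (0 : ℝ) < (Nat.lcm r d : ℝ) := by exact_mod_cast hm
    have hle : Nat.lcm r d ≤ d * D := by
      have h3 : Nat.lcm r d ∣ r * d := Nat.lcm_dvd_mul r d
      have h4 := Nat.le_of_dvd (Nat.mul_pos (by omega) (by omega)) h3
      calc Nat.lcm r d ≤ r * d := h4
        _ ≤ D * d := Nat.mul_le_mul_right _ hr.1.2
        _ = d * D := Nat.mul_comm _ _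
    have h3 : (Nat.lcm r d).divisors = (Icc 1 (d * D)).filter (fun s => s ∣ Nat.lcm r d) := by
      ext s
      rw [Nat.mem_divisors, mem_filter, mem_Icc]
      constructor
      · rintro ⟨h4, _⟩
        exact ⟨⟨Nat.pos_of_dvd_of_pos h4 hm, (Nat.le_of_dvd hm h4).trans hle⟩, h4⟩
      · rintro ⟨_, h4⟩
        exact ⟨h4, hm.ne'⟩
    have h5 : ∑ s ∈ Icc 1 (d * D), (if s ∣ Nat.lcm r d then
        c r / (Nat.lcm r d : ℝ) * ∑ n ∈ Ioc x (x + H), ramS s (n + A r) else 0) =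
        ∑ s ∈ (Nat.lcm r d).divisors, c r / (Nat.lcm r d : ℝ) * ∑ n ∈ Ioc x (x + H), ramS s (n + A r) := by
      rw [h3, sum_filter]
    rw [h5, ← mul_sum, sum_comm]
    have h4 : ∀ n ∈ Ioc x (x + H), ∑ s ∈ (Nat.lcm r d).divisors, ramS s (n + A r) =
        if Nat.lcm r d ∣ n + A r then (Nat.lcm r d : ℝ) else 0 := fun n _ => ls_div _ _ hm
    rw [sum_congr rfl h4, mul_sum]
    refine sum_congr rfl fun n _ => ?_
    split_ifs
    · rw [div_mul_cancel₀ _ hm'.ne']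
    · rw [mul_zero]
  rw [sum_congr rfl h2, sum_comm]
  refine sum_congr rfl fun s _ => ?_
  rw [sum_filter (fun r => s ∣ Nat.lcm r d)]

/-- the error term of a window as an exponential sum -/
private theorem ls_err (D d a H x : ℕ) (c : ℕ → ℝ) (A : ℕ → ℕ) (hD : 1 ≤ D) (hd : 1 ≤ d)
    (hA : ∀ r, Nat.gcd r d ∣ a → ∀ n : ℕ, (r ∣ n ∧ n % d = a % d) ↔ Nat.lcm r d ∣ n + A r) :
    (((∑ n ∈ (Ioc x (x + H)).filter (fun n => n % d = a % d), ∑ r ∈ (Icc 1 D).filter (fun r => r ∣ n), c r) -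
      H * den D c d a : ℝ) : ℂ) =
      ∑ s ∈ Icc 1 (d * D), ∑ b ∈ (Icc 1 s).filter (fun b => Nat.Coprime b s),
        (if s = 1 then 0 else (∑ r ∈ ((Icc 1 D).filter (fun r => Nat.gcd r d ∣ a)).filter (fun r => s ∣ Nat.lcm r d),
          ((c r / (Nat.lcm r d : ℝ) : ℝ) : ℂ) * ee ((A r : ℝ) * b / s)) * lsK H ((b : ℝ) / s)) * ee ((x : ℝ) * b / s) := by
  set V : ℕ → ℝ := fun s => ∑ r ∈ ((Icc 1 D).filter (fun r => Nat.gcd r d ∣ a)).filter (fun r => s ∣ Nat.lcm r d),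
        c r / (Nat.lcm r d : ℝ) * ∑ n ∈ Ioc x (x + H), ramS s (n + A r) with hV
  have h1 : V 1 = H * den D c d a := by
    rw [hV]
    unfold den
    simp only [one_dvd, filter_true, ls_one, sum_const, nsmul_eq_mul, mul_one]
    rw [Nat.card_Ioc, mul_sum]
    refine sum_congr rfl fun r _ => ?_
    have : x + H - x = H := by omega
    rw [this]
    ring
  have h2 : (∑ n ∈ (Ioc x (x + H)).filter (fun n => n % d = a % d), ∑ r ∈ (Icc 1 D).filter (fun r => r ∣ n), c r) -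
      H * den D c d a = ∑ s ∈ Icc 1 (d * D), (if s = 1 then 0 else V s) := by
    rw [ls_window D d a H x c A hd hA, ← h1]
    have h3 : ∑ s ∈ Icc 1 (d * D), V s = V 1 + ∑ s ∈ Icc 1 (d * D), (if s = 1 then 0 else V s) := by
      have h4 : ∀ s, V s = (if s = 1 then V s else 0) + (if s = 1 then 0 else V s) := by
        intro s
        split_ifs
        · rw [add_zero]
        · rw [zero_add]
      rw [sum_congr rfl fun s _ => h4 s, sum_add_distrib, sum_ite_eq' (Icc 1 (d * D)) 1 V,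
        if_pos (mem_Icc.2 ⟨le_rfl, Nat.mul_pos (by omega) (by omega)⟩)]
    rw [h3]
    ring
  rw [h2]
  push_cast
  refine sum_congr rfl fun s hs => ?_
  rw [mem_Icc] at hs
  by_cases h3 : s = 1
  · rw [if_pos h3]
    simp only [h3, if_true, zero_mul, sum_const_zero, Complex.ofReal_zero]
  · rw [if_neg h3]
    simp only [h3, if_false]
    have h4 : ∀ r, ((∑ n ∈ Ioc x (x + H), ramS s (n + A r) : ℝ) : ℂ) =
        ∑ b ∈ (Icc 1 s).filter (fun b => Nat.Coprime b s),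
          ee ((A r : ℝ) * b / s) * (ee ((x : ℝ) * b / s) * lsK H ((b : ℝ) / s)) := by
      intro r
      push_cast
      rw [sum_congr rfl fun n _ => ramS_eq s (n + A r) hs.1, sum_comm]
      refine sum_congr rfl fun b _ => ?_
      have h5 : (x : ℝ) * b / s = x * ((b : ℝ) / s) := by ring
      rw [h5, ← ls_shift, mul_sum]
      refine sum_congr rfl fun n _ => ?_
      rw [← ls_add]
      congr 1
      push_cast
      ring
    rw [hV]
    push_cast
    have h6 : ∀ r, ((c r : ℂ) / ((Nat.lcm r d : ℕ) : ℂ)) * ∑ n ∈ Ioc x (x + H), ((ramS s (n + A r) : ℝ) : ℂ) =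
        ∑ b ∈ (Icc 1 s).filter (fun b => Nat.Coprime b s),
          ((c r : ℂ) / ((Nat.lcm r d : ℕ) : ℂ)) * (ee ((A r : ℝ) * b / s) * (ee ((x : ℝ) * b / s) * lsK H ((b : ℝ) / s))) := by
      intro r
      have := h4 r
      push_cast at this
      rw [this, mul_sum]
    rw [sum_congr rfl fun r _ => h6 r, sum_comm]
    refine sum_congr rfl fun b _ => ?_
    rw [sum_mul, sum_mul]
    refine sum_congr rfl fun r _ => ?_
    ring

/-! ### the coefficients -/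

private noncomputable def lskap (D : ℕ) (c : ℕ → ℝ) (s : ℕ) : ℝ := ∑ r ∈ (Icc 1 D).filter (fun r => s ∣ r), |c r| / r

private theorem ls_kap_nonneg (D : ℕ) (c : ℕ → ℝ) (s : ℕ) : 0 ≤ lskap D c s :=
  sum_nonneg fun _ _ => by positivity

private theorem ls_kap_zero (D : ℕ) (c : ℕ → ℝ) (s : ℕ) (h : D < s) : lskap D c s = 0 := by
  unfold lskap
  rw [filter_eq_empty_iff.2, sum_empty]
  intro r hr h2
  rw [mem_Icc] at hr
  have := Nat.le_of_dvd (by omega) h2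
  omega

private theorem ls_dvd (r s d : ℕ) (hd : 1 ≤ d) (h : s ∣ Nat.lcm r d) : s / Nat.gcd s d ∣ r := by
  have h1 : s ∣ r * d := h.trans (Nat.lcm_dvd_mul r d)
  have hg : 0 < Nat.gcd s d := Nat.gcd_pos_of_pos_right _ (by omega)
  have h2 : Nat.Coprime (s / Nat.gcd s d) (d / Nat.gcd s d) := Nat.coprime_div_gcd_div_gcd hg
  have h3 : s / Nat.gcd s d ∣ r * (d / Nat.gcd s d) := by
    obtain ⟨u, hu⟩ := Nat.gcd_dvd_left s d
    obtain ⟨v, hv⟩ := Nat.gcd_dvd_right s d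
    have hu' : s / Nat.gcd s d = u := Nat.div_eq_of_eq_mul_right hg hu
    have hv' : d / Nat.gcd s d = v := Nat.div_eq_of_eq_mul_right hg hv
    rw [hu', hv']
    have h4 : Nat.gcd s d * u ∣ Nat.gcd s d * (r * v) := by
      have h5 : Nat.gcd s d * (r * v) = r * d := by
        calc Nat.gcd s d * (r * v) = r * (Nat.gcd s d * v) := by ring
          _ = r * d := by rw [← hv]
      rw [h5, ← hu]
      exact h1
    exact Nat.dvd_of_mul_dvd_mul_left hg h4
  exact h2.dvd_of_dvd_mul_right h3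

private theorem ls_beta (D d a : ℕ) (c : ℕ → ℝ) (hd : 1 ≤ d) (s : ℕ) (w : ℕ → ℂ) (hw : ∀ r, ‖w r‖ = 1) :
    ‖∑ r ∈ ((Icc 1 D).filter (fun r => Nat.gcd r d ∣ a)).filter (fun r => s ∣ Nat.lcm r d),
          ((c r / (Nat.lcm r d : ℝ) : ℝ) : ℂ) * w r‖ ≤ lskap D c (s / Nat.gcd s d) := by
  refine (norm_sum_le _ _).trans ?_
  unfold lskap
  have h1 : ((Icc 1 D).filter (fun r => Nat.gcd r d ∣ a)).filter (fun r => s ∣ Nat.lcm r d) ⊆
      (Icc 1 D).filter (fun r => s / Nat.gcd s d ∣ r) := by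
    intro r hr
    rw [mem_filter, mem_filter] at hr
    rw [mem_filter]
    exact ⟨hr.1.1, ls_dvd r s d hd hr.2⟩
  refine le_trans (sum_le_sum fun r hr => ?_) (sum_le_sum_of_subset_of_nonneg h1 fun r _ _ => by positivity)
  have hr1 : 1 ≤ r := (mem_Icc.1 (mem_filter.1 (mem_filter.1 hr).1).1).1
  rw [norm_mul, hw, mul_one, Complex.norm_real, Real.norm_eq_abs, abs_div, Nat.abs_cast]
  apply div_le_div_of_nonneg_left (abs_nonneg _)
  · exact_mod_cast hr1
  · have h2 : r ≤ Nat.lcm r d := Nat.le_of_dvd (Nat.lcm_pos (by omega) (by omega)) (Nat.dvd_lcm_left r d)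
    exact_mod_cast h2

private theorem ls_group (D d : ℕ) (c : ℕ → ℝ) (_hD : 1 ≤ D) (hd : 1 ≤ d) :
    ∑ s ∈ Icc 1 (d * D), (s : ℝ) * lskap D c (s / Nat.gcd s d) ^ 2 ≤
      (d : ℝ) ^ 2 * ∑ s ∈ Icc 1 D, (s : ℝ) * lskap D c s ^ 2 := by
  set F : ℕ × ℕ → ℝ := fun p => (p.1 : ℝ) * ((p.2 : ℝ) * lskap D c p.2 ^ 2) with hF
  have hF0 : ∀ p, 0 ≤ F p := fun p => by rw [hF]; positivity
  have h1 : ∑ s ∈ Icc 1 (d * D), (s : ℝ) * lskap D c (s / Nat.gcd s d) ^ 2 =
      ∑ s ∈ Icc 1 (d * D), F (Nat.gcd s d, s / Nat.gcd s d) := by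
    refine sum_congr rfl fun s hs => ?_
    rw [hF]
    show _ = ((Nat.gcd s d : ℕ) : ℝ) * (((s / Nat.gcd s d : ℕ) : ℝ) * _)
    rw [← mul_assoc]
    congr 1
    have h2 : Nat.gcd s d * (s / Nat.gcd s d) = s := Nat.mul_div_cancel' (Nat.gcd_dvd_left s d)
    exact_mod_cast h2.symm
  have hinj : Set.InjOn (fun s => (Nat.gcd s d, s / Nat.gcd s d)) (Icc 1 (d * D) : Finset ℕ) := by
    intro s _ t _ hst
    have h2 : Nat.gcd s d * (s / Nat.gcd s d) = s := Nat.mul_div_cancel' (Nat.gcd_dvd_left s d)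
    have h3 : Nat.gcd t d * (t / Nat.gcd t d) = t := Nat.mul_div_cancel' (Nat.gcd_dvd_left t d)
    have h4 := Prod.ext_iff.1 hst
    simp only at h4
    exact h2.symm.trans ((congrArg₂ (fun u v : ℕ => u * v) h4.1 h4.2).trans h3)
  have h5 : ∑ s ∈ Icc 1 (d * D), F (Nat.gcd s d, s / Nat.gcd s d) =
      ∑ p ∈ (Icc 1 (d * D)).image (fun s => (Nat.gcd s d, s / Nat.gcd s d)), F p := by
    rw [sum_image hinj]
  have h6 : (Icc 1 (d * D)).image (fun s => (Nat.gcd s d, s / Nat.gcd s d)) ⊆ Icc 1 d ×ˢ Icc 1 (d * D) := by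
    intro p hp
    rw [mem_image] at hp
    obtain ⟨s, hs, rfl⟩ := hp
    rw [mem_Icc] at hs
    have hg : 0 < Nat.gcd s d := Nat.gcd_pos_of_pos_right _ (by omega)
    rw [mem_product, mem_Icc, mem_Icc]
    refine ⟨⟨hg, Nat.le_of_dvd (by omega) (Nat.gcd_dvd_right s d)⟩, ?_, ?_⟩
    · exact Nat.div_pos (Nat.le_of_dvd (by omega) (Nat.gcd_dvd_left s d)) hg
    · exact (Nat.div_le_self _ _).trans hs.2
  rw [h1, h5]
  refine (sum_le_sum_of_subset_of_nonneg h6 fun p _ _ => hF0 p).trans ?_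
  rw [sum_product]
  have h7 : ∀ g : ℕ, ∑ t ∈ Icc 1 (d * D), F (g, t) = (g : ℝ) * ∑ s ∈ Icc 1 D, (s : ℝ) * lskap D c s ^ 2 := by
    intro g
    rw [hF, mul_sum]
    symm
    refine sum_subset (Icc_subset_Icc le_rfl (Nat.le_mul_of_pos_left D (by omega))) ?_
    intro t _ ht
    rw [mem_Icc] at ht
    have h8 : lskap D c t = 0 ∨ t = 0 := by
      by_cases h9 : t = 0
      · exact Or.inr h9
      · left
        exact ls_kap_zero D c t (by omega)
    rcases h8 with h8 | h8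
    · rw [h8]
      ring
    · rw [h8]
      push_cast
      ring
  rw [sum_congr rfl fun g _ => h7 g, ← sum_mul]
  have hS : 0 ≤ ∑ s ∈ Icc 1 D, (s : ℝ) * lskap D c s ^ 2 := sum_nonneg fun _ _ => by positivity
  refine mul_le_mul_of_nonneg_right ?_ hS
  calc ∑ g ∈ Icc 1 d, (g : ℝ) ≤ ∑ g ∈ Icc 1 d, (d : ℝ) := by
        refine sum_le_sum fun g hg => ?_
        exact_mod_cast (mem_Icc.1 hg).2
    _ = (d : ℝ) ^ 2 := by
        rw [sum_const, Nat.card_Icc, nsmul_eq_mul, sq]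
        simp

/-- **Type I sums in almost all windows.** -/
theorem ls_var : ∃ C : ℝ, 1 ≤ C ∧ ∀ (M D d a H : ℕ) (c : ℕ → ℝ), 1 ≤ M → 1 ≤ D → 1 ≤ d → 1 ≤ H →
    ∑ x ∈ Icc 1 M, ((∑ n ∈ (Ioc x (x + H)).filter (fun n => n % d = a % d), ∑ r ∈ (Icc 1 D).filter (fun r => r ∣ n), c r)
      - H * den D c d a) ^ 2 ≤
      C * (M + ((d : ℝ) * D) ^ 2) * H * (d : ℝ) ^ 2 *
        ∑ s ∈ Icc 1 D, (s : ℝ) * (∑ r ∈ (Icc 1 D).filter (fun r => s ∣ r), |c r| / r) ^ 2 := by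
  refine ⟨16, by norm_num, ?_⟩
  intro M D d a H c hM hD hd hH
  have hex : ∀ r, ∃ A : ℕ, Nat.gcd r d ∣ a → ∀ n : ℕ, (r ∣ n ∧ n % d = a % d) ↔ Nat.lcm r d ∣ n + A := by
    intro r
    by_cases h : Nat.gcd r d ∣ a
    · obtain ⟨A, hA⟩ := ls_crt r d a hd h
      exact ⟨A, fun _ => hA⟩
    · exact ⟨0, fun h' => absurd h' h⟩
  choose A hA using hex
  set z : ℕ → ℕ → ℂ := fun s b =>
    (if s = 1 then 0 else (∑ r ∈ ((Icc 1 D).filter (fun r => Nat.gcd r d ∣ a)).filter (fun r => s ∣ Nat.lcm r d),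
          ((c r / (Nat.lcm r d : ℝ) : ℝ) : ℂ) * ee ((A r : ℝ) * b / s)) * lsK H ((b : ℝ) / s)) with hz
  set E : ℕ → ℝ := fun x => (∑ n ∈ (Ioc x (x + H)).filter (fun n => n % d = a % d),
    ∑ r ∈ (Icc 1 D).filter (fun r => r ∣ n), c r) - H * den D c d a with hE
  have h1 := ls_dual (d * D) M z E (fun x _ => ls_err D d a H x c A hD hd hA)
  have h2 : Icc 1 M = Ioc 0 (0 + M) := by
    ext n
    rw [mem_Icc, mem_Ioc]
    omega
  rw [h2]
  refine h1.trans ?_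
  have hH0 : (0 : ℝ) < H := by exact_mod_cast hH
  have h3 : ∀ s ∈ Icc 1 (d * D), ∑ b ∈ (Icc 1 s).filter (fun b => Nat.Coprime b s), ‖z s b‖ ^ 2 ≤
      4 * H * ((s : ℝ) * lskap D c (s / Nat.gcd s d) ^ 2) := by
    intro s hs
    rw [mem_Icc] at hs
    by_cases h4 : s = 1
    · have h5 : ∀ b, ‖z s b‖ ^ 2 = 0 := by
        intro b
        rw [hz]
        simp [h4]
      rw [sum_congr rfl fun b _ => h5 b, sum_const_zero]
      positivity
    · have h5 : ∀ b, ‖z s b‖ ^ 2 ≤ lskap D c (s / Nat.gcd s d) ^ 2 * ‖lsK H ((b : ℝ) / s)‖ ^ 2 := by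
        intro b
        rw [hz]
        simp only [h4, if_false]
        rw [norm_mul, mul_pow]
        have h6 := ls_beta D d a c hd s (fun r => ee ((A r : ℝ) * b / s)) fun r => ls_norm _
        gcongr
      calc ∑ b ∈ (Icc 1 s).filter (fun b => Nat.Coprime b s), ‖z s b‖ ^ 2
          ≤ ∑ b ∈ (Icc 1 s).filter (fun b => Nat.Coprime b s),
              lskap D c (s / Nat.gcd s d) ^ 2 * ‖lsK H ((b : ℝ) / s)‖ ^ 2 := sum_le_sum fun b _ => h5 b
        _ = lskap D c (s / Nat.gcd s d) ^ 2 *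
              ∑ b ∈ (Icc 1 s).filter (fun b => Nat.Coprime b s), ‖lsK H ((b : ℝ) / s)‖ ^ 2 := by
            rw [mul_sum]
        _ ≤ lskap D c (s / Nat.gcd s d) ^ 2 * (4 * H * s) :=
            mul_le_mul_of_nonneg_left (ls_K3 H s hH (by omega)) (by positivity)
        _ = _ := by ring
  have h4 : ∑ s ∈ Icc 1 (d * D), ∑ b ∈ (Icc 1 s).filter (fun b => Nat.Coprime b s), ‖z s b‖ ^ 2 ≤
      4 * H * ((d : ℝ) ^ 2 * ∑ s ∈ Icc 1 D, (s : ℝ) * lskap D c s ^ 2) := by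
    refine (sum_le_sum h3).trans ?_
    rw [← mul_sum]
    exact mul_le_mul_of_nonneg_left (ls_group D d c hD hd) (by positivity)
  have hS : 0 ≤ ∑ s ∈ Icc 1 D, (s : ℝ) * lskap D c s ^ 2 := sum_nonneg fun _ _ => by positivity
  have hp : Real.pi ≤ 4 := Real.pi_le_four
  have hp0 := Real.pi_pos
  have hM0 : (0 : ℝ) < M := by exact_mod_cast hM
  have h5 : (((d * D : ℕ) : ℝ) ^ 2 + Real.pi * M) ≤ 4 * (M + ((d : ℝ) * D) ^ 2) := by
    push_cast
    nlinarith [sq_nonneg ((d : ℝ) * D)]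
  calc (((d * D : ℕ) : ℝ) ^ 2 + Real.pi * M) *
        ∑ s ∈ Icc 1 (d * D), ∑ b ∈ (Icc 1 s).filter (fun b => Nat.Coprime b s), ‖z s b‖ ^ 2
      ≤ (4 * (M + ((d : ℝ) * D) ^ 2)) * (4 * H * ((d : ℝ) ^ 2 * ∑ s ∈ Icc 1 D, (s : ℝ) * lskap D c s ^ 2)) := by
        refine mul_le_mul h5 h4 (sum_nonneg fun _ _ => sum_nonneg fun _ _ => by positivity) (by positivity)
    _ = 16 * (M + ((d : ℝ) * D) ^ 2) * H * (d : ℝ) ^ 2 * ∑ s ∈ Icc 1 D, (s : ℝ) * lskap D c s ^ 2 := by ring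

end Pool.Agent.H43.PX
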