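import Pool.Agent.H43.PX.Defs
import Pool.Agent.H9.TM.Zero
import Pool.Agent.H9.TM.Cnt

/-!
# PX MassX: the mass of the minorant `gX = rg z (1 - om)` (compare `H9/TM`, `H9/TN`)

`a = 1898/10000`, `N^a ≤ z`, `2√N ≤ w ≤ 4√N`, `u = log p/log N`, `η = 1/1000000`.  On `(x, x+l]`: `gX = 1` at the primes; at the other rough numbers `gX = 1 - om`,
and `om ≤ 5`.  Classes of the numbers with `om = k ≥ 2` (without those divisible by the square of a prime `> z`, which are rare, `MassX_rare`):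
* `om = 2`: `IsE2` (two primes near `√N`, `≤ 0.0002`) or `IsE3` (`p q r`, `u_p + u_q ≤ 1/2 + η`: `∑∑ 1/(p q log(x/(pq))) ≤ 0.1335/L`, true `0.1293`);
* `om = 3`: `p q r` with `u_p + u_q ≥ 1/2 - 2η`, `q < r`: `IsE3b` (`u_p ≤ 1/4`, `≤ 0.2058`) or `IsE3c` (`u_p > 1/4`, `≤ 0.1492`), true sum `0.3510`;
* `om = 4`: `IsE4` (`≤ 0.0332`, true `0.0265`: constant weight `1/(a³(1-3a))` and the volume `(1-4a)³/144`); `om = 5`: `IsE5` (`≤ 0.0005`).
Total `0.1337 + 2 · 0.3550 + 3 · 0.0332 + 4 · 0.0005 = 0.9453 < 0.95`.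
Pairs (`MassX_pair`): the inner sum is `(1/L) (log(t₁/(c-t₁)) - log(t₀/(c-t₀)))/c`, `c = 1 - η - u`; the logarithms have linear majorants `α + β u` (chords `MassX_chord`, tangents `MassX_tan`, `MassX_tan2`),
`1/c ≤ γ + δ u`, and the outer sum of the quadratic polynomial is `MassX_quad`.
-/

set_option autoImplicit false

namespace Pool.Agent.H43.PX

open Finset
open Pool.Agent.H76.TP (yN zz rg mert_r)
open Pool.Agent.H91.TQ (om)
open Pool.Agent.H31.EQ (gam)
open Pool.Agent.H9.TM (PE rou omz sqz cov pr_int lin_m)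

/-! ### Primes and exponents -/

private theorem MassX_mem {N : ℕ} {s t : ℝ} (hN : (1 : ℝ) < N) {p : ℕ} (hp : p ∈ PE N s t) :
    p.Prime ∧ (0 : ℝ) < p ∧ s < Real.log p / Real.log N ∧ Real.log p / Real.log N ≤ t := by
  unfold PE at hp
  rw [Finset.mem_filter, Finset.mem_Icc] at hp
  obtain ⟨⟨h1, -⟩, h2, h3, h4⟩ := hp
  have hp0 : (0 : ℝ) < p := by exact_mod_cast h1
  have hN0 : (0 : ℝ) < N := by linarith
  have hL : 0 < Real.log N := Real.log_pos hN
  refine ⟨h2, hp0, ?_, ?_⟩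
  · rw [lt_div_iff₀ hL]
    rw [Real.rpow_def_of_pos hN0, ← Real.lt_log_iff_exp_lt hp0] at h3
    linarith
  · rw [div_le_iff₀ hL]
    rw [Real.rpow_def_of_pos hN0, ← Real.log_le_iff_le_exp hp0] at h4
    linarith

private theorem MassX_memI {N : ℕ} {s t : ℝ} (hN : (1 : ℝ) < N) {p : ℕ} (hp : p.Prime)
    (h1 : s < Real.log p / Real.log N) (h2 : Real.log p / Real.log N ≤ t) (ht : t ≤ 1) : p ∈ PE N s t := by
  have hp0 : (0 : ℝ) < p := by exact_mod_cast hp.pos
  have hN0 : (0 : ℝ) < N := by linarith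
  have hL : 0 < Real.log N := Real.log_pos hN
  rw [lt_div_iff₀ hL] at h1
  rw [div_le_iff₀ hL] at h2
  have h4 : (p : ℝ) ≤ (N : ℝ) ^ t := by
    rw [Real.rpow_def_of_pos hN0, ← Real.log_le_iff_le_exp hp0]
    linarith
  have h5 : (N : ℝ) ^ t ≤ (N : ℝ) ^ (1 : ℝ) := Real.rpow_le_rpow_of_exponent_le hN.le ht
  rw [Real.rpow_one] at h5
  unfold PE
  rw [Finset.mem_filter, Finset.mem_Icc]
  refine ⟨⟨hp.one_lt.le, by exact_mod_cast h4.trans h5⟩, hp, ?_, h4⟩
  rw [Real.rpow_def_of_pos hN0, ← Real.lt_log_iff_exp_lt hp0]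
  linarith

/-- quadratic weights -/
private theorem MassX_quad (ε : ℝ) (hε : 0 < ε) : ∃ N0 : ℕ, ∀ N : ℕ, N0 ≤ N →
    ∀ a b A B C : ℝ, 1 / 10 ≤ a → a ≤ b → b ≤ 1 → |A| ≤ 100 → |B| ≤ 100 → |C| ≤ 100 →
      (∀ u ∈ Set.Icc a b, 0 ≤ A + B * u + C * u ^ 2) →
      ∑ p ∈ PE N a b, (A + B * (Real.log p / Real.log N) + C * (Real.log p / Real.log N) ^ 2) / p ≤
        A * Real.log (b / a) + B * (b - a) + C * ((b ^ 2 - a ^ 2) / 2) + ε := by
  obtain ⟨N0, hN0⟩ := mert_r (1 / 10) 300 ε (by norm_num) (by norm_num) hε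
  refine ⟨N0, fun N hN a b A B C ha hab hb hA hB hC hpos => ?_⟩
  have ha1 : 0 < a := lt_of_lt_of_le (by norm_num) ha
  have hA' := abs_le.1 hA
  have hB' := abs_le.1 hB
  have hC' := abs_le.1 hC
  have h := hN0 N hN a b (fun u => A + B * u + C * u ^ 2) ha hab hb (fun u hu => ⟨hpos u hu, ?_⟩)
    (fun u hu v hv => ?_)
  · refine h.trans (le_of_eq ?_)
    have h1 : ∫ u in a..b, (A + B * u + C * u ^ 2) / u = ∫ u in a..b, (A * (1 / u) + (B + C * u)) := by
      refine intervalIntegral.integral_congr fun u hu => ?_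
      rw [Set.uIcc_of_le hab] at hu
      have hu0 : u ≠ 0 := by
        have := hu.1
        intro h0
        linarith
      show (A + B * u + C * u ^ 2) / u = A * (1 / u) + (B + C * u)
      field_simp
      ring
    rw [h1]
    have h0 : ∀ u ∈ Set.uIcc a b, u ≠ 0 := by
      intro u hu
      rw [Set.uIcc_of_le hab] at hu
      have := hu.1
      intro h0
      linarith
    have hint : IntervalIntegrable (fun u : ℝ => A * (1 / u)) MeasureTheory.volume a b :=
      (intervalIntegral.intervalIntegrable_one_div h0 continuousOn_id).const_mul A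
    have hint2 : IntervalIntegrable (fun u : ℝ => C * u) MeasureTheory.volume a b :=
      (continuous_const.mul continuous_id).intervalIntegrable _ _
    have hint3 : IntervalIntegrable (fun u : ℝ => B + C * u) MeasureTheory.volume a b :=
      (continuous_const.add (continuous_const.mul continuous_id)).intervalIntegrable _ _
    rw [intervalIntegral.integral_add hint hint3, intervalIntegral.integral_const_mul,
      intervalIntegral.integral_add (by simp) hint2, intervalIntegral.integral_const,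
      intervalIntegral.integral_const_mul, integral_id,
      integral_one_div_of_pos ha1 (by linarith), smul_eq_mul]
    ring
  · have hu0 : 0 ≤ u := by linarith [hu.1]
    have hu1 : u ≤ 1 := by linarith [hu.2]
    have h1 : B * u ≤ 100 * 1 := mul_le_mul hB'.2 hu1 hu0 (by norm_num)
    have h2 : C * u ^ 2 ≤ 100 * 1 := mul_le_mul hC'.2 (pow_le_one₀ hu0 hu1) (by positivity) (by norm_num)
    show A + B * u + C * u ^ 2 ≤ 300
    linarith [hA'.2]
  · show |(A + B * u + C * u ^ 2) - (A + B * v + C * v ^ 2)| ≤ 300 * |u - v|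
    have e : (A + B * u + C * u ^ 2) - (A + B * v + C * v ^ 2) = (B + C * (u + v)) * (u - v) := by ring
    rw [e, abs_mul]
    refine mul_le_mul_of_nonneg_right ?_ (abs_nonneg _)
    have hu0 : 0 ≤ u := by linarith [hu.1]
    have hv0 : 0 ≤ v := by linarith [hv.1]
    have h1 : |B + C * (u + v)| ≤ |B| + |C * (u + v)| := abs_add_le _ _
    have h2 : |C * (u + v)| ≤ 100 * 2 := by
      rw [abs_mul]
      refine mul_le_mul hC ?_ (abs_nonneg _) (by norm_num)
      rw [abs_of_nonneg (by linarith)]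
      linarith [hu.2, hv.2]
    linarith

/-- the inner integral -/
private theorem MassX_int (c s t : ℝ) (hs : 0 < s) (hst : s ≤ t) (htc : t < c) :
    ∫ v in s..t, 1 / (c - v) / v = (Real.log (t / (c - t)) - Real.log (s / (c - s))) / c := by
  have hc : 0 < c := by linarith
  have hd : ∀ v ∈ Set.uIcc s t, HasDerivAt (fun v : ℝ => Real.log (v / (c - v)) / c) (1 / (c - v) / v) v := by
    intro v hv
    rw [Set.uIcc_of_le hst] at hv
    have hv0 : 0 < v := by linarith [hv.1]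
    have hv1 : 0 < c - v := by linarith [hv.2]
    have h1 : HasDerivAt (fun v : ℝ => c - v) (-1) v := by
      simpa using (hasDerivAt_id v).const_sub c
    have h2 : HasDerivAt (fun v : ℝ => v / (c - v)) ((1 * (c - v) - v * (-1)) / (c - v) ^ 2) v :=
      (hasDerivAt_id v).div h1 hv1.ne'
    have h3 := (h2.log (div_pos hv0 hv1).ne').div_const c
    refine h3.congr_deriv ?_
    have e : (1 * (c - v) - v * -1) = c := by ring
    rw [e]
    clear h3 h2 h1 hv
    generalize c - v = w at *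
    field_simp
  rw [intervalIntegral.integral_eq_sub_of_hasDerivAt hd, ← sub_div]
  apply ContinuousOn.intervalIntegrable
  rw [Set.uIcc_of_le hst]
  refine (continuousOn_const.div (continuousOn_const.sub continuousOn_id) fun v hv => ?_).div
    continuousOn_id fun v hv => ?_
  · have : 0 < c - v := by linarith [hv.2]
    exact this.ne'
  · exact (lt_of_lt_of_le hs hv.1).ne'

/-- the logarithm of the cofactor -/
private theorem MassX_log {N x : ℕ} {d : ℝ} (hL : (10 : ℝ) ^ 9 ≤ Real.log N) (hx : N ≤ 8 * x) (hd : 0 < d) :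
    Real.log N * (1 - 1 / 1000000 - Real.log d / Real.log N) ≤ Real.log ((x : ℝ) / d) := by
  have hL0 : 0 < Real.log N := by linarith [show (0 : ℝ) < 10 ^ 9 by norm_num]
  have hN0 : (0 : ℝ) < N := by
    rcases Nat.eq_zero_or_pos N with h | h
    · rw [h, Nat.cast_zero, Real.log_zero] at hL0
      exact absurd hL0 (lt_irrefl _)
    · exact_mod_cast h
  have h1 : (N : ℝ) ≤ 8 * x := by exact_mod_cast hx
  have hx0 : (0 : ℝ) < x := by linarith
  have h2 := Real.log_le_log hN0 h1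
  rw [Real.log_mul (by norm_num) hx0.ne'] at h2
  have h8 : Real.log 8 ≤ 7 := by
    have := Real.log_le_sub_one_of_pos (show (0 : ℝ) < 8 by norm_num)
    linarith
  have e : Real.log N * (1 - 1 / 1000000 - Real.log d / Real.log N) =
      Real.log N - 1 / 1000000 * Real.log N - Real.log d := by
    have e1 : Real.log N * (Real.log d / Real.log N) = Real.log d := mul_div_cancel₀ _ hL0.ne'
    rw [mul_sub, e1]
    ring
  rw [e, Real.log_div hx0.ne' hd.ne']
  have : (7 : ℝ) ≤ 1 / 1000000 * 10 ^ 9 := by norm_num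
  linarith

/-- sums over pairs -/
private theorem MassX_pair (s t A B C ε : ℝ) (t0 t1 : ℝ → ℝ) (hs : 1 / 10 ≤ s) (hst : s ≤ t) (ht : t ≤ 1)
    (hA : |A| ≤ 99) (hB : |B| ≤ 100) (hC : |C| ≤ 100) (hε : 0 < ε) (hε1 : ε ≤ 1)
    (h1 : ∀ u ∈ Set.Icc s t, 1 / 10 ≤ t0 u ∧ t0 u ≤ t1 u ∧ t1 u ≤ 1 ∧ t1 u + 1 / 5 ≤ 1 - 1 / 1000000 - u)
    (h2 : ∀ u ∈ Set.Icc s t, (Real.log (t1 u / (1 - 1 / 1000000 - u - t1 u)) -
      Real.log (t0 u / (1 - 1 / 1000000 - u - t0 u))) / (1 - 1 / 1000000 - u) ≤ A + B * u + C * u ^ 2)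
    (h3 : ∀ u ∈ Set.Icc s t, 0 ≤ A + B * u + C * u ^ 2) :
    ∃ N0 : ℕ, ∀ N : ℕ, N0 ≤ N → ∀ x : ℕ, N ≤ 8 * x → ∀ Q : ℕ → Finset ℕ,
      (∀ p ∈ PE N s t, Q p ⊆ PE N (t0 (Real.log p / Real.log N)) (t1 (Real.log p / Real.log N))) →
      ∑ p ∈ PE N s t, ∑ q ∈ Q p, 1 / (p * q * Real.log ((x : ℝ) / (p * q))) ≤
        (A * Real.log (t / s) + B * (t - s) + C * ((t ^ 2 - s ^ 2) / 2) + ε) / Real.log N := by
  obtain ⟨N1, hN1⟩ := Pool.Agent.H76.GB.log_ge (10 ^ 9)
  obtain ⟨N2, hN2⟩ := mert_r (1 / 10) 25 (ε / 20) (by norm_num) (by norm_num) (by positivity)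
  obtain ⟨N3, hN3⟩ := MassX_quad (ε / 2) (by positivity)
  refine ⟨N1 + N2 + N3 + 2, fun N hN x hx Q hQ => ?_⟩
  have hL9 := hN1 N (by omega)
  have hM := hN2 N (by omega)
  have hq := hN3 N (by omega)
  have hNr : (1 : ℝ) < N := by exact_mod_cast (by omega : 1 < N)
  have hL : 0 < Real.log N := Real.log_pos hNr
  have hA' := abs_le.1 hA
  have hinner : ∀ p ∈ PE N s t, ∑ q ∈ Q p, 1 / (p * q * Real.log ((x : ℝ) / (p * q))) ≤
      1 / Real.log N * ((A + ε / 20 + B * (Real.log p / Real.log N) + C * (Real.log p / Real.log N) ^ 2) / p) := by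
    intro p hp
    have hQp := hQ p hp
    obtain ⟨-, hp0, hu1, hu2⟩ := MassX_mem hNr hp
    obtain ⟨u, hu⟩ : ∃ u, u = Real.log p / Real.log N := ⟨_, rfl⟩
    have hpu : Real.log p = u * Real.log N := by rw [hu, div_mul_cancel₀ _ hL.ne']
    rw [← hu] at hu1 hu2 hQp ⊢
    have huI : u ∈ Set.Icc s t := ⟨hu1.le, hu2⟩
    obtain ⟨g1, g2, g3, g4⟩ := h1 u huI
    obtain ⟨c, hc⟩ : ∃ c, c = 1 - 1 / 1000000 - u := ⟨_, rfl⟩
    have hb := h2 u huI
    rw [← hc] at g4 hb
    have hin := hM (t0 u) (t1 u) (fun v => 1 / (c - v)) g1 g2 g3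
      (fun v hv => by
        have hv1 : 1 / 5 ≤ c - v := by linarith [hv.2]
        refine ⟨by positivity, ?_⟩
        show 1 / (c - v) ≤ 25
        rw [div_le_iff₀ (by linarith)]
        linarith)
      (fun v hv w hw => by
        have hv1 : 1 / 5 ≤ c - v := by linarith [hv.2]
        have hw1 : 1 / 5 ≤ c - w := by linarith [hw.2]
        have hv0 : 0 < c - v := by linarith
        have hw0 : 0 < c - w := by linarith
        show |1 / (c - v) - 1 / (c - w)| ≤ 25 * |v - w|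
        have e1 : 1 / (c - v) - 1 / (c - w) = (v - w) / ((c - v) * (c - w)) := by
          field_simp
          ring
        have e2 : 1 / 25 ≤ (c - v) * (c - w) := by
          have := mul_le_mul hv1 hw1 (by norm_num) hv0.le
          linarith
        rw [e1, abs_div, abs_of_pos (mul_pos hv0 hw0), div_le_iff₀ (mul_pos hv0 hw0)]
        have e3 := mul_le_mul_of_nonneg_left e2 (abs_nonneg (v - w))
        nlinarith [abs_nonneg (v - w)])
    rw [MassX_int c (t0 u) (t1 u) (by linarith) g2 (by linarith)] at hin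
    have hterm : ∀ q ∈ Q p, 1 / (p * q * Real.log ((x : ℝ) / (p * q))) ≤
        1 / Real.log N / p * (1 / (c - Real.log q / Real.log N) / q) := by
      intro q hqm
      obtain ⟨-, hq0, hv1, hv2⟩ := MassX_mem hNr (hQp hqm)
      obtain ⟨v, hv⟩ : ∃ v, v = Real.log q / Real.log N := ⟨_, rfl⟩
      rw [← hv] at hv1 hv2 ⊢
      have hD : 0 < c - v := by linarith
      have k1 := MassX_log hL9 hx (mul_pos hp0 hq0)
      have k2 : Real.log ((p : ℝ) * q) / Real.log N = u + v := by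
        rw [Real.log_mul hp0.ne' hq0.ne', add_div, hu, hv]
      rw [k2] at k1
      have k3 : 1 - 1 / 1000000 - (u + v) = c - v := by rw [hc]; ring
      rw [k3] at k1
      have h4 : 1 / (p * q * Real.log ((x : ℝ) / (p * q))) ≤ 1 / (p * q * (Real.log N * (c - v))) :=
        one_div_le_one_div_of_le (by positivity) (mul_le_mul_of_nonneg_left k1 (by positivity))
      refine h4.trans (le_of_eq ?_)
      field_simp
    calc ∑ q ∈ Q p, 1 / (p * q * Real.log ((x : ℝ) / (p * q)))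
        ≤ ∑ q ∈ Q p, 1 / Real.log N / p * (1 / (c - Real.log q / Real.log N) / q) := sum_le_sum hterm
      _ ≤ ∑ q ∈ PE N (t0 u) (t1 u), 1 / Real.log N / p * (1 / (c - Real.log q / Real.log N) / q) := by
          refine sum_le_sum_of_subset_of_nonneg hQp fun q hqm _ => ?_
          obtain ⟨-, hq0, hv1, hv2⟩ := MassX_mem hNr hqm
          have hD : 0 < c - Real.log q / Real.log N := by linarith
          positivity
      _ = 1 / Real.log N / p * ∑ q ∈ PE N (t0 u) (t1 u), 1 / (c - Real.log q / Real.log N) / q := by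
          rw [mul_sum]
      _ ≤ 1 / Real.log N / p * (A + ε / 20 + B * u + C * u ^ 2) := by
          refine mul_le_mul_of_nonneg_left ?_ (by positivity)
          have hin' : ∑ q ∈ PE N (t0 u) (t1 u), 1 / (c - Real.log q / Real.log N) / q ≤ _ := hin
          linarith
      _ = 1 / Real.log N * ((A + ε / 20 + B * u + C * u ^ 2) / p) := by ring
  have hout := hq s t (A + ε / 20) B C hs hst ht (by
    rw [abs_le]
    constructor <;> linarith) hB hC (fun u hu => by
    have := h3 u hu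
    linarith)
  have hlog : Real.log (t / s) ≤ 9 := by
    have h5 : t / s ≤ 10 := by
      rw [div_le_iff₀ (by linarith)]
      linarith
    have h6 := Real.log_le_sub_one_of_pos (show 0 < t / s by
      have : 0 < s := by linarith
      have : 0 < t := by linarith
      positivity)
    linarith
  calc ∑ p ∈ PE N s t, ∑ q ∈ Q p, 1 / (p * q * Real.log ((x : ℝ) / (p * q)))
      ≤ ∑ p ∈ PE N s t, 1 / Real.log N *
        ((A + ε / 20 + B * (Real.log p / Real.log N) + C * (Real.log p / Real.log N) ^ 2) / p) :=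
        sum_le_sum hinner
    _ = 1 / Real.log N * ∑ p ∈ PE N s t,
        (A + ε / 20 + B * (Real.log p / Real.log N) + C * (Real.log p / Real.log N) ^ 2) / p := by
        rw [mul_sum]
    _ ≤ 1 / Real.log N * (A * Real.log (t / s) + B * (t - s) + C * ((t ^ 2 - s ^ 2) / 2) + ε) := by
        refine mul_le_mul_of_nonneg_left (hout.trans ?_) (by positivity)
        have : ε / 20 * Real.log (t / s) ≤ ε / 20 * 9 := mul_le_mul_of_nonneg_left hlog (by positivity)
        have e : (A + ε / 20) * Real.log (t / s) = A * Real.log (t / s) + ε / 20 * Real.log (t / s) := by ring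
        rw [e]
        linarith
    _ = _ := by ring


/-! ### Logarithms -/

private theorem MassX_chord (a b u : ℝ) (ha : 0 < a) (hab : a < b) (h1 : a ≤ u) (h2 : u ≤ b) :
    Real.log a + (u - a) / (b - a) * Real.log (b / a) ≤ Real.log u := by
  have hb : 0 < b := ha.trans hab
  have hba : 0 < b - a := by linarith
  have h := (strictConcaveOn_log_Ioi.concaveOn).2 (Set.mem_Ioi.2 ha) (Set.mem_Ioi.2 hb)
    (show 0 ≤ (b - u) / (b - a) by exact div_nonneg (by linarith) hba.le)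
    (show 0 ≤ (u - a) / (b - a) by exact div_nonneg (by linarith) hba.le)
    (by field_simp; ring)
  simp only [smul_eq_mul] at h
  have e1 : (b - u) / (b - a) * a + (u - a) / (b - a) * b = u := by
    field_simp
    ring
  have e2 : (b - u) / (b - a) = 1 - (u - a) / (b - a) := by
    field_simp
    ring
  rw [e1, e2] at h
  rw [Real.log_div hb.ne' ha.ne']
  linarith

private theorem MassX_tan (c y : ℝ) (hc : 0 < c) (hy : 0 < y) : Real.log y ≤ y / c - 1 + Real.log c := by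
  have h := Real.log_le_sub_one_of_pos (div_pos hy hc)
  rw [Real.log_div hy.ne' hc.ne'] at h
  linarith

/-- the tangent of `log((1 - 2u)/u)` at `m` -/
private theorem MassX_tan2 (m u : ℝ) (hm : 1 / 4 ≤ m) (hm2 : m < 1 / 2) (hu : 1 / 4 ≤ u) (hu2 : u < 1 / 2) :
    Real.log ((1 - 2 * u) / u) ≤ Real.log ((1 - 2 * m) / m) - (u - m) / (m * (1 - 2 * m)) := by
  have hm0 : 0 < m := by linarith
  have hm1 : 0 < 1 - 2 * m := by linarith
  have hu0 : 0 < u := by linarith
  have hu1 : 0 < 1 - 2 * u := by linarith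
  obtain ⟨P, hP⟩ : ∃ P, P = (1 - 2 * u) * m := ⟨_, rfl⟩
  obtain ⟨R, hR⟩ : ∃ R, R = u * (1 - 2 * m) := ⟨_, rfl⟩
  have hP0 : 0 < P := by rw [hP]; positivity
  have hR0 : 0 < R := by rw [hR]; positivity
  have hlog : Real.log ((1 - 2 * u) / u) = Real.log ((1 - 2 * m) / m) + Real.log (P / R) := by
    rw [Real.log_div hu1.ne' hu0.ne', Real.log_div hm1.ne' hm0.ne', Real.log_div hP0.ne' hR0.ne', hP, hR,
      Real.log_mul hu1.ne' hm0.ne', Real.log_mul hu0.ne' hm1.ne']
    ring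
  have hPR : P - R = m - u := by rw [hP, hR]; ring
  rw [hlog]
  suffices h : Real.log (P / R) ≤ (m - u) / (m * (1 - 2 * m)) by
    have e : (m - u) / (m * (1 - 2 * m)) = -((u - m) / (m * (1 - 2 * m))) := by
      rw [← neg_div]
      congr 1
      ring
    linarith
  rcases le_total u m with h | h
  · -- `P ≥ R`
    have hx0 : 0 ≤ (P - R) / (P + R) := div_nonneg (by linarith) (by linarith)
    have hx1 : (P - R) / (P + R) < 1 := by
      rw [div_lt_one (by linarith)]
      linarith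
    have h1 := Real.log_div_le_sum_range_add hx0 hx1 0
    have e1 : (1 + (P - R) / (P + R)) / (1 - (P - R) / (P + R)) = P / R := by
      have h7 : P + R ≠ 0 := by linarith
      have h8 : 1 + (P - R) / (P + R) = 2 * P / (P + R) := by
        field_simp
        ring
      have h9 : 1 - (P - R) / (P + R) = 2 * R / (P + R) := by
        field_simp
        ring
      rw [h8, h9]
      field_simp
    rw [e1, Finset.sum_range_zero, zero_add, mul_zero, zero_add, pow_one] at h1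
    have e2 : (P - R) / (P + R) / (1 - ((P - R) / (P + R)) ^ 2) = (P - R) * (P + R) / (4 * P * R) := by
      have h2 : P + R ≠ 0 := by linarith
      have h3 : (P + R) ^ 2 - (P - R) ^ 2 = 4 * P * R := by ring
      have h4 : 1 - ((P - R) / (P + R)) ^ 2 = 4 * P * R / (P + R) ^ 2 := by
        rw [← h3]
        field_simp
      rw [h4]
      field_simp
    rw [e2] at h1
    have h5 : Real.log (P / R) ≤ (P - R) * (P + R) / (2 * P * R) := by
      have e3 : (P - R) * (P + R) / (2 * P * R) = 2 * ((P - R) * (P + R) / (4 * P * R)) := by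
        field_simp
        ring
      rw [e3]
      linarith
    refine h5.trans ?_
    rw [hPR, div_le_div_iff₀ (by positivity) (by positivity)]
    have h6 : 0 ≤ (m - u) * (2 * P * R - (P + R) * (m * (1 - 2 * m))) := by
      refine mul_nonneg (by linarith) ?_
      have e4 : 2 * P * R - (P + R) * (m * (1 - 2 * m)) = m * (1 - 2 * m) * ((m - u) * (4 * u - 1)) := by
        rw [hP, hR]
        ring
      rw [e4]
      refine mul_nonneg (by positivity) (mul_nonneg (by linarith) (by linarith))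
    linarith
  · have hx0 : 0 ≤ (R - P) / (R + P) := div_nonneg (by linarith) (by linarith)
    have hx1 : (R - P) / (R + P) < 1 := by
      rw [div_lt_one (by linarith)]
      linarith
    have h1 := Real.sum_range_le_log_div hx0 hx1 1
    have e1 : (1 + (R - P) / (R + P)) / (1 - (R - P) / (R + P)) = R / P := by
      have h7 : R + P ≠ 0 := by linarith
      have h8 : 1 + (R - P) / (R + P) = 2 * R / (R + P) := by
        field_simp
        ring
      have h9 : 1 - (R - P) / (R + P) = 2 * P / (R + P) := by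
        field_simp
        ring
      rw [h8, h9]
      field_simp
    rw [e1, Finset.sum_range_one] at h1
    norm_num at h1
    have h5 : Real.log (P / R) ≤ -(2 * ((R - P) / (R + P))) := by
      rw [Real.log_div hP0.ne' hR0.ne']
      rw [Real.log_div hR0.ne' hP0.ne'] at h1
      linarith
    refine h5.trans ?_
    have e5 : R - P = u - m := by linarith
    have e6 : (m - u) / (m * (1 - 2 * m)) = -((u - m) / (m * (1 - 2 * m))) := by
      rw [← neg_div]
      congr 1
      ring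
    rw [e5, e6, neg_le_neg_iff, ← mul_div_assoc, div_le_div_iff₀ (by positivity) (by positivity)]
    have h6 : 0 ≤ (u - m) * (2 * (m * (1 - 2 * m)) - (R + P)) := by
      refine mul_nonneg (by linarith) ?_
      have e4 : 2 * (m * (1 - 2 * m)) - (R + P) = (u - m) * (4 * m - 1) := by
        rw [hP, hR]
        ring
      rw [e4]
      exact mul_nonneg (by linarith) (by linarith)
    linarith

private theorem MassX_l1 : Real.log (14 / 25) ≤ -(579818 / 1000000) := by
  have h := Real.sum_range_le_log_div (x := 11 / 39) (by norm_num) (by norm_num) 5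
  norm_num [Finset.sum_range_succ] at h
  have e : Real.log (14 / 25) = -Real.log (25 / 14) := by
    rw [← Real.log_inv]
    norm_num
  rw [e]
  linarith

private theorem MassX_l2 : -(1661790 / 1000000) ≤ Real.log (1898 / 10000) := by
  have h := Real.log_div_le_sum_range_add (x := 602 / 4398) (by norm_num) (by norm_num) 4
  norm_num [Finset.sum_range_succ] at h
  have h2 := Real.log_two_lt_d9
  have e : Real.log (1898 / 10000) = -(Real.log (1250 / 949) + 2 * Real.log 2) := by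
    have e1 : (1898 / 10000 : ℝ) = (1250 / 949 * 2 ^ 2)⁻¹ := by norm_num
    rw [e1, Real.log_inv, Real.log_mul (by norm_num) (by norm_num), Real.log_pow]
    norm_num
  rw [e]
  linarith

private theorem MassX_l3 : 275889 / 1000000 ≤ Real.log ((2501 / 10000) / (1898 / 10000)) := by
  have h := Real.sum_range_le_log_div (x := 603 / 4399) (by norm_num) (by norm_num) 4
  norm_num [Finset.sum_range_succ] at h ⊢
  linarith

private theorem MassX_l4 : -(693350 / 1000000) ≤ Real.log (4999 / 10000) := by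
  have h2 := Real.log_two_lt_d9
  have h := Real.log_le_sub_one_of_pos (show (0 : ℝ) < 5000 / 4999 by norm_num)
  have e : Real.log (4999 / 10000) = -(Real.log (5000 / 4999) + Real.log 2) := by
    have e1 : (4999 / 10000 : ℝ) = (5000 / 4999 * 2)⁻¹ := by norm_num
    rw [e1, Real.log_inv, Real.log_mul (by norm_num) (by norm_num)]
  rw [e]
  norm_num at h
  linarith

private theorem MassX_l5 : 215950 / 1000000 ≤ Real.log ((6204 / 10000) / (4999 / 10000)) := by
  have h := Real.sum_range_le_log_div (x := 1205 / 11203) (by norm_num) (by norm_num) 4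
  norm_num [Finset.sum_range_succ] at h ⊢
  linarith

private theorem MassX_l6 : Real.log ((1 - 2 * (29 / 100)) / (29 / 100)) ≤ 370375 / 1000000 := by
  have h := Real.log_div_le_sum_range_add (x := 13 / 71) (by norm_num) (by norm_num) 4
  norm_num [Finset.sum_range_succ] at h ⊢
  linarith

private theorem MassX_l7 : Real.log ((1 / 4 + 1 / 1000000) / (1898 / 10000)) ≤ 275500 / 1000000 := by
  have h := Real.log_div_le_sum_range_add (x := (1 / 4 + 1 / 1000000 - 1898 / 10000) / (1 / 4 + 1 / 1000000 + 1898 / 10000))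
    (by norm_num) (by norm_num) 4
  norm_num [Finset.sum_range_succ] at h ⊢
  linarith

private theorem MassX_l8 : 275489 / 1000000 ≤ Real.log ((1 / 4) / (1898 / 10000)) := by
  have h := Real.sum_range_le_log_div (x := 602 / 4398) (by norm_num) (by norm_num) 4
  norm_num [Finset.sum_range_succ] at h ⊢
  linarith

private theorem MassX_l9 : Real.log ((1 / 3 + 1 / 1000000) / (1 / 4)) ≤ 287690 / 1000000 := by
  have h := Real.log_div_le_sum_range_add (x := (1 / 3 + 1 / 1000000 - 1 / 4) / (1 / 3 + 1 / 1000000 + 1 / 4))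
    (by norm_num) (by norm_num) 4
  norm_num [Finset.sum_range_succ] at h ⊢
  linarith

/-! ### The sums over pairs -/

private theorem MassX_comb {T c α β γ δ u : ℝ} (h1 : T ≤ α + β * u) (h2 : 0 ≤ α + β * u)
    (h3 : 1 ≤ (γ + δ * u) * c) (hc : 0 < c) :
    T / c ≤ α * γ + (α * δ + β * γ) * u + β * δ * u ^ 2 := by
  rw [div_le_iff₀ hc]
  have h := mul_le_mul_of_nonneg_left h3 h2
  calc T ≤ (α + β * u) * 1 := by linarith
    _ ≤ (α + β * u) * ((γ + δ * u) * c) := h
    _ = _ := by ring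

private theorem MassX_comb0 {α β γ δ u : ℝ} (h2 : 0 ≤ α + β * u) (h4 : 0 ≤ γ + δ * u) :
    0 ≤ α * γ + (α * δ + β * γ) * u + β * δ * u ^ 2 := by
  have h := mul_nonneg h2 h4
  calc (0 : ℝ) ≤ (α + β * u) * (γ + δ * u) := h
    _ = _ := by ring

private theorem MassX_Ta {u : ℝ} (h1 : 1898 / 10000 ≤ u) (h2 : u ≤ 1 / 4 + 1 / 1000000) :
    Real.log ((1 / 2 + 2 / 1000000 - u) / (1 - 1 / 1000000 - u - (1 / 2 + 2 / 1000000 - u))) -
      Real.log (u / (1 - 1 / 1000000 - u - u)) ≤ 29421 / 10000 + -(117181 / 10000) * u := by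
  have hu0 : 0 < u := by linarith
  have p1 : 0 < 1 - 2 * u + 4 / 1000000 := by linarith
  have p2 : 0 < 1 - 1 / 1000000 - 2 * u := by linarith
  have e1 : (1 / 2 + 2 / 1000000 - u) / (1 - 1 / 1000000 - u - (1 / 2 + 2 / 1000000 - u)) =
      (1 - 2 * u + 4 / 1000000) / (1 - 6 / 1000000) := by
    rw [div_eq_div_iff (by norm_num) (by norm_num)]
    ring
  have e2 : 1 - 1 / 1000000 - u - u = 1 - 1 / 1000000 - 2 * u := by ring
  rw [e1, e2, Real.log_div p1.ne' (by norm_num), Real.log_div hu0.ne' p2.ne']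
  have b1 := MassX_tan (14 / 25) _ (by norm_num) p1
  have b2 := MassX_tan (14 / 25) _ (by norm_num) p2
  have b3 := Real.one_sub_inv_le_log_of_pos (show (0 : ℝ) < 1 - 6 / 1000000 by norm_num)
  have b3' : -(7 / 1000000) ≤ 1 - (1 - 6 / 1000000 : ℝ)⁻¹ := by norm_num
  have b4 := MassX_chord (1898 / 10000) (2501 / 10000) u (by norm_num) (by norm_num) h1 (by linarith)
  have e3 : (u - 1898 / 10000) / (2501 / 10000 - 1898 / 10000) = (u - 1898 / 10000) * (10000 / 603) := by
    norm_num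
    ring
  rw [e3] at b4
  have b5 := mul_le_mul_of_nonneg_left MassX_l3 (show 0 ≤ (u - 1898 / 10000) * (10000 / 603) by linarith)
  have b6 := MassX_l1
  have b7 := MassX_l2
  linarith

private theorem MassX_s3a : ∃ N0 : ℕ, ∀ N : ℕ, N0 ≤ N → ∀ x : ℕ, N ≤ 8 * x → ∀ Q : ℕ → Finset ℕ,
    (∀ p ∈ PE N (1898 / 10000) (1 / 4 + 1 / 1000000),
      Q p ⊆ PE N (Real.log p / Real.log N) (1 / 2 + 2 / 1000000 - Real.log p / Real.log N)) →
    ∑ p ∈ PE N (1898 / 10000) (1 / 4 + 1 / 1000000), ∑ q ∈ Q p, 1 / (p * q * Real.log ((x : ℝ) / (p * q))) ≤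
      (1335 / 10000) / Real.log N := by
  obtain ⟨N0, hN0⟩ := MassX_pair (1898 / 10000) (1 / 4 + 1 / 1000000) (29421 / 10000 * (9219 / 10000))
    (29421 / 10000 * (16459 / 10000) + -(117181 / 10000) * (9219 / 10000)) (-(117181 / 10000) * (16459 / 10000))
    (1 / 10000) (fun u => u) (fun u => 1 / 2 + 2 / 1000000 - u) (by norm_num) (by norm_num) (by norm_num)
    (by rw [abs_le]; norm_num) (by rw [abs_le]; norm_num) (by rw [abs_le]; norm_num) (by norm_num) (by norm_num)
    (fun u hu => by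
      have h1 := hu.1
      have h2 := hu.2
      refine ⟨by linarith, ?_, ?_, ?_⟩
      · show u ≤ 1 / 2 + 2 / 1000000 - u
        linarith
      · show 1 / 2 + 2 / 1000000 - u ≤ 1
        linarith
      · show 1 / 2 + 2 / 1000000 - u + 1 / 5 ≤ 1 - 1 / 1000000 - u
        linarith)
    (fun u hu => by
      have h1 := hu.1
      have h2 := hu.2
      refine MassX_comb (MassX_Ta h1 h2) (by linarith) ?_ (by linarith)
      nlinarith [mul_nonneg (sub_nonneg.2 h1) (sub_nonneg.2 h2)])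
    (fun u hu => by
      have h1 := hu.1
      have h2 := hu.2
      exact MassX_comb0 (by linarith) (by linarith))
  refine ⟨N0 + 2, fun N hN x hx Q hQ => (hN0 N (by omega) x hx Q hQ).trans ?_⟩
  have hNr : (1 : ℝ) < N := by exact_mod_cast (by omega : 1 < N)
  have hL : 0 < Real.log N := Real.log_pos hNr
  refine div_le_div_of_nonneg_right ?_ hL.le
  have h7 := MassX_l7
  norm_num at h7 ⊢
  linarith

private theorem MassX_Tb {u : ℝ} (h1 : 1898 / 10000 ≤ u) (h2 : u ≤ 1 / 4) :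
    Real.log (((1 - u) / 2 + 2 / 1000000) / (1 - 1 / 1000000 - u - ((1 - u) / 2 + 2 / 1000000))) -
      Real.log ((1 / 2 - 2 / 1000000 - u) / (1 - 1 / 1000000 - u - (1 / 2 - 2 / 1000000 - u))) ≤
        -(2026 / 10000) + 35840 / 10000 * u := by
  have p1 : 0 < 1 - 2 * u - 4 / 1000000 := by linarith
  have p2 : 0 < 1 - u - 6 / 1000000 := by linarith
  have p3 : 0 < 1 - u + 4 / 1000000 := by linarith
  have e1 : ((1 - u) / 2 + 2 / 1000000) / (1 - 1 / 1000000 - u - ((1 - u) / 2 + 2 / 1000000)) =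
      (1 - u + 4 / 1000000) / (1 - u - 6 / 1000000) := by
    have e0 : 1 - 1 / 1000000 - u - ((1 - u) / 2 + 2 / 1000000) = (1 - u - 6 / 1000000) / 2 := by ring
    have e0' : (1 - u) / 2 + 2 / 1000000 = (1 - u + 4 / 1000000) / 2 := by ring
    rw [e0, e0', div_div_div_cancel_right₀ (by norm_num)]
  have e2 : (1 / 2 - 2 / 1000000 - u) / (1 - 1 / 1000000 - u - (1 / 2 - 2 / 1000000 - u)) =
      (1 - 2 * u - 4 / 1000000) / (1 + 2 / 1000000) := by
    rw [div_eq_div_iff (by norm_num) (by norm_num)]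
    ring
  rw [e1, e2, Real.log_div p1.ne' (by norm_num)]
  have b1 := Real.log_le_sub_one_of_pos (div_pos p3 p2)
  have b1' : (1 - u + 4 / 1000000) / (1 - u - 6 / 1000000) - 1 ≤ 20 / 1000000 := by
    rw [sub_le_iff_le_add, div_le_iff₀ p2]
    linarith
  have b2 := Real.log_le_sub_one_of_pos (show (0 : ℝ) < 1 + 2 / 1000000 by norm_num)
  have b4 := MassX_chord (4999 / 10000) (6204 / 10000) (1 - 2 * u - 4 / 1000000) (by norm_num) (by norm_num)
    (by linarith) (by linarith)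
  have e3 : (1 - 2 * u - 4 / 1000000 - 4999 / 10000) / (6204 / 10000 - 4999 / 10000) =
      (1 - 2 * u - 4 / 1000000 - 4999 / 10000) * (10000 / 1205) := by
    norm_num
    ring
  rw [e3] at b4
  have b5 := mul_le_mul_of_nonneg_left MassX_l5
    (show 0 ≤ (1 - 2 * u - 4 / 1000000 - 4999 / 10000) * (10000 / 1205) by linarith)
  have b6 := MassX_l4
  linarith

private theorem MassX_s3b : ∃ N0 : ℕ, ∀ N : ℕ, N0 ≤ N → ∀ x : ℕ, N ≤ 8 * x → ∀ Q : ℕ → Finset ℕ,
    (∀ p ∈ PE N (1898 / 10000) (1 / 4),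
      Q p ⊆ PE N (1 / 2 - 2 / 1000000 - Real.log p / Real.log N) ((1 - Real.log p / Real.log N) / 2 + 2 / 1000000)) →
    ∑ p ∈ PE N (1898 / 10000) (1 / 4), ∑ q ∈ Q p, 1 / (p * q * Real.log ((x : ℝ) / (p * q))) ≤
      (2058 / 10000) / Real.log N := by
  obtain ⟨N0, hN0⟩ := MassX_pair (1898 / 10000) (1 / 4) (-(2026 / 10000) * (9219 / 10000))
    (-(2026 / 10000) * (16459 / 10000) + 35840 / 10000 * (9219 / 10000)) (35840 / 10000 * (16459 / 10000))
    (1 / 10000) (fun u => 1 / 2 - 2 / 1000000 - u) (fun u => (1 - u) / 2 + 2 / 1000000)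
    (by norm_num) (by norm_num) (by norm_num)
    (by rw [abs_le]; norm_num) (by rw [abs_le]; norm_num) (by rw [abs_le]; norm_num) (by norm_num) (by norm_num)
    (fun u hu => by
      have h1 := hu.1
      have h2 := hu.2
      refine ⟨?_, ?_, ?_, ?_⟩
      · show 1 / 10 ≤ 1 / 2 - 2 / 1000000 - u
        linarith
      · show 1 / 2 - 2 / 1000000 - u ≤ (1 - u) / 2 + 2 / 1000000
        linarith
      · show (1 - u) / 2 + 2 / 1000000 ≤ 1
        linarith
      · show (1 - u) / 2 + 2 / 1000000 + 1 / 5 ≤ 1 - 1 / 1000000 - u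
        linarith)
    (fun u hu => by
      have h1 := hu.1
      have h2 := hu.2
      refine MassX_comb (MassX_Tb h1 h2) (by linarith) ?_ (by linarith)
      nlinarith [mul_nonneg (sub_nonneg.2 h1) (sub_nonneg.2 h2)])
    (fun u hu => by
      have h1 := hu.1
      have h2 := hu.2
      exact MassX_comb0 (by linarith) (by linarith))
  refine ⟨N0 + 2, fun N hN x hx Q hQ => (hN0 N (by omega) x hx Q hQ).trans ?_⟩
  have hNr : (1 : ℝ) < N := by exact_mod_cast (by omega : 1 < N)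
  have hL : 0 < Real.log N := Real.log_pos hNr
  refine div_le_div_of_nonneg_right ?_ hL.le
  have h8 := MassX_l8
  norm_num at h8 ⊢
  linarith

private theorem MassX_Tc {u : ℝ} (h1 : 1 / 4 ≤ u) (h2 : u ≤ 1 / 3 + 1 / 1000000) :
    Real.log (((1 - u) / 2 + 2 / 1000000) / (1 - 1 / 1000000 - u - ((1 - u) / 2 + 2 / 1000000))) -
      Real.log (u / (1 - 1 / 1000000 - u - u)) ≤ 27514 / 10000 + -(82102 / 10000) * u := by
  have hu0 : 0 < u := by linarith
  have p1 : 0 < 1 - 1 / 1000000 - u - u := by linarith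
  have p4 : 0 < 1 - 2 * u := by linarith
  have p2 : 0 < 1 - u - 6 / 1000000 := by linarith
  have p3 : 0 < 1 - u + 4 / 1000000 := by linarith
  have e1 : ((1 - u) / 2 + 2 / 1000000) / (1 - 1 / 1000000 - u - ((1 - u) / 2 + 2 / 1000000)) =
      (1 - u + 4 / 1000000) / (1 - u - 6 / 1000000) := by
    have e0 : 1 - 1 / 1000000 - u - ((1 - u) / 2 + 2 / 1000000) = (1 - u - 6 / 1000000) / 2 := by ring
    have e0' : (1 - u) / 2 + 2 / 1000000 = (1 - u + 4 / 1000000) / 2 := by ring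
    rw [e0, e0', div_div_div_cancel_right₀ (by norm_num)]
  rw [e1]
  have b1 := Real.log_le_sub_one_of_pos (div_pos p3 p2)
  have b1' : (1 - u + 4 / 1000000) / (1 - u - 6 / 1000000) - 1 ≤ 20 / 1000000 := by
    rw [sub_le_iff_le_add, div_le_iff₀ p2]
    linarith
  have b2 : -Real.log (u / (1 - 1 / 1000000 - u - u)) ≤ Real.log ((1 - 2 * u) / u) := by
    rw [← Real.log_inv, inv_div]
    exact Real.log_le_log (div_pos p1 hu0) (div_le_div_of_nonneg_right (by linarith) hu0.le)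
  have b3 := MassX_tan2 (29 / 100) u (by norm_num) (by norm_num) h1 (by linarith)
  have e3 : (u - 29 / 100) / (29 / 100 * (1 - 2 * (29 / 100))) = (u - 29 / 100) * (10000 / 1218) := by
    norm_num
    ring
  rw [e3] at b3
  have b6 := MassX_l6
  linarith

private theorem MassX_s3c : ∃ N0 : ℕ, ∀ N : ℕ, N0 ≤ N → ∀ x : ℕ, N ≤ 8 * x → ∀ Q : ℕ → Finset ℕ,
    (∀ p ∈ PE N (1 / 4) (1 / 3 + 1 / 1000000),
      Q p ⊆ PE N (Real.log p / Real.log N) ((1 - Real.log p / Real.log N) / 2 + 2 / 1000000)) →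
    ∑ p ∈ PE N (1 / 4) (1 / 3 + 1 / 1000000), ∑ q ∈ Q p, 1 / (p * q * Real.log ((x : ℝ) / (p * q))) ≤
      (1492 / 10000) / Real.log N := by
  obtain ⟨N0, hN0⟩ := MassX_pair (1 / 4) (1 / 3 + 1 / 1000000) (27514 / 10000 * (8335 / 10000))
    (27514 / 10000 * (20001 / 10000) + -(82102 / 10000) * (8335 / 10000)) (-(82102 / 10000) * (20001 / 10000))
    (1 / 10000) (fun u => u) (fun u => (1 - u) / 2 + 2 / 1000000)
    (by norm_num) (by norm_num) (by norm_num)
    (by rw [abs_le]; norm_num) (by rw [abs_le]; norm_num) (by rw [abs_le]; norm_num) (by norm_num) (by norm_num)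
    (fun u hu => by
      have h1 := hu.1
      have h2 := hu.2
      refine ⟨by linarith, ?_, ?_, ?_⟩
      · show u ≤ (1 - u) / 2 + 2 / 1000000
        linarith
      · show (1 - u) / 2 + 2 / 1000000 ≤ 1
        linarith
      · show (1 - u) / 2 + 2 / 1000000 + 1 / 5 ≤ 1 - 1 / 1000000 - u
        linarith)
    (fun u hu => by
      have h1 := hu.1
      have h2 := hu.2
      refine MassX_comb (MassX_Tc h1 h2) (by linarith) ?_ (by linarith)
      nlinarith [mul_nonneg (sub_nonneg.2 h1) (sub_nonneg.2 h2)])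
    (fun u hu => by
      have h1 := hu.1
      have h2 := hu.2
      exact MassX_comb0 (by linarith) (by linarith))
  refine ⟨N0 + 2, fun N hN x hx Q hQ => (hN0 N (by omega) x hx Q hQ).trans ?_⟩
  have hNr : (1 : ℝ) < N := by exact_mod_cast (by omega : 1 < N)
  have hL : 0 < Real.log N := Real.log_pos hNr
  refine div_le_div_of_nonneg_right ?_ hL.le
  have h9 := MassX_l9
  norm_num at h9 ⊢
  linarith
private theorem MassX_cprod {t1 t2 t3 w : ℝ} (h1 : 1898 / 10000 ≤ t1) (h2 : 1898 / 10000 ≤ t2)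
    (h3 : 1898 / 10000 ≤ t3) (h1' : t1 ≤ 32 / 100) (h2' : t2 ≤ 32 / 100) (h3' : t3 ≤ 32 / 100)
    (hw : 1898 / 10000 - 2 / 1000000 ≤ w) (hs : t1 + t2 + t3 + w = 1 - 1 / 1000000) :
    1 ≤ 3398 / 10 * (t1 * (t2 * t3)) * w := by
  obtain ⟨s1, rfl⟩ : ∃ s, t1 = 1898 / 10000 + s := ⟨t1 - 1898 / 10000, by ring⟩
  obtain ⟨s2, rfl⟩ : ∃ s, t2 = 1898 / 10000 + s := ⟨t2 - 1898 / 10000, by ring⟩
  obtain ⟨s3, rfl⟩ : ∃ s, t3 = 1898 / 10000 + s := ⟨t3 - 1898 / 10000, by ring⟩
  obtain ⟨s4, rfl⟩ : ∃ s, w = 1898 / 10000 + s - 2 / 1000000 :=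
    ⟨w - 1898 / 10000 + 2 / 1000000, by ring⟩
  have g1 : 0 ≤ s1 := by linarith
  have g2 : 0 ≤ s2 := by linarith
  have g3 : 0 ≤ s3 := by linarith
  have g4 : 0 ≤ s4 := by linarith
  have hsum : s1 + s2 + s3 + s4 = 1 + 1 / 1000000 - 4 * (1898 / 10000) := by linarith
  have k1 : (1898 / 10000 : ℝ) ^ 4 + (1898 / 10000) ^ 3 * (s1 + s2 + s3 + s4) ≤
      (1898 / 10000 + s1) * ((1898 / 10000 + s2) * (1898 / 10000 + s3)) * (1898 / 10000 + s4) := by
    have : 0 ≤ (1898 / 10000 : ℝ) ^ 2 * (s1 * s2 + s1 * s3 + s1 * s4 + s2 * s3 + s2 * s4 + s3 * s4) +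
        1898 / 10000 * (s1 * s2 * s3 + s1 * s2 * s4 + s1 * s3 * s4 + s2 * s3 * s4) +
        s1 * s2 * s3 * s4 := by positivity
    nlinarith
  have k2 : (1898 / 10000 + s1) * ((1898 / 10000 + s2) * (1898 / 10000 + s3)) ≤
      32 / 100 * (32 / 100 * (32 / 100)) :=
    mul_le_mul h1' (mul_le_mul h2' h3' (by positivity) (by norm_num)) (by positivity) (by norm_num)
  rw [hsum] at k1
  have k3 : (1898 / 10000 + s1) * ((1898 / 10000 + s2) * (1898 / 10000 + s3)) *
      (1898 / 10000 + s4 - 2 / 1000000) =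
      (1898 / 10000 + s1) * ((1898 / 10000 + s2) * (1898 / 10000 + s3)) * (1898 / 10000 + s4) -
      2 / 1000000 * ((1898 / 10000 + s1) * ((1898 / 10000 + s2) * (1898 / 10000 + s3))) := by ring
  rw [mul_assoc, k3]
  norm_num at k1 k2 ⊢
  linarith

private theorem MassX_cmem {N : ℕ} {s t : ℝ} (hN : 1 < (N : ℝ)) {p : ℕ} (hp : p ∈ PE N s t) :
    (0 : ℝ) < p ∧ s ≤ Real.log p / Real.log N ∧ Real.log p / Real.log N ≤ t := by
  rw [PE, mem_filter] at hp
  obtain ⟨hp1, hpp, h1, h2⟩ := hp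
  have hp0 : (0 : ℝ) < p := by exact_mod_cast hpp.pos
  have hN0 : (0 : ℝ) < N := by linarith
  have hL : 0 < Real.log N := Real.log_pos hN
  refine ⟨hp0, ?_, ?_⟩
  · rw [le_div_iff₀ hL]
    have h3 := Real.log_le_log (Real.rpow_pos_of_pos hN0 s) h1.le
    rwa [Real.log_rpow hN0] at h3
  · rw [div_le_iff₀ hL]
    have h3 := Real.log_le_log hp0 h2
    rwa [Real.log_rpow hN0] at h3

private theorem MassX_clow {N p q : ℕ} {η : ℝ} (hN : 1 < (N : ℝ)) (hη : 0 < η) (hp : (0 : ℝ) < p)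
    (hpq : p ≤ q) : (N : ℝ) ^ (Real.log p / Real.log N - η) < q := by
  have hN0 : (0 : ℝ) < N := by linarith
  have hL : 0 < Real.log N := Real.log_pos hN
  have h1 : (N : ℝ) ^ (Real.log p / Real.log N) = p := by
    rw [Real.rpow_def_of_pos hN0, mul_div_cancel₀ _ hL.ne', Real.exp_log hp]
  have h2 : (N : ℝ) ^ (Real.log p / Real.log N - η) < (N : ℝ) ^ (Real.log p / Real.log N) :=
    Real.rpow_lt_rpow_of_exponent_lt hN (by linarith)
  have h3 : (p : ℝ) ≤ q := by exact_mod_cast hpq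
  linarith

private theorem MassX_cmono {N : ℕ} (hN : 1 < (N : ℝ)) {Q : Finset ℕ} {s t u v : ℝ}
    (hQ : ∀ q ∈ Q, q ∈ PE N s t ∧ (N : ℝ) ^ u < q) {F : ℕ → ℝ} {f : ℝ → ℝ}
    (hf : ∀ z ∈ Set.Icc u v, 0 ≤ f z)
    (hF : ∀ q ∈ Q, Real.log q / Real.log N ≤ v → F q ≤ f (Real.log q / Real.log N) / q)
    (hF' : ∀ q ∈ Q, ¬ Real.log q / Real.log N ≤ v → F q ≤ 0) :
    ∑ q ∈ Q, F q ≤ ∑ q ∈ PE N u v, f (Real.log q / Real.log N) / q := by
  have hN0 : (0 : ℝ) < N := by linarith
  have hL : 0 < Real.log N := Real.log_pos hN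
  calc ∑ q ∈ Q, F q ≤ ∑ q ∈ Q, if Real.log q / Real.log N ≤ v then
        f (Real.log q / Real.log N) / q else 0 := by
        refine sum_le_sum fun q hq => ?_
        split_ifs with h
        · exact hF q hq h
        · exact hF' q hq h
    _ = ∑ q ∈ Q.filter (fun q : ℕ => Real.log q / Real.log N ≤ v), f (Real.log q / Real.log N) / q := by
        rw [sum_filter]
    _ ≤ ∑ q ∈ PE N u v, f (Real.log q / Real.log N) / q := by
        refine sum_le_sum_of_subset_of_nonneg ?_ fun q hq _ => ?_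
        · intro q hq
          rw [mem_filter] at hq
          obtain ⟨h1, h2⟩ := hQ q hq.1
          have h3 := (MassX_cmem hN h1).1
          rw [PE, mem_filter] at h1 ⊢
          refine ⟨h1.1, h1.2.1, h2, ?_⟩
          have h4 := hq.2
          rw [div_le_iff₀ hL] at h4
          rw [← Real.log_le_log_iff h3 (Real.rpow_pos_of_pos hN0 v), Real.log_rpow hN0]
          exact h4
        · obtain ⟨h1, h2, h3⟩ := MassX_cmem hN hq
          exact div_nonneg (hf _ ⟨h2, h3⟩) h1.le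

private theorem MassX_cterm {N x p q r : ℕ} (hN : 1 < (N : ℝ))
    (h16 : Real.log 16 ≤ 1 / 1000000 * Real.log N) (hx : N ≤ 8 * x)
    (hp : p ∈ PE N (1898 / 10000) (32 / 100)) (hq : q ∈ PE N (1898 / 10000) (32 / 100))
    (hr : r ∈ PE N (1898 / 10000) (32 / 100))
    (hpqr : Real.log p / Real.log N + Real.log q / Real.log N + 2 * (Real.log r / Real.log N) ≤
      1 + 1 / 1000000) :
    1 / (p * q * r * Real.log ((x : ℝ) / (p * q * r))) ≤
      3398 / 10 / Real.log N * (Real.log p / Real.log N / p * (Real.log q / Real.log N / q *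
        (Real.log r / Real.log N / r))) := by
  obtain ⟨hp0, hp1, hp2⟩ := MassX_cmem hN hp
  obtain ⟨hq0, hq1, hq2⟩ := MassX_cmem hN hq
  obtain ⟨hr0, hr1, hr2⟩ := MassX_cmem hN hr
  have hN0 : (0 : ℝ) < N := by linarith
  have hL : 0 < Real.log N := Real.log_pos hN
  have hx0 : (0 : ℝ) < x := by
    have : (N : ℝ) ≤ 8 * x := by exact_mod_cast hx
    linarith
  have h8 : Real.log 8 ≤ Real.log 16 := Real.log_le_log (by norm_num) (by norm_num)
  have hlx : Real.log N ≤ Real.log 8 + Real.log x := by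
    rw [← Real.log_mul (by norm_num) hx0.ne']
    exact Real.log_le_log hN0 (by exact_mod_cast hx)
  have hlog : Real.log ((x : ℝ) / (p * q * r)) = Real.log x - (Real.log p + Real.log q + Real.log r) := by
    rw [Real.log_div hx0.ne' (by positivity), Real.log_mul (by positivity) hr0.ne',
      Real.log_mul hp0.ne' hq0.ne']
  set L := Real.log N with hLd
  obtain ⟨t1, ht1⟩ : ∃ t, t = Real.log p / L := ⟨_, rfl⟩
  obtain ⟨t2, ht2⟩ : ∃ t, t = Real.log q / L := ⟨_, rfl⟩
  obtain ⟨t3, ht3⟩ : ∃ t, t = Real.log r / L := ⟨_, rfl⟩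
  rw [← ht1] at hp1 hp2 hpqr ⊢
  rw [← ht2] at hq1 hq2 hpqr ⊢
  rw [← ht3] at hr1 hr2 hpqr ⊢
  have e1 : Real.log p = t1 * L := by rw [ht1, div_mul_cancel₀ _ hL.ne']
  have e2 : Real.log q = t2 * L := by rw [ht2, div_mul_cancel₀ _ hL.ne']
  have e3 : Real.log r = t3 * L := by rw [ht3, div_mul_cancel₀ _ hL.ne']
  rw [e1, e2, e3] at hlog
  have hw := MassX_cprod (w := 1 - 1 / 1000000 - t1 - t2 - t3) hp1 hq1 hr1 hp2 hq2 hr2 (by linarith)
    (by ring)
  have hw0 : 0 < 1 - 1 / 1000000 - t1 - t2 - t3 := by linarith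
  have hlow : L * (1 - 1 / 1000000 - t1 - t2 - t3) ≤ Real.log ((x : ℝ) / (p * q * r)) := by
    rw [hlog]
    have : L * (1 - 1 / 1000000 - t1 - t2 - t3) =
        L - 1 / 1000000 * L - (t1 * L + t2 * L + t3 * L) := by ring
    rw [this]
    linarith
  have hpos : 0 < L * (1 - 1 / 1000000 - t1 - t2 - t3) := mul_pos hL hw0
  have hd : 0 < (p : ℝ) * q * r := by positivity
  calc 1 / (p * q * r * Real.log ((x : ℝ) / (p * q * r)))
      ≤ 1 / (p * q * r * (L * (1 - 1 / 1000000 - t1 - t2 - t3))) :=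
        one_div_le_one_div_of_le (mul_pos hd hpos) (mul_le_mul_of_nonneg_left hlow hd.le)
    _ ≤ 3398 / 10 * (t1 * (t2 * t3)) * (1 - 1 / 1000000 - t1 - t2 - t3) /
        (p * q * r * (L * (1 - 1 / 1000000 - t1 - t2 - t3))) :=
        div_le_div_of_nonneg_right hw (mul_pos hd hpos).le
    _ = 3398 / 10 / L * (t1 / p * (t2 / q * (t3 / r))) := by
        have hw0' := hw0.ne'
        have hL' := hL.ne'
        have hp' := hp0.ne'
        have hq' := hq0.ne'
        have hr' := hr0.ne'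
        generalize 1 - 1 / 1000000 - t1 - t2 - t3 = w at *
        field_simp

/-- the sum over `r` -/
private theorem MassX_cr {N N1 : ℕ} (hN1 : ∀ N : ℕ, N1 ≤ N →
    ∀ a b α β : ℝ, 1 / 10 ≤ a → a ≤ b → b ≤ 1 → |α| ≤ 1 → |β| ≤ 1 →
      (∀ u ∈ Set.Icc a b, 0 ≤ α + β * u) →
      ∑ p ∈ PE N a b, (α + β * (Real.log p / Real.log N)) / p ≤
        α * Real.log (b / a) + β * (b - a) + 1 / 100000000)
    (hNN : N1 ≤ N) (hN : 1 < (N : ℝ)) {p q : ℕ}
    (hp : p ∈ PE N (1898 / 10000) (32 / 100)) (hq : q ∈ PE N (1898 / 10000) (32 / 100))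
    {Q : Finset ℕ} (hQ : ∀ r ∈ Q, r ∈ PE N (1898 / 10000) (32 / 100) ∧ q ≤ r ∧
      Real.log p / Real.log N + Real.log q / Real.log N + 2 * (Real.log r / Real.log N) ≤
      1 + 1 / 1000000)
    (hpq : Real.log p / Real.log N + 3 * (Real.log q / Real.log N) ≤ 1 + 1 / 1000000) :
    ∑ r ∈ Q, Real.log r / Real.log N / r ≤
      (1 + 1 / 1000000 - Real.log p / Real.log N - 3 * (Real.log q / Real.log N)) / 2 +
        1 / 1000000 + 1 / 100000000 := by
  obtain ⟨hp0, hp1, hp2⟩ := MassX_cmem hN hp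
  obtain ⟨hq0, hq1, hq2⟩ := MassX_cmem hN hq
  have h1 := hN1 N hNN (Real.log q / Real.log N - 1 / 1000000)
    ((1 + 1 / 1000000 - Real.log p / Real.log N - Real.log q / Real.log N) / 2) 0 1
    (by linarith) (by linarith) (by linarith) (by simp) (by simp) (fun u hu => by
      have := hu.1
      linarith)
  have h2 : ∑ r ∈ Q, Real.log r / Real.log N / r ≤
      ∑ r ∈ PE N (Real.log q / Real.log N - 1 / 1000000)
        ((1 + 1 / 1000000 - Real.log p / Real.log N - Real.log q / Real.log N) / 2),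
        (0 + 1 * (Real.log r / Real.log N)) / r := by
    refine MassX_cmono (s := 1898 / 10000) (t := 32 / 100) (f := fun z => 0 + 1 * z) hN
      (fun r hr => ⟨(hQ r hr).1, MassX_clow hN (by norm_num) hq0 (hQ r hr).2.1⟩) (fun z hz => ?_)
      (fun r hr _ => ?_) (fun r hr h => ?_)
    · have := hz.1
      simp only [zero_add, one_mul]
      linarith
    · simp only [zero_add, one_mul]
      exact le_rfl
    · exfalso
      refine h ?_
      have := (hQ r hr).2.2
      linarith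
  linarith

/-- the sum over `q` -/
private theorem MassX_cq {N N2 : ℕ} (hN2 : ∀ N : ℕ, N2 ≤ N →
    ∀ (a b : ℝ) (f : ℝ → ℝ), 1 / 10 ≤ a → a ≤ b → b ≤ 1 → (∀ u ∈ Set.Icc a b, 0 ≤ f u ∧ f u ≤ 2) →
      (∀ u ∈ Set.Icc a b, ∀ v ∈ Set.Icc a b, |f u - f v| ≤ 2 * |u - v|) →
      ∑ p ∈ (Icc 1 N).filter (fun p : ℕ => p.Prime ∧ (N : ℝ) ^ a < p ∧ (p : ℝ) ≤ (N : ℝ) ^ b),
        f (Real.log p / Real.log N) / p ≤ (∫ u in a..b, f u / u) + 1 / 100000000)
    (hNN : N2 ≤ N) (hN : 1 < (N : ℝ)) {p : ℕ} (hp : p ∈ PE N (1898 / 10000) (32 / 100))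
    (h4 : 4 * (Real.log p / Real.log N) ≤ 1 + 1 / 1000000) {Q : Finset ℕ}
    (hQ : ∀ q ∈ Q, q ∈ PE N (1898 / 10000) (32 / 100) ∧ p ≤ q) {R : ℕ → ℝ}
    (hR : ∀ q ∈ Q, Real.log p / Real.log N + 3 * (Real.log q / Real.log N) ≤ 1 + 1 / 1000000 →
      R q ≤ (1 + 1 / 1000000 - Real.log p / Real.log N - 3 * (Real.log q / Real.log N)) / 2 +
        1 / 1000000 + 1 / 100000000)
    (hR' : ∀ q ∈ Q, ¬ Real.log p / Real.log N + 3 * (Real.log q / Real.log N) ≤ 1 + 1 / 1000000 →
      R q = 0) :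
    ∑ q ∈ Q, Real.log q / Real.log N / q * R q ≤
      (1 + 4 / 1000000 - 4 * (Real.log p / Real.log N)) ^ 2 / 12 + 12 / 100000000 := by
  obtain ⟨hp0, hp1, hp2⟩ := MassX_cmem hN hp
  set t := Real.log p / Real.log N with ht
  set c : ℝ := 1 + 1 / 1000000 - t with hc
  set u : ℝ := t - 1 / 1000000 with hu
  set v : ℝ := c / 3 with hv
  set f : ℝ → ℝ := fun z => z * ((c - 3 * z) / 2 + 1 / 1000000 + 1 / 100000000) with hf
  have huv : u ≤ v := by
    rw [hu, hv, hc]
    linarith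
  have hu5 : 1 / 10 ≤ u := by
    rw [hu]
    linarith
  have hv3 : v ≤ 1 := by
    rw [hv, hc]
    linarith
  have hf0 : ∀ z ∈ Set.Icc u v, 0 ≤ f z := by
    intro z hz
    have h1 : 0 ≤ z := by linarith [hz.1]
    have h2 : 0 ≤ c - 3 * z := by
      have := hz.2
      rw [hv] at this
      linarith
    simp only [hf]
    positivity
  have hc1 : c ≤ 1 := by
    rw [hc]
    linarith
  have hc0 : 0 ≤ c := by
    rw [hc]
    linarith
  have h1 := hN2 N hNN u v f hu5 huv hv3 (fun z hz => ⟨hf0 z hz, by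
      have h1 : 0 ≤ z := by linarith [hz.1]
      have h2 : z ≤ 1 := by linarith [hz.2]
      have h3 : (c - 3 * z) / 2 + 1 / 1000000 + 1 / 100000000 ≤ 1 := by linarith
      simp only [hf]
      nlinarith⟩) (fun z hz w hw => by
      have h1 : 0 ≤ z := by linarith [hz.1]
      have h2 : z ≤ 1 / 2 := by
        have := hz.2
        rw [hv] at this
        linarith
      have h3 : 0 ≤ w := by linarith [hw.1]
      have h4 : w ≤ 1 / 2 := by
        have := hw.2
        rw [hv] at this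
        linarith
      have e : f z - f w = (c / 2 + 1 / 1000000 + 1 / 100000000 - 3 / 2 * (z + w)) * (z - w) := by
        simp only [hf]
        ring
      rw [e, abs_mul]
      refine mul_le_mul_of_nonneg_right ?_ (abs_nonneg _)
      rw [abs_le]
      constructor <;> linarith)
  have h2 : (∫ z in u..v, f z / z) = (c - 3 * u) ^ 2 / 12 +
      (1 / 1000000 + 1 / 100000000) * (v - u) := by
    have e1 : (∫ z in u..v, f z / z) =
        ∫ z in u..v, ((c / 2 + 1 / 1000000 + 1 / 100000000) - 3 / 2 * z) := by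
      refine intervalIntegral.integral_congr fun z hz => ?_
      rw [Set.uIcc_of_le huv] at hz
      have hz0 : z ≠ 0 := by
        have := hz.1
        intro h0
        linarith
      simp only [hf]
      field_simp
      ring
    rw [e1, intervalIntegral.integral_sub (by simp) (by
      exact (continuous_const.mul continuous_id).intervalIntegrable _ _),
      intervalIntegral.integral_const, intervalIntegral.integral_const_mul, integral_id,
      smul_eq_mul, hv]
    ring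
  have h3 : ∑ q ∈ Q, Real.log q / Real.log N / q * R q ≤
      ∑ q ∈ PE N u v, f (Real.log q / Real.log N) / q := by
    refine MassX_cmono (s := 1898 / 10000) (t := 32 / 100) hN
      (fun q hq => ⟨(hQ q hq).1, MassX_clow hN (by norm_num) hp0 (hQ q hq).2⟩) hf0
      (fun q hq hqv => ?_) (fun q hq hqv => ?_)
    · obtain ⟨hq0, hq1, hq2⟩ := MassX_cmem hN (hQ q hq).1
      have h5 := hR q hq (by
        rw [hv, hc] at hqv
        linarith)
      have h6 : 0 ≤ Real.log q / Real.log N / q := div_nonneg (by linarith) hq0.le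
      calc Real.log q / Real.log N / q * R q ≤ Real.log q / Real.log N / q *
            ((c - 3 * (Real.log q / Real.log N)) / 2 + 1 / 1000000 + 1 / 100000000) :=
            mul_le_mul_of_nonneg_left h5 h6
        _ = f (Real.log q / Real.log N) / q := by
            simp only [hf]
            ring
    · rw [hR' q hq (fun h => hqv (by
        rw [hv, hc]
        linarith)), mul_zero]
  have h5 : v - u ≤ 1 / 10 := by
    rw [hv, hu, hc]
    linarith
  have h6 : c - 3 * u = 1 + 4 / 1000000 - 4 * t := by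
    rw [hc, hu]
    ring
  rw [← h6]
  have h7 : ∑ q ∈ PE N u v, f (Real.log q / Real.log N) / q ≤ (∫ z in u..v, f z / z) + 1 / 100000000 := h1
  rw [h2] at h7
  linarith

/-- the sum over `p` -/
private theorem MassX_cp {N N2 : ℕ} (hN2 : ∀ N : ℕ, N2 ≤ N →
    ∀ (a b : ℝ) (f : ℝ → ℝ), 1 / 10 ≤ a → a ≤ b → b ≤ 1 → (∀ u ∈ Set.Icc a b, 0 ≤ f u ∧ f u ≤ 2) →
      (∀ u ∈ Set.Icc a b, ∀ v ∈ Set.Icc a b, |f u - f v| ≤ 2 * |u - v|) →
      ∑ p ∈ (Icc 1 N).filter (fun p : ℕ => p.Prime ∧ (N : ℝ) ^ a < p ∧ (p : ℝ) ≤ (N : ℝ) ^ b),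
        f (Real.log p / Real.log N) / p ≤ (∫ u in a..b, f u / u) + 1 / 100000000)
    (hNN : N2 ≤ N) (hN : 1 < (N : ℝ)) {S : ℕ → ℝ}
    (hS : ∀ p ∈ PE N (1898 / 10000) (32 / 100), 4 * (Real.log p / Real.log N) ≤ 1 + 1 / 1000000 →
      S p ≤ (1 + 4 / 1000000 - 4 * (Real.log p / Real.log N)) ^ 2 / 12 + 12 / 100000000)
    (hS' : ∀ p ∈ PE N (1898 / 10000) (32 / 100), ¬ 4 * (Real.log p / Real.log N) ≤ 1 + 1 / 1000000 →
      S p = 0) :
    ∑ p ∈ PE N (1898 / 10000) (32 / 100), Real.log p / Real.log N / p * S p ≤ 970 / 10000000 := by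
  set v : ℝ := (1 + 1 / 1000000) / 4 with hv
  set f : ℝ → ℝ := fun z => z * ((1 + 4 / 1000000 - 4 * z) ^ 2 / 12 + 12 / 100000000) with hf
  have hf0 : ∀ z ∈ Set.Icc (1898 / 10000) v, 0 ≤ f z := by
    intro z hz
    have h1 : 0 ≤ z := by linarith [hz.1]
    simp only [hf]
    positivity
  have h1 := hN2 N hNN (1898 / 10000) v f (by norm_num) (by rw [hv]; norm_num)
    (by rw [hv]; norm_num) (fun z hz => ⟨hf0 z hz, by
      have h1 : 0 ≤ z := by linarith [hz.1]
      have h2 : z ≤ 1 := by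
        have := hz.2
        rw [hv] at this
        linarith
      have h3 : (1 + 4 / 1000000 - 4 * z) ^ 2 / 12 + 12 / 100000000 ≤ 1 := by
        have h4 : -1 ≤ 1 + 4 / 1000000 - 4 * z := by
          have := hz.2
          rw [hv] at this
          linarith
        have h5 : 1 + 4 / 1000000 - 4 * z ≤ 1 := by linarith [hz.1]
        nlinarith
      simp only [hf]
      nlinarith⟩) (fun z hz w hw => by
      have h1 : 1 / 10 ≤ z := by linarith [hz.1]
      have h2 : z ≤ 32 / 100 := by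
        have := hz.2
        rw [hv] at this
        linarith
      have h3 : 1 / 10 ≤ w := by linarith [hw.1]
      have h4 : w ≤ 32 / 100 := by
        have := hw.2
        rw [hv] at this
        linarith
      have e : f z - f w = (((1 + 4 / 1000000) ^ 2 - 8 * (1 + 4 / 1000000) * (z + w) +
          16 * (z ^ 2 + z * w + w ^ 2)) / 12 + 12 / 100000000) * (z - w) := by
        simp only [hf]
        ring
      rw [e, abs_mul]
      refine mul_le_mul_of_nonneg_right ?_ (abs_nonneg _)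
      have k1 : 0 ≤ z ^ 2 + z * w + w ^ 2 := by positivity
      have k2 : z ^ 2 + z * w + w ^ 2 ≤ 1 := by nlinarith
      rw [abs_le]
      constructor <;> linarith)
  have h2 : (∫ z in (1898 / 10000)..v, f z / z) ≤ 9698 / 100000000 := by
    have e1 : (∫ z in (1898 / 10000)..v, f z / z) =
        ∫ z in (1898 / 10000)..v, (((1 + 4 / 1000000) ^ 2 / 12 + 12 / 100000000) -
          2 / 3 * (1 + 4 / 1000000) * z + 4 / 3 * z ^ 2) := by
      refine intervalIntegral.integral_congr fun z hz => ?_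
      rw [Set.uIcc_of_le (by rw [hv]; norm_num)] at hz
      have hz0 : z ≠ 0 := by
        have := hz.1
        intro h0
        linarith
      simp only [hf]
      field_simp
      ring
    rw [e1, intervalIntegral.integral_add (by
        exact (continuous_const.sub (continuous_const.mul continuous_id)).intervalIntegrable _ _) (by
        exact (continuous_const.mul (continuous_id.pow 2)).intervalIntegrable _ _),
      intervalIntegral.integral_sub (by simp) (by
        exact (continuous_const.mul continuous_id).intervalIntegrable _ _),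
      intervalIntegral.integral_const, intervalIntegral.integral_const_mul,
      intervalIntegral.integral_const_mul, integral_id, integral_pow, smul_eq_mul, hv]
    norm_num
  have h3 : ∑ p ∈ PE N (1898 / 10000) (32 / 100), Real.log p / Real.log N / p * S p ≤
      ∑ p ∈ PE N (1898 / 10000) v, f (Real.log p / Real.log N) / p := by
    refine MassX_cmono (s := 1898 / 10000) (t := 32 / 100) hN (fun p hp => ⟨hp, ?_⟩) hf0
      (fun p hp hpv => ?_) (fun p hp hpv => ?_)
    · rw [PE, mem_filter] at hp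
      exact hp.2.2.1
    · obtain ⟨hp0, hp1, hp2⟩ := MassX_cmem hN hp
      have h5 := hS p hp (by
        rw [hv] at hpv
        linarith)
      have h6 : 0 ≤ Real.log p / Real.log N / p := div_nonneg (by linarith) hp0.le
      calc Real.log p / Real.log N / p * S p ≤ Real.log p / Real.log N / p *
            ((1 + 4 / 1000000 - 4 * (Real.log p / Real.log N)) ^ 2 / 12 + 12 / 100000000) :=
            mul_le_mul_of_nonneg_left h5 h6
        _ = f (Real.log p / Real.log N) / p := by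
            simp only [hf]
            ring
    · rw [hS' p hp (fun h => hpv (by
        rw [hv]
        linarith)), mul_zero]
  have h7 : ∑ p ∈ PE N (1898 / 10000) v, f (Real.log p / Real.log N) / p ≤
    (∫ z in (1898 / 10000)..v, f z / z) + 1 / 100000000 := h1
  linarith

private theorem MassX_s4 : ∃ N0 : ℕ, ∀ N : ℕ, N0 ≤ N → ∀ x : ℕ, N ≤ 8 * x → x ≤ 8 * N →
    ∑ p ∈ PE N (1898 / 10000) (32 / 100), ∑ q ∈ (PE N (1898 / 10000) (32 / 100)).filter (fun q => p ≤ q),
      ∑ r ∈ (PE N (1898 / 10000) (32 / 100)).filter (fun r => q ≤ r ∧ p * q * r ^ 2 ≤ 16 * N),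
        1 / (p * q * r * Real.log ((x : ℝ) / (p * q * r))) ≤ (332 / 10000) / Real.log N := by
  obtain ⟨N1, hN1⟩ := lin_m (1 / 10) 1 (1 / 100000000) (by norm_num) (by norm_num) (by norm_num)
  obtain ⟨N2, hN2⟩ := mert_r (1 / 10) 2 (1 / 100000000) (by norm_num) (by norm_num) (by norm_num)
  obtain ⟨N3, hN3⟩ := exists_nat_ge (Real.exp (1000000 * Real.log 16))
  refine ⟨max N1 (max N2 (max N3 3)), fun N hN x hx1 hx2 => ?_⟩
  have hNN1 : N1 ≤ N := le_trans (le_max_left _ _) hN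
  have hNN2 : N2 ≤ N := le_trans (le_trans (le_max_left _ _) (le_max_right _ _)) hN
  have hNN3 : N3 ≤ N := by omega
  have hN3' : 3 ≤ N := by omega
  have hNp : (0 : ℝ) < N := by exact_mod_cast (by omega : 0 < N)
  have hNo : (1 : ℝ) < N := by exact_mod_cast (by omega : 1 < N)
  have hL1 : 1000000 * Real.log 16 ≤ Real.log N := by
    have h1 : Real.exp (1000000 * Real.log 16) ≤ N := hN3.trans (by exact_mod_cast hNN3)
    exact (Real.le_log_iff_exp_le hNp).2 h1
  have h16 : Real.log 16 ≤ 1 / 1000000 * Real.log N := by linarith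
  have hL : 0 < Real.log N := Real.log_pos hNo
  have hmono : ∀ p q : ℕ, (0 : ℝ) < p → p ≤ q → Real.log p / Real.log N ≤ Real.log q / Real.log N := by
    intro p q hp hpq
    exact div_le_div_of_nonneg_right (Real.log_le_log hp (by exact_mod_cast hpq)) hL.le
  have hcond : ∀ p q r : ℕ, (0 : ℝ) < p → (0 : ℝ) < q → (0 : ℝ) < r → p * q * r ^ 2 ≤ 16 * N →
      Real.log p / Real.log N + Real.log q / Real.log N + 2 * (Real.log r / Real.log N) ≤
      1 + 1 / 1000000 := by
    intro p q r hp hq hr h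
    have h1 : (p : ℝ) * q * r ^ 2 ≤ 16 * N := by exact_mod_cast h
    have h2 := Real.log_le_log (by positivity) h1
    rw [Real.log_mul (by positivity) (by positivity), Real.log_mul hp.ne' hq.ne', Real.log_pow,
      Real.log_mul (by norm_num) hNp.ne'] at h2
    push_cast at h2
    have h3 : Real.log p / Real.log N + Real.log q / Real.log N + 2 * (Real.log r / Real.log N) =
        (Real.log p + Real.log q + 2 * Real.log r) / Real.log N := by ring
    rw [h3, div_le_iff₀ hL]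
    linarith
  set P := PE N (1898 / 10000) (32 / 100) with hP
  have key : ∑ p ∈ P, ∑ q ∈ P.filter (fun q => p ≤ q),
      ∑ r ∈ P.filter (fun r => q ≤ r ∧ p * q * r ^ 2 ≤ 16 * N),
        1 / (p * q * r * Real.log ((x : ℝ) / (p * q * r))) ≤
      3398 / 10 / Real.log N * ∑ p ∈ P, Real.log p / Real.log N / p *
        ∑ q ∈ P.filter (fun q => p ≤ q), Real.log q / Real.log N / q *
          ∑ r ∈ P.filter (fun r => q ≤ r ∧ p * q * r ^ 2 ≤ 16 * N), Real.log r / Real.log N / r := by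
    simp only [mul_sum]
    refine sum_le_sum fun p hp => sum_le_sum fun q hq => sum_le_sum fun r hr => ?_
    rw [mem_filter] at hq hr
    exact MassX_cterm hNo h16 hx1 hp hq.1 hr.1 (hcond p q r (MassX_cmem hNo hp).1
      (MassX_cmem hNo hq.1).1 (MassX_cmem hNo hr.1).1 hr.2.2)
  refine key.trans ?_
  have main : ∑ p ∈ P, Real.log p / Real.log N / p *
        ∑ q ∈ P.filter (fun q => p ≤ q), Real.log q / Real.log N / q *
          ∑ r ∈ P.filter (fun r => q ≤ r ∧ p * q * r ^ 2 ≤ 16 * N), Real.log r / Real.log N / r ≤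
      970 / 10000000 := by
    have hemp : ∀ p ∈ P, ∀ q ∈ P, p ≤ q →
        ¬ Real.log p / Real.log N + 3 * (Real.log q / Real.log N) ≤ 1 + 1 / 1000000 →
        ∑ r ∈ P.filter (fun r => q ≤ r ∧ p * q * r ^ 2 ≤ 16 * N), Real.log r / Real.log N / r = 0 := by
      intro p hp q hq hpq h
      refine sum_eq_zero fun r hr => ?_
      exfalso
      rw [mem_filter] at hr
      obtain ⟨hr1, hr2, hr3⟩ := hr
      refine h ?_
      have h1 := hcond p q r (MassX_cmem hNo hp).1 (MassX_cmem hNo hq).1 (MassX_cmem hNo hr1).1 hr3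
      have h2 := hmono q r (MassX_cmem hNo hq).1 hr2
      linarith
    refine MassX_cp hN2 hNN2 hNo (fun p hp h4 => ?_) (fun p hp h4 => ?_)
    · refine MassX_cq hN2 hNN2 hNo hp h4 (fun q hq => ?_) (fun q hq h => ?_) (fun q hq h => ?_)
      · exact mem_filter.1 hq
      · rw [mem_filter] at hq
        refine MassX_cr hN1 hNN1 hNo hp hq.1 (fun r hr => ?_) h
        rw [mem_filter] at hr
        exact ⟨hr.1, hr.2.1, hcond p q r (MassX_cmem hNo hp).1 (MassX_cmem hNo hq.1).1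
          (MassX_cmem hNo hr.1).1 hr.2.2⟩
      · rw [mem_filter] at hq
        exact hemp p hp q hq.1 hq.2 h
    · refine sum_eq_zero fun q hq => ?_
      rw [mem_filter] at hq
      rw [hemp p hp q hq.1 hq.2 (fun h => h4 (by
        have := hmono p q (MassX_cmem hNo hp).1 hq.2
        linarith)), mul_zero]
  calc 3398 / 10 / Real.log N * _ ≤ 3398 / 10 / Real.log N * (970 / 10000000) :=
        mul_le_mul_of_nonneg_left main (by positivity)
    _ ≤ 332 / 10000 / Real.log N := by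
        rw [div_mul_eq_mul_div]
        exact div_le_div_of_nonneg_right (by norm_num) hL.le



/-! ### Two small sums -/

private theorem MassX_s2 : ∃ N0 : ℕ, ∀ N : ℕ, N0 ≤ N → ∀ x : ℕ, N ≤ 8 * x →
    ∑ p ∈ PE N (1 / 2 - 3 / 1000000) (1 / 2 + 1 / 1000000), 1 / ((p : ℝ) * Real.log ((x : ℝ) / p)) ≤
      (2 / 10000) / Real.log N := by
  obtain ⟨N1, hN1⟩ := Pool.Agent.H76.GB.log_ge (10 ^ 9)
  obtain ⟨N2, hN2⟩ := MassX_quad (1 / 100000) (by norm_num)
  refine ⟨N1 + N2 + 2, fun N hN x hx => ?_⟩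
  have hL9 := hN1 N (by omega)
  have hNr : (1 : ℝ) < N := by exact_mod_cast (by omega : 1 < N)
  have hL : 0 < Real.log N := Real.log_pos hNr
  have hq := hN2 N (by omega) (1 / 2 - 3 / 1000000) (1 / 2 + 1 / 1000000) 1 0 0 (by norm_num) (by norm_num)
    (by norm_num) (by norm_num) (by norm_num) (by norm_num) (fun u _ => by norm_num)
  have h1 := Real.log_le_sub_one_of_pos
    (show (0 : ℝ) < (1 / 2 + 1 / 1000000) / (1 / 2 - 3 / 1000000) by norm_num)
  have hterm : ∀ p ∈ PE N (1 / 2 - 3 / 1000000) (1 / 2 + 1 / 1000000),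
      1 / ((p : ℝ) * Real.log ((x : ℝ) / p)) ≤ 1 / Real.log N * (100 / 49) *
        ((1 + 0 * (Real.log p / Real.log N) + 0 * (Real.log p / Real.log N) ^ 2) / p) := by
    intro p hp
    obtain ⟨-, hp0, hu1, hu2⟩ := MassX_mem hNr hp
    have k1 := MassX_log hL9 hx hp0
    have k2 : Real.log N * (49 / 100) ≤ Real.log ((x : ℝ) / p) := by
      refine le_trans ?_ k1
      exact mul_le_mul_of_nonneg_left (by linarith) hL.le
    have h4 : 1 / (p * Real.log ((x : ℝ) / p)) ≤ 1 / (p * (Real.log N * (49 / 100))) :=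
      one_div_le_one_div_of_le (by positivity) (mul_le_mul_of_nonneg_left k2 hp0.le)
    refine h4.trans (le_of_eq ?_)
    field_simp
    ring
  calc ∑ p ∈ PE N (1 / 2 - 3 / 1000000) (1 / 2 + 1 / 1000000), 1 / ((p : ℝ) * Real.log ((x : ℝ) / p))
      ≤ ∑ p ∈ PE N (1 / 2 - 3 / 1000000) (1 / 2 + 1 / 1000000), 1 / Real.log N * (100 / 49) *
        ((1 + 0 * (Real.log p / Real.log N) + 0 * (Real.log p / Real.log N) ^ 2) / p) := sum_le_sum hterm
    _ = 1 / Real.log N * (100 / 49) * ∑ p ∈ PE N (1 / 2 - 3 / 1000000) (1 / 2 + 1 / 1000000),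
        (1 + 0 * (Real.log p / Real.log N) + 0 * (Real.log p / Real.log N) ^ 2) / p := by rw [mul_sum]
    _ ≤ 1 / Real.log N * (100 / 49) * (3 / 100000) := by
        refine mul_le_mul_of_nonneg_left (hq.trans ?_) (by positivity)
        norm_num at h1 ⊢
        linarith
    _ ≤ (2 / 10000) / Real.log N := by
        rw [one_div_mul_eq_div, div_mul_eq_mul_div]
        exact div_le_div_of_nonneg_right (by norm_num) hL.le

private theorem MassX_s5 : ∃ N0 : ℕ, ∀ N : ℕ, N0 ≤ N → ∀ x : ℕ, N ≤ 8 * x →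
    ∑ p ∈ PE N (1898 / 10000) (2026 / 10000), ∑ q ∈ PE N (1898 / 10000) (2026 / 10000),
      ∑ r ∈ PE N (1898 / 10000) (2154 / 10000), ∑ s ∈ PE N (1898 / 10000) (2154 / 10000),
        1 / ((p : ℝ) * q * r * s * Real.log ((x : ℝ) / (p * q * r * s))) ≤ (5 / 10000) / Real.log N := by
  obtain ⟨N1, hN1⟩ := Pool.Agent.H76.GB.log_ge (10 ^ 9)
  obtain ⟨N2, hN2⟩ := MassX_quad (1 / 100000) (by norm_num)
  refine ⟨N1 + N2 + 2, fun N hN x hx => ?_⟩
  have hL9 := hN1 N (by omega)
  have hNr : (1 : ℝ) < N := by exact_mod_cast (by omega : 1 < N)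
  have hL : 0 < Real.log N := Real.log_pos hNr
  have hq1 := hN2 N (by omega) (1898 / 10000) (2026 / 10000) 1 0 0 (by norm_num) (by norm_num)
    (by norm_num) (by norm_num) (by norm_num) (by norm_num) (fun u _ => by norm_num)
  have hq2 := hN2 N (by omega) (1898 / 10000) (2154 / 10000) 1 0 0 (by norm_num) (by norm_num)
    (by norm_num) (by norm_num) (by norm_num) (by norm_num) (fun u _ => by norm_num)
  obtain ⟨P, hP⟩ : ∃ P, P = PE N (1898 / 10000) (2026 / 10000) := ⟨_, rfl⟩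
  obtain ⟨R, hR⟩ : ∃ R, R = PE N (1898 / 10000) (2154 / 10000) := ⟨_, rfl⟩
  have hS1 : ∑ p ∈ P, 1 / (p : ℝ) ≤ 656 / 10000 := by
    have h1 := Real.log_div_le_sum_range_add (x := 64 / 1962) (by norm_num) (by norm_num) 2
    norm_num [Finset.sum_range_succ] at h1
    have h2 : ∑ p ∈ P, 1 / (p : ℝ) = ∑ p ∈ PE N (1898 / 10000) (2026 / 10000),
        (1 + 0 * (Real.log p / Real.log N) + 0 * (Real.log p / Real.log N) ^ 2) / (p : ℝ) := by
      rw [hP]
      exact sum_congr rfl fun p _ => by rw [zero_mul, zero_mul, add_zero, add_zero]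
    rw [h2]
    refine hq1.trans ?_
    norm_num
    linarith
  have hS2 : ∑ p ∈ R, 1 / (p : ℝ) ≤ 1270 / 10000 := by
    have h1 := Real.log_div_le_sum_range_add (x := 128 / 2026) (by norm_num) (by norm_num) 2
    norm_num [Finset.sum_range_succ] at h1
    have h2 : ∑ p ∈ R, 1 / (p : ℝ) = ∑ p ∈ PE N (1898 / 10000) (2154 / 10000),
        (1 + 0 * (Real.log p / Real.log N) + 0 * (Real.log p / Real.log N) ^ 2) / (p : ℝ) := by
      rw [hR]
      exact sum_congr rfl fun p _ => by rw [zero_mul, zero_mul, add_zero, add_zero]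
    rw [h2]
    refine hq2.trans ?_
    norm_num
    linarith
  rw [← hP, ← hR]
  have hterm : ∀ p ∈ P, ∀ q ∈ P, ∀ r ∈ R, ∀ s ∈ R,
      1 / ((p : ℝ) * q * r * s * Real.log ((x : ℝ) / (p * q * r * s))) ≤
        1 / Real.log N * (1000 / 163) * (1 / (p : ℝ) * (1 / (q : ℝ) * (1 / (r : ℝ) * (1 / (s : ℝ))))) := by
    intro p hp q hq r hr s hs
    rw [hP] at hp hq
    rw [hR] at hr hs
    obtain ⟨-, hp0, -, hu2⟩ := MassX_mem hNr hp
    obtain ⟨-, hq0, -, hv2⟩ := MassX_mem hNr hq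
    obtain ⟨-, hr0, -, hw2⟩ := MassX_mem hNr hr
    obtain ⟨-, hs0, -, hy2⟩ := MassX_mem hNr hs
    have k1 := MassX_log hL9 hx (mul_pos (mul_pos (mul_pos hp0 hq0) hr0) hs0)
    have k3 : Real.log ((p : ℝ) * q * r * s) / Real.log N = Real.log p / Real.log N + Real.log q / Real.log N +
        Real.log r / Real.log N + Real.log s / Real.log N := by
      rw [Real.log_mul (by positivity) hs0.ne', Real.log_mul (by positivity) hr0.ne', Real.log_mul hp0.ne' hq0.ne']
      ring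
    have k2 : Real.log N * (163 / 1000) ≤ Real.log ((x : ℝ) / (p * q * r * s)) := by
      refine le_trans ?_ k1
      refine mul_le_mul_of_nonneg_left ?_ hL.le
      rw [k3]
      linarith
    have h4 : 1 / (p * q * r * s * Real.log ((x : ℝ) / (p * q * r * s))) ≤
        1 / (p * q * r * s * (Real.log N * (163 / 1000))) :=
      one_div_le_one_div_of_le (by positivity) (mul_le_mul_of_nonneg_left k2 (by positivity))
    refine h4.trans (le_of_eq ?_)
    field_simp
  have e : ∑ p ∈ P, ∑ q ∈ P, ∑ r ∈ R, ∑ s ∈ R,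
      1 / Real.log N * (1000 / 163) * (1 / (p : ℝ) * (1 / (q : ℝ) * (1 / (r : ℝ) * (1 / (s : ℝ))))) =
      1 / Real.log N * (1000 / 163) * ((∑ p ∈ P, 1 / (p : ℝ)) * ((∑ p ∈ P, 1 / (p : ℝ)) *
        ((∑ p ∈ R, 1 / (p : ℝ)) * ∑ p ∈ R, 1 / (p : ℝ)))) := by
    simp only [← mul_sum, ← sum_mul]
  have n1 : 0 ≤ ∑ p ∈ P, 1 / (p : ℝ) := sum_nonneg fun p _ => by positivity
  have n2 : 0 ≤ ∑ p ∈ R, 1 / (p : ℝ) := sum_nonneg fun p _ => by positivity
  calc _ ≤ ∑ p ∈ P, ∑ q ∈ P, ∑ r ∈ R, ∑ s ∈ R,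
      1 / Real.log N * (1000 / 163) * (1 / (p : ℝ) * (1 / (q : ℝ) * (1 / (r : ℝ) * (1 / (s : ℝ))))) :=
        sum_le_sum fun p hp => sum_le_sum fun q hq => sum_le_sum fun r hr => sum_le_sum fun s hs =>
          hterm p hp q hq r hr s hs
    _ = _ := e
    _ ≤ 1 / Real.log N * (1000 / 163) * (656 / 10000 * (656 / 10000 * (1270 / 10000 * (1270 / 10000)))) := by
        refine mul_le_mul_of_nonneg_left ?_ (by positivity)
        exact mul_le_mul hS1 (mul_le_mul hS1 (mul_le_mul hS2 hS2 n2 (by norm_num)) (by positivity) (by norm_num))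
          (by positivity) (by norm_num)
    _ ≤ (5 / 10000) / Real.log N := by
        rw [one_div_mul_eq_div, div_mul_eq_mul_div]
        exact div_le_div_of_nonneg_right (by norm_num) hL.le

/-! ### Classification -/

/-- two primes near `√N` -/
private def IsE2 (N m : ℕ) : Prop :=
  ∃ p ∈ PE N (1 / 2 - 3 / 1000000) (1 / 2 + 1 / 1000000), ∃ q : ℕ, q.Prime ∧ m = p * q

/-- two small primes and a large one -/
private def IsE3 (N m : ℕ) : Prop :=
  ∃ p ∈ PE N (1898 / 10000) (1 / 4 + 1 / 1000000),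
    ∃ q ∈ PE N (Real.log p / Real.log N) (1 / 2 + 2 / 1000000 - Real.log p / Real.log N),
      ∃ r : ℕ, r.Prime ∧ m = p * q * r

/-- three small primes, the least one `≤ N^(1/4)` -/
private def IsE3b (N m : ℕ) : Prop :=
  ∃ p ∈ PE N (1898 / 10000) (1 / 4),
    ∃ q ∈ PE N (1 / 2 - 2 / 1000000 - Real.log p / Real.log N) ((1 - Real.log p / Real.log N) / 2 + 2 / 1000000),
      ∃ r : ℕ, r.Prime ∧ m = p * q * r

/-- three small primes, the least one `> N^(1/4)` -/
private def IsE3c (N m : ℕ) : Prop :=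
  ∃ p ∈ PE N (1 / 4) (1 / 3 + 1 / 1000000),
    ∃ q ∈ PE N (Real.log p / Real.log N) ((1 - Real.log p / Real.log N) / 2 + 2 / 1000000),
      ∃ r : ℕ, r.Prime ∧ m = p * q * r

/-- four primes -/
private def IsE4 (N m : ℕ) : Prop := ∃ p ∈ PE N (1898 / 10000) (32 / 100), ∃ q ∈ (PE N (1898 / 10000) (32 / 100)).filter (fun q => p ≤ q),
  ∃ r ∈ (PE N (1898 / 10000) (32 / 100)).filter (fun r => q ≤ r ∧ p * q * r ^ 2 ≤ 16 * N), ∃ s : ℕ, s.Prime ∧ m = p * q * r * s

/-- five primes -/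
private def IsE5 (N m : ℕ) : Prop := ∃ p ∈ PE N (1898 / 10000) (2026 / 10000), ∃ q ∈ PE N (1898 / 10000) (2026 / 10000),
  ∃ r ∈ PE N (1898 / 10000) (2154 / 10000), ∃ s ∈ PE N (1898 / 10000) (2154 / 10000), ∃ t : ℕ, t.Prime ∧ m = p * q * r * s * t

private theorem MassX_ord {F : Finset ℕ} {k : ℕ} (h : F.card = k + 1) :
    ∃ p ∈ F, ∃ F' ⊆ F, F'.card = k ∧ (∀ q ∈ F', p < q) ∧ ∏ q ∈ F, q = p * ∏ q ∈ F', q := by
  have hne : F.Nonempty := by
    rw [← card_pos]
    omega
  refine ⟨F.min' hne, F.min'_mem hne, F.erase (F.min' hne), erase_subset _ _, ?_, ?_, ?_⟩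
  · rw [card_erase_of_mem (F.min'_mem hne)]
    omega
  · intro q hq
    rw [mem_erase] at hq
    exact lt_of_le_of_ne (F.min'_le q hq.2) (fun h => hq.1 h.symm)
  · rw [mul_prod_erase F (fun q => q) (F.min'_mem hne)]

/-- the exponents of `z`, `w` and `m` -/
private theorem MassX_exps {N z w m : ℕ} (hL : (10 : ℝ) ^ 9 ≤ Real.log N) (hz : (N : ℝ) ^ (1898 / 10000 : ℝ) ≤ z)
    (hw1 : 4 * N ≤ w ^ 2) (hw2 : w ^ 2 ≤ 16 * N) (hm1 : N ≤ 8 * m) (hm2 : m ≤ 16 * N) :
    (1 : ℝ) < N ∧ (∀ p : ℕ, z < p → 1898 / 10000 < Real.log p / Real.log N) ∧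
    (∀ p : ℕ, w < p → 1 / 2 < Real.log p / Real.log N) ∧
    (∀ p : ℕ, 0 < p → p ≤ w → Real.log p / Real.log N ≤ 1 / 2 + 1 / 1000000) ∧
    1 - 1 / 1000000 < Real.log m / Real.log N ∧ Real.log m / Real.log N ≤ 1 + 1 / 1000000 := by
  have h109 : (1000 : ℝ) ≤ 1 / 1000000 * 10 ^ 9 := by norm_num
  have hL0 : 0 < Real.log N := by linarith [show (0 : ℝ) < 10 ^ 9 by norm_num]
  have hNn : 0 < N := by
    rcases Nat.eq_zero_or_pos N with h | h
    · rw [h, Nat.cast_zero, Real.log_zero] at hL0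
      exact absurd hL0 (lt_irrefl _)
    · exact h
  have hN0 : (0 : ℝ) < N := by exact_mod_cast hNn
  have hN1 : (1 : ℝ) < N := by
    by_contra hcon
    push Not at hcon
    have := Real.log_nonpos hN0.le hcon
    linarith
  have h8 : Real.log 8 ≤ 7 := by
    have := Real.log_le_sub_one_of_pos (show (0 : ℝ) < 8 by norm_num)
    linarith
  have h16 : Real.log 16 ≤ 15 := by
    have := Real.log_le_sub_one_of_pos (show (0 : ℝ) < 16 by norm_num)
    linarith
  have h4 : 0 < Real.log 4 := Real.log_pos (by norm_num)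
  have hz0 : (0 : ℝ) < z := lt_of_lt_of_le (by positivity) hz
  have hw0 : (0 : ℝ) < w := by
    have : 0 < w := by
      rcases Nat.eq_zero_or_pos w with h | h
      · rw [h] at hw1
        norm_num at hw1
        omega
      · exact h
    exact_mod_cast this
  have hlw1 : Real.log 4 + Real.log N ≤ 2 * Real.log w := by
    have h1 : (4 : ℝ) * N ≤ (w : ℝ) ^ 2 := by exact_mod_cast hw1
    have h2 := Real.log_le_log (by positivity) h1
    rw [Real.log_mul (by norm_num) hN0.ne', Real.log_pow] at h2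
    push_cast at h2
    exact h2
  have hlw2 : 2 * Real.log w ≤ Real.log 16 + Real.log N := by
    have h1 : (w : ℝ) ^ 2 ≤ (16 : ℝ) * N := by exact_mod_cast hw2
    have h2 := Real.log_le_log (by positivity) h1
    rw [Real.log_mul (by norm_num) hN0.ne', Real.log_pow] at h2
    push_cast at h2
    exact h2
  have hm0 : (0 : ℝ) < m := by
    have : 0 < m := by omega
    exact_mod_cast this
  refine ⟨hN1, ?_, ?_, ?_, ?_, ?_⟩
  · intro p hp
    rw [lt_div_iff₀ hL0]
    have h1 : (z : ℝ) < p := by exact_mod_cast hp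
    have h2 := Real.log_lt_log hz0 h1
    have h3 := Real.log_le_log (by positivity) hz
    rw [Real.log_rpow hN0] at h3
    linarith
  · intro p hp
    rw [lt_div_iff₀ hL0]
    have h1 : (w : ℝ) < p := by exact_mod_cast hp
    have h2 := Real.log_lt_log hw0 h1
    linarith
  · intro p hp0 hp
    rw [div_le_iff₀ hL0]
    have h1 : (p : ℝ) ≤ w := by exact_mod_cast hp
    have h0 : (0 : ℝ) < p := by exact_mod_cast hp0
    have h2 := Real.log_le_log h0 h1
    linarith
  · rw [lt_div_iff₀ hL0]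
    have h1 : (N : ℝ) ≤ 8 * m := by exact_mod_cast hm1
    have h2 := Real.log_le_log hN0 h1
    rw [Real.log_mul (by norm_num) hm0.ne'] at h2
    linarith
  · rw [div_le_iff₀ hL0]
    have h1 : (m : ℝ) ≤ 16 * N := by exact_mod_cast hm2
    have h2 := Real.log_le_log hm0 h1
    rw [Real.log_mul (by norm_num) hN0.ne'] at h2
    linarith

/-- the sum of the exponents of a set of primes -/
private theorem MassX_sumlog {N : ℕ} {T : Finset ℕ} (hT : ∀ p ∈ T, 0 < p) :
    Real.log ((∏ p ∈ T, p : ℕ) : ℝ) / Real.log N = ∑ p ∈ T, Real.log p / Real.log N := by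
  rw [Nat.cast_prod, Real.log_prod (fun p hp => by
    have : (0 : ℝ) < p := by exact_mod_cast hT p hp
    exact this.ne'), sum_div]

private theorem MassX_low {N : ℕ} {T : Finset ℕ} {c : ℝ} (hT : ∀ p ∈ T, c < Real.log p / Real.log N) :
    (T.card : ℝ) * c ≤ ∑ p ∈ T, Real.log p / Real.log N := by
  rw [← nsmul_eq_mul]
  exact card_nsmul_le_sum _ _ _ fun p hp => (hT p hp).le

private theorem MassX_om5 {N z w m : ℕ} (hL : (10 : ℝ) ^ 9 ≤ Real.log N) (hz : (N : ℝ) ^ (1898 / 10000 : ℝ) ≤ z)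
    (hw1 : 4 * N ≤ w ^ 2) (hw2 : w ^ 2 ≤ 16 * N) (hm1 : N ≤ 8 * m) (hm2 : m ≤ 16 * N) : omz z w m ≤ 5 := by
  obtain ⟨hN1, hzu, -, -, -, hlam⟩ := MassX_exps hL hz hw1 hw2 hm1 hm2
  have hL0 : 0 < Real.log N := Real.log_pos hN1
  by_contra hcon
  push Not at hcon
  obtain ⟨T, hT⟩ : ∃ T, T = m.primeFactors.filter (fun p => z < p ∧ p ≤ w) := ⟨_, rfl⟩
  have hcard : 6 ≤ T.card := by
    rw [hT]
    exact hcon
  have hTp : ∀ p ∈ T, p.Prime ∧ p ∣ m ∧ z < p := by
    intro p hp
    rw [hT, mem_filter] at hp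
    exact ⟨Nat.prime_of_mem_primeFactors hp.1, Nat.dvd_of_mem_primeFactors hp.1, hp.2.1⟩
  have hdvd : ∏ p ∈ T, p ∣ m :=
    Finset.prod_primes_dvd m (fun p hp => (hTp p hp).1.prime) (fun p hp => (hTp p hp).2.1)
  have hm0 : 0 < m := by
    have : (0 : ℝ) < N := by linarith
    have : 0 < N := by exact_mod_cast this
    omega
  have hle : ∏ p ∈ T, p ≤ m := Nat.le_of_dvd hm0 hdvd
  have hpos : 0 < ∏ p ∈ T, p := prod_pos fun p hp => (hTp p hp).1.pos
  have h1 : Real.log ((∏ p ∈ T, p : ℕ) : ℝ) ≤ Real.log m :=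
    Real.log_le_log (by exact_mod_cast hpos) (by exact_mod_cast hle)
  have h2 := div_le_div_of_nonneg_right h1 hL0.le
  rw [MassX_sumlog (fun p hp => (hTp p hp).1.pos)] at h2
  have h3 := MassX_low (N := N) (T := T) (c := 1898 / 10000) (fun p hp => hzu p (hTp p hp).2.2)
  have h4 : (6 : ℝ) ≤ T.card := by exact_mod_cast hcard
  linarith

private theorem MassX_cls {N z w m : ℕ} (hL : (10 : ℝ) ^ 9 ≤ Real.log N) (hz : (N : ℝ) ^ (1898 / 10000 : ℝ) ≤ z)
    (hw1 : 4 * N ≤ w ^ 2) (hw2 : w ^ 2 ≤ 16 * N) (hm1 : N ≤ 8 * m) (hm2 : m ≤ 16 * N) (hr : rou z m)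
    (hsq : ¬ sqz z m) :
    (omz z w m = 2 → IsE2 N m ∨ IsE3 N m) ∧ (omz z w m = 3 → IsE3b N m ∨ IsE3c N m) ∧
    (omz z w m = 4 → IsE4 N m) ∧ (omz z w m = 5 → IsE5 N m) := by
  obtain ⟨hN1, hzu, hwu, hwl, hlam1, hlam2⟩ := MassX_exps hL hz hw1 hw2 hm1 hm2
  have hL0 : 0 < Real.log N := Real.log_pos hN1
  have hN0 : (0 : ℝ) < N := by linarith
  have hNn : 0 < N := by exact_mod_cast hN0
  have hm0 : 0 < m := by omega
  have hsf : Squarefree m := by
    rw [Nat.squarefree_iff_prime_squarefree]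
    intro p hp hpm
    refine hsq ⟨p, hp, hr p hp ((Dvd.intro p rfl).trans hpm), ?_⟩
    rw [sq]
    exact hpm
  obtain ⟨F1, hF1⟩ : ∃ F, F = m.primeFactors.filter (fun p => z < p ∧ p ≤ w) := ⟨_, rfl⟩
  obtain ⟨F2, hF2⟩ : ∃ F, F = m.primeFactors.filter (fun p => ¬ (z < p ∧ p ≤ w)) := ⟨_, rfl⟩
  have hcard : omz z w m = F1.card := by rw [hF1]; rfl
  have hprod : m = (∏ p ∈ F1, p) * ∏ p ∈ F2, p := by
    rw [hF1, hF2, prod_filter_mul_prod_filter_not, Nat.prod_primeFactors_of_squarefree hsf]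
  have h1 : ∀ p ∈ F1, p.Prime ∧ z < p ∧ p ≤ w ∧ p ∣ m := by
    intro p hp
    rw [hF1, mem_filter] at hp
    exact ⟨Nat.prime_of_mem_primeFactors hp.1, hp.2.1, hp.2.2, Nat.dvd_of_mem_primeFactors hp.1⟩
  have h2 : ∀ p ∈ F2, p.Prime ∧ w < p := by
    intro p hp
    rw [hF2, mem_filter] at hp
    have hpp := Nat.prime_of_mem_primeFactors hp.1
    have := hr p hpp (Nat.dvd_of_mem_primeFactors hp.1)
    refine ⟨hpp, ?_⟩
    by_contra hcon
    exact hp.2 ⟨this, by omega⟩
  have hlam : Real.log m / Real.log N = ∑ p ∈ F1, Real.log p / Real.log N + ∑ p ∈ F2, Real.log p / Real.log N := by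
    have e : (m : ℝ) = ((∏ p ∈ F1, p : ℕ) : ℝ) * ((∏ p ∈ F2, p : ℕ) : ℝ) := by
      rw [← Nat.cast_mul, ← hprod]
    have g1 : (0 : ℝ) < ((∏ p ∈ F1, p : ℕ) : ℝ) := by
      exact_mod_cast prod_pos fun p hp => (h1 p hp).1.pos
    have g2 : (0 : ℝ) < ((∏ p ∈ F2, p : ℕ) : ℝ) := by
      exact_mod_cast prod_pos fun p hp => (h2 p hp).1.pos
    rw [← MassX_sumlog (fun p hp => (h1 p hp).1.pos), ← MassX_sumlog (fun p hp => (h2 p hp).1.pos), e,
      Real.log_mul g1.ne' g2.ne', add_div]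
  have hlo1 := MassX_low (N := N) (T := F1) (c := 1898 / 10000) (fun p hp => hzu p (h1 p hp).2.1)
  have hlo2 := MassX_low (N := N) (T := F2) (c := 1 / 2) (fun p hp => hwu p (h2 p hp).2)
  have hmem : ∀ p ∈ F1, ∀ t : ℝ, Real.log p / Real.log N ≤ t → t ≤ 1 → p ∈ PE N (1898 / 10000) t :=
    fun p hp t ht ht1 => MassX_memI hN1 (h1 p hp).1 (hzu p (h1 p hp).2.1) ht ht1
  have hmono : ∀ p q : ℕ, 0 < p → p < q → Real.log p / Real.log N < Real.log q / Real.log N := by
    intro p q hp hpq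
    refine div_lt_div_of_pos_right ?_ hL0
    exact Real.log_lt_log (by exact_mod_cast hp) (by exact_mod_cast hpq)
  -- at least three small primes: no large one
  have hF2e : 3 ≤ F1.card → F2 = ∅ := by
    intro h3
    rw [← card_eq_zero]
    by_contra hne
    have h4 : (3 : ℝ) ≤ F1.card := by exact_mod_cast h3
    have h5 : (1 : ℝ) ≤ F2.card := by exact_mod_cast Nat.one_le_iff_ne_zero.2 hne
    linarith
  have hlogs2 : ∀ p q : ℕ, 0 < p → 0 < q → m = p * q →
      Real.log m / Real.log N = Real.log p / Real.log N + Real.log q / Real.log N := by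
    intro p q hp hq he
    have hp0 : (0 : ℝ) < p := by exact_mod_cast hp
    have hq0 : (0 : ℝ) < q := by exact_mod_cast hq
    rw [he, Nat.cast_mul, Real.log_mul hp0.ne' hq0.ne', add_div]
  refine ⟨fun hk => ?_, fun hk => ?_, fun hk => ?_, fun hk => ?_⟩
  · rw [hcard] at hk
    obtain ⟨p, hp, F', hF', hc', hlt', hpr'⟩ := MassX_ord (k := 1) hk
    obtain ⟨q, hq, F'', hF'', hc'', -, hpr''⟩ := MassX_ord (k := 0) hc'
    rw [card_eq_zero] at hc''
    rw [hc'', prod_empty, mul_one] at hpr''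
    rw [hpr''] at hpr'
    have hqF := hF' hq
    obtain ⟨hpp, hzp, hpw, -⟩ := h1 p hp
    obtain ⟨hqp, hzq, hqw, -⟩ := h1 q hqF
    have hpq := hlt' q hq
    have hupq := hmono p q hpp.pos hpq
    have hF2c : F2.card ≤ 1 := by
      by_contra hcon
      have h5 : (2 : ℝ) ≤ F2.card := by exact_mod_cast (by omega : 2 ≤ F2.card)
      have h6 : (F1.card : ℝ) = 2 := by exact_mod_cast hk
      linarith
    rcases Nat.eq_zero_or_pos F2.card with h0 | h0
    · left
      rw [card_eq_zero] at h0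
      rw [h0, prod_empty, mul_one, hpr'] at hprod
      have hll := hlogs2 p q hpp.pos hqp.pos hprod
      have hqu := hwl q hqp.pos hqw
      have hpu := hwl p hpp.pos hpw
      exact ⟨p, MassX_memI hN1 hpp (by linarith) hpu (by norm_num), q, hqp, hprod⟩
    · right
      have h1c : F2.card = 0 + 1 := by omega
      obtain ⟨r, hrF, G', -, hG', -, hprr⟩ := MassX_ord h1c
      rw [card_eq_zero] at hG'
      rw [hG', prod_empty, mul_one] at hprr
      obtain ⟨hrp, hrw⟩ := h2 r hrF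
      rw [hpr', hprr] at hprod
      have hru := hwu r hrw
      have e3 : Real.log m / Real.log N = Real.log p / Real.log N + Real.log q / Real.log N +
          Real.log r / Real.log N := by
        have hp0 : (0 : ℝ) < p := by exact_mod_cast hpp.pos
        have hq0 : (0 : ℝ) < q := by exact_mod_cast hqp.pos
        have hr0 : (0 : ℝ) < r := by exact_mod_cast hrp.pos
        rw [hprod, Nat.cast_mul, Nat.cast_mul, Real.log_mul (by positivity) hr0.ne',
          Real.log_mul hp0.ne' hq0.ne', add_div, add_div]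
      have hpu := hzu p hzp
      exact ⟨p, hmem p hp _ (by linarith) (by norm_num), q,
        MassX_memI hN1 hqp hupq (by linarith) (by linarith), r, hrp, hprod⟩
  · rw [hcard] at hk
    obtain ⟨p, hp, F', hF', hc', hlt', hpr'⟩ := MassX_ord (k := 2) hk
    obtain ⟨q, hq, F'', hF'', hc'', hlt'', hpr''⟩ := MassX_ord (k := 1) hc'
    obtain ⟨r, hr', F3, hF3, hc3, -, hpr3⟩ := MassX_ord (k := 0) hc''
    rw [card_eq_zero] at hc3
    rw [hc3, prod_empty, mul_one] at hpr3
    rw [hF2e (by omega), prod_empty, mul_one, hpr', hpr'', hpr3] at hprod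
    have hqF := hF' hq
    have hrF := hF' (hF'' hr')
    obtain ⟨hpp, hzp, hpw, -⟩ := h1 p hp
    obtain ⟨hqp, hzq, hqw, -⟩ := h1 q hqF
    obtain ⟨hrp, hzr, hrw, -⟩ := h1 r hrF
    have hupq := hmono p q hpp.pos (hlt' q hq)
    have huqr := hmono q r hqp.pos (hlt'' r hr')
    have e3 : Real.log m / Real.log N = Real.log p / Real.log N + Real.log q / Real.log N +
        Real.log r / Real.log N := by
      have hp0 : (0 : ℝ) < p := by exact_mod_cast hpp.pos
      have hq0 : (0 : ℝ) < q := by exact_mod_cast hqp.pos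
      have hr0 : (0 : ℝ) < r := by exact_mod_cast hrp.pos
      rw [hprod, Nat.cast_mul, Nat.cast_mul, Real.log_mul hp0.ne' (by positivity),
        Real.log_mul hq0.ne' hr0.ne', add_div, add_div, add_assoc]
    have hru := hwl r hrp.pos hrw
    have hpu := hzu p hzp
    have hmm : m = p * q * r := by rw [hprod, mul_assoc]
    rcases le_or_gt (Real.log p / Real.log N) (1 / 4) with h4 | h4
    · left
      exact ⟨p, hmem p hp _ h4 (by norm_num), q, MassX_memI hN1 hqp (by linarith) (by linarith) (by linarith),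
        r, hrp, hmm⟩
    · right
      exact ⟨p, MassX_memI hN1 hpp h4 (by linarith) (by norm_num), q,
        MassX_memI hN1 hqp hupq (by linarith) (by linarith), r, hrp, hmm⟩
  · rw [hcard] at hk
    obtain ⟨p, hp, F', hF', hc', hlt', hpr'⟩ := MassX_ord (k := 3) hk
    obtain ⟨q, hq, F'', hF'', hc'', hlt'', hpr''⟩ := MassX_ord (k := 2) hc'
    obtain ⟨r, hr', F3, hF3, hc3, hlt3, hpr3⟩ := MassX_ord (k := 1) hc''
    obtain ⟨s, hs', F4, -, hc4, -, hpr4⟩ := MassX_ord (k := 0) hc3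
    rw [card_eq_zero] at hc4
    rw [hc4, prod_empty, mul_one] at hpr4
    rw [hF2e (by omega), prod_empty, mul_one, hpr', hpr'', hpr3, hpr4] at hprod
    have hqF := hF' hq
    have hrF := hF' (hF'' hr')
    have hsF := hF' (hF'' (hF3 hs'))
    obtain ⟨hpp, hzp, hpw, -⟩ := h1 p hp
    obtain ⟨hqp, hzq, hqw, -⟩ := h1 q hqF
    obtain ⟨hrp, hzr, hrw, -⟩ := h1 r hrF
    obtain ⟨hsp, hzs, hsw, -⟩ := h1 s hsF
    have hpq := hlt' q hq
    have hqr := hlt'' r hr'
    have hrs := hlt3 s hs'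
    have hupq := hmono p q hpp.pos hpq
    have huqr := hmono q r hqp.pos hqr
    have hurs := hmono r s hrp.pos hrs
    have e4 : Real.log m / Real.log N = Real.log p / Real.log N + Real.log q / Real.log N +
        Real.log r / Real.log N + Real.log s / Real.log N := by
      have hp0 : (0 : ℝ) < p := by exact_mod_cast hpp.pos
      have hq0 : (0 : ℝ) < q := by exact_mod_cast hqp.pos
      have hr0 : (0 : ℝ) < r := by exact_mod_cast hrp.pos
      have hs0 : (0 : ℝ) < s := by exact_mod_cast hsp.pos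
      rw [hprod, Nat.cast_mul, Nat.cast_mul, Nat.cast_mul, Real.log_mul hp0.ne' (by positivity),
        Real.log_mul hq0.ne' (by positivity), Real.log_mul hr0.ne' hs0.ne']
      ring
    have hpu := hzu p hzp
    have hqu := hzu q hzq
    have hmm : m = p * q * r * s := by rw [hprod]; ring
    have hle : p * q * r ^ 2 ≤ 16 * N := by
      refine le_trans ?_ hm2
      rw [hmm, pow_two, ← mul_assoc]
      exact Nat.mul_le_mul_left _ hrs.le
    refine ⟨p, hmem p hp _ (by linarith) (by norm_num), q, mem_filter.2 ⟨hmem q hqF _ (by linarith) (by norm_num), hpq.le⟩,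
      r, mem_filter.2 ⟨hmem r hrF _ (by linarith) (by norm_num), hqr.le, hle⟩, s, hsp, hmm⟩
  · rw [hcard] at hk
    obtain ⟨p, hp, F', hF', hc', hlt', hpr'⟩ := MassX_ord (k := 4) hk
    obtain ⟨q, hq, F'', hF'', hc'', hlt'', hpr''⟩ := MassX_ord (k := 3) hc'
    obtain ⟨r, hr', F3, hF3, hc3, hlt3, hpr3⟩ := MassX_ord (k := 2) hc''
    obtain ⟨s, hs', F4, hF4, hc4, hlt4, hpr4⟩ := MassX_ord (k := 1) hc3
    obtain ⟨t, ht', F5, -, hc5, -, hpr5⟩ := MassX_ord (k := 0) hc4
    rw [card_eq_zero] at hc5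
    rw [hc5, prod_empty, mul_one] at hpr5
    rw [hF2e (by omega), prod_empty, mul_one, hpr', hpr'', hpr3, hpr4, hpr5] at hprod
    have hqF := hF' hq
    have hrF := hF' (hF'' hr')
    have hsF := hF' (hF'' (hF3 hs'))
    have htF := hF' (hF'' (hF3 (hF4 ht')))
    obtain ⟨hpp, hzp, hpw, -⟩ := h1 p hp
    obtain ⟨hqp, hzq, hqw, -⟩ := h1 q hqF
    obtain ⟨hrp, hzr, hrw, -⟩ := h1 r hrF
    obtain ⟨hsp, hzs, hsw, -⟩ := h1 s hsF
    obtain ⟨htp, hzt, htw, -⟩ := h1 t htF
    have hupq := hmono p q hpp.pos (hlt' q hq)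
    have huqr := hmono q r hqp.pos (hlt'' r hr')
    have hurs := hmono r s hrp.pos (hlt3 s hs')
    have hust := hmono s t hsp.pos (hlt4 t ht')
    have e5 : Real.log m / Real.log N = Real.log p / Real.log N + Real.log q / Real.log N +
        Real.log r / Real.log N + Real.log s / Real.log N + Real.log t / Real.log N := by
      have hp0 : (0 : ℝ) < p := by exact_mod_cast hpp.pos
      have hq0 : (0 : ℝ) < q := by exact_mod_cast hqp.pos
      have hr0 : (0 : ℝ) < r := by exact_mod_cast hrp.pos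
      have hs0 : (0 : ℝ) < s := by exact_mod_cast hsp.pos
      have ht0 : (0 : ℝ) < t := by exact_mod_cast htp.pos
      rw [hprod, Nat.cast_mul, Nat.cast_mul, Nat.cast_mul, Nat.cast_mul, Real.log_mul hp0.ne' (by positivity),
        Real.log_mul hq0.ne' (by positivity), Real.log_mul hr0.ne' (by positivity), Real.log_mul hs0.ne' ht0.ne']
      ring
    have hpu := hzu p hzp
    have hqu := hzu q hzq
    have hru := hzu r hzr
    have hmm : m = p * q * r * s * t := by rw [hprod]; ring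
    exact ⟨p, hmem p hp _ (by linarith) (by norm_num), q, hmem q hqF _ (by linarith) (by norm_num),
      r, hmem r hrF _ (by linarith) (by norm_num), s, hmem s hsF _ (by linarith) (by norm_num), t, htp, hmm⟩

/-! ### Numbers divisible by the square of a large prime -/

/-- multiples of `d` in a short interval -/
private theorem MassX_mult (x l d : ℕ) (hd : 0 < d) :
    (((Ioc x (x + l)).filter (fun m => d ∣ m)).card : ℝ) ≤ l / d + 1 := by
  have hsub : (Ioc x (x + l)).filter (fun m => d ∣ m) ⊆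
      (Ioc (x / d) ((x + l) / d)).image (fun k => d * k) := by
    intro m hm
    rw [mem_filter, mem_Ioc] at hm
    obtain ⟨⟨h1, h2⟩, k, hk⟩ := hm
    rw [mem_image]
    refine ⟨k, ?_, hk.symm⟩
    rw [mem_Ioc]
    refine ⟨?_, ?_⟩
    · rw [Nat.div_lt_iff_lt_mul hd, mul_comm, ← hk]
      exact h1
    · rw [Nat.le_div_iff_mul_le hd, mul_comm, ← hk]
      exact h2
  have h1 : ((Ioc x (x + l)).filter (fun m => d ∣ m)).card ≤ (x + l) / d - x / d :=
    (card_le_card hsub).trans (card_image_le.trans (by rw [Nat.card_Ioc]))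
  have h2 : x / d ≤ (x + l) / d := Nat.div_le_div_right (Nat.le_add_right _ _)
  have h3 : (((Ioc x (x + l)).filter (fun m => d ∣ m)).card : ℝ) ≤
      (((x + l) / d : ℕ) : ℝ) - ((x / d : ℕ) : ℝ) := by
    rw [← Nat.cast_sub h2]
    exact_mod_cast h1
  have h4 : (((x + l) / d : ℕ) : ℝ) ≤ ((x + l : ℕ) : ℝ) / d := Nat.cast_div_le
  have hdR : (0 : ℝ) < d := by exact_mod_cast hd
  have h5 : (x : ℝ) / d < ((x / d : ℕ) : ℝ) + 1 := by
    rw [div_lt_iff₀ hdR]
    have : x < (x / d + 1) * d := by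
      have := Nat.lt_div_mul_add hd (a := x)
      linarith [this, add_mul (x / d) 1 d, one_mul d]
    exact_mod_cast this
  have h6 : ((x + l : ℕ) : ℝ) / d = (x : ℝ) / d + l / d := by
    push_cast
    rw [add_div]
  linarith

/-- multiples of large squares in a short interval -/
private theorem MassX_sq (x l M R : ℕ) (hM : 1 ≤ M) :
    (((Ioc M R).biUnion (fun p => (Ioc x (x + l)).filter (fun m => p ^ 2 ∣ m))).card : ℝ) ≤
      l / M + R := by
  have h1 : (((Ioc M R).biUnion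
      (fun p => (Ioc x (x + l)).filter (fun m => p ^ 2 ∣ m))).card : ℝ) ≤
      ∑ p ∈ Ioc M R, (((Ioc x (x + l)).filter (fun m => p ^ 2 ∣ m)).card : ℝ) := by
    have := card_biUnion_le (s := Ioc M R)
      (t := fun p => (Ioc x (x + l)).filter (fun m => p ^ 2 ∣ m))
    exact_mod_cast this
  have h2 : ∑ p ∈ Ioc M R, (((Ioc x (x + l)).filter (fun m => p ^ 2 ∣ m)).card : ℝ) ≤
      ∑ p ∈ Ioc M R, ((l : ℝ) * ((p : ℝ) ^ 2)⁻¹ + 1) := by
    refine sum_le_sum fun p hp => ?_
    rw [mem_Ioc] at hp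
    have h3 := MassX_mult x l (p ^ 2) (pow_pos (show 0 < p by omega) 2)
    rw [Nat.cast_pow, div_eq_mul_inv] at h3
    exact h3
  have hM0 : (0 : ℝ) < M := by exact_mod_cast hM
  have h3 : ∑ p ∈ Ioc M R, ((p : ℝ) ^ 2)⁻¹ ≤ (M : ℝ)⁻¹ := by
    rcases le_or_gt M R with h | h
    · have h4 := sum_Ioc_inv_sq_le_sub (α := ℝ) (k := M) (n := R) (by omega) h
      have h5 : (0 : ℝ) ≤ (R : ℝ)⁻¹ := by positivity
      linarith
    · rw [Ioc_eq_empty (by omega), sum_empty]
      positivity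
  have h4 : ((Ioc M R).card : ℝ) ≤ R := by
    rw [Nat.card_Ioc]
    exact_mod_cast Nat.sub_le _ _
  have hl0 : (0 : ℝ) ≤ l := Nat.cast_nonneg l
  calc _ ≤ ∑ p ∈ Ioc M R, ((l : ℝ) * ((p : ℝ) ^ 2)⁻¹ + 1) := h1.trans h2
    _ = (l : ℝ) * ∑ p ∈ Ioc M R, ((p : ℝ) ^ 2)⁻¹ + (Ioc M R).card := by
        rw [sum_add_distrib, ← mul_sum, sum_const, nsmul_eq_mul, mul_one]
    _ ≤ (l : ℝ) * (M : ℝ)⁻¹ + R := add_le_add (mul_le_mul_of_nonneg_left h3 hl0) h4
    _ = l / M + R := by rw [div_eq_mul_inv]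

/-- powers beat constants -/
private theorem MassX_pow (c : ℝ) (hc : 0 < c) (C : ℝ) : ∃ N0 : ℕ, ∀ N : ℕ, N0 ≤ N → C ≤ (N : ℝ) ^ c := by
  have h := ((tendsto_rpow_atTop hc).comp (tendsto_natCast_atTop_atTop (R := ℝ))).eventually
    (Filter.eventually_ge_atTop C)
  rw [Filter.eventually_atTop] at h
  obtain ⟨N0, hN0⟩ := h
  exact ⟨N0, fun N hN => hN0 N hN⟩

/-- powers of `N` beat powers of `log N` -/
private theorem MassX_logK (K : ℕ) (c C : ℝ) (hc : 0 < c) (hC : 0 < C) : ∃ N0 : ℕ, ∀ N : ℕ, N0 ≤ N →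
    1 ≤ Real.log N ∧ C * Real.log N ^ K ≤ (N : ℝ) ^ c := by
  have hN : Filter.Tendsto (fun N : ℕ => (N : ℝ)) Filter.atTop Filter.atTop := tendsto_natCast_atTop_atTop
  have h1 := (Real.tendsto_log_atTop.comp hN).eventually (Filter.eventually_ge_atTop (1 : ℝ))
  have h4 := hN.eventually ((isLittleO_log_rpow_rpow_atTop (K : ℝ) hc).def (inv_pos.2 hC))
  obtain ⟨N0, hN0⟩ := Filter.eventually_atTop.mp (h1.and h4)
  refine ⟨N0, fun N hNN => ?_⟩
  obtain ⟨g1, g4⟩ := hN0 N hNN
  have g1' : (1 : ℝ) ≤ Real.log N := g1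
  refine ⟨g1', ?_⟩
  rw [Real.norm_of_nonneg (Real.rpow_nonneg (by linarith) _),
    Real.norm_of_nonneg (Real.rpow_nonneg (Nat.cast_nonneg N) _), Real.rpow_natCast] at g4
  rw [inv_mul_eq_div, le_div_iff₀ hC] at g4
  linarith

open Classical in
private theorem MassX_rare (K : ℕ) (ε : ℝ) (hε : 0 < ε) : ∃ N0 : ℕ, ∀ N : ℕ, N0 ≤ N → ∀ z x l : ℕ, (N : ℝ) ^ (1898 / 10000 : ℝ) ≤ z →
    N ≤ 8 * x → x ≤ 8 * N → (x : ℝ) / Real.log N ^ K ≤ l → l ≤ x →
      (((Ioc x (x + l)).filter (fun m => sqz z m)).card : ℝ) ≤ ε * l / Real.log N := by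
  obtain ⟨N1, hN1⟩ := MassX_logK 1 (1898 / 10000) (2 / ε) (by norm_num) (by positivity)
  obtain ⟨N2, hN2⟩ := MassX_logK (K + 1) (1 / 2) (64 / ε) (by norm_num) (by positivity)
  refine ⟨max 1 (max N1 N2), fun N hN z x l hz hx1 hx2 hl hlx => ?_⟩
  have hNone : 1 ≤ N := le_trans (le_max_left _ _) hN
  obtain ⟨hL1, h1⟩ := hN1 N (le_trans (le_trans (le_max_left _ _) (le_max_right _ _)) hN)
  obtain ⟨-, h2⟩ := hN2 N (le_trans (le_trans (le_max_right _ _) (le_max_right _ _)) hN)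
  have hNpos : (0 : ℝ) < N := by exact_mod_cast hNone
  have hL : (0 : ℝ) < Real.log N := by linarith
  rw [pow_one] at h1
  have hzpos : (0 : ℝ) < z := lt_of_lt_of_le (by positivity) hz
  have hz1 : 1 ≤ z := by
    have : 0 < z := by exact_mod_cast hzpos
    exact this
  have hsub : (Ioc x (x + l)).filter (fun m => sqz z m) ⊆
      (Ioc z (Nat.sqrt (16 * N))).biUnion (fun p => (Ioc x (x + l)).filter (fun m => p ^ 2 ∣ m)) := by
    intro m hm
    rw [mem_filter] at hm
    obtain ⟨hmI, p, hp, hzp, hpm⟩ := hm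
    rw [mem_biUnion]
    have hmI' := hmI
    rw [mem_Ioc] at hmI'
    refine ⟨p, ?_, ?_⟩
    · rw [mem_Ioc]
      refine ⟨hzp, ?_⟩
      rw [Nat.le_sqrt]
      have h3 : p ^ 2 ≤ m := Nat.le_of_dvd (by omega) hpm
      have h4 : p * p = p ^ 2 := (sq p).symm
      omega
    · rw [mem_filter]
      exact ⟨hmI, hpm⟩
  have h3 : (((Ioc x (x + l)).filter (fun m => sqz z m)).card : ℝ) ≤ l / z + (Nat.sqrt (16 * N) : ℕ) :=
    le_trans (by exact_mod_cast card_le_card hsub) (MassX_sq x l z (Nat.sqrt (16 * N)) hz1)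
  have hl0 : (0 : ℝ) ≤ l := Nat.cast_nonneg l
  have h4 : (l : ℝ) / z ≤ ε / 2 * l / Real.log N := by
    rw [div_le_div_iff₀ hzpos hL]
    have h5 : Real.log N ≤ ε / 2 * z := by
      have h6 : 2 / ε * Real.log N ≤ z := h1.trans hz
      have h7 : Real.log N = ε / 2 * (2 / ε * Real.log N) := by
        field_simp
      rw [h7]
      exact mul_le_mul_of_nonneg_left h6 (by positivity)
    calc (l : ℝ) * Real.log N ≤ l * (ε / 2 * z) := mul_le_mul_of_nonneg_left h5 hl0
      _ = ε / 2 * l * z := by ring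
  have h5 : ((Nat.sqrt (16 * N) : ℕ) : ℝ) ≤ ε / 2 * l / Real.log N := by
    have h6 : ((Nat.sqrt (16 * N) : ℕ) : ℝ) ≤ 4 * (N : ℝ) ^ (1 / 2 : ℝ) := by
      have h7 : ((Nat.sqrt (16 * N) : ℕ) : ℝ) ^ 2 ≤ (4 * (N : ℝ) ^ (1 / 2 : ℝ)) ^ 2 := by
        have h8 : (Nat.sqrt (16 * N)) ^ 2 ≤ 16 * N := Nat.sqrt_le' _
        have h9 : ((Nat.sqrt (16 * N) : ℕ) : ℝ) ^ 2 ≤ 16 * N := by exact_mod_cast h8
        have h10 : (4 * (N : ℝ) ^ (1 / 2 : ℝ)) ^ 2 = 16 * N := by
          rw [mul_pow, ← Real.rpow_natCast, ← Real.rpow_natCast, ← Real.rpow_mul hNpos.le]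
          norm_num
        rw [h10]
        exact h9
      exact le_of_sq_le_sq h7 (by positivity)
    refine h6.trans ?_
    rw [le_div_iff₀ hL]
    have hLK : (0 : ℝ) < Real.log N ^ K := by positivity
    have hxl : (x : ℝ) ≤ l * Real.log N ^ K := by
      rw [div_le_iff₀ hLK] at hl
      exact hl
    have hx' : (N : ℝ) ≤ 8 * x := by exact_mod_cast hx1
    have h7 : (N : ℝ) ≤ 8 * l * Real.log N ^ K := by linarith
    have h8 : (N : ℝ) = (N : ℝ) ^ (1 / 2 : ℝ) * (N : ℝ) ^ (1 / 2 : ℝ) := by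
      rw [← Real.rpow_add hNpos]
      norm_num
    have hs : (0 : ℝ) < (N : ℝ) ^ (1 / 2 : ℝ) := by positivity
    -- `4 s L · (64/ε) L^(K+1) ≤ 4 s L s = 4 L N ≤ 32 L l L^K`
    have h9 : 4 * (N : ℝ) ^ (1 / 2 : ℝ) * Real.log N * (64 / ε * Real.log N ^ (K + 1)) ≤
        ε / 2 * l * (64 / ε * Real.log N ^ (K + 1)) := by
      calc 4 * (N : ℝ) ^ (1 / 2 : ℝ) * Real.log N * (64 / ε * Real.log N ^ (K + 1))
          ≤ 4 * (N : ℝ) ^ (1 / 2 : ℝ) * Real.log N * (N : ℝ) ^ (1 / 2 : ℝ) :=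
            mul_le_mul_of_nonneg_left h2 (by positivity)
        _ = 4 * Real.log N * N := by
            rw [mul_assoc, mul_comm (Real.log N), ← mul_assoc, mul_assoc 4, ← h8]
            ring
        _ ≤ 4 * Real.log N * (8 * l * Real.log N ^ K) := mul_le_mul_of_nonneg_left h7 (by positivity)
        _ = ε / 2 * l * (64 / ε * Real.log N ^ (K + 1)) := by
            rw [pow_succ]
            field_simp
            ring
    exact le_of_mul_le_mul_right h9 (by positivity)
  calc _ ≤ (l : ℝ) / z + (Nat.sqrt (16 * N) : ℕ) := h3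
    _ ≤ ε / 2 * l / Real.log N + ε / 2 * l / Real.log N := add_le_add h4 h5
    _ = ε * l / Real.log N := by ring


/-! ### Counting -/

private theorem MassX_size {N x d : ℕ} (hL : (10 : ℝ) ^ 9 ≤ Real.log N) (hx : N ≤ 8 * x) (hd : 0 < d)
    (h : Real.log d / Real.log N ≤ 9 / 10) : 1 ≤ d ∧ (N : ℝ) ^ (1 / 20 : ℝ) * d ≤ x := by
  have hL0 : 0 < Real.log N := by linarith [show (0 : ℝ) < 10 ^ 9 by norm_num]
  have hNn : 0 < N := by
    rcases Nat.eq_zero_or_pos N with h | h
    · rw [h, Nat.cast_zero, Real.log_zero] at hL0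
      exact absurd hL0 (lt_irrefl _)
    · exact h
  have hN0 : (0 : ℝ) < N := by exact_mod_cast hNn
  have hd0 : (0 : ℝ) < d := by exact_mod_cast hd
  have hx' : (N : ℝ) ≤ 8 * x := by exact_mod_cast hx
  have h8 : Real.log 8 ≤ 7 := by
    have := Real.log_le_sub_one_of_pos (show (0 : ℝ) < 8 by norm_num)
    linarith
  refine ⟨hd, ?_⟩
  rw [div_le_iff₀ hL0] at h
  have h1 : Real.log (8 * ((N : ℝ) ^ (1 / 20 : ℝ) * d)) ≤ Real.log N := by
    rw [Real.log_mul (by norm_num) (by positivity), Real.log_mul (by positivity) hd0.ne', Real.log_rpow hN0]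
    have : (7 : ℝ) ≤ 1 / 20 * 10 ^ 9 := by norm_num
    linarith
  have h2 := (Real.log_le_log_iff (by positivity) hN0).1 h1
  linarith

private theorem MassX_cov (K : ℕ) : ∃ N0 : ℕ, ∀ N : ℕ, N0 ≤ N → ∀ x l : ℕ, N ≤ 8 * x → x ≤ 8 * N →
    (x : ℝ) / Real.log N ^ K ≤ l → l ≤ x → ∀ (τ : Type) (ι : Finset τ) (d : τ → ℕ) (A : Finset ℕ) (B : ℝ),
      A ⊆ Ioc x (x + l) → (∀ m ∈ A, ∃ i ∈ ι, ∃ r : ℕ, r.Prime ∧ m = d i * r) →
      (∀ i ∈ ι, 0 < d i ∧ Real.log (d i) / Real.log N ≤ 9 / 10) →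
      ∑ i ∈ ι, 1 / (d i * Real.log ((x : ℝ) / d i)) ≤ B / Real.log N →
      (A.card : ℝ) ≤ (1 + 1 / 20000) * B * (l / Real.log N) := by
  obtain ⟨N1, hN1⟩ := cov K (1 / 20000) (1 / 20) (by norm_num) (by norm_num)
  obtain ⟨N2, hN2⟩ := Pool.Agent.H76.GB.log_ge (10 ^ 9)
  refine ⟨N1 + N2, fun N hN x l hx1 hx2 hl hlx τ ι d A B hA hAd hd hB => ?_⟩
  have hL9 := hN2 N (by omega)
  have h := hN1 N (by omega) x l hx1 hx2 hl hlx τ ι d A hA hAd
    (fun i hi => MassX_size hL9 hx1 (hd i hi).1 (hd i hi).2)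
  have hl0 : (0 : ℝ) ≤ l := Nat.cast_nonneg l
  calc (A.card : ℝ) ≤ _ := h
    _ ≤ (1 + 1 / 20000) * l * (B / Real.log N) := mul_le_mul_of_nonneg_left hB (by positivity)
    _ = _ := by ring

/-- pairs -/
private theorem MassX_covP (K : ℕ) : ∃ N0 : ℕ, ∀ N : ℕ, N0 ≤ N → ∀ x l : ℕ, N ≤ 8 * x → x ≤ 8 * N →
    (x : ℝ) / Real.log N ^ K ≤ l → l ≤ x → ∀ (P : Finset ℕ) (Q : ℕ → Finset ℕ) (A : Finset ℕ) (B : ℝ),
      A ⊆ Ioc x (x + l) → (∀ m ∈ A, ∃ p ∈ P, ∃ q ∈ Q p, ∃ r : ℕ, r.Prime ∧ m = p * q * r) →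
      (∀ p ∈ P, ∀ q ∈ Q p, 0 < p ∧ 0 < q ∧ Real.log p / Real.log N + Real.log q / Real.log N ≤ 9 / 10) →
      ∑ p ∈ P, ∑ q ∈ Q p, 1 / (p * q * Real.log ((x : ℝ) / (p * q))) ≤ B / Real.log N →
      (A.card : ℝ) ≤ (1 + 1 / 20000) * B * (l / Real.log N) := by
  obtain ⟨N0, hN0⟩ := MassX_cov K
  refine ⟨N0, fun N hN x l hx1 hx2 hl hlx P Q A B hA hAd hd hB => ?_⟩
  refine hN0 N hN x l hx1 hx2 hl hlx ((_ : ℕ) × ℕ) (P.sigma Q) (fun i => i.1 * i.2) A B hA ?_ ?_ ?_
  · intro m hm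
    obtain ⟨p, hp, q, hq, r, hr, he⟩ := hAd m hm
    exact ⟨⟨p, q⟩, mem_sigma.2 ⟨hp, hq⟩, r, hr, he⟩
  · rintro ⟨p, q⟩ hi
    rw [mem_sigma] at hi
    obtain ⟨hp, hq, h⟩ := hd p hi.1 q hi.2
    refine ⟨Nat.mul_pos hp hq, ?_⟩
    have hp0 : (0 : ℝ) < p := by exact_mod_cast hp
    have hq0 : (0 : ℝ) < q := by exact_mod_cast hq
    push_cast
    rw [Real.log_mul hp0.ne' hq0.ne', add_div]
    exact h
  · refine le_trans (le_of_eq ?_) hB
    rw [sum_sigma]
    push_cast
    rfl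

open Classical in
/-- the six classes -/
private theorem MassX_cnt (K : ℕ) : ∃ N0 : ℕ, ∀ N : ℕ, N0 ≤ N → ∀ x l : ℕ, N ≤ 8 * x → x ≤ 8 * N →
    (x : ℝ) / Real.log N ^ K ≤ l → l ≤ x →
      (((Ioc x (x + l)).filter (fun m => IsE2 N m)).card : ℝ) ≤ (1 + 1 / 20000) * (2 / 10000) * (l / Real.log N) ∧
      (((Ioc x (x + l)).filter (fun m => IsE3 N m)).card : ℝ) ≤ (1 + 1 / 20000) * (1335 / 10000) * (l / Real.log N) ∧
      (((Ioc x (x + l)).filter (fun m => IsE3b N m)).card : ℝ) ≤ (1 + 1 / 20000) * (2058 / 10000) * (l / Real.log N) ∧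
      (((Ioc x (x + l)).filter (fun m => IsE3c N m)).card : ℝ) ≤ (1 + 1 / 20000) * (1492 / 10000) * (l / Real.log N) ∧
      (((Ioc x (x + l)).filter (fun m => IsE4 N m)).card : ℝ) ≤ (1 + 1 / 20000) * (332 / 10000) * (l / Real.log N) ∧
      (((Ioc x (x + l)).filter (fun m => IsE5 N m)).card : ℝ) ≤ (1 + 1 / 20000) * (5 / 10000) * (l / Real.log N) := by
  obtain ⟨N1, hN1⟩ := MassX_cov K
  obtain ⟨N2, hN2⟩ := MassX_covP K
  obtain ⟨M2, hM2⟩ := MassX_s2
  obtain ⟨M3, hM3⟩ := MassX_s3a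
  obtain ⟨M4, hM4⟩ := MassX_s3b
  obtain ⟨M5, hM5⟩ := MassX_s3c
  obtain ⟨M6, hM6⟩ := MassX_s4
  obtain ⟨M7, hM7⟩ := MassX_s5
  obtain ⟨M8, hM8⟩ := Pool.Agent.H76.GB.log_ge (10 ^ 9)
  refine ⟨N1 + N2 + M2 + M3 + M4 + M5 + M6 + M7 + M8 + 2, fun N hN x l hx1 hx2 hl hlx => ?_⟩
  have hL10 := hM8 N (by omega)
  have hc := hN1 N (by omega) x l hx1 hx2 hl hlx
  have hcP := hN2 N (by omega) x l hx1 hx2 hl hlx
  have h2 := hM2 N (by omega) x hx1
  have h3 := hM3 N (by omega) x hx1 (fun p => PE N (Real.log p / Real.log N) (1 / 2 + 2 / 1000000 - Real.log p / Real.log N))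
    (fun p _ => Subset.rfl)
  have h4 := hM4 N (by omega) x hx1 (fun p => PE N (1 / 2 - 2 / 1000000 - Real.log p / Real.log N)
    ((1 - Real.log p / Real.log N) / 2 + 2 / 1000000)) (fun p _ => Subset.rfl)
  have h5 := hM5 N (by omega) x hx1 (fun p => PE N (Real.log p / Real.log N)
    ((1 - Real.log p / Real.log N) / 2 + 2 / 1000000)) (fun p _ => Subset.rfl)
  have h6 := hM6 N (by omega) x hx1 hx2
  have h7 := hM7 N (by omega) x hx1
  have hNr : (1 : ℝ) < N := by exact_mod_cast (by omega : 1 < N)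
  refine ⟨?_, ?_, ?_, ?_, ?_, ?_⟩
  · refine hc ℕ _ (fun p => p) _ (2 / 10000) (filter_subset _ _) ?_ ?_ h2
    · intro m hm
      exact (mem_filter.1 hm).2
    · intro p hp
      obtain ⟨hpp, -, -, h⟩ := MassX_mem hNr hp
      exact ⟨hpp.pos, by linarith⟩
  · refine hcP _ _ _ (1335 / 10000) (filter_subset _ _) (fun m hm => (mem_filter.1 hm).2) ?_ h3
    intro p hp q hq
    obtain ⟨hpp, -, -, h⟩ := MassX_mem hNr hp
    obtain ⟨hqp, -, -, h'⟩ := MassX_mem hNr hq
    exact ⟨hpp.pos, hqp.pos, by linarith⟩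
  · refine hcP _ _ _ (2058 / 10000) (filter_subset _ _) (fun m hm => (mem_filter.1 hm).2) ?_ h4
    intro p hp q hq
    obtain ⟨hpp, -, -, h⟩ := MassX_mem hNr hp
    obtain ⟨hqp, -, -, h'⟩ := MassX_mem hNr hq
    exact ⟨hpp.pos, hqp.pos, by linarith⟩
  · refine hcP _ _ _ (1492 / 10000) (filter_subset _ _) (fun m hm => (mem_filter.1 hm).2) ?_ h5
    intro p hp q hq
    obtain ⟨hpp, -, -, h⟩ := MassX_mem hNr hp
    obtain ⟨hqp, -, -, h'⟩ := MassX_mem hNr hq
    exact ⟨hpp.pos, hqp.pos, by linarith⟩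
  · obtain ⟨P, hP⟩ : ∃ P, P = PE N (1898 / 10000) (32 / 100) := ⟨_, rfl⟩
    rw [← hP] at h6
    refine hc ((_ : ℕ) × (_ : ℕ) × ℕ)
      (P.sigma (fun p => (P.filter (fun q => p ≤ q)).sigma
        (fun q => P.filter (fun r => q ≤ r ∧ p * q * r ^ 2 ≤ 16 * N))))
      (fun i => i.1 * i.2.1 * i.2.2) _ (332 / 10000) (filter_subset _ _) ?_ ?_ ?_
    · intro m hm
      obtain ⟨p, hp, q, hq, r, hr, s, hs, hms⟩ := (mem_filter.1 hm).2
      rw [← hP] at hp hq hr
      exact ⟨⟨p, q, r⟩, mem_sigma.2 ⟨hp, mem_sigma.2 ⟨hq, hr⟩⟩, s, hs, hms⟩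
    · rintro ⟨p, q, r⟩ hi
      rw [mem_sigma, mem_sigma] at hi
      obtain ⟨hp, hq, hr⟩ := hi
      simp only at hp hq hr
      rw [mem_filter] at hq hr
      have hq' := hq.1
      have hr' := hr.1
      rw [hP] at hp hq' hr'
      obtain ⟨hpp, hp0, hp1, h⟩ := MassX_mem hNr hp
      obtain ⟨hqp, hq0, hq1, -⟩ := MassX_mem hNr hq'
      obtain ⟨hrp, hr0, hr1, -⟩ := MassX_mem hNr hr'
      refine ⟨Nat.mul_pos (Nat.mul_pos hpp.pos hqp.pos) hrp.pos, ?_⟩
      have hL9 : 0 < Real.log N := Real.log_pos hNr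
      -- `p q r ≤ 16 N / r`
      have h8 : (p : ℝ) * q * r ^ 2 ≤ 16 * N := by exact_mod_cast hr.2.2
      have hN0 : (0 : ℝ) < N := by linarith
      have h9 := Real.log_le_log (by positivity) h8
      rw [Real.log_mul (by positivity) (by positivity), Real.log_mul hp0.ne' hq0.ne', Real.log_pow,
        Real.log_mul (by norm_num) hN0.ne'] at h9
      push_cast at h9
      push_cast
      rw [Real.log_mul (by positivity) hr0.ne', Real.log_mul hp0.ne' hq0.ne', div_le_iff₀ hL9]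
      rw [lt_div_iff₀ hL9] at hr1
      have h16 : Real.log 16 ≤ 15 := by
        have := Real.log_le_sub_one_of_pos (show (0 : ℝ) < 16 by norm_num)
        linarith
      have h17 : (15 : ℝ) ≤ 1 / 100 * 10 ^ 9 := by norm_num
      linarith
    · refine le_trans (le_of_eq ?_) h6
      rw [sum_sigma]
      refine sum_congr rfl fun p _ => ?_
      rw [sum_sigma]
      push_cast
      rfl
  · obtain ⟨P, hP⟩ : ∃ P, P = PE N (1898 / 10000) (2026 / 10000) := ⟨_, rfl⟩
    obtain ⟨R, hR⟩ : ∃ R, R = PE N (1898 / 10000) (2154 / 10000) := ⟨_, rfl⟩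
    rw [← hP, ← hR] at h7
    refine hc ((_ : ℕ) × (_ : ℕ) × (_ : ℕ) × ℕ)
      (P.sigma (fun _ => P.sigma (fun _ => R.sigma (fun _ => R))))
      (fun i => i.1 * i.2.1 * i.2.2.1 * i.2.2.2) _ (5 / 10000) (filter_subset _ _) ?_ ?_ ?_
    · intro m hm
      obtain ⟨p, hp, q, hq, r, hr, s, hs, t, ht, hms⟩ := (mem_filter.1 hm).2
      rw [← hP] at hp hq
      rw [← hR] at hr hs
      exact ⟨⟨p, q, r, s⟩, mem_sigma.2 ⟨hp, mem_sigma.2 ⟨hq, mem_sigma.2 ⟨hr, hs⟩⟩⟩, t, ht, hms⟩
    · rintro ⟨p, q, r, s⟩ hi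
      rw [mem_sigma, mem_sigma, mem_sigma] at hi
      obtain ⟨hp, hq, hr, hs⟩ := hi
      simp only at hp hq hr hs
      rw [hP] at hp hq
      rw [hR] at hr hs
      obtain ⟨hpp, hp0, -, hp2⟩ := MassX_mem hNr hp
      obtain ⟨hqp, hq0, -, hq2⟩ := MassX_mem hNr hq
      obtain ⟨hrp, hr0, -, hr2⟩ := MassX_mem hNr hr
      obtain ⟨hsp, hs0, -, hs2⟩ := MassX_mem hNr hs
      refine ⟨Nat.mul_pos (Nat.mul_pos (Nat.mul_pos hpp.pos hqp.pos) hrp.pos) hsp.pos, ?_⟩
      push_cast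
      rw [Real.log_mul (by positivity) hs0.ne', Real.log_mul (by positivity) hr0.ne', Real.log_mul hp0.ne' hq0.ne',
        add_div, add_div, add_div]
      linarith
    · refine le_trans (le_of_eq ?_) h7
      rw [sum_sigma]
      refine sum_congr rfl fun p _ => ?_
      rw [sum_sigma]
      refine sum_congr rfl fun q _ => ?_
      rw [sum_sigma]
      push_cast
      rfl

/-! ### The mass -/

/-- facts for large `N` -/
private theorem MassX_large (A1 : ℕ) : ∃ N0 : ℕ, ∀ N : ℕ, N0 ≤ N → (10 : ℝ) ^ 9 ≤ Real.log N ∧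
    8 * Real.log N ^ A1 ≤ N ∧ 2000 ≤ N := by
  obtain ⟨x1, hx1⟩ := Pool.Agent.H76.GB.log_ge (10 ^ 9)
  obtain ⟨x2, hx2⟩ := Pool.Agent.H76.GB.log_pow_le 1 8 (by norm_num) (by norm_num) A1
  refine ⟨x1 + x2 + 2000, fun N hN => ?_⟩
  have g1 := hx1 N (by omega)
  have g2 := hx2 N (by omega)
  rw [Real.rpow_one] at g2
  exact ⟨g1, g2, by omega⟩

private theorem MassX_rg (z m : ℕ) (h : rou z m) : rg z m = 1 := by
  unfold rg
  exact if_pos h

private theorem MassX_rg0 (z m : ℕ) (h : ¬ rou z m) : rg z m = 0 := by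
  unfold rg
  exact if_neg h

open Classical in
/-- the pointwise lower bound, summed -/
private theorem MassX_sum {N y J J1 : ℕ} {T : Finset ℕ} (hJ : J ≤ J1) (hT : ∀ m ∈ T, zz y J1 < m)
    (h5 : ∀ m ∈ T, omz (zz y J) (zz y J1) m ≤ 5) :
    ((T.filter Nat.Prime).card : ℝ)
      - ((T.filter (fun m => rou (zz y J) m ∧ omz (zz y J) (zz y J1) m = 2)).card
      + 2 * (T.filter (fun m => rou (zz y J) m ∧ omz (zz y J) (zz y J1) m = 3)).card
      + 3 * (T.filter (fun m => rou (zz y J) m ∧ omz (zz y J) (zz y J1) m = 4)).card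
      + 4 * (T.filter (fun m => rou (zz y J) m ∧ omz (zz y J) (zz y J1) m = 5)).card) ≤
      ∑ m ∈ T, gX y J J1 m := by
  have hz : zz y J ≤ zz y J1 := by
    unfold zz
    exact Nat.mul_le_mul_right _ (Nat.pow_le_pow_right (by norm_num) hJ)
  have hc : ∀ (f : ℕ → Prop) [DecidablePred f], ((T.filter f).card : ℝ) = ∑ m ∈ T, if f m then (1 : ℝ) else 0 := by
    intro f _
    rw [← sum_filter, sum_const, nsmul_eq_mul, mul_one]
  rw [hc, hc, hc, hc, hc, mul_sum, mul_sum, mul_sum, ← sum_add_distrib, ← sum_add_distrib, ← sum_add_distrib,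
    ← sum_sub_distrib]
  refine sum_le_sum fun m hm => ?_
  have hzm := hT m hm
  have h5m := h5 m hm
  have hom : om y J J1 m = omz (zz y J) (zz y J1) m := rfl
  by_cases hp : m.Prime
  · have hr : rou (zz y J) m := by
      intro p hpp hpm
      rw [(Nat.prime_dvd_prime_iff_eq hpp hp).1 hpm]
      exact lt_of_le_of_lt hz hzm
    have h0 : omz (zz y J) (zz y J1) m = 0 := by
      unfold omz
      rw [Nat.Prime.primeFactors hp, card_eq_zero, filter_eq_empty_iff]
      intro p hp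
      rw [mem_singleton] at hp
      rw [hp]
      omega
    have hg : gX y J J1 m = 1 := by
      unfold gX
      rw [hom, h0, MassX_rg _ _ hr]
      norm_num
    rw [hg, if_pos hp, h0]
    norm_num
  · rw [if_neg hp]
    by_cases hr : rou (zz y J) m
    · have hg : gX y J J1 m = 1 - (omz (zz y J) (zz y J1) m : ℝ) := by
        unfold gX
        rw [hom, MassX_rg _ _ hr, one_mul]
      rw [hg]
      obtain ⟨k, hk⟩ : ∃ k, k = omz (zz y J) (zz y J1) m := ⟨_, rfl⟩
      rw [← hk] at h5m ⊢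
      interval_cases k <;> simp [hr] <;> norm_num
    · have hg : gX y J J1 m = 0 := by
        unfold gX
        rw [MassX_rg0 _ _ hr, zero_mul]
      rw [hg]
      simp [hr]

open Classical in
private theorem MassX_main (e1 : ℝ) (A1 : ℕ) (he1 : 0 < e1) (he2 : e1 ≤ 1 / 1000) (hA1 : 10 ≤ A1) : ∃ N0 : ℕ, ∀ N : ℕ, N0 ≤ N → ∀ J J1 : ℕ,
    LevX N (yN e1 N) J J1 → ∀ x : ℕ, N ≤ 4 * x → x ≤ 4 * N →
      1 / 20 / Real.log N ≤ gam (gX (yN e1 N) J J1) ⌊(N : ℝ) / Real.log N ^ A1⌋₊ x := by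
  obtain ⟨N1, hN1⟩ := MassX_cnt (A1 + 1)
  obtain ⟨N2, hN2⟩ := pr_int (A1 + 1) (1 / 10 ^ 5) (by norm_num)
  obtain ⟨N3, hN3⟩ := MassX_rare (A1 + 1) (1 / 20000) (by norm_num)
  obtain ⟨N4, hN4⟩ := MassX_large A1
  refine ⟨N1 + N2 + N3 + N4, fun N hN J J1 hLev x hx1 hx2 => ?_⟩
  obtain ⟨g1, g2, g3⟩ := hN4 N (by omega)
  obtain ⟨hJ, h1, -, h3, h4⟩ := hLev
  set L := Real.log N with hL
  set y := yN e1 N with hy
  set l : ℕ := ⌊(N : ℝ) / L ^ A1⌋₊ with hl
  obtain ⟨z, hz⟩ : ∃ z, z = zz y J := ⟨_, rfl⟩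
  obtain ⟨w, hw⟩ : ∃ w, w = zz y J1 := ⟨_, rfl⟩
  rw [← hz] at h1
  rw [← hw] at h3 h4
  have hN1' : (1 : ℝ) ≤ N := by exact_mod_cast (by omega : 1 ≤ N)
  have hNpos : (0 : ℝ) < N := by linarith
  have h109 : (1000 : ℝ) ≤ 10 ^ 9 := by norm_num
  have hL0 : 0 < L := by linarith
  have hL1 : 1 ≤ L := by linarith
  have hLA : 0 < L ^ A1 := by positivity
  have hxR1 : (N : ℝ) ≤ 4 * x := by exact_mod_cast hx1
  have hxR2 : (x : ℝ) ≤ 4 * N := by exact_mod_cast hx2
  have hx0 : (0 : ℝ) < x := by linarith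
  -- the length
  have hlu : (l : ℝ) ≤ N / L ^ A1 := Nat.floor_le (by positivity)
  have hll : (N : ℝ) / L ^ A1 / 2 ≤ l := by
    have e1 : (N : ℝ) / L ^ A1 < l + 1 := Nat.lt_floor_add_one _
    have e2 : (8 : ℝ) ≤ N / L ^ A1 := by
      rw [le_div_iff₀ hLA]
      exact g2
    linarith
  have hl1 : (x : ℝ) / L ^ (A1 + 1) ≤ l := by
    refine le_trans ?_ hll
    rw [pow_succ, div_div (N : ℝ), div_le_div_iff₀ (by positivity) (by positivity)]
    have e1 : (x : ℝ) * 2 ≤ N * L := by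
      have : (N : ℝ) * 8 ≤ N * L := mul_le_mul_of_nonneg_left (by linarith) hNpos.le
      linarith
    calc (x : ℝ) * (L ^ A1 * 2) = x * 2 * L ^ A1 := by ring
      _ ≤ N * L * L ^ A1 := mul_le_mul_of_nonneg_right e1 hLA.le
      _ = N * (L ^ A1 * L) := by ring
  have hlx : l ≤ x := by
    have e1 : (N : ℝ) / L ^ A1 ≤ x := by
      rw [div_le_iff₀ hLA]
      have e2 : (4 : ℝ) ≤ L ^ A1 := by
        have : L ^ 1 ≤ L ^ A1 := pow_le_pow_right₀ hL1 (by omega)
        rw [pow_one] at this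
        linarith
      calc (N : ℝ) ≤ 4 * x := hxR1
        _ = x * 4 := mul_comm _ _
        _ ≤ x * L ^ A1 := mul_le_mul_of_nonneg_left e2 hx0.le
    exact_mod_cast hlu.trans e1
  have hl0 : (0 : ℝ) < l := by
    have e2 : (0 : ℝ) < N / L ^ A1 := by positivity
    linarith
  have hx8 : N ≤ 8 * x := by omega
  have hx88 : x ≤ 8 * N := by omega
  obtain ⟨c2, c3, c4, c5, c6, c7⟩ := hN1 N (by omega) x l hx8 hx88 hl1 hlx
  have hP := hN2 N (by omega) x l hx8 hx88 hl1 hlx
  have hR := hN3 N (by omega) z x l h1 hx8 hx88 hl1 hlx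
  rw [← hL] at hP hR c2 c3 c4 c5 c6 c7
  -- the members of the interval
  have hmem : ∀ m ∈ Ioc x (x + l), N ≤ 8 * m ∧ m ≤ 16 * N := by
    intro m hm
    rw [mem_Ioc] at hm
    omega
  have hTz : ∀ m ∈ Ioc x (x + l), w < m := by
    intro m hm
    rw [mem_Ioc] at hm
    by_contra hcon
    push Not at hcon
    have e1 : x * x ≤ w ^ 2 := by
      rw [sq]
      exact Nat.mul_le_mul (by omega) (by omega)
    have e2 : N * x ≤ 4 * (x * x) := by
      calc N * x ≤ (4 * x) * x := Nat.mul_le_mul_right _ hx1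
        _ = 4 * (x * x) := by ring
    have e3 : N * x ≤ N * 64 := by omega
    have e4 : x ≤ 64 := Nat.le_of_mul_le_mul_left e3 (by omega)
    omega
  have hT5 : ∀ m ∈ Ioc x (x + l), omz z w m ≤ 5 := by
    intro m hm
    exact MassX_om5 g1 h1 h3 h4 (hmem m hm).1 (hmem m hm).2
  have hsum := MassX_sum (N := N) (y := y) hJ (T := Ioc x (x + l)) (by rw [← hw]; exact hTz)
    (by rw [← hz, ← hw]; exact hT5)
  rw [← hz, ← hw] at hsum
  have hcl : ∀ m ∈ Ioc x (x + l), rou z m → ¬ sqz z m → _ := fun m hm hr hs =>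
    MassX_cls g1 h1 h3 h4 (hmem m hm).1 (hmem m hm).2 hr hs
  -- the classes
  have d2 : (((Ioc x (x + l)).filter (fun m => rou z m ∧ omz z w m = 2)).card : ℝ) ≤
      ((Ioc x (x + l)).filter (fun m => IsE2 N m)).card + ((Ioc x (x + l)).filter (fun m => IsE3 N m)).card +
        ((Ioc x (x + l)).filter (fun m => sqz z m)).card := by
    have hsub : (Ioc x (x + l)).filter (fun m => rou z m ∧ omz z w m = 2) ⊆
        ((Ioc x (x + l)).filter (fun m => IsE2 N m) ∪ (Ioc x (x + l)).filter (fun m => IsE3 N m)) ∪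
          (Ioc x (x + l)).filter (fun m => sqz z m) := by
      intro m hm
      rw [mem_filter] at hm
      by_cases hs : sqz z m
      · exact mem_union_right _ (mem_filter.2 ⟨hm.1, hs⟩)
      · refine mem_union_left _ ?_
        rcases (hcl m hm.1 hm.2.1 hs).1 hm.2.2 with h | h
        · exact mem_union_left _ (mem_filter.2 ⟨hm.1, h⟩)
        · exact mem_union_right _ (mem_filter.2 ⟨hm.1, h⟩)
    have e1 := (card_le_card hsub).trans ((card_union_le _ _).trans (Nat.add_le_add_right (card_union_le _ _) _))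
    exact_mod_cast e1
  have d3 : (((Ioc x (x + l)).filter (fun m => rou z m ∧ omz z w m = 3)).card : ℝ) ≤
      ((Ioc x (x + l)).filter (fun m => IsE3b N m)).card + ((Ioc x (x + l)).filter (fun m => IsE3c N m)).card +
        ((Ioc x (x + l)).filter (fun m => sqz z m)).card := by
    have hsub : (Ioc x (x + l)).filter (fun m => rou z m ∧ omz z w m = 3) ⊆
        ((Ioc x (x + l)).filter (fun m => IsE3b N m) ∪ (Ioc x (x + l)).filter (fun m => IsE3c N m)) ∪
          (Ioc x (x + l)).filter (fun m => sqz z m) := by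
      intro m hm
      rw [mem_filter] at hm
      by_cases hs : sqz z m
      · exact mem_union_right _ (mem_filter.2 ⟨hm.1, hs⟩)
      · refine mem_union_left _ ?_
        rcases (hcl m hm.1 hm.2.1 hs).2.1 hm.2.2 with h | h
        · exact mem_union_left _ (mem_filter.2 ⟨hm.1, h⟩)
        · exact mem_union_right _ (mem_filter.2 ⟨hm.1, h⟩)
    have e1 := (card_le_card hsub).trans ((card_union_le _ _).trans (Nat.add_le_add_right (card_union_le _ _) _))
    exact_mod_cast e1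
  have d4 : (((Ioc x (x + l)).filter (fun m => rou z m ∧ omz z w m = 4)).card : ℝ) ≤
      ((Ioc x (x + l)).filter (fun m => IsE4 N m)).card + ((Ioc x (x + l)).filter (fun m => sqz z m)).card := by
    have hsub : (Ioc x (x + l)).filter (fun m => rou z m ∧ omz z w m = 4) ⊆
        (Ioc x (x + l)).filter (fun m => IsE4 N m) ∪ (Ioc x (x + l)).filter (fun m => sqz z m) := by
      intro m hm
      rw [mem_filter] at hm
      by_cases hs : sqz z m
      · exact mem_union_right _ (mem_filter.2 ⟨hm.1, hs⟩)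
      · exact mem_union_left _ (mem_filter.2 ⟨hm.1, (hcl m hm.1 hm.2.1 hs).2.2.1 hm.2.2⟩)
    have e1 := (card_le_card hsub).trans (card_union_le _ _)
    exact_mod_cast e1
  have d5 : (((Ioc x (x + l)).filter (fun m => rou z m ∧ omz z w m = 5)).card : ℝ) ≤
      ((Ioc x (x + l)).filter (fun m => IsE5 N m)).card + ((Ioc x (x + l)).filter (fun m => sqz z m)).card := by
    have hsub : (Ioc x (x + l)).filter (fun m => rou z m ∧ omz z w m = 5) ⊆
        (Ioc x (x + l)).filter (fun m => IsE5 N m) ∪ (Ioc x (x + l)).filter (fun m => sqz z m) := by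
      intro m hm
      rw [mem_filter] at hm
      by_cases hs : sqz z m
      · exact mem_union_right _ (mem_filter.2 ⟨hm.1, hs⟩)
      · exact mem_union_left _ (mem_filter.2 ⟨hm.1, (hcl m hm.1 hm.2.1 hs).2.2.2 hm.2.2⟩)
    have e1 := (card_le_card hsub).trans (card_union_le _ _)
    exact_mod_cast e1
  -- normalization
  obtain ⟨v, hv⟩ : ∃ v : ℝ, v = l / L := ⟨_, rfl⟩
  have hv0 : 0 < v := by rw [hv]; positivity
  rw [← hv] at c2 c3 c4 c5 c6 c7
  have hR' : (((Ioc x (x + l)).filter (fun m => sqz z m)).card : ℝ) ≤ 1 / 20000 * v := by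
    refine hR.trans (le_of_eq ?_)
    rw [hv]
    ring
  have hP' : (1 - 1 / 10 ^ 5) * v ≤ ((Ioc x (x + l)).filter Nat.Prime).card := by
    have e1 := (abs_le.1 hP).1
    have e2 : (1 / 10 ^ 5 : ℝ) * l / L = 1 / 10 ^ 5 * v := by
      rw [hv]
      ring
    rw [e2, ← hv] at e1
    linarith
  have hmain : 1 / 20 * v ≤ ∑ m ∈ Ioc x (x + l), gX y J J1 m := by
    refine le_trans ?_ hsum
    norm_num at hP' ⊢
    linarith
  unfold gam
  rw [le_div_iff₀ hl0]
  calc 1 / 20 / L * l = 1 / 20 * v := by rw [hv]; ring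
    _ ≤ _ := hmain

theorem massx (e1 : ℝ) (A1 : ℕ) (he1 : 0 < e1) (he2 : e1 ≤ 1 / 1000) (hA1 : 10 ≤ A1) : ∃ N0 : ℕ, ∀ N : ℕ, N0 ≤ N → ∀ J J1 : ℕ,
    LevX N (yN e1 N) J J1 → ∀ x : ℕ, N ≤ 4 * x → x ≤ 4 * N →
      1 / 20 / Real.log N ≤ gam (gX (yN e1 N) J J1) ⌊(N : ℝ) / Real.log N ^ A1⌋₊ x :=
  MassX_main e1 A1 he1 he2 hA1

end Pool.Agent.H43.PX
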