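import Pool.Agent.H43.PX.Defs
import Pool.Agent.H91.EHA.SwK2

/-!
# PX NN: equidistribution in blocks from windows, for nonnegative functions with a constant density

If the class sum over the block `[iH, (i+1)H)` is too large, then so are the class sums over all windows of length `H + h` containing the block;
if it is too small, then so are the class sums over all windows of length `H - h` contained in the block (`h = H/(16 L^(A+B))`).
-/

set_option autoImplicit false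

namespace Pool.Agent.H43.PX

open Finset
open Pool.Agent.H91.PK (ee)
open Pool.Agent.H91.EHA (Lam lamR ramS)
open Pool.Agent.H43.MP (blk Hn idx Rn)
open Pool.Agent.H43.TS (badQ)
open Pool.Agent.H31.EQ (WDx)

/-- the representative of `m` in `[1, r]` -/
private def NN_kap (r m : ℕ) : ℕ := if m % r = 0 then r else m % r

private theorem NN_kap_mem {r : ℕ} (hr : 1 ≤ r) (m : ℕ) : NN_kap r m ∈ Icc 1 r := by
  unfold NN_kap
  have := Nat.mod_lt m (by omega : 0 < r)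
  rw [mem_Icc]
  split_ifs <;> omega

private theorem NN_kap_eq {r : ℕ} {m c : ℕ} (hc : c ∈ Icc 1 r) :
    NN_kap r m = c ↔ m % r = c % r := by
  rw [mem_Icc] at hc
  unfold NN_kap
  rcases Nat.lt_or_ge c r with h | h
  · rw [Nat.mod_eq_of_lt h]
    split_ifs with h1
    · omega
    · rfl
  · have h2 : c = r := by omega
    rw [h2, Nat.mod_self]
    have := Nat.mod_lt m (by omega : 0 < r)
    split_ifs with h1
    · simp [h1]
    · constructor
      · intro h3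
        omega
      · intro h3
        exact absurd h3 h1

private theorem NN_ee_int (t : ℝ) (k : ℤ) : ee (t + k) = ee t := by
  unfold Pool.Agent.H91.PK.ee
  have e : 2 * Real.pi * ((t + k : ℝ) : ℂ) * Complex.I =
      2 * Real.pi * (t : ℂ) * Complex.I + k * (2 * Real.pi * Complex.I) := by
    push_cast
    ring
  rw [e, Complex.exp_add, Complex.exp_int_mul_two_pi_mul_I, mul_one]

private theorem NN_ee_norm (t : ℝ) : ‖ee t‖ = 1 := by
  unfold Pool.Agent.H91.PK.ee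
  have e : 2 * Real.pi * (t : ℂ) * Complex.I = ((2 * Real.pi * t : ℝ) : ℂ) * Complex.I := by
    push_cast
    ring
  rw [e, Complex.norm_exp_ofReal_mul_I]

private theorem NN_ee_neg (t : ℝ) : ee (-t) = (starRingEnd ℂ) (ee t) := by
  unfold Pool.Agent.H91.PK.ee
  rw [← Complex.exp_conj]
  congr 1
  simp only [map_mul, Complex.conj_ofReal, Complex.conj_I, map_ofNat]
  push_cast
  ring

private theorem NN_ee_mod {r m c : ℕ} (a : ℕ) (hr : 1 ≤ r) (h : m % r = c % r) :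
    ee (-((a : ℝ) * m / r)) = ee (-((a : ℝ) * c / r)) := by
  have hr0 : (r : ℝ) ≠ 0 := by exact_mod_cast (by omega : r ≠ 0)
  have h1 : (r : ℤ) ∣ (m : ℤ) - c := by
    have : c ≡ m [MOD r] := h.symm
    exact (Nat.modEq_iff_dvd.mp this)
  obtain ⟨k, hk⟩ := h1
  have h2 : (m : ℝ) = c + r * k := by
    have : ((m : ℤ) : ℝ) = ((c + r * k : ℤ) : ℝ) := by
      congr 1
      linarith
    push_cast at this
    exact this
  have h3 : -((a : ℝ) * m / r) = -((a : ℝ) * c / r) + ((-(a * k) : ℤ) : ℝ) := by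
    rw [h2]
    push_cast
    field_simp
    ring
  rw [h3, NN_ee_int]

/-- the Ramanujan sum -/
private theorem NN_ram {a r : ℕ} (hr : 1 ≤ r) (har : Nat.Coprime a r) :
    ∑ c ∈ (Icc 1 r).filter (fun c => Nat.Coprime c r), ee (-((a : ℝ) * c / r)) =
      ((ArithmeticFunction.moebius r : ℝ) : ℂ) := by
  have h1 := Pool.Agent.H91.EHA.ramS_eq r a hr
  have h2 : ramS r a = (ArithmeticFunction.moebius r : ℝ) := by
    unfold Pool.Agent.H91.EHA.ramS
    rw [Nat.Coprime.gcd_eq_one har.symm]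
    simp
  rw [h2] at h1
  have h3 := congrArg (starRingEnd ℂ) h1
  rw [Complex.conj_ofReal, map_sum] at h3
  rw [h3]
  refine Finset.sum_congr rfl fun c _ => ?_
  rw [NN_ee_neg]

/-- the twist of a finite set, from the classes -/
private theorem NN_twist {S : Finset ℕ} {Y : ℕ → ℝ} {h : ℝ} {a r : ℕ} {ε : ℝ} (hr : 1 ≤ r) (har : Nat.Coprime a r)
    (hh : ∀ c ∈ Icc 1 r, |(∑ n ∈ S.filter (fun n => n % r = c % r), Y n)
          - (if Nat.Coprime c r then h / r.totient else 0)| ≤ ε) :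
    ‖∑ m ∈ S, ((Y m : ℝ) : ℂ) * ee (-((a : ℝ) * m / r))
      - (((ArithmeticFunction.moebius r : ℝ) / (r.totient : ℝ) * h : ℝ) : ℂ)‖ ≤ r * ε := by
  have h1 : ∑ m ∈ S, ((Y m : ℝ) : ℂ) * ee (-((a : ℝ) * m / r)) =
      ∑ c ∈ Icc 1 r, ee (-((a : ℝ) * c / r)) *
        ((∑ n ∈ S.filter (fun n => n % r = c % r), Y n : ℝ) : ℂ) := by
    rw [← Finset.sum_fiberwise_of_maps_to (s := S) (t := Icc 1 r) (g := NN_kap r)
      (fun m _ => NN_kap_mem hr m)]
    refine Finset.sum_congr rfl fun c hc => ?_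
    have e1 : S.filter (fun m => NN_kap r m = c) =
        S.filter (fun n => n % r = c % r) := by
      ext m
      simp only [Finset.mem_filter, NN_kap_eq hc]
    rw [e1]
    push_cast
    rw [Finset.mul_sum]
    refine Finset.sum_congr rfl fun m hm => ?_
    rw [NN_ee_mod a hr (Finset.mem_filter.mp hm).2]
    ring
  have h2 : (((ArithmeticFunction.moebius r : ℝ) / (r.totient : ℝ) * h : ℝ) : ℂ) =
      ∑ c ∈ Icc 1 r, ee (-((a : ℝ) * c / r)) *
        ((if Nat.Coprime c r then h / r.totient else 0 : ℝ) : ℂ) := by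
    have e1 : ∑ c ∈ Icc 1 r, ee (-((a : ℝ) * c / r)) *
        ((if Nat.Coprime c r then h / r.totient else 0 : ℝ) : ℂ) =
        ∑ c ∈ (Icc 1 r).filter (fun c => Nat.Coprime c r), ee (-((a : ℝ) * c / r)) *
          ((h / r.totient : ℝ) : ℂ) := by
      rw [Finset.sum_filter]
      refine Finset.sum_congr rfl fun c _ => ?_
      split_ifs <;> simp
    rw [e1, ← Finset.sum_mul, NN_ram hr har]
    push_cast
    ring
  rw [h1, h2, ← Finset.sum_sub_distrib]
  calc ‖∑ c ∈ Icc 1 r, (ee (-((a : ℝ) * c / r)) *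
        ((∑ n ∈ S.filter (fun n => n % r = c % r), Y n : ℝ) : ℂ) -
        ee (-((a : ℝ) * c / r)) *
        ((if Nat.Coprime c r then h / r.totient else 0 : ℝ) : ℂ))‖
      ≤ ∑ _c ∈ Icc 1 r, ε := by
        refine norm_sum_le_of_le _ fun c hc => ?_
        rw [← mul_sub, norm_mul, NN_ee_norm, one_mul, ← Complex.ofReal_sub, Complex.norm_real,
          Real.norm_eq_abs]
        exact hh c hc
    _ = r * ε := by
        rw [Finset.sum_const, Nat.card_Icc, nsmul_eq_mul]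
        congr 2

private theorem NN_union {B : ℕ} {L X : ℝ} (hL0 : 0 < L) (s : Finset ℕ)
    (bad : ℕ → ℕ → Finset ℕ) (A : ℕ) (hX : 0 ≤ X)
    (hsub : s ⊆ (Icc 1 ⌊L ^ B⌋₊ ×ˢ Icc 1 ⌊L ^ B⌋₊).biUnion (fun t => bad t.1 t.2))
    (hc1 : ∀ t ∈ Icc 1 ⌊L ^ B⌋₊ ×ˢ Icc 1 ⌊L ^ B⌋₊, ((bad t.1 t.2).card : ℝ) ≤ X / L ^ (A + 2 * B)) :
    (s.card : ℝ) ≤ X / L ^ A := by
  set R : ℕ := ⌊L ^ B⌋₊ with hR
  have hRle : (R : ℝ) ≤ L ^ B := Nat.floor_le (by positivity)
  calc (s.card : ℝ) ≤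
      (((Icc 1 R ×ˢ Icc 1 R).biUnion (fun t => bad t.1 t.2)).card : ℝ) := by
        exact_mod_cast Finset.card_le_card hsub
    _ ≤ ∑ t ∈ Icc 1 R ×ˢ Icc 1 R, ((bad t.1 t.2).card : ℝ) := by
        exact_mod_cast Finset.card_biUnion_le
    _ ≤ ∑ _t ∈ Icc 1 R ×ˢ Icc 1 R, X / L ^ (A + 2 * B) :=
        Finset.sum_le_sum hc1
    _ = (R : ℝ) * R * (X / L ^ (A + 2 * B)) := by
        rw [Finset.sum_const, Finset.card_product, Nat.card_Icc, nsmul_eq_mul]
        push_cast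
        simp
    _ ≤ L ^ B * L ^ B * (X / L ^ (A + 2 * B)) := by
        refine mul_le_mul_of_nonneg_right ?_ (by positivity)
        exact mul_le_mul hRle hRle (Nat.cast_nonneg _) (by positivity)
    _ = X / L ^ A := by
        rw [pow_add, two_mul, pow_add]
        field_simp

/-- the number of bad blocks from the mean square over the windows -/
private theorem NN_count (G : ℕ → ℝ) (hG : ∀ x, 0 ≤ G x) (bad : Finset ℕ) (H δ o K1 K2 : ℕ) {g : ℝ}
    (hδ : δ < H) (hi : ∀ i ∈ bad, o ≤ i * H ∧ K1 ≤ i * H - o ∧ i * H - o + δ ≤ K2)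
    (hb : ∀ i ∈ bad, ∀ j ≤ δ, g ≤ G (i * H - o + j)) :
    bad.card * ((δ + 1 : ℕ) * g) ≤ ∑ x ∈ Icc K1 K2, G x := by
  classical
  have hinj : Set.InjOn (fun t : ℕ × ℕ => t.1 * H - o + t.2)
      ((bad ×ˢ range (δ + 1) : Finset (ℕ × ℕ)) : Set (ℕ × ℕ)) := by
    intro s hs t ht hst
    rw [Finset.mem_coe, Finset.mem_product, Finset.mem_range] at hs ht
    have hst' : s.1 * H - o + s.2 = t.1 * H - o + t.2 := hst
    have h1 := (hi s.1 hs.1).1
    have h2 := (hi t.1 ht.1).1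
    have h3 : s.1 * H + s.2 = t.1 * H + t.2 := by omega
    have h4 : s.2 < H := by omega
    have h5 : t.2 < H := by omega
    have h6 : s.1 = t.1 := by
      have e1 : (s.1 * H + s.2) / H = s.1 := by
        rw [mul_comm, Nat.mul_add_div (by omega), Nat.div_eq_of_lt h4, add_zero]
      have e2 : (t.1 * H + t.2) / H = t.1 := by
        rw [mul_comm, Nat.mul_add_div (by omega), Nat.div_eq_of_lt h5, add_zero]
      rw [← e1, h3, e2]
    have h7 : s.2 = t.2 := by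
      rw [h6] at h3
      omega
    exact Prod.ext h6 h7
  have hsub : (bad ×ˢ range (δ + 1)).image (fun t : ℕ × ℕ => t.1 * H - o + t.2) ⊆
      Icc K1 K2 := by
    intro x hx
    rw [Finset.mem_image] at hx
    obtain ⟨t, ht, rfl⟩ := hx
    rw [Finset.mem_product, Finset.mem_range] at ht
    obtain ⟨_, h2, h3⟩ := hi t.1 ht.1
    rw [mem_Icc]
    omega
  calc (bad.card : ℝ) * ((δ + 1 : ℕ) * g) = ∑ _t ∈ bad ×ˢ range (δ + 1), g := by
        rw [Finset.sum_const, Finset.card_product, Finset.card_range, nsmul_eq_mul]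
        push_cast
        ring
    _ ≤ ∑ t ∈ bad ×ˢ range (δ + 1), G (t.1 * H - o + t.2) := by
        refine Finset.sum_le_sum fun t ht => ?_
        rw [Finset.mem_product, Finset.mem_range] at ht
        exact hb t.1 ht.1 t.2 (by omega)
    _ = ∑ x ∈ (bad ×ˢ range (δ + 1)).image (fun t : ℕ × ℕ => t.1 * H - o + t.2), G x := by
        rw [Finset.sum_image hinj]
    _ ≤ ∑ x ∈ Icc K1 K2, G x :=
        Finset.sum_le_sum_of_subset_of_nonneg hsub fun x _ _ => hG x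

/-- arithmetic -/
private theorem NN_arith {N H A A' A1 h : ℕ} {E L : ℝ} (hE0 : 0 ≤ E) (hL1 : 1 ≤ L) (hH : 1 ≤ H)
    (hh : (H : ℝ) / (16 * L ^ A') ≤ ((h + 1 : ℕ) : ℝ)) (hA1 : A + 3 * A' + 1 ≤ A1)
    (h1 : E * (((h + 1 : ℕ) : ℝ) * ((H : ℝ) / (2 * L ^ A')) ^ 2) ≤ N * (2 * (H : ℝ)) ^ 2 / L ^ A1) :
    E * H ≤ N / L ^ A * (256 / L) := by
  have hL0 : 0 < L := by linarith
  have hHR : (0 : ℝ) < H := by exact_mod_cast hH
  have h2 : E * ((H : ℝ) / (16 * L ^ A') * ((H : ℝ) / (2 * L ^ A')) ^ 2) ≤ N * (2 * (H : ℝ)) ^ 2 / L ^ A1 := by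
    refine le_trans (mul_le_mul_of_nonneg_left ?_ hE0) h1
    exact mul_le_mul_of_nonneg_right hh (by positivity)
  have h3 : (N : ℝ) * (2 * (H : ℝ)) ^ 2 / L ^ A1 ≤ N * (2 * (H : ℝ)) ^ 2 / L ^ (A + 3 * A' + 1) :=
    div_le_div_of_nonneg_left (by positivity) (by positivity) (pow_le_pow_right₀ hL1 hA1)
  have e1 : E * ((H : ℝ) / (16 * L ^ A') * ((H : ℝ) / (2 * L ^ A')) ^ 2) =
      (E * H) * (H ^ 2 / (64 * L ^ (3 * A'))) := by
    have : L ^ (3 * A') = L ^ A' * (L ^ A') ^ 2 := by ring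
    rw [this]
    field_simp
    ring
  have e2 : (N : ℝ) * (2 * (H : ℝ)) ^ 2 / L ^ (A + 3 * A' + 1) =
      (N / L ^ A * (256 / L)) * (H ^ 2 / (64 * L ^ (3 * A'))) := by
    have : L ^ (A + 3 * A' + 1) = L ^ A * L * L ^ (3 * A') := by ring
    rw [this]
    field_simp
    ring
  rw [e1] at h2
  rw [e2] at h3
  exact le_of_mul_le_mul_right (h2.trans h3) (by positivity)

/-- the blocks with a bad class -/
private theorem NN_cls {N H A A' A1 h d c : ℕ} {Y : ℕ → ℝ} {κ : ℝ} (hL : 600 ≤ Real.log N) (hH : 1 ≤ H)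
    (hHN : 16 * (H + 20) ≤ N) (hY : ∀ n : ℕ, 1 ≤ n → 0 ≤ Y n) (hκ : |κ| ≤ 2)
    (hh1 : (h : ℝ) ≤ (H : ℝ) / (16 * Real.log N ^ A')) (hh2 : (H : ℝ) / (16 * Real.log N ^ A') ≤ ((h + 1 : ℕ) : ℝ))
    (hA1 : A + 3 * A' + 1 ≤ A1) (hd1 : 1 ≤ d)
    (hWp : ∑ x ∈ Icc (N / 8) (8 * N), ((∑ n ∈ (Ioc x (x + (H + h))).filter (fun n => n % d = c % d), Y n)
        - (if Nat.Coprime c d then ((H + h : ℕ) : ℝ) * κ / d.totient else 0)) ^ 2 ≤ N * ((H + h : ℕ) : ℝ) ^ 2 / Real.log N ^ A1)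
    (hWm : ∑ x ∈ Icc (N / 8) (8 * N), ((∑ n ∈ (Ioc x (x + (H - h))).filter (fun n => n % d = c % d), Y n)
        - (if Nat.Coprime c d then ((H - h : ℕ) : ℝ) * κ / d.totient else 0)) ^ 2 ≤ N * ((H - h : ℕ) : ℝ) ^ 2 / Real.log N ^ A1) :
    (((idx N H).filter (fun i => (H : ℝ) / Real.log N ^ A' <
        |(∑ n ∈ (blk H i).filter (fun n => n % d = c % d), Y n)
          - (if Nat.Coprime c d then H * κ / d.totient else 0)|)).card : ℝ)
      ≤ (N : ℝ) / H / Real.log N ^ A := by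
  classical
  set L := Real.log N with hLdef
  have hL0 : 0 < L := by linarith
  have hL1 : 1 ≤ L := by linarith
  have hNpos : 0 < N := by omega
  have hNR : (0 : ℝ) < N := by exact_mod_cast hNpos
  have hHR : (0 : ℝ) < H := by exact_mod_cast hH
  have hphi : (1 : ℝ) ≤ d.totient := by exact_mod_cast Nat.totient_pos.2 hd1
  have hLA : 1 ≤ L ^ A' := one_le_pow₀ hL1
  have hhH : h < H := by
    have h3 : (H : ℝ) / (16 * L ^ A') < H := by
      rw [div_lt_iff₀ (by positivity)]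
      nlinarith
    have h4 : (h : ℝ) < H := lt_of_le_of_lt hh1 h3
    exact_mod_cast h4
  have hδ8 : 2 * (h : ℝ) ≤ (H : ℝ) / L ^ A' / 8 := by
    have e : (H : ℝ) / (16 * L ^ A') = (H : ℝ) / L ^ A' / 16 := by
      rw [mul_comm 16, ← div_div]
    rw [e] at hh1
    linarith
  have hHL : 0 < (H : ℝ) / L ^ A' := by positivity
  have hhalf : (H : ℝ) / (2 * L ^ A') = (H : ℝ) / L ^ A' / 2 := by
    rw [mul_comm 2, ← div_div]
  -- the main terms
  obtain ⟨μ, hμdef⟩ : ∃ μ : ℝ, μ = if Nat.Coprime c d then κ / d.totient else 0 := ⟨_, rfl⟩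
  have hμ : |μ| ≤ 2 := by
    rw [hμdef]
    split_ifs
    · rw [abs_div, abs_of_pos (by linarith : (0 : ℝ) < d.totient)]
      exact (div_le_self (abs_nonneg _) hphi).trans hκ
    · simp
  have hm : ∀ t : ℝ, (if Nat.Coprime c d then t * κ / d.totient else 0) = t * μ := by
    intro t
    rw [hμdef]
    split_ifs
    · ring
    · ring
  simp only [hm] at hWp hWm ⊢
  have hshift : (h : ℝ) * |μ| ≤ (H : ℝ) / L ^ A' / 8 := by
    refine le_trans ?_ hδ8
    nlinarith [mul_le_mul_of_nonneg_left hμ (Nat.cast_nonneg (α := ℝ) h)]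
  have hrange : ∀ i ∈ idx N H, 1 ≤ i * H ∧ N / 8 ≤ i * H - 1 - h ∧ i * H - 1 + h ≤ 8 * N ∧ h + 1 ≤ i * H := by
    intro i hi
    unfold Pool.Agent.H43.MP.idx at hi
    rw [mem_Icc] at hi
    have h3 : i * H ≤ 3 * N := by
      have := Nat.mul_le_mul_right H hi.2
      exact this.trans (Nat.div_mul_le_self _ _)
    have h4 : N < 2 * (i * H) + 2 * H := by
      have h5 : N / (2 * H) * (2 * H) ≤ i * (2 * H) := Nat.mul_le_mul_right _ hi.1
      have h6 : N < N / (2 * H) * (2 * H) + 2 * H := by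
        have := Nat.lt_div_mul_add (a := N) (b := 2 * H) (by omega)
        exact this
      have h7 : i * (2 * H) = 2 * (i * H) := by ring
      omega
    refine ⟨?_, ?_, ?_, ?_⟩ <;> omega
  have hblk : ∀ i, blk H i = Ico (i * H) (i * H + H) := by
    intro i
    unfold Pool.Agent.H43.MP.blk
    congr 1
    ring
  set bp : Finset ℕ := (idx N H).filter (fun i => (H : ℝ) / L ^ A' <
        (∑ n ∈ (blk H i).filter (fun n => n % d = c % d), Y n) - H * μ) with hbp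
  set bm : Finset ℕ := (idx N H).filter (fun i => (H : ℝ) / L ^ A' <
        -((∑ n ∈ (blk H i).filter (fun n => n % d = c % d), Y n) - H * μ)) with hbm
  -- windows containing the block
  have hcp := NN_count (fun x => ((∑ n ∈ (Ioc x (x + (H + h))).filter (fun n => n % d = c % d), Y n)
        - ((H + h : ℕ) : ℝ) * μ) ^ 2) (fun x => sq_nonneg _) bp H h (h + 1) (N / 8) (8 * N)
    (g := ((H : ℝ) / (2 * L ^ A')) ^ 2) hhH
    (fun i hi => by
      have := hrange i (Finset.mem_filter.mp hi).1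
      refine ⟨this.2.2.2, ?_, ?_⟩ <;> omega)
    (fun i hi j hj => by
      obtain ⟨hi1, hi2⟩ := Finset.mem_filter.mp hi
      obtain ⟨r1, r2, r3, r4⟩ := hrange i hi1
      rw [hblk] at hi2
      have hle : ∑ n ∈ (Ico (i * H) (i * H + H)).filter (fun n => n % d = c % d), Y n ≤
          ∑ n ∈ (Ioc (i * H - (h + 1) + j) (i * H - (h + 1) + j + (H + h))).filter (fun n => n % d = c % d), Y n := by
        refine Finset.sum_le_sum_of_subset_of_nonneg ?_ ?_
        · intro n hn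
          rw [Finset.mem_filter, mem_Ico] at hn
          rw [Finset.mem_filter, mem_Ioc]
          refine ⟨?_, hn.2⟩
          omega
        · intro n hn _
          rw [Finset.mem_filter, mem_Ioc] at hn
          exact hY n (by omega)
      set T := ∑ n ∈ (Ioc (i * H - (h + 1) + j) (i * H - (h + 1) + j + (H + h))).filter (fun n => n % d = c % d), Y n with hT
      set S := ∑ n ∈ (Ico (i * H) (i * H + H)).filter (fun n => n % d = c % d), Y n with hS
      have h5 : (H : ℝ) / (2 * L ^ A') ≤ T - ((H + h : ℕ) : ℝ) * μ := by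
        rw [hhalf]
        push_cast
        have h6 := le_abs_self μ
        have h7 := mul_le_mul_of_nonneg_left h6 (Nat.cast_nonneg (α := ℝ) h)
        nlinarith
      exact pow_le_pow_left₀ (by positivity) h5 2)
  -- windows contained in the block
  have hcm := NN_count (fun x => ((∑ n ∈ (Ioc x (x + (H - h))).filter (fun n => n % d = c % d), Y n)
        - ((H - h : ℕ) : ℝ) * μ) ^ 2) (fun x => sq_nonneg _) bm H h 1 (N / 8) (8 * N)
    (g := ((H : ℝ) / (2 * L ^ A')) ^ 2) hhH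
    (fun i hi => by
      have := hrange i (Finset.mem_filter.mp hi).1
      refine ⟨this.1, ?_, ?_⟩ <;> omega)
    (fun i hi j hj => by
      obtain ⟨hi1, hi2⟩ := Finset.mem_filter.mp hi
      obtain ⟨r1, r2, r3, r4⟩ := hrange i hi1
      rw [hblk] at hi2
      have hle : ∑ n ∈ (Ioc (i * H - 1 + j) (i * H - 1 + j + (H - h))).filter (fun n => n % d = c % d), Y n ≤
          ∑ n ∈ (Ico (i * H) (i * H + H)).filter (fun n => n % d = c % d), Y n := by
        refine Finset.sum_le_sum_of_subset_of_nonneg ?_ ?_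
        · intro n hn
          rw [Finset.mem_filter, mem_Ioc] at hn
          rw [Finset.mem_filter, mem_Ico]
          refine ⟨?_, hn.2⟩
          omega
        · intro n hn _
          rw [Finset.mem_filter, mem_Ico] at hn
          exact hY n (by omega)
      set T := ∑ n ∈ (Ioc (i * H - 1 + j) (i * H - 1 + j + (H - h))).filter (fun n => n % d = c % d), Y n with hT
      set S := ∑ n ∈ (Ico (i * H) (i * H + H)).filter (fun n => n % d = c % d), Y n with hS
      have h5 : (H : ℝ) / (2 * L ^ A') ≤ -(T - ((H - h : ℕ) : ℝ) * μ) := by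
        rw [hhalf, Nat.cast_sub hhH.le]
        have h6 := le_abs_self μ
        have h7 := mul_le_mul_of_nonneg_left h6 (Nat.cast_nonneg (α := ℝ) h)
        nlinarith
      have h6 := pow_le_pow_left₀ (by positivity) h5 2
      rw [neg_sq] at h6
      exact h6)
  have hp1 : (bp.card : ℝ) * (((h + 1 : ℕ) : ℝ) * ((H : ℝ) / (2 * L ^ A')) ^ 2) ≤ N * (2 * (H : ℝ)) ^ 2 / L ^ A1 := by
    refine hcp.trans (hWp.trans ?_)
    refine div_le_div_of_nonneg_right (mul_le_mul_of_nonneg_left ?_ hNR.le) (by positivity)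
    have : ((H + h : ℕ) : ℝ) ≤ 2 * H := by
      have : H + h ≤ 2 * H := by omega
      exact_mod_cast this
    exact pow_le_pow_left₀ (Nat.cast_nonneg _) this 2
  have hm1 : (bm.card : ℝ) * (((h + 1 : ℕ) : ℝ) * ((H : ℝ) / (2 * L ^ A')) ^ 2) ≤ N * (2 * (H : ℝ)) ^ 2 / L ^ A1 := by
    refine hcm.trans (hWm.trans ?_)
    refine div_le_div_of_nonneg_right (mul_le_mul_of_nonneg_left ?_ hNR.le) (by positivity)
    have : ((H - h : ℕ) : ℝ) ≤ 2 * H := by
      have : H - h ≤ 2 * H := by omega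
      exact_mod_cast this
    exact pow_le_pow_left₀ (Nat.cast_nonneg _) this 2
  have ap := NN_arith (A := A) (Nat.cast_nonneg _) hL1 hH hh2 hA1 hp1
  have am := NN_arith (A := A) (Nat.cast_nonneg _) hL1 hH hh2 hA1 hm1
  have hsub : (idx N H).filter (fun i => (H : ℝ) / L ^ A' <
        |(∑ n ∈ (blk H i).filter (fun n => n % d = c % d), Y n) - H * μ|) ⊆ bp ∪ bm := by
    intro i hi
    rw [Finset.mem_filter] at hi
    rw [Finset.mem_union, hbp, hbm, Finset.mem_filter, Finset.mem_filter]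
    rcases lt_abs.mp hi.2 with h3 | h3
    · exact Or.inl ⟨hi.1, h3⟩
    · exact Or.inr ⟨hi.1, h3⟩
  have hcard := (Finset.card_le_card hsub).trans (Finset.card_union_le bp bm)
  have hcardR : (((idx N H).filter (fun i => (H : ℝ) / L ^ A' <
        |(∑ n ∈ (blk H i).filter (fun n => n % d = c % d), Y n) - H * μ|)).card : ℝ) ≤ (bp.card : ℝ) + bm.card := by
    exact_mod_cast hcard
  have h4 : 512 / L ≤ 1 := by
    rw [div_le_one hL0]
    linarith
  refine hcardR.trans ?_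
  rw [div_div, mul_comm (H : ℝ), ← div_div, le_div_iff₀ hHR]
  calc ((bp.card : ℝ) + bm.card) * H ≤ N / L ^ A * (256 / L) + N / L ^ A * (256 / L) := by linarith
    _ = N / L ^ A * (512 / L) := by ring
    _ ≤ N / L ^ A := mul_le_of_le_one_right (by positivity) h4

/-- blocks -/
private theorem NN_badQ {N H A B A1 h : ℕ} {Y : ℕ → ℝ} {κ : ℝ} (hL : 600 ≤ Real.log N) (hH : 1 ≤ H)
    (hHN : 16 * (H + 20) ≤ N) (hY : ∀ n : ℕ, 1 ≤ n → 0 ≤ Y n) (hκ : |κ| ≤ 2)
    (hh1 : (h : ℝ) ≤ (H : ℝ) / (16 * Real.log N ^ (A + B)))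
    (hh2 : (H : ℝ) / (16 * Real.log N ^ (A + B)) ≤ ((h + 1 : ℕ) : ℝ))
    (hA1 : 4 * A + 5 * B + 1 ≤ A1)
    (hWp : WDx N (H + h) A1 B Y (fun _ => κ)) (hWm : WDx N (H - h) A1 B Y (fun _ => κ)) :
    ((badQ N H A B Y (fun _ => κ)).card : ℝ) ≤ (N : ℝ) / H / Real.log N ^ A := by
  classical
  have hL0 : 0 < Real.log N := by linarith
  have hHR : (0 : ℝ) < H := by exact_mod_cast hH
  refine NN_union (B := B) hL0 _ (fun d c => (idx N H).filter (fun i =>
    (H : ℝ) / Real.log N ^ (A + B) <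
        |(∑ n ∈ (blk H i).filter (fun n => n % d = c % d), Y n)
          - (if Nat.Coprime c d then H * κ / d.totient else 0)|)) A (by positivity) ?_ ?_
  · intro i hi
    unfold badQ at hi
    rw [Finset.mem_filter] at hi
    obtain ⟨hi1, r, a, hr1, hrB, har, hlt⟩ := hi
    have hrR : r ≤ ⌊Real.log N ^ B⌋₊ := Nat.le_floor hrB
    by_contra hcon
    apply absurd hlt
    rw [not_lt]
    have h3 := NN_twist (S := blk H i) (Y := Y) (h := H * κ) (ε := (H : ℝ) / Real.log N ^ (A + B)) hr1 har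
      (fun c hc => by
        by_contra hc2
        rw [not_le] at hc2
        apply hcon
        rw [Finset.mem_biUnion]
        rw [mem_Icc] at hc
        refine ⟨(r, c), ?_, ?_⟩
        · rw [Finset.mem_product, mem_Icc, mem_Icc]
          exact ⟨⟨hr1, hrR⟩, hc.1, hc.2.trans hrR⟩
        · exact Finset.mem_filter.mpr ⟨hi1, hc2⟩)
    refine h3.trans ?_
    calc (r : ℝ) * ((H : ℝ) / Real.log N ^ (A + B)) ≤
        Real.log N ^ B * ((H : ℝ) / Real.log N ^ (A + B)) :=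
          mul_le_mul_of_nonneg_right hrB (by positivity)
      _ = (H : ℝ) / Real.log N ^ A := by
          rw [pow_add]
          field_simp
  · intro t ht
    rw [Finset.mem_product, mem_Icc, mem_Icc] at ht
    have hRle : ((⌊Real.log N ^ B⌋₊ : ℕ) : ℝ) ≤ Real.log N ^ B := Nat.floor_le (by positivity)
    have h3 : (t.1 : ℝ) ≤ Real.log N ^ B := le_trans (by exact_mod_cast ht.1.2) hRle
    have h4 := NN_cls (A := A + 2 * B) (A' := A + B) (A1 := A1) (c := t.2) hL hH hHN hY hκ hh1 hh2 (by omega) ht.1.1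
      (hWp t.1 t.2 ht.1.1 h3) (hWm t.1 t.2 ht.1.1 h3)
    refine le_trans (le_of_eq ?_) h4
    congr 2

theorem badQ_nn (θ : ℝ) (h1 : 1 / 10 ≤ θ) (h2 : θ ≤ 1 / 4) (A B : ℕ) : ∃ A1 N0 : ℕ, ∀ N : ℕ, N0 ≤ N → ∀ (Y : ℕ → ℝ) (κ : ℝ),
    (∀ m, 1 ≤ m → 0 ≤ Y m) → |κ| ≤ 2 →
    (∀ H : ℕ, (N : ℝ) ^ (1 / 20 : ℝ) ≤ H → (H : ℝ) ≤ (N : ℝ) ^ (1 / 2 : ℝ) → WDx N H A1 B Y (fun _ => κ)) →
      ((badQ N (Hn θ N) A B Y (fun _ => κ)).card : ℝ) ≤ (N : ℝ) / (Hn θ N) / Real.log N ^ A := by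
  refine ⟨4 * A + 5 * B + 1, ⌈Real.exp 600⌉₊, ?_⟩
  intro N hN Y κ hY hκ hW
  have hNe : Real.exp 600 ≤ N := (Nat.le_ceil _).trans (by exact_mod_cast hN)
  have hNpos : (0 : ℝ) < N := lt_of_lt_of_le (Real.exp_pos _) hNe
  have hL : 600 ≤ Real.log N := by
    rw [← Real.log_exp 600]
    exact Real.log_le_log (Real.exp_pos _) hNe
  have hL0 : 0 < Real.log N := by linarith
  have hN1 : (1 : ℝ) ≤ N := by
    refine le_trans ?_ hNe
    exact Real.one_le_exp (by norm_num)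
  -- N ^ (1/20) ≥ exp 30
  have hpow : ∀ s : ℝ, 0 ≤ s → Real.exp (600 * s) ≤ (N : ℝ) ^ s := by
    intro s hs
    rw [Real.exp_mul]
    exact Real.rpow_le_rpow (Real.exp_pos _).le hNe hs
  have hexp : ∀ s : ℝ, s + 1 ≤ Real.exp s := fun s => Real.add_one_le_exp s
  have hq1 : (N : ℝ) ^ (1 / 10 : ℝ) ≤ (N : ℝ) ^ θ := Real.rpow_le_rpow_of_exponent_le hN1 h1
  have hq2 : (N : ℝ) ^ θ ≤ (N : ℝ) ^ (1 / 4 : ℝ) := Real.rpow_le_rpow_of_exponent_le hN1 h2
  have hq3 : (N : ℝ) ^ (1 / 10 : ℝ) = (N : ℝ) ^ (1 / 20 : ℝ) * (N : ℝ) ^ (1 / 20 : ℝ) := by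
    rw [← Real.rpow_add hNpos]
    norm_num
  have hq4 : (N : ℝ) ^ (1 / 2 : ℝ) = (N : ℝ) ^ (1 / 4 : ℝ) * (N : ℝ) ^ (1 / 4 : ℝ) := by
    rw [← Real.rpow_add hNpos]
    norm_num
  have hq5 : (N : ℝ) = (N : ℝ) ^ (1 / 2 : ℝ) * (N : ℝ) ^ (1 / 2 : ℝ) := by
    rw [← Real.rpow_add hNpos]
    norm_num
  have hp20 : 31 ≤ (N : ℝ) ^ (1 / 20 : ℝ) := by
    have := hpow (1 / 20) (by norm_num)
    have h4 := hexp (600 * (1 / 20))
    linarith
  have hp4 : 151 ≤ (N : ℝ) ^ (1 / 4 : ℝ) := by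
    have := hpow (1 / 4) (by norm_num)
    have h4 := hexp (600 * (1 / 4))
    linarith
  -- the length of the blocks
  have hHdef : Hn θ N = ⌊(N : ℝ) ^ θ⌋₊ := rfl
  have hHle : (Hn θ N : ℝ) ≤ (N : ℝ) ^ (1 / 4 : ℝ) := by
    rw [hHdef]
    exact (Nat.floor_le (by positivity)).trans hq2
  have hHge : (N : ℝ) ^ (1 / 20 : ℝ) * 30 ≤ Hn θ N := by
    have h3 : (N : ℝ) ^ θ < (Hn θ N : ℝ) + 1 := by
      rw [hHdef]
      exact Nat.lt_floor_add_one _
    nlinarith
  have hH1 : 1 ≤ Hn θ N := by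
    have : (1 : ℝ) ≤ Hn θ N := by nlinarith
    exact_mod_cast this
  obtain ⟨H, hHeq⟩ : ∃ H : ℕ, H = Hn θ N := ⟨_, rfl⟩
  rw [← hHeq] at hHle hHge hH1 ⊢
  have hHR : (0 : ℝ) < H := by exact_mod_cast hH1
  obtain ⟨h, hhdef⟩ : ∃ h : ℕ, h = ⌊(H : ℝ) / (16 * Real.log N ^ (A + B))⌋₊ := ⟨_, rfl⟩
  have hh1 : (h : ℝ) ≤ (H : ℝ) / (16 * Real.log N ^ (A + B)) := by
    rw [hhdef]
    exact Nat.floor_le (by positivity)
  have hh2 : (H : ℝ) / (16 * Real.log N ^ (A + B)) ≤ ((h + 1 : ℕ) : ℝ) := by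
    rw [hhdef]
    push_cast
    exact (Nat.lt_floor_add_one _).le
  have hLA : 1 ≤ Real.log N ^ (A + B) := one_le_pow₀ (by linarith)
  have hh3 : (h : ℝ) ≤ H / 16 := by
    refine hh1.trans ?_
    apply div_le_div_of_nonneg_left hHR.le (by norm_num)
    linarith
  have hh4 : h ≤ H := by
    have : (h : ℝ) ≤ H := by linarith
    exact_mod_cast this
  refine NN_badQ hL hH1 ?_ hY hκ hh1 hh2 le_rfl (hW _ ?_ ?_) (hW _ ?_ ?_)
  · have h3 : (16 * ((H : ℝ) + 20)) ≤ N := by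
      have h4 : (N : ℝ) = (N : ℝ) ^ (1 / 4 : ℝ) * (N : ℝ) ^ (1 / 4 : ℝ) * ((N : ℝ) ^ (1 / 4 : ℝ) * (N : ℝ) ^ (1 / 4 : ℝ)) := by
        rw [← hq4]
        exact hq5
      rw [h4]
      have h5 : 151 * 151 ≤ (N : ℝ) ^ (1 / 4 : ℝ) * (N : ℝ) ^ (1 / 4 : ℝ) := by nlinarith
      nlinarith
    exact_mod_cast h3
  · push_cast
    nlinarith
  · push_cast
    rw [hq4]
    nlinarith
  · rw [Nat.cast_sub hh4]
    nlinarith
  · rw [Nat.cast_sub hh4, hq4]
    nlinarith

end Pool.Agent.H43.PX
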