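import Pool.Agent.H43.PX.Defs
import Mathlib.NumberTheory.Harmonic.Bounds

/-!
# PROJECT PX: second moment of `S2` on almost all blocks (`s2_sq`)

For `m ≤ 4N` at most five primes of `(z, w]` divide `m`, hence `S2(m)^2 ≤ 5 ∑_{p | m} S(m/p)^2`; summing over `m ≤ 4N` gives
`≤ 5 ∑_p (4N/p) L^C ≤ N L^(C+2)`, and the blocks are disjoint: Markov's inequality.
-/

set_option autoImplicit false

namespace Pool.Agent.H43.PX

open Finset
open Pool.Agent.H91.PK (ee)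
open Pool.Agent.H91.EHA (Lam lamR)
open Pool.Agent.H43.MP (blk Hn idx Rn)
open Pool.Agent.H43.TP (pr)
open Pool.Agent.H43.TS (badQ)
open Pool.Agent.H76.TP (yN zz rg nu PY Adm)
open Pool.Agent.H91.TQ (om)

/-- few large primes divide a number -/
private theorem s2s_card {z w m K : ℕ} (hm : 1 ≤ m) (hmK : m ≤ K) (hz : K < (z + 1) ^ 6) :
    ((PY z w).filter (fun p => p ∣ m)).card ≤ 5 := by
  by_contra hcon
  have hc : 6 ≤ ((PY z w).filter (fun p => p ∣ m)).card := by omega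
  have hdvd : ∏ p ∈ (PY z w).filter (fun p => p ∣ m), p ∣ m := by
    apply Finset.prod_primes_dvd
    · intro p hp
      rw [Finset.mem_filter] at hp
      have : p ∈ (Ioc z w).filter Nat.Prime := hp.1
      exact (Finset.mem_filter.mp this).2.prime
    · intro p hp
      exact (Finset.mem_filter.mp hp).2
  have hle : ∏ p ∈ (PY z w).filter (fun p => p ∣ m), p ≤ m := Nat.le_of_dvd hm hdvd
  have hge : (z + 1) ^ ((PY z w).filter (fun p => p ∣ m)).card ≤
      ∏ p ∈ (PY z w).filter (fun p => p ∣ m), p := by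
    apply Finset.pow_card_le_prod
    intro p hp
    rw [Finset.mem_filter] at hp
    have h1 : p ∈ (Ioc z w).filter Nat.Prime := hp.1
    have h2 := (Finset.mem_filter.mp h1).1
    rw [Finset.mem_Ioc] at h2
    omega
  have h6 : (z + 1) ^ 6 ≤ (z + 1) ^ ((PY z w).filter (fun p => p ∣ m)).card :=
    Nat.pow_le_pow_right (by omega) hc
  omega

/-- Cauchy -/
private theorem s2s_cauchy {S : ℕ → ℝ} {y J J1 m K : ℕ} (hm : 1 ≤ m) (hmK : m ≤ K) (hz : K < (zz y J + 1) ^ 6) :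
    S2 S y J J1 m ^ 2 ≤ 5 * ∑ p ∈ (PY (zz y J) (zz y J1)).filter (fun p => p ∣ m), S (m / p) ^ 2 := by
  unfold S2
  have h1 := sq_sum_le_card_mul_sum_sq (s := (PY (zz y J) (zz y J1)).filter (fun p => p ∣ m))
    (f := fun p => S (m / p))
  have h2 : (((PY (zz y J) (zz y J1)).filter (fun p => p ∣ m)).card : ℝ) ≤ 5 := by
    exact_mod_cast s2s_card (w := zz y J1) hm hmK hz
  have h3 : 0 ≤ ∑ p ∈ (PY (zz y J) (zz y J1)).filter (fun p => p ∣ m), S (m / p) ^ 2 :=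
    Finset.sum_nonneg fun _ _ => sq_nonneg _
  calc (∑ p ∈ (PY (zz y J) (zz y J1)).filter (fun p => p ∣ m), S (m / p)) ^ 2
      ≤ (((PY (zz y J) (zz y J1)).filter (fun p => p ∣ m)).card : ℝ) *
        ∑ p ∈ (PY (zz y J) (zz y J1)).filter (fun p => p ∣ m), S (m / p) ^ 2 := h1
    _ ≤ _ := mul_le_mul_of_nonneg_right h2 h3

/-- exchange of the summations -/
private theorem s2s_swap (f : ℕ → ℝ) (P : Finset ℕ) (hP : ∀ p ∈ P, 1 ≤ p) (K : ℕ) :
    ∑ m ∈ Icc 1 K, ∑ p ∈ P.filter (fun p => p ∣ m), f (m / p) = ∑ p ∈ P, ∑ k ∈ Icc 1 (K / p), f k := by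
  have h1 : ∀ m ∈ Icc 1 K, ∑ p ∈ P.filter (fun p => p ∣ m), f (m / p) =
      ∑ p ∈ P, if p ∣ m then f (m / p) else 0 := fun m _ => Finset.sum_filter _ _
  rw [Finset.sum_congr rfl h1, Finset.sum_comm]
  apply Finset.sum_congr rfl
  intro p hp
  have hp1 := hP p hp
  rw [← Finset.sum_filter]
  symm
  apply Finset.sum_nbij' (i := fun k => p * k) (j := fun m => m / p)
  · intro k hk
    rw [Finset.mem_Icc] at hk
    rw [Finset.mem_filter, Finset.mem_Icc]
    refine ⟨⟨?_, ?_⟩, Dvd.intro k rfl⟩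
    · exact Nat.mul_pos hp1 hk.1
    · calc p * k ≤ p * (K / p) := Nat.mul_le_mul_left p hk.2
        _ ≤ K := Nat.mul_div_le K p
  · intro m hm
    rw [Finset.mem_filter, Finset.mem_Icc] at hm
    rw [Finset.mem_Icc]
    refine ⟨?_, Nat.div_le_div_right hm.1.2⟩
    exact Nat.div_pos (Nat.le_of_dvd hm.1.1 hm.2) hp1
  · intro k _
    exact Nat.mul_div_cancel_left k hp1
  · intro m hm
    rw [Finset.mem_filter] at hm
    exact Nat.mul_div_cancel' hm.2
  · intro k _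
    show f k = f (p * k / p)
    rw [Nat.mul_div_cancel_left k hp1]

/-- harmonic sums -/
private theorem s2s_harm (z w : ℕ) : ∑ p ∈ PY z w, 1 / (p : ℝ) ≤ 1 + Real.log w := by
  have h1 : ∑ p ∈ PY z w, 1 / (p : ℝ) ≤ ∑ n ∈ Icc 1 w, 1 / (n : ℝ) := by
    apply Finset.sum_le_sum_of_subset_of_nonneg
    · intro p hp
      have h1 : p ∈ (Ioc z w).filter Nat.Prime := hp
      have h2 := Finset.mem_filter.mp h1
      rw [Finset.mem_Ioc] at h2
      rw [Finset.mem_Icc]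
      exact ⟨h2.2.one_le, h2.1.2⟩
    · intro i _ _
      positivity
  have h2 : ∑ n ∈ Icc 1 w, 1 / (n : ℝ) = ((harmonic w : ℚ) : ℝ) := by
    rw [harmonic_eq_sum_Icc]
    push_cast
    apply Finset.sum_congr rfl
    intro n _
    rw [one_div]
  rw [h2] at h1
  exact h1.trans (harmonic_le_one_add_log w)

/-- the sum over the blocks -/
private theorem s2s_blocks (F : ℕ → ℝ) (hF : ∀ m, 0 ≤ F m) (N H : ℕ) (hH : 1 ≤ H) (hHN : 2 * H ≤ N)
    (T : Finset ℕ) (hT : T ⊆ idx N H) : ∑ i ∈ T, ∑ m ∈ blk H i, F m ≤ ∑ m ∈ Icc 1 (4 * N), F m := by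
  rw [← Finset.sum_biUnion]
  · apply Finset.sum_le_sum_of_subset_of_nonneg
    · intro m hm
      rw [Finset.mem_biUnion] at hm
      obtain ⟨i, hi, hm⟩ := hm
      have hi := hT hi
      unfold idx at hi
      unfold blk at hm
      rw [Finset.mem_Icc] at hi
      rw [Finset.mem_Ico] at hm
      rw [Finset.mem_Icc]
      constructor
      · have h1 : 1 ≤ N / (2 * H) := Nat.div_pos hHN (by omega)
        have h2 : 1 * 1 ≤ i * H := Nat.mul_le_mul (h1.trans hi.1) hH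
        omega
      · have h1 : i * H ≤ 3 * N := by
          calc i * H ≤ (3 * N / H) * H := Nat.mul_le_mul_right H hi.2
            _ ≤ 3 * N := Nat.div_mul_le_self _ _
        have h2 : (i + 1) * H = i * H + H := by ring
        omega
    · intro i _ _
      exact hF i
  · intro i _ j _ hij
    show Disjoint (blk H i) (blk H j)
    rw [Finset.disjoint_left]
    intro m hi hj
    unfold blk at hi hj
    rw [Finset.mem_Ico] at hi hj
    apply hij
    rcases Nat.lt_trichotomy i j with h | h | h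
    · exfalso
      have : (i + 1) * H ≤ j * H := Nat.mul_le_mul_right H h
      omega
    · exact h
    · exfalso
      have : (j + 1) * H ≤ i * H := Nat.mul_le_mul_right H h
      omega

/-- the total second moment -/
private theorem s2s_total {C N y J J1 : ℕ} {S : ℕ → ℝ} (hN : 1 ≤ N) (hlog : 1 ≤ Real.log N)
    (hlog2 : 20 * (1 + Real.log (4 * N)) ≤ Real.log N ^ 2)
    (hsq : (N : ℝ) ^ (1 / 50 : ℝ) + 1 ≤ Real.sqrt N) (h6 : 4 * N < (zz y J + 1) ^ 6)
    (hw : zz y J1 ^ 2 ≤ 16 * N) (hw4 : 4 * N ≤ zz y J1 ^ 2)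
    (hS : ∀ u v : ℕ, 1 ≤ u → (N : ℝ) ^ (1 / 50 : ℝ) ≤ v → ∑ m ∈ Ico u (u + v), S m ^ 2 ≤ v * Real.log N ^ C) :
    ∑ m ∈ Icc 1 (4 * N), S2 S y J J1 m ^ 2 ≤ N * Real.log N ^ (C + 2) := by
  have hPpos : ∀ p ∈ PY (zz y J) (zz y J1), 1 ≤ p := by
    intro p hp
    have h1 : p ∈ (Ioc (zz y J) (zz y J1)).filter Nat.Prime := hp
    exact (Finset.mem_filter.mp h1).2.one_le
  have hstep1 : ∑ m ∈ Icc 1 (4 * N), S2 S y J J1 m ^ 2 ≤
      5 * ∑ p ∈ PY (zz y J) (zz y J1), ∑ k ∈ Icc 1 (4 * N / p), S k ^ 2 := by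
    rw [← s2s_swap (fun k => S k ^ 2) _ hPpos (4 * N), Finset.mul_sum]
    apply Finset.sum_le_sum
    intro m hm
    rw [Finset.mem_Icc] at hm
    exact s2s_cauchy hm.1 hm.2 h6
  have hNr : (0 : ℝ) ≤ N := Nat.cast_nonneg N
  have hstep2 : ∀ p ∈ PY (zz y J) (zz y J1), ∑ k ∈ Icc 1 (4 * N / p), S k ^ 2 ≤
      4 * N * Real.log N ^ C * (1 / (p : ℝ)) := by
    intro p hp
    have hp1 := hPpos p hp
    have h1 : p ∈ (Ioc (zz y J) (zz y J1)).filter Nat.Prime := hp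
    have hpw : p ≤ zz y J1 := (Finset.mem_Ioc.mp (Finset.mem_filter.mp h1).1).2
    have hp2 : p ^ 2 ≤ 16 * N := (Nat.pow_le_pow_left hpw 2).trans hw
    have hppos : (0 : ℝ) < p := by exact_mod_cast hp1
    have hp3 : (p : ℝ) ≤ 4 * Real.sqrt N := by
      have h2 : ((p : ℝ)) ^ 2 ≤ (4 * Real.sqrt N) ^ 2 := by
        rw [mul_pow, Real.sq_sqrt hNr]
        have : ((p ^ 2 : ℕ) : ℝ) ≤ ((16 * N : ℕ) : ℝ) := by exact_mod_cast hp2
        push_cast at this
        linarith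
      exact le_of_sq_le_sq h2 (by positivity)
    have hfl : Real.sqrt N - 1 ≤ ((4 * N / p : ℕ) : ℝ) := by
      have h3 : Real.sqrt N ≤ 4 * N / p := by
        rw [le_div_iff₀ hppos]
        calc Real.sqrt N * p ≤ Real.sqrt N * (4 * Real.sqrt N) :=
              mul_le_mul_of_nonneg_left hp3 (Real.sqrt_nonneg _)
          _ = 4 * (Real.sqrt N * Real.sqrt N) := by ring
          _ = 4 * N := by rw [Real.mul_self_sqrt hNr]
      have h4 : (4 * N / p : ℝ) < ((4 * N / p : ℕ) : ℝ) + 1 := by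
        have h5 := Nat.lt_div_mul_add (a := 4 * N) (b := p) hp1
        have h6 : ((4 * N : ℕ) : ℝ) < ((4 * N / p * p + p : ℕ) : ℝ) := by exact_mod_cast h5
        rw [div_lt_iff₀ hppos]
        push_cast at h6 ⊢
        linarith
      linarith
    have h7 := hS 1 (4 * N / p) le_rfl (by linarith)
    have h8 : Ico 1 (1 + 4 * N / p) = Icc 1 (4 * N / p) := by
      ext x
      simp only [Finset.mem_Ico, Finset.mem_Icc]
      omega
    rw [h8] at h7
    have h9 : ((4 * N / p : ℕ) : ℝ) ≤ 4 * N / p := by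
      have := Nat.cast_div_le (α := ℝ) (m := 4 * N) (n := p)
      push_cast at this
      exact this
    have hL : 0 ≤ Real.log N ^ C := by positivity
    calc ∑ k ∈ Icc 1 (4 * N / p), S k ^ 2 ≤ ((4 * N / p : ℕ) : ℝ) * Real.log N ^ C := h7
      _ ≤ (4 * N / p) * Real.log N ^ C := mul_le_mul_of_nonneg_right h9 hL
      _ = 4 * N * Real.log N ^ C * (1 / (p : ℝ)) := by ring
  have hz1 : 1 ≤ zz y J1 := by
    rcases Nat.eq_zero_or_pos (zz y J1) with h | h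
    · rw [h] at hw4
      omega
    · exact h
  have hwN : (zz y J1 : ℝ) ≤ 4 * N := by
    have h1 : zz y J1 ^ 2 ≤ (4 * N) ^ 2 := by
      calc zz y J1 ^ 2 ≤ 16 * N := hw
        _ ≤ 16 * (N * N) := by
          have := Nat.mul_le_mul_left N hN
          omega
        _ = (4 * N) ^ 2 := by ring
    have h2 : zz y J1 ≤ 4 * N := (Nat.pow_le_pow_iff_left (by norm_num)).mp h1
    exact_mod_cast h2
  have hstep3 : ∑ p ∈ PY (zz y J) (zz y J1), 1 / (p : ℝ) ≤ 1 + Real.log (4 * N) := by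
    refine (s2s_harm _ _).trans ?_
    have : Real.log (zz y J1) ≤ Real.log (4 * N) := Real.log_le_log (by exact_mod_cast hz1) hwN
    linarith
  have hLC : 0 ≤ Real.log N ^ C := by positivity
  calc ∑ m ∈ Icc 1 (4 * N), S2 S y J J1 m ^ 2
      ≤ 5 * ∑ p ∈ PY (zz y J) (zz y J1), ∑ k ∈ Icc 1 (4 * N / p), S k ^ 2 := hstep1
    _ ≤ 5 * ∑ p ∈ PY (zz y J) (zz y J1), 4 * N * Real.log N ^ C * (1 / (p : ℝ)) :=
        mul_le_mul_of_nonneg_left (Finset.sum_le_sum hstep2) (by norm_num)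
    _ = N * Real.log N ^ C * (20 * ∑ p ∈ PY (zz y J) (zz y J1), 1 / (p : ℝ)) := by
        rw [← Finset.mul_sum]
        ring
    _ ≤ N * Real.log N ^ C * (20 * (1 + Real.log (4 * N))) := by
        apply mul_le_mul_of_nonneg_left _ (by positivity)
        linarith
    _ ≤ N * Real.log N ^ C * (Real.log N ^ 2) := mul_le_mul_of_nonneg_left hlog2 (by positivity)
    _ = N * Real.log N ^ (C + 2) := by rw [pow_add]; ring

/-- large `N` -/
private theorem s2s_ev (θ : ℝ) (h1 : 1 / 10 ≤ θ) (h2 : θ ≤ 1 / 4) : ∃ N0 : ℕ, ∀ N : ℕ, N0 ≤ N →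
    1 ≤ N ∧ 1 ≤ Real.log N ∧ 20 * (1 + Real.log (4 * N)) ≤ Real.log N ^ 2 ∧
    (N : ℝ) ^ (1 / 50 : ℝ) + 1 ≤ Real.sqrt N ∧ 4 * (N : ℝ) < ((N : ℝ) ^ (1898 / 10000 : ℝ)) ^ 6 ∧
    1 ≤ Hn θ N ∧ 2 * Hn θ N ≤ N := by
  have e1 : ∀ᶠ N : ℕ in Filter.atTop, (40 : ℝ) ≤ Real.log N :=
    (Real.tendsto_log_atTop.comp tendsto_natCast_atTop_atTop).eventually_ge_atTop 40
  obtain ⟨N0, h0⟩ := Filter.eventually_atTop.mp e1
  refine ⟨max N0 1, fun N hN => ?_⟩
  have hN1 : 1 ≤ N := (le_max_right _ _).trans hN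
  have hlog : (40 : ℝ) ≤ Real.log N := h0 N ((le_max_left _ _).trans hN)
  have hNr : (1 : ℝ) ≤ N := by exact_mod_cast hN1
  have hN0 : (0 : ℝ) < N := by linarith
  have hpow : ∀ t : ℝ, (N : ℝ) ^ t = Real.exp (Real.log N * t) := fun t => Real.rpow_def_of_pos hN0 t
  have h4log : Real.log 4 ≤ 4 - 1 := Real.log_le_sub_one_of_pos (by norm_num)
  have hexp1 : (2 : ℝ) ≤ Real.exp 1 := by
    have := Real.add_one_le_exp (1 : ℝ)
    linarith
  have hexp2 : (4 : ℝ) ≤ Real.exp 3 := by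
    have := Real.add_one_le_exp (3 : ℝ)
    linarith
  have hself : (N : ℝ) = Real.exp (Real.log N) := (Real.exp_log hN0).symm
  refine ⟨hN1, by linarith, ?_, ?_, ?_, ?_, ?_⟩
  · rw [Real.log_mul (by norm_num) (by positivity)]
    nlinarith
  · rw [Real.sqrt_eq_rpow, hpow, hpow]
    have h3 : Real.exp (Real.log N * (1 / 50)) + 1 ≤ 2 * Real.exp (Real.log N * (1 / 50)) := by
      have : 1 ≤ Real.exp (Real.log N * (1 / 50)) := Real.one_le_exp (by positivity)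
      linarith
    have h4 : 2 * Real.exp (Real.log N * (1 / 50)) ≤ Real.exp 1 * Real.exp (Real.log N * (1 / 50)) :=
      mul_le_mul_of_nonneg_right hexp1 (Real.exp_pos _).le
    have h5 : Real.exp 1 * Real.exp (Real.log N * (1 / 50)) ≤ Real.exp (Real.log N * (1 / 2)) := by
      rw [← Real.exp_add]
      apply Real.exp_le_exp.mpr
      linarith
    linarith
  · rw [hpow, ← Real.exp_nat_mul]
    calc 4 * (N : ℝ) ≤ Real.exp 3 * Real.exp (Real.log N) := by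
          rw [← hself]
          exact mul_le_mul_of_nonneg_right hexp2 hN0.le
      _ = Real.exp (3 + Real.log N) := by rw [Real.exp_add]
      _ < Real.exp (((6 : ℕ) : ℝ) * (Real.log N * (1898 / 10000))) := by
          apply Real.exp_lt_exp.mpr
          push_cast
          linarith
  · unfold Hn
    rw [Nat.one_le_floor_iff]
    exact Real.one_le_rpow hNr (by linarith)
  · have h3 : ((Hn θ N : ℕ) : ℝ) ≤ (N : ℝ) ^ θ := Nat.floor_le (by positivity)
    have h4 : (N : ℝ) ^ θ ≤ (N : ℝ) ^ (1 / 4 : ℝ) := Real.rpow_le_rpow_of_exponent_le hNr h2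
    have h5 : 2 * (N : ℝ) ^ (1 / 4 : ℝ) ≤ N := by
      rw [hpow]
      calc 2 * Real.exp (Real.log N * (1 / 4)) ≤ Real.exp 1 * Real.exp (Real.log N * (1 / 4)) :=
            mul_le_mul_of_nonneg_right hexp1 (Real.exp_pos _).le
        _ = Real.exp (1 + Real.log N * (1 / 4)) := by rw [Real.exp_add]
        _ ≤ Real.exp (Real.log N) := Real.exp_le_exp.mpr (by linarith)
        _ = N := Real.exp_log hN0
    have h6 : 2 * ((Hn θ N : ℕ) : ℝ) ≤ N := by linarith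
    exact_mod_cast h6

/-! ROW S2S: second moment of `S2` on almost all blocks -/
theorem s2_sq (θ : ℝ) (h1 : 1 / 10 ≤ θ) (h2 : θ ≤ 1 / 4) (C : ℕ) : ∃ N0 : ℕ, ∀ N : ℕ, N0 ≤ N → ∀ (e1 : ℝ) (J J1 : ℕ) (S : ℕ → ℝ),
    LevX N (yN e1 N) J J1 →
    (∀ u v : ℕ, 1 ≤ u → (N : ℝ) ^ (1 / 50 : ℝ) ≤ v → ∑ m ∈ Ico u (u + v), S m ^ 2 ≤ v * Real.log N ^ C) → ∀ A0 : ℕ,
      (((idx N (Hn θ N)).filter (fun i => (Hn θ N : ℝ) * Real.log N ^ (C + 2 + A0) <
        ∑ m ∈ blk (Hn θ N) i, S2 S (yN e1 N) J J1 m ^ 2)).card : ℝ) ≤ (N : ℝ) / (Hn θ N) / Real.log N ^ A0 := by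
  obtain ⟨N0, hN0⟩ := s2s_ev θ h1 h2
  refine ⟨N0, fun N hN e1 J J1 S hlev hS A0 => ?_⟩
  obtain ⟨hN1, hlog, hlog2, hsq, h6, hH1, hHN⟩ := hN0 N hN
  obtain ⟨_, hz1, _, hw4, hw16⟩ := hlev
  have hz6 : 4 * N < (zz (yN e1 N) J + 1) ^ 6 := by
    have h3 : ((N : ℝ) ^ (1898 / 10000 : ℝ)) ^ 6 ≤ ((zz (yN e1 N) J : ℝ) + 1) ^ 6 := by
      apply pow_le_pow_left₀ (by positivity)
      linarith
    have h4 : 4 * (N : ℝ) < ((zz (yN e1 N) J : ℝ) + 1) ^ 6 := lt_of_lt_of_le h6 h3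
    exact_mod_cast h4
  have htot := s2s_total hN1 hlog hlog2 hsq hz6 hw16 hw4 hS
  set bad := (idx N (Hn θ N)).filter (fun i => (Hn θ N : ℝ) * Real.log N ^ (C + 2 + A0) <
        ∑ m ∈ blk (Hn θ N) i, S2 S (yN e1 N) J J1 m ^ 2) with hbad
  have hsum := s2s_blocks (fun m => S2 S (yN e1 N) J J1 m ^ 2) (fun m => sq_nonneg _) N (Hn θ N) hH1 hHN bad
    (Finset.filter_subset _ _)
  have hlow : (bad.card : ℝ) * ((Hn θ N : ℝ) * Real.log N ^ (C + 2 + A0)) ≤
      ∑ i ∈ bad, ∑ m ∈ blk (Hn θ N) i, S2 S (yN e1 N) J J1 m ^ 2 := by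
    rw [← nsmul_eq_mul]
    apply Finset.card_nsmul_le_sum
    intro i hi
    rw [hbad, Finset.mem_filter] at hi
    exact hi.2.le
  have hL : (0 : ℝ) < Real.log N := by linarith
  have hHr : (0 : ℝ) < (Hn θ N : ℝ) := by exact_mod_cast hH1
  have hall : (bad.card : ℝ) * ((Hn θ N : ℝ) * Real.log N ^ (C + 2 + A0)) ≤ N * Real.log N ^ (C + 2) :=
    hlow.trans (hsum.trans htot)
  rw [div_div, le_div_iff₀ (by positivity)]
  have hLC : (0 : ℝ) < Real.log N ^ (C + 2) := by positivity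
  have h7 : (bad.card : ℝ) * ((Hn θ N : ℝ) * Real.log N ^ A0) * Real.log N ^ (C + 2) ≤ N * Real.log N ^ (C + 2) := by
    calc (bad.card : ℝ) * ((Hn θ N : ℝ) * Real.log N ^ A0) * Real.log N ^ (C + 2)
        = (bad.card : ℝ) * ((Hn θ N : ℝ) * Real.log N ^ (C + 2 + A0)) := by
          rw [pow_add (Real.log N) (C + 2) A0]
          ring
      _ ≤ _ := hall
  exact le_of_mul_le_mul_right h7 hLC

end Pool.Agent.H43.PX
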