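import Pool.Agent.H43.PX.Defs
import Pool.Agent.H43.PX.LsVar
import Pool.Agent.H43.PX.Cub

/-!
# The sums `S2` are well distributed in almost all windows (project PX, note 2550)

`S2 S m = ∑_{r ≤ wQ, r ∣ m} c r` with `c r = ∑_{z < p ≤ w, p ∣ r, r / p ≤ Q} g (r / p)` (at most one term, as `Q ≤ z`), so that `|c r| ≤ 3 ^ ω(r)` and
`c = 0` off the squarefree numbers; its density in the class `a` modulo `d` is `W12` times the density of `g`. The variance is bounded by `ls_var` and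
`cub_sum`.
-/

set_option autoImplicit false

namespace Pool.Agent.H43.PX

open Finset
open Pool.Agent.H76.TP (yN zz rg nu PY Adm)
open Pool.Agent.H31.EQ (WDx)

/-- the coefficients of `S2` -/
private noncomputable def s2w_c (z w Q : ℕ) (g : ℕ → ℝ) (r : ℕ) : ℝ :=
  ∑ p ∈ (PY z w).filter (fun p => p ∣ r ∧ r / p ≤ Q), g (r / p)

private theorem s2w_PY {z w p : ℕ} (hp : p ∈ PY z w) : z < p ∧ p ≤ w ∧ p.Prime := by
  unfold PY at hp
  simp only [mem_filter, mem_Ioc] at hp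
  exact ⟨hp.1.1, hp.1.2, hp.2⟩

private theorem s2w_sum (z w Q : ℕ) (g F : ℕ → ℝ) :
    ∑ r ∈ Icc 1 (w * Q), s2w_c z w Q g r * F r = ∑ p ∈ PY z w, ∑ n ∈ Icc 1 Q, g n * F (p * n) := by
  unfold s2w_c
  simp_rw [Finset.sum_mul, Finset.sum_filter]
  rw [Finset.sum_comm]
  refine Finset.sum_congr rfl fun p hp => ?_
  obtain ⟨-, hpw, hpp⟩ := s2w_PY hp
  have hp0 : 0 < p := hpp.pos
  rw [← Finset.sum_filter]
  symm
  refine Finset.sum_nbij' (fun n => p * n) (fun r => r / p) ?_ ?_ ?_ ?_ ?_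
  · intro n hn
    simp only [mem_Icc] at hn
    simp only [mem_filter, mem_Icc]
    refine ⟨⟨?_, ?_⟩, dvd_mul_right _ _, ?_⟩
    · exact Nat.mul_pos hp0 hn.1
    · exact Nat.mul_le_mul hpw hn.2
    · rw [Nat.mul_div_cancel_left _ hp0]; exact hn.2
  · intro r hr
    simp only [mem_filter, mem_Icc] at hr
    simp only [mem_Icc]
    exact ⟨Nat.div_pos (Nat.le_of_dvd hr.1.1 hr.2.1) hp0, hr.2.2⟩
  · intro n hn
    exact Nat.mul_div_cancel_left _ hp0
  · intro r hr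
    simp only [mem_filter, mem_Icc] at hr
    exact Nat.mul_div_cancel' hr.2.1
  · intro n hn
    rw [Nat.mul_div_cancel_left _ hp0]

/-- `S2` is a sum over divisors -/
private theorem s2w_S2 (Q : ℕ) (g S : ℕ → ℝ) (y J J1 : ℕ) (hg : Adm Q g S) (m : ℕ) (hm : 1 ≤ m) :
    S2 S y J J1 m = ∑ r ∈ (Icc 1 (zz y J1 * Q)).filter (fun r => r ∣ m), s2w_c (zz y J) (zz y J1) Q g r := by
  have h1 := s2w_sum (zz y J) (zz y J1) Q g (fun r => if r ∣ m then 1 else 0)
  simp only [mul_ite, mul_one, mul_zero] at h1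
  rw [← Finset.sum_filter] at h1
  rw [h1]
  unfold S2
  rw [Finset.sum_filter]
  refine Finset.sum_congr rfl fun p hp => ?_
  obtain ⟨-, -, hpp⟩ := s2w_PY hp
  split_ifs with hd
  · rw [hg.2.2 _ (Nat.div_pos (Nat.le_of_dvd hm hd) hpp.pos), Finset.sum_filter]
    refine Finset.sum_congr rfl fun n _ => ?_
    simp only [Nat.dvd_div_iff_mul_dvd hd]
  · symm
    refine Finset.sum_eq_zero fun n _ => ?_
    rw [if_neg]
    exact fun h => hd ((dvd_mul_right p n).trans h)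

private theorem s2w_den (Q : ℕ) (g : ℕ → ℝ) (y J J1 d a : ℕ) (hd : 1 ≤ d) (hdz : d ≤ zz y J) :
    den (zz y J1 * Q) (s2w_c (zz y J) (zz y J1) Q g) d a = W12 y J J1 * den Q g d a := by
  have h1 := s2w_sum (zz y J) (zz y J1) Q g (fun r => if Nat.gcd r d ∣ a then 1 / (Nat.lcm r d : ℝ) else 0)
  simp only [mul_ite, mul_one_div, mul_zero] at h1
  unfold den
  rw [Finset.sum_filter, h1]
  unfold W12
  rw [Finset.sum_mul]
  refine Finset.sum_congr rfl fun p hp => ?_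
  obtain ⟨hzp, -, hpp⟩ := s2w_PY hp
  have hcop : Nat.Coprime p d := by
    rw [Nat.Prime.coprime_iff_not_dvd hpp]
    intro h
    have := Nat.le_of_dvd hd h
    omega
  rw [Finset.sum_filter, Finset.mul_sum]
  refine Finset.sum_congr rfl fun n _ => ?_
  have hg : Nat.gcd (p * n) d = Nat.gcd n d := Nat.Coprime.gcd_mul_left_cancel n hcop
  have hl : Nat.lcm (p * n) d = p * Nat.lcm n d := by
    have e1 := Nat.gcd_mul_lcm (p * n) d
    have e2 := Nat.gcd_mul_lcm n d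
    rw [hg] at e1
    have hpos : 0 < Nat.gcd n d := Nat.gcd_pos_of_pos_right _ hd
    apply Nat.eq_of_mul_eq_mul_left hpos
    rw [e1, mul_assoc, ← e2]
    ring
  rw [hg, hl]
  split_ifs
  · push_cast
    have hp0 : (p : ℝ) ≠ 0 := by exact_mod_cast hpp.pos.ne'
    rw [div_mul_div_comm, one_mul]
  · rw [mul_zero]

private theorem s2w_single (z w Q : ℕ) (g : ℕ → ℝ) (hQ : Q ≤ z) (r : ℕ) (hr : r ≠ 0) :
    s2w_c z w Q g r = 0 ∨ ∃ p, p.Prime ∧ z < p ∧ p ∣ r ∧ r / p ≤ Q ∧ s2w_c z w Q g r = g (r / p) := by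
  by_cases h : ((PY z w).filter (fun p => p ∣ r ∧ r / p ≤ Q)) = ∅
  · left
    unfold s2w_c
    rw [h, Finset.sum_empty]
  · right
    obtain ⟨p, hp⟩ := Finset.nonempty_iff_ne_empty.2 h
    rw [mem_filter] at hp
    obtain ⟨hzp, -, hpp⟩ := s2w_PY hp.1
    refine ⟨p, hpp, hzp, hp.2.1, hp.2.2, ?_⟩
    unfold s2w_c
    have hs : ((PY z w).filter (fun p => p ∣ r ∧ r / p ≤ Q)) = {p} := by
      refine Finset.eq_singleton_iff_unique_mem.2 ⟨mem_filter.2 hp, fun q hq => ?_⟩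
      rw [mem_filter] at hq
      obtain ⟨hzq, -, hqp⟩ := s2w_PY hq.1
      by_contra hne
      have h1 : q ∣ r / p := by
        rw [Nat.dvd_div_iff_mul_dvd hp.2.1]
        exact Nat.Coprime.mul_dvd_of_dvd_of_dvd ((Nat.coprime_primes hpp hqp).2 (Ne.symm hne)) hp.2.1 hq.2.1
      have h2 : 0 < r / p := Nat.div_pos (Nat.le_of_dvd (Nat.pos_of_ne_zero hr) hp.2.1) hpp.pos
      have h3 := Nat.le_of_dvd h2 h1
      have h4 := hp.2.2
      omega
    rw [hs, Finset.sum_singleton]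

private theorem s2w_zero (z w Q : ℕ) (g S : ℕ → ℝ) (hg : Adm Q g S) : s2w_c z w Q g 0 = 0 := by
  unfold s2w_c
  refine Finset.sum_eq_zero fun p _ => ?_
  rw [Nat.zero_div]
  exact hg.1 0 not_squarefree_zero

private theorem s2w_sqf (z w Q : ℕ) (g S : ℕ → ℝ) (hg : Adm Q g S) (hQ : Q ≤ z) (r : ℕ) (hr : ¬ Squarefree r) : s2w_c z w Q g r = 0 := by
  by_cases h0 : r = 0
  · rw [h0]; exact s2w_zero z w Q g S hg
  · rcases s2w_single z w Q g hQ r h0 with h | ⟨p, hpp, hzp, hpr, hrQ, h⟩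
    · exact h
    · rw [h]
      apply hg.1
      intro hsq
      apply hr
      have h2 : 0 < r / p := Nat.div_pos (Nat.le_of_dvd (Nat.pos_of_ne_zero h0) hpr) hpp.pos
      have hcop : Nat.Coprime p (r / p) := by
        rw [Nat.Prime.coprime_iff_not_dvd hpp]
        intro h3
        have := Nat.le_of_dvd h2 h3
        omega
      rw [← Nat.mul_div_cancel' hpr]
      exact (Nat.squarefree_mul hcop).2 ⟨hpp.prime.squarefree, hsq⟩

private theorem s2w_bd (z w Q : ℕ) (g S : ℕ → ℝ) (hg : Adm Q g S) (hQ : Q ≤ z) (r : ℕ) : |s2w_c z w Q g r| ≤ 3 ^ r.primeFactors.card := by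
  have hpos : ∀ n : ℕ, (0 : ℝ) ≤ 3 ^ n := fun n => by positivity
  by_cases h0 : r = 0
  · rw [h0, s2w_zero z w Q g S hg, abs_zero]; exact hpos _
  · rcases s2w_single z w Q g hQ r h0 with h | ⟨p, hpp, hzp, hpr, hrQ, h⟩
    · rw [h, abs_zero]; exact hpos _
    · rw [h]
      refine (hg.2.1 _).trans (pow_le_pow_right₀ (by norm_num) (card_le_card ?_))
      exact Nat.primeFactors_mono (Nat.div_dvd_of_dvd hpr) h0

/-- `∑_{z < p ≤ w} 1/p ≤ log w - log z` -/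
private theorem s2w_rec (z : ℕ) (hz : 1 ≤ z) (w : ℕ) (hw : z ≤ w) :
    ∑ n ∈ Ioc z w, 1 / (n : ℝ) ≤ Real.log w - Real.log z := by
  induction w, hw using Nat.le_induction with
  | base => simp
  | succ w hw ih =>
    rw [Finset.sum_Ioc_succ_top hw]
    have hw0 : (0 : ℝ) < w := by exact_mod_cast (by omega : 0 < w)
    have h1 : 1 / ((w + 1 : ℕ) : ℝ) ≤ Real.log ((w + 1 : ℕ) : ℝ) - Real.log w := by
      have h2 := Real.log_le_sub_one_of_pos (show (0 : ℝ) < w / ((w + 1 : ℕ) : ℝ) by positivity)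
      rw [Real.log_div hw0.ne' (by positivity)] at h2
      have h3 : (w : ℝ) / ((w + 1 : ℕ) : ℝ) - 1 = - (1 / ((w + 1 : ℕ) : ℝ)) := by
        push_cast
        field_simp
        ring
      rw [h3] at h2
      linarith
    linarith

private theorem s2w_W12 (y J J1 : ℕ) (hz : 1 ≤ zz y J) (hw : zz y J ≤ zz y J1) :
    0 ≤ W12 y J J1 ∧ W12 y J J1 ≤ Real.log (zz y J1) - Real.log (zz y J) := by
  unfold W12 PY
  refine ⟨Finset.sum_nonneg fun _ _ => by positivity, ?_⟩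
  refine le_trans ?_ (s2w_rec _ hz _ hw)
  exact Finset.sum_le_sum_of_subset_of_nonneg (filter_subset _ _) fun _ _ _ => by positivity

private theorem s2w_ev (k : ℕ) (K s : ℝ) (hs : 0 < s) : ∀ᶠ N : ℕ in Filter.atTop, K * Real.log N ^ k ≤ (N : ℝ) ^ s := by
  have h1 := isLittleO_log_rpow_rpow_atTop (k : ℝ) hs
  have h2 : ∀ᶠ x : ℝ in Filter.atTop, K * Real.log x ^ k ≤ x ^ s := by
    filter_upwards [h1.bound (show (0 : ℝ) < 1 / (|K| + 1) by positivity), Filter.eventually_ge_atTop (1 : ℝ)] with x hx hx1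
    have hl : 0 ≤ Real.log x := Real.log_nonneg hx1
    rw [Real.rpow_natCast, Real.norm_of_nonneg (by positivity), Real.norm_of_nonneg (by positivity)] at hx
    have h3 : (|K| + 1) * Real.log x ^ k ≤ x ^ s := by
      rw [div_mul_eq_mul_div, one_mul, le_div_iff₀ (by positivity)] at hx
      linarith
    have h4 : K * Real.log x ^ k ≤ (|K| + 1) * Real.log x ^ k := by
      apply mul_le_mul_of_nonneg_right _ (by positivity)
      linarith [le_abs_self K]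
    exact h4.trans h3
  exact tendsto_natCast_atTop_atTop.eventually h2

theorem s2_wdx (A B : ℕ) : ∃ N0 : ℕ, ∀ N : ℕ, N0 ≤ N → ∀ (e1 : ℝ) (J J1 Q : ℕ) (S g : ℕ → ℝ) (kS : ℝ), LevX N (yN e1 N) J J1 →
    Adm Q g S → 1 ≤ Q → (Q : ℝ) ≤ (N : ℝ) ^ (1 / 1000 : ℝ) → |kS| ≤ 1 →
    (∀ d a : ℕ, 1 ≤ d → (d : ℝ) ≤ Real.log N ^ B → |den Q g d a - (if Nat.Coprime a d then kS / d.totient else 0)| ≤ 1 / Real.log N ^ (A + 1)) →
    ∀ H : ℕ, (N : ℝ) ^ (1 / 20 : ℝ) ≤ H → (H : ℝ) ≤ (N : ℝ) ^ (1 / 2 : ℝ) →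
      WDx N H A B (S2 S (yN e1 N) J J1) (fun _ => kS * W12 (yN e1 N) J J1) := by
  obtain ⟨C, hC1, hC⟩ := ls_var
  have hev : ∀ᶠ N : ℕ in Filter.atTop, 16 ≤ N ∧ 10000 * Real.log N ^ 0 ≤ Real.log N ∧ 1 * Real.log N ^ B ≤ (N : ℝ) ^ (1898 / 10000 : ℝ) ∧
      (110 * 24 * 2 ^ 15 * C) * Real.log N ^ (4 * B + 15 + A) ≤ (N : ℝ) ^ (48 / 1000 : ℝ) ∧
      4 * Real.log N ^ 0 ≤ (N : ℝ) ^ (499 / 1000 : ℝ) := by
    refine (Filter.eventually_ge_atTop 16).and (Filter.Eventually.and ?_ ((s2w_ev B 1 _ (by norm_num)).and ((s2w_ev _ _ _ (by norm_num)).and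
      (s2w_ev 0 4 _ (by norm_num)))))
    have h : ∀ᶠ x : ℝ in Filter.atTop, 10000 ≤ Real.log x := Real.tendsto_log_atTop.eventually_ge_atTop 10000
    filter_upwards [tendsto_natCast_atTop_atTop.eventually h] with N hN
    simpa using hN
  obtain ⟨N0, hN0⟩ := Filter.eventually_atTop.1 hev
  refine ⟨N0, fun N hN e1 J J1 Q S g kS hlev hg hQ1 hQ hkS hden H hH1 hH2 d c hd hdB => ?_⟩
  obtain ⟨hN16, hL, hLB, hbig, h4⟩ := hN0 N hN
  simp only [pow_zero, mul_one, one_mul] at hL hLB h4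
  set L := Real.log N with hLdef
  set y := yN e1 N with hy
  obtain ⟨hJ, hz1, hz2, hw1, hw2⟩ := hlev
  have hNr : (16 : ℝ) ≤ N := by exact_mod_cast hN16
  have hN0' : (0 : ℝ) < N := by linarith
  have hN1 : (1 : ℝ) < N := by linarith
  have hL0 : 0 < L := by linarith
  have hzpos : 1 ≤ zz y J := by
    have h : (0 : ℝ) < zz y J := lt_of_lt_of_le (by positivity) hz1
    exact_mod_cast h
  have hzw : zz y J ≤ zz y J1 := by
    unfold zz
    exact Nat.mul_le_mul_right _ (Nat.pow_le_pow_right (by norm_num) hJ)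
  have hQz : Q ≤ zz y J := by
    have h : (Q : ℝ) ≤ zz y J := by
      refine hQ.trans (le_trans ?_ hz1)
      exact Real.rpow_le_rpow_of_exponent_le hN1.le (by norm_num)
    exact_mod_cast h
  have hdz : d ≤ zz y J := by
    have h : (d : ℝ) ≤ zz y J := hdB.trans (hLB.trans hz1)
    exact_mod_cast h
  have hwpos : 1 ≤ zz y J1 := hzpos.trans hzw
  -- the bound for `W12`
  obtain ⟨hW0, hW1⟩ := s2w_W12 y J J1 hzpos hzw
  have hW2 : W12 y J J1 ≤ 3110 / 10000 * L := by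
    have h1 : Real.log (zz y J) ≥ 1898 / 10000 * L := by
      rw [hLdef, ← Real.log_rpow hN0']
      exact Real.log_le_log (by positivity) hz1
    have h2 : 2 * Real.log (zz y J1) ≤ Real.log 16 + L := by
      rw [hLdef, ← Real.log_mul (by norm_num) hN0'.ne', ← Nat.cast_ofNat (R := ℝ) (n := 2), ← Real.log_pow]
      refine Real.log_le_log (by positivity) ?_
      exact_mod_cast hw2
    have h3 : Real.log 16 ≤ 4 := by
      have : Real.log 16 = 4 * Real.log 2 := by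
        rw [show (16 : ℝ) = 2 ^ 4 by norm_num, Real.log_pow]; norm_num
      rw [this]
      have := Real.log_two_lt_d9
      linarith
    linarith
  -- the coefficients
  set D := zz y J1 * Q with hD
  have hD1 : 1 ≤ D := Nat.mul_pos hwpos hQ1
  set c2 := s2w_c (zz y J) (zz y J1) Q g with hc2
  have hcub := cub_sum D hD1 c2 (s2w_sqf _ _ _ _ S hg hQz) (s2w_bd _ _ _ _ S hg hQz)
  have hHpos : 1 ≤ H := by
    have h : (0 : ℝ) < H := lt_of_lt_of_le (by positivity) hH1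
    exact_mod_cast h
  have hls := hC (8 * N) D d c H c2 (by omega) hD1 hd hHpos
  set E : ℕ → ℝ := fun x => (∑ n ∈ (Ioc x (x + H)).filter (fun n => n % d = c % d), ∑ r ∈ (Icc 1 D).filter (fun r => r ∣ n), c2 r)
      - H * den D c2 d c with hE
  set M : ℝ := H * den D c2 d c - (if Nat.Coprime c d then (H : ℝ) * (kS * W12 y J J1) / d.totient else 0) with hM
  have hden2 : den D c2 d c = W12 y J J1 * den Q g d c := s2w_den Q g y J J1 d c hd hdz
  have hMb : |M| ≤ H * W12 y J J1 / L ^ (A + 1) := by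
    have h1 : M = H * W12 y J J1 * (den Q g d c - (if Nat.Coprime c d then kS / d.totient else 0)) := by
      rw [hM, hden2]
      split_ifs
      · ring
      · ring
    rw [h1, abs_mul, abs_of_nonneg (by positivity)]
    have h2 := hden d c hd hdB
    calc (H : ℝ) * W12 y J J1 * |den Q g d c - (if Nat.Coprime c d then kS / d.totient else 0)|
        ≤ H * W12 y J J1 * (1 / L ^ (A + 1)) := by
          apply mul_le_mul_of_nonneg_left h2 (by positivity)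
      _ = H * W12 y J J1 / L ^ (A + 1) := by ring
  have hM2 : M ^ 2 ≤ (3110 / 10000) ^ 2 * H ^ 2 / L ^ A := by
    have h1 : M ^ 2 ≤ (H * W12 y J J1 / L ^ (A + 1)) ^ 2 := by
      rw [← sq_abs M]
      exact pow_le_pow_left₀ (abs_nonneg _) hMb 2
    have h2 : (H * W12 y J J1 / L ^ (A + 1)) ≤ 3110 / 10000 * H / L ^ A := by
      rw [div_le_div_iff₀ (by positivity) (by positivity)]
      have h3 : (H : ℝ) * W12 y J J1 ≤ H * (3110 / 10000 * L) := mul_le_mul_of_nonneg_left hW2 (by positivity)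
      calc (H : ℝ) * W12 y J J1 * L ^ A ≤ H * (3110 / 10000 * L) * L ^ A := mul_le_mul_of_nonneg_right h3 (by positivity)
        _ = 3110 / 10000 * H * L ^ (A + 1) := by ring
    have h3 : (H * W12 y J J1 / L ^ (A + 1)) ^ 2 ≤ (3110 / 10000 * H / L ^ A) ^ 2 := by
      exact pow_le_pow_left₀ (by positivity) h2 2
    have h4 : (3110 / 10000 * H / L ^ A) ^ 2 ≤ (3110 / 10000) ^ 2 * H ^ 2 / L ^ A := by
      rw [div_pow, mul_pow]
      have h5 : (1 : ℝ) ≤ L ^ A := one_le_pow₀ (by linarith)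
      have h6 : L ^ A ≤ (L ^ A) ^ 2 := by nlinarith
      exact div_le_div_of_nonneg_left (by positivity) (by positivity) h6
    exact h1.trans (h3.trans h4)
  -- the inner quantity
  have hin : ∀ x ∈ Icc (N / 8) (8 * N), ((∑ n ∈ (Ioc x (x + H)).filter (fun n => n % d = c % d), S2 S y J J1 n)
      - (if Nat.Coprime c d then (H : ℝ) * (kS * W12 y J J1) / d.totient else 0)) ^ 2 ≤ 11 * E x ^ 2 + 11 / 10 * M ^ 2 := by
    intro x _
    have h1 : (∑ n ∈ (Ioc x (x + H)).filter (fun n => n % d = c % d), S2 S y J J1 n) =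
        ∑ n ∈ (Ioc x (x + H)).filter (fun n => n % d = c % d), ∑ r ∈ (Icc 1 D).filter (fun r => r ∣ n), c2 r := by
      refine Finset.sum_congr rfl fun n hn => ?_
      rw [mem_filter, mem_Ioc] at hn
      exact s2w_S2 Q g S y J J1 hg n (by omega)
    have h2 : (∑ n ∈ (Ioc x (x + H)).filter (fun n => n % d = c % d), S2 S y J J1 n)
      - (if Nat.Coprime c d then (H : ℝ) * (kS * W12 y J J1) / d.totient else 0) = E x + M := by
      rw [h1, hE, hM]
      ring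
    rw [h2]
    nlinarith [sq_nonneg (10 * E x - M)]
  have hsum1 : ∑ x ∈ Icc (N / 8) (8 * N), ((∑ n ∈ (Ioc x (x + H)).filter (fun n => n % d = c % d), S2 S y J J1 n)
      - (if Nat.Coprime c d then (H : ℝ) * (kS * W12 y J J1) / d.totient else 0)) ^ 2 ≤
      11 * ∑ x ∈ Icc 1 (8 * N), E x ^ 2 + 8 * N * (11 / 10 * M ^ 2) := by
    refine (Finset.sum_le_sum hin).trans ?_
    rw [Finset.sum_add_distrib, ← Finset.mul_sum, Finset.sum_const, nsmul_eq_mul, Nat.card_Icc]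
    have h1 : ∑ x ∈ Icc (N / 8) (8 * N), E x ^ 2 ≤ ∑ x ∈ Icc 1 (8 * N), E x ^ 2 := by
      refine Finset.sum_le_sum_of_subset_of_nonneg ?_ fun _ _ _ => sq_nonneg _
      exact Finset.Icc_subset_Icc (by omega) le_rfl
    have h2 : ((8 * N + 1 - N / 8 : ℕ) : ℝ) ≤ 8 * N := by
      have : 8 * N + 1 - N / 8 ≤ 8 * N := by omega
      exact_mod_cast this
    have h3 : ((8 * N + 1 - N / 8 : ℕ) : ℝ) * (11 / 10 * M ^ 2) ≤ 8 * N * (11 / 10 * M ^ 2) :=
      mul_le_mul_of_nonneg_right h2 (by positivity)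
    linarith
  refine hsum1.trans ?_
  -- the variance
  have hvar : 11 * ∑ x ∈ Icc 1 (8 * N), E x ^ 2 ≤ 1 / 10 * (N * (H : ℝ) ^ 2 / L ^ A) := by
    have hV : ∑ x ∈ Icc 1 (8 * N), E x ^ 2 ≤ C * ((8 * N : ℕ) + ((d : ℝ) * D) ^ 2) * H * (d : ℝ) ^ 2 * (2 + Real.log D) ^ 15 := by
      refine hls.trans ?_
      exact mul_le_mul_of_nonneg_left hcub (by positivity)
    -- the size of `D`
    have hDsq : (D : ℝ) ^ 2 ≤ 16 * (N * (N : ℝ) ^ (2 / 1000 : ℝ)) := by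
      have h1 : ((zz y J1 : ℕ) : ℝ) ^ 2 ≤ 16 * N := by exact_mod_cast hw2
      have h2 : (Q : ℝ) ^ 2 ≤ (N : ℝ) ^ (2 / 1000 : ℝ) := by
        have h3 : (Q : ℝ) ^ 2 ≤ ((N : ℝ) ^ (1 / 1000 : ℝ)) ^ 2 := pow_le_pow_left₀ (by positivity) hQ 2
        rw [← Real.rpow_natCast ((N : ℝ) ^ (1 / 1000 : ℝ)) 2, ← Real.rpow_mul hN0'.le] at h3
        norm_num at h3 ⊢
        exact h3
      rw [hD]
      push_cast
      rw [mul_pow]
      calc ((zz y J1 : ℕ) : ℝ) ^ 2 * (Q : ℝ) ^ 2 ≤ (16 * N) * (N : ℝ) ^ (2 / 1000 : ℝ) := by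
            apply mul_le_mul h1 h2 (by positivity) (by positivity)
        _ = 16 * (N * (N : ℝ) ^ (2 / 1000 : ℝ)) := by ring
    have hDN : (D : ℝ) ≤ N := by
      have h1 : (D : ℝ) ^ 2 ≤ (N : ℝ) ^ 2 := by
        refine hDsq.trans ?_
        have h2 : (16 : ℝ) ≤ (N : ℝ) ^ (998 / 1000 : ℝ) := by
          have h3 : (N : ℝ) ^ (998 / 1000 : ℝ) = (N : ℝ) ^ (499 / 1000 : ℝ) * (N : ℝ) ^ (499 / 1000 : ℝ) := by
            rw [← Real.rpow_add hN0']; norm_num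
          rw [h3]
          nlinarith
        have h4 : (N : ℝ) ^ 2 = N * ((N : ℝ) ^ (998 / 1000 : ℝ) * (N : ℝ) ^ (2 / 1000 : ℝ)) := by
          rw [← Real.rpow_add hN0']
          norm_num
          ring
        rw [h4]
        have h5 : (0 : ℝ) ≤ (N : ℝ) ^ (2 / 1000 : ℝ) := by positivity
        nlinarith [mul_nonneg hN0'.le h5]
      exact (pow_le_pow_iff_left₀ (by positivity) (by positivity) (by norm_num)).1 h1
    have hlogD : 2 + Real.log D ≤ 2 * L := by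
      have h1 : Real.log D ≤ L := Real.log_le_log (by exact_mod_cast hD1) hDN
      linarith
    have hlogD0 : 0 ≤ Real.log D := Real.log_nonneg (by exact_mod_cast hD1)
    have h15 : (2 + Real.log D) ^ 15 ≤ (2 * L) ^ 15 := pow_le_pow_left₀ (by linarith) hlogD 15
    have hLB1 : (1 : ℝ) ≤ L ^ B := one_le_pow₀ (by linarith)
    have hd2 : (d : ℝ) ^ 2 ≤ (L ^ B) ^ 2 := pow_le_pow_left₀ (by positivity) hdB 2
    have hNn : (1 : ℝ) ≤ (N : ℝ) ^ (2 / 1000 : ℝ) := Real.one_le_rpow hN1.le (by norm_num)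
    have hb1 : ((8 * N : ℕ) : ℝ) + ((d : ℝ) * D) ^ 2 ≤ 24 * (L ^ B) ^ 2 * (N * (N : ℝ) ^ (2 / 1000 : ℝ)) := by
      rw [mul_pow]
      push_cast
      have h1 : (d : ℝ) ^ 2 * (D : ℝ) ^ 2 ≤ (L ^ B) ^ 2 * (16 * (N * (N : ℝ) ^ (2 / 1000 : ℝ))) :=
        mul_le_mul hd2 hDsq (by positivity) (by positivity)
      have h2 : (8 : ℝ) * N ≤ (L ^ B) ^ 2 * (8 * (N * (N : ℝ) ^ (2 / 1000 : ℝ))) := by
        have h3 : (1 : ℝ) ≤ (L ^ B) ^ 2 := one_le_pow₀ hLB1
        have h4 : (N : ℝ) ≤ N * (N : ℝ) ^ (2 / 1000 : ℝ) := le_mul_of_one_le_right hN0'.le hNn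
        have h5 : 8 * (N : ℝ) ≤ 8 * (N * (N : ℝ) ^ (2 / 1000 : ℝ)) := by linarith
        exact h5.trans (le_mul_of_one_le_left (by positivity) h3)
      linarith
    have hC0 : 0 < C := by linarith
    have hb2 : C * ((8 * N : ℕ) + ((d : ℝ) * D) ^ 2) * H * (d : ℝ) ^ 2 * (2 + Real.log D) ^ 15 ≤
        C * (24 * (L ^ B) ^ 2 * (N * (N : ℝ) ^ (2 / 1000 : ℝ))) * H * (L ^ B) ^ 2 * (2 * L) ^ 15 := by
      have hA : C * ((8 * N : ℕ) + ((d : ℝ) * D) ^ 2) ≤ C * (24 * (L ^ B) ^ 2 * (N * (N : ℝ) ^ (2 / 1000 : ℝ))) :=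
        mul_le_mul_of_nonneg_left hb1 hC0.le
      have hB : C * ((8 * N : ℕ) + ((d : ℝ) * D) ^ 2) * H ≤ C * (24 * (L ^ B) ^ 2 * (N * (N : ℝ) ^ (2 / 1000 : ℝ))) * H :=
        mul_le_mul_of_nonneg_right hA (by positivity)
      have hC' : C * ((8 * N : ℕ) + ((d : ℝ) * D) ^ 2) * H * (d : ℝ) ^ 2 ≤
          C * (24 * (L ^ B) ^ 2 * (N * (N : ℝ) ^ (2 / 1000 : ℝ))) * H * (L ^ B) ^ 2 :=
        mul_le_mul hB hd2 (by positivity) (by positivity)
      exact mul_le_mul hC' h15 (by positivity) (by positivity)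
    have hHN : (110 * 24 * 2 ^ 15 * C) * L ^ (4 * B + 15 + A) * (N : ℝ) ^ (2 / 1000 : ℝ) ≤ H := by
      refine le_trans ?_ hH1
      have h1 : (N : ℝ) ^ (1 / 20 : ℝ) = (N : ℝ) ^ (48 / 1000 : ℝ) * (N : ℝ) ^ (2 / 1000 : ℝ) := by
        rw [← Real.rpow_add hN0']; norm_num
      rw [h1]
      exact mul_le_mul_of_nonneg_right hbig (by positivity)
    have hfin : 11 * (C * (24 * (L ^ B) ^ 2 * (N * (N : ℝ) ^ (2 / 1000 : ℝ))) * H * (L ^ B) ^ 2 * (2 * L) ^ 15) ≤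
        1 / 10 * (N * (H : ℝ) ^ 2 / L ^ A) := by
      rw [← mul_div_assoc, le_div_iff₀ (by positivity)]
      have h1 : 11 * (C * (24 * (L ^ B) ^ 2 * (N * (N : ℝ) ^ (2 / 1000 : ℝ))) * H * (L ^ B) ^ 2 * (2 * L) ^ 15) * L ^ A =
          1 / 10 * (N * H) * ((110 * 24 * 2 ^ 15 * C) * L ^ (4 * B + 15 + A) * (N : ℝ) ^ (2 / 1000 : ℝ)) := by
        rw [pow_add, pow_add, mul_comm 4 B, pow_mul]
        ring
      rw [h1]
      have h2 : 1 / 10 * (N * (H : ℝ)) * ((110 * 24 * 2 ^ 15 * C) * L ^ (4 * B + 15 + A) * (N : ℝ) ^ (2 / 1000 : ℝ)) ≤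
          1 / 10 * (N * (H : ℝ)) * H := mul_le_mul_of_nonneg_left hHN (by positivity)
      refine h2.trans (le_of_eq ?_)
      ring
    have h11 : 11 * ∑ x ∈ Icc 1 (8 * N), E x ^ 2 ≤
        11 * (C * (24 * (L ^ B) ^ 2 * (N * (N : ℝ) ^ (2 / 1000 : ℝ))) * H * (L ^ B) ^ 2 * (2 * L) ^ 15) := by
      have := hV.trans hb2
      linarith
    exact h11.trans hfin
  have hmain : 8 * N * (11 / 10 * M ^ 2) ≤ 9 / 10 * (N * (H : ℝ) ^ 2 / L ^ A) := by
    have h1 : 8 * (N : ℝ) * (11 / 10 * M ^ 2) ≤ 8 * N * (11 / 10 * ((3110 / 10000) ^ 2 * H ^ 2 / L ^ A)) := by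
      apply mul_le_mul_of_nonneg_left _ (by positivity)
      linarith
    refine h1.trans ?_
    have h2 : 8 * (N : ℝ) * (11 / 10 * ((3110 / 10000) ^ 2 * H ^ 2 / L ^ A)) = (8 * 11 / 10 * (3110 / 10000) ^ 2) * (N * (H : ℝ) ^ 2 / L ^ A) := by ring
    rw [h2]
    exact mul_le_mul_of_nonneg_right (by norm_num) (by positivity)
  linarith

end Pool.Agent.H43.PX
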