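import Pool.Agent.H43.PX.Defs
import Pool.Agent.H91.EHA.SwK2
import Pool.Agent.H53.MID.Defs

/-!
# PX TBad: the sieve part `T` is well distributed in every block (`t_badQ`); `badQ` of a combination of three functions (`badQ_sub3`)

`∑_{m ∈ blk} Λ_R(m) e(-am/r) = μ(r)/φ(r) H + O(R^4)` for `r ≤ R` (`lamR_exp` of H91/EHA).
-/

set_option autoImplicit false

namespace Pool.Agent.H43.PX

open Finset
open Pool.Agent.H91.PK (ee)
open Pool.Agent.H91.EHA (Lam lamR)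
open Pool.Agent.H43.MP (blk Hn idx Rn)
open Pool.Agent.H43.TS (badQ)
open Pool.Agent.H53.MID (Bs)

private theorem tb_conj (x : ℝ) : ee (-x) = (starRingEnd ℂ) (ee x) := by
  unfold ee
  rw [← Complex.exp_conj]
  congr 1
  simp only [map_mul, Complex.conj_ofReal, Complex.conj_I]
  push_cast
  have : (starRingEnd ℂ) (2 : ℂ) = 2 := Complex.conj_ofReal 2
  rw [this]
  ring

/-- the exponential sum of `Λ_R` over a block -/
private theorem tb_lam (R H i r a : ℕ) (hi : 1 ≤ i * H) (hr : 1 ≤ r) (hrR : r ≤ R) (ha : Nat.Coprime a r) :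
    ‖∑ m ∈ blk H i, ((lamR R m : ℝ) : ℂ) * ee (-((a : ℝ) * m / r))
      - (((ArithmeticFunction.moebius r : ℝ) / (r.totient : ℝ) * H : ℝ) : ℂ)‖ ≤ 2 * (R : ℝ) ^ 4 := by
  have e1 := Pool.Agent.H91.EHA.lamR_exp R ((i + 1) * H - 1) r a hr hrR ha
  have e2 := Pool.Agent.H91.EHA.lamR_exp R (i * H - 1) r a hr hrR ha
  have h1 : ∑ m ∈ Icc 1 ((i + 1) * H - 1), ((lamR R m : ℝ) : ℂ) * ee ((m : ℝ) * a / r)
      = ∑ m ∈ Icc 1 (i * H - 1), ((lamR R m : ℝ) : ℂ) * ee ((m : ℝ) * a / r)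
        + ∑ m ∈ blk H i, ((lamR R m : ℝ) : ℂ) * ee ((m : ℝ) * a / r) := by
    have s1 : Icc 1 ((i + 1) * H - 1) = Ico 1 ((i + 1) * H) := by
      ext m
      simp only [mem_Icc, mem_Ico]
      have : 1 ≤ (i + 1) * H := by nlinarith
      omega
    have s2 : Icc 1 (i * H - 1) = Ico 1 (i * H) := by
      ext m
      simp only [mem_Icc, mem_Ico]
      omega
    rw [s1, s2]
    unfold blk
    exact (Finset.sum_Ico_consecutive _ hi (by nlinarith)).symm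
  have h2 : ∑ m ∈ blk H i, ((lamR R m : ℝ) : ℂ) * ee (-((a : ℝ) * m / r))
      = (starRingEnd ℂ) (∑ m ∈ blk H i, ((lamR R m : ℝ) : ℂ) * ee ((m : ℝ) * a / r)) := by
    rw [map_sum]
    refine sum_congr rfl fun m _ => ?_
    rw [map_mul, Complex.conj_ofReal, ← tb_conj]
    congr 2
    ring
  set c : ℝ := (ArithmeticFunction.moebius r : ℝ) / (r.totient : ℝ) with hc
  have h3 : (((i + 1) * H - 1 : ℕ) : ℝ) - ((i * H - 1 : ℕ) : ℝ) = H := by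
    have g1 : 1 ≤ (i + 1) * H := by nlinarith
    rw [Nat.cast_sub g1, Nat.cast_sub hi]
    push_cast
    ring
  have h4 : ∑ m ∈ blk H i, ((lamR R m : ℝ) : ℂ) * ee ((m : ℝ) * a / r) - ((c * H : ℝ) : ℂ)
      = ((∑ m ∈ Icc 1 ((i + 1) * H - 1), ((lamR R m : ℝ) : ℂ) * ee ((m : ℝ) * a / r))
          - ((c * (((i + 1) * H - 1 : ℕ) : ℝ) : ℝ) : ℂ))
        - ((∑ m ∈ Icc 1 (i * H - 1), ((lamR R m : ℝ) : ℂ) * ee ((m : ℝ) * a / r))
          - ((c * ((i * H - 1 : ℕ) : ℝ) : ℝ) : ℂ)) := by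
    rw [h1, ← h3]
    push_cast
    ring
  have h5 : ∑ m ∈ blk H i, ((lamR R m : ℝ) : ℂ) * ee (-((a : ℝ) * m / r)) - ((c * H : ℝ) : ℂ)
      = (starRingEnd ℂ) (∑ m ∈ blk H i, ((lamR R m : ℝ) : ℂ) * ee ((m : ℝ) * a / r) - ((c * H : ℝ) : ℂ)) := by
    rw [h2, map_sub, Complex.conj_ofReal]
  rw [h5, RCLike.norm_conj, h4]
  refine (norm_sub_le _ _).trans ?_
  linarith

/-- `T` is well distributed in every block -/
theorem t_badQ (θ : ℝ) (h1 : 1 / 10 ≤ θ) (h2 : θ ≤ 1 / 4) (A B B' : ℕ) (hB : B ≤ B') : ∃ N0 : ℕ, ∀ N : ℕ, N0 ≤ N →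
    ∀ (T : ℕ → ℝ) (kT : ℝ), |kT| ≤ 1 →
    (∀ (H i : ℕ) (α : ℝ), (N : ℝ) ^ (1 / 50 : ℝ) ≤ H → 1 ≤ i →
      ‖Bs (fun m => T m - kT * lamR ⌊Real.log N ^ B'⌋₊ m) H i α‖ ≤ H / Real.log N ^ (A + 1)) →
    badQ N (Hn θ N) A B T (fun _ => kT) = ∅ := by
  have hx : Filter.Tendsto (fun x : ℝ => Real.log x) Filter.atTop Filter.atTop := Real.tendsto_log_atTop
  have ho : (fun x : ℝ => Real.log x ^ (4 * B' + A + 2)) =o[Filter.atTop] fun x : ℝ => x ^ (1 / 50 : ℝ) :=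
    (isLittleO_log_rpow_rpow_atTop ((4 * B' + A + 2 : ℕ) : ℝ) (by norm_num : (0 : ℝ) < 1 / 50)).congr_left fun x =>
      Real.rpow_natCast _ _
  have hb1 := ho.bound (by norm_num : (0 : ℝ) < 1 / 4)
  have hcast := tendsto_natCast_atTop_atTop (R := ℝ)
  have hlog := (hx.comp hcast).eventually_ge_atTop 4
  obtain ⟨N1, hN1⟩ := Filter.eventually_atTop.1 ((hcast.eventually hb1).and (hlog.and (Filter.eventually_ge_atTop 16)))
  refine ⟨N1, fun N hN T kT hkT hT => ?_⟩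
  obtain ⟨g1, g2, g3⟩ := hN1 N hN
  set L : ℝ := Real.log N with hL
  have hL4 : 4 ≤ L := g2
  have hN1' : (1 : ℝ) ≤ N := by
    have : 1 ≤ N := by omega
    exact_mod_cast this
  have hNpos : (0 : ℝ) < N := by linarith
  have g1' : L ^ (4 * B' + A + 2) ≤ 1 / 4 * (N : ℝ) ^ (1 / 50 : ℝ) := by
    have := g1
    rw [Real.norm_of_nonneg (by positivity), Real.norm_of_nonneg (by positivity)] at this
    exact this
  -- the size of `H`
  have hNb : (4 : ℝ) ≤ (N : ℝ) ^ (1 / 50 : ℝ) := by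
    have : (1 : ℝ) ≤ L ^ (4 * B' + A + 2) := one_le_pow₀ (by linarith)
    linarith
  have hHlow : (N : ℝ) ^ (1 / 50 : ℝ) ≤ Hn θ N := by
    have e1 : (N : ℝ) ^ (1 / 50 : ℝ) * (N : ℝ) ^ (1 / 50 : ℝ) ≤ (N : ℝ) ^ θ := by
      rw [← Real.rpow_add hNpos]
      exact Real.rpow_le_rpow_of_exponent_le hN1' (by linarith)
    have e2 : (N : ℝ) ^ θ < Hn θ N + 1 := by
      unfold Hn
      exact Nat.lt_floor_add_one _
    nlinarith
  have hHup : (Hn θ N : ℝ) ^ 2 ≤ N := by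
    have e1 : (Hn θ N : ℝ) ≤ (N : ℝ) ^ (1 / 4 : ℝ) := by
      unfold Hn
      refine (Nat.floor_le (by positivity)).trans ?_
      exact Real.rpow_le_rpow_of_exponent_le hN1' h2
    have e2 : ((N : ℝ) ^ (1 / 4 : ℝ)) ^ 2 ≤ N := by
      rw [← Real.rpow_natCast, ← Real.rpow_mul hNpos.le]
      calc (N : ℝ) ^ (1 / 4 * ((2 : ℕ) : ℝ)) ≤ (N : ℝ) ^ (1 : ℝ) :=
            Real.rpow_le_rpow_of_exponent_le hN1' (by norm_num)
        _ = N := Real.rpow_one _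
    exact (pow_le_pow_left₀ (by positivity) e1 2).trans e2
  set H := Hn θ N with hH
  have hHpos : (0 : ℝ) < H := by linarith
  have hH1 : 1 ≤ H := by exact_mod_cast hHpos
  rw [Finset.eq_empty_iff_forall_notMem]
  classical
  intro i hi
  unfold badQ at hi
  rw [mem_filter] at hi
  obtain ⟨hiI, r, a, hr1, hrB, har, hbad⟩ := hi
  have hi1 : 1 ≤ i := by
    unfold idx at hiI
    rw [mem_Icc] at hiI
    have h4 : H * 4 ≤ N := by
      have e1 : (H : ℝ) * 4 ≤ (H : ℝ) ^ 2 := by nlinarith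
      have e2 : (H : ℝ) * 4 ≤ N := e1.trans hHup
      exact_mod_cast e2
    have : 1 ≤ N / (2 * H) := by
      rw [Nat.le_div_iff_mul_le (by omega)]
      omega
    omega
  have hiH : 1 ≤ i * H := Nat.mul_pos hi1 hH1
  set R : ℕ := ⌊L ^ B'⌋₊ with hR
  have hrR : r ≤ R := by
    rw [hR]
    refine Nat.le_floor (hrB.trans ?_)
    exact pow_le_pow_right₀ (by linarith) hB
  have hRle : (R : ℝ) ≤ L ^ B' := Nat.floor_le (by positivity)
  have hsum := tb_lam R H i r a hiH hr1 hrR har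
  set c : ℝ := (ArithmeticFunction.moebius r : ℝ) / (r.totient : ℝ) with hc
  have hTi := hT H i ((a : ℝ) / r) hHlow hi1
  unfold Bs at hTi
  have hsplit : ∑ m ∈ blk H i, ((T m : ℝ) : ℂ) * ee (-((a : ℝ) * m / r)) - ((c * (H * kT) : ℝ) : ℂ)
      = (∑ m ∈ Ico (i * H) ((i + 1) * H), ((T m - kT * lamR R m : ℝ) : ℂ) * ee (-(m * ((a : ℝ) / r))))
        + (kT : ℂ) * (∑ m ∈ blk H i, ((lamR R m : ℝ) : ℂ) * ee (-((a : ℝ) * m / r)) - ((c * H : ℝ) : ℂ)) := by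
    have e1 : ∑ m ∈ blk H i, ((T m : ℝ) : ℂ) * ee (-((a : ℝ) * m / r))
        = (∑ m ∈ Ico (i * H) ((i + 1) * H), ((T m - kT * lamR R m : ℝ) : ℂ) * ee (-(m * ((a : ℝ) / r))))
        + (kT : ℂ) * ∑ m ∈ blk H i, ((lamR R m : ℝ) : ℂ) * ee (-((a : ℝ) * m / r)) := by
      unfold blk
      rw [mul_sum, ← sum_add_distrib]
      refine sum_congr rfl fun m _ => ?_
      have e2 : (m : ℝ) * ((a : ℝ) / r) = (a : ℝ) * m / r := by ring
      rw [e2]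
      push_cast
      ring
    rw [e1, mul_sub]
    push_cast
    ring
  have hfin : ‖∑ m ∈ blk H i, ((T m : ℝ) : ℂ) * ee (-((a : ℝ) * m / r)) - ((c * (H * kT) : ℝ) : ℂ)‖
      ≤ H / L ^ (A + 1) + 2 * L ^ (4 * B') := by
    rw [hsplit]
    refine (norm_add_le _ _).trans (add_le_add hTi ?_)
    rw [norm_mul, Complex.norm_real, Real.norm_eq_abs]
    calc |kT| * ‖∑ m ∈ blk H i, ((lamR R m : ℝ) : ℂ) * ee (-((a : ℝ) * m / r)) - ((c * H : ℝ) : ℂ)‖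
        ≤ 1 * (2 * (R : ℝ) ^ 4) := mul_le_mul hkT hsum (norm_nonneg _) zero_le_one
      _ ≤ 2 * L ^ (4 * B') := by
          rw [one_mul, mul_comm 4 B', pow_mul]
          have := pow_le_pow_left₀ (Nat.cast_nonneg R) hRle 4
          linarith
  have hlast : (H : ℝ) / L ^ (A + 1) + 2 * L ^ (4 * B') ≤ H / L ^ A := by
    have hLA : (0 : ℝ) < L ^ A := by positivity
    have e1 : (H : ℝ) / L ^ (A + 1) ≤ 1 / 4 * (H / L ^ A) := by
      rw [pow_succ, ← div_div]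
      rw [div_le_iff₀ (by linarith)]
      have : 0 ≤ (H : ℝ) / L ^ A := by positivity
      nlinarith
    have e2 : 2 * L ^ (4 * B') ≤ 1 / 2 * (H / L ^ A) := by
      have e3 : L ^ (4 * B') * L ^ A ≤ L ^ (4 * B' + A + 2) := by
        rw [← pow_add]
        exact pow_le_pow_right₀ (by linarith) (by omega)
      have e4 : L ^ (4 * B') ≤ 1 / 4 * (H / L ^ A) := by
        rw [← mul_div_assoc, le_div_iff₀ hLA]
        linarith
      linarith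
    have : 0 ≤ (H : ℝ) / L ^ A := by positivity
    linarith
  exact absurd (lt_of_lt_of_le hbad (hfin.trans hlast)) (lt_irrefl _)

/-- `badQ` of `Y1 - Y2 - Y3` -/
theorem badQ_sub3 {N H A B : ℕ} {Y1 Y2 Y3 g1 g2 g3 : ℕ → ℝ} (hL : 400 ≤ Real.log N) :
    badQ N H A B (fun m => Y1 m - Y2 m - Y3 m) (fun i => g1 i - g2 i - g3 i) ⊆
      badQ N H (A + 2) B Y1 g1 ∪ (badQ N H (A + 2) B Y2 g2 ∪ badQ N H (A + 2) B Y3 g3) := by
  classical
  intro i hi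
  by_contra hcon
  rw [mem_union, mem_union, not_or, not_or] at hcon
  obtain ⟨c1, c2, c3⟩ := hcon
  unfold badQ at hi c1 c2 c3
  rw [mem_filter] at hi c1 c2 c3
  obtain ⟨hiI, r, a, hr1, hrB, har, hbad⟩ := hi
  have key : ∀ (Y g : ℕ → ℝ), ¬ (i ∈ idx N H ∧ ∃ r a : ℕ, 1 ≤ r ∧ (r : ℝ) ≤ Real.log N ^ B ∧ Nat.Coprime a r ∧
      (H : ℝ) / Real.log N ^ (A + 2) < ‖∑ m ∈ blk H i, ((Y m : ℝ) : ℂ) * ee (-((a : ℝ) * m / r))
      - (((ArithmeticFunction.moebius r : ℝ) / (r.totient : ℝ) * (H * g i) : ℝ) : ℂ)‖) →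
      ‖∑ m ∈ blk H i, ((Y m : ℝ) : ℂ) * ee (-((a : ℝ) * m / r))
      - (((ArithmeticFunction.moebius r : ℝ) / (r.totient : ℝ) * (H * g i) : ℝ) : ℂ)‖ ≤ (H : ℝ) / Real.log N ^ (A + 2) := by
    intro Y g h
    by_contra h'
    push Not at h'
    exact h ⟨hiI, r, a, hr1, hrB, har, h'⟩
  have k1 := key Y1 g1 c1
  have k2 := key Y2 g2 c2
  have k3 := key Y3 g3 c3
  set c : ℝ := (ArithmeticFunction.moebius r : ℝ) / (r.totient : ℝ) with hc
  have hsplit : ∑ m ∈ blk H i, ((Y1 m - Y2 m - Y3 m : ℝ) : ℂ) * ee (-((a : ℝ) * m / r))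
      - ((c * (H * (g1 i - g2 i - g3 i)) : ℝ) : ℂ)
      = (∑ m ∈ blk H i, ((Y1 m : ℝ) : ℂ) * ee (-((a : ℝ) * m / r)) - ((c * (H * g1 i) : ℝ) : ℂ))
        - (∑ m ∈ blk H i, ((Y2 m : ℝ) : ℂ) * ee (-((a : ℝ) * m / r)) - ((c * (H * g2 i) : ℝ) : ℂ))
        - (∑ m ∈ blk H i, ((Y3 m : ℝ) : ℂ) * ee (-((a : ℝ) * m / r)) - ((c * (H * g3 i) : ℝ) : ℂ)) := by
    have e1 : ∑ m ∈ blk H i, ((Y1 m - Y2 m - Y3 m : ℝ) : ℂ) * ee (-((a : ℝ) * m / r))
        = ∑ m ∈ blk H i, ((Y1 m : ℝ) : ℂ) * ee (-((a : ℝ) * m / r))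
          - ∑ m ∈ blk H i, ((Y2 m : ℝ) : ℂ) * ee (-((a : ℝ) * m / r))
          - ∑ m ∈ blk H i, ((Y3 m : ℝ) : ℂ) * ee (-((a : ℝ) * m / r)) := by
      rw [← sum_sub_distrib, ← sum_sub_distrib]
      refine sum_congr rfl fun m _ => ?_
      push_cast
      ring
    rw [e1]
    push_cast
    ring
  rw [hsplit] at hbad
  have h3 : ‖(∑ m ∈ blk H i, ((Y1 m : ℝ) : ℂ) * ee (-((a : ℝ) * m / r)) - ((c * (H * g1 i) : ℝ) : ℂ))
        - (∑ m ∈ blk H i, ((Y2 m : ℝ) : ℂ) * ee (-((a : ℝ) * m / r)) - ((c * (H * g2 i) : ℝ) : ℂ))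
        - (∑ m ∈ blk H i, ((Y3 m : ℝ) : ℂ) * ee (-((a : ℝ) * m / r)) - ((c * (H * g3 i) : ℝ) : ℂ))‖
      ≤ 3 * ((H : ℝ) / Real.log N ^ (A + 2)) := by
    refine (norm_sub_le _ _).trans ?_
    have := norm_sub_le (∑ m ∈ blk H i, ((Y1 m : ℝ) : ℂ) * ee (-((a : ℝ) * m / r)) - ((c * (H * g1 i) : ℝ) : ℂ))
      (∑ m ∈ blk H i, ((Y2 m : ℝ) : ℂ) * ee (-((a : ℝ) * m / r)) - ((c * (H * g2 i) : ℝ) : ℂ))
    linarith
  have hLpos : (0 : ℝ) < Real.log N := by linarith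
  have h4 : 3 * ((H : ℝ) / Real.log N ^ (A + 2)) ≤ (H : ℝ) / Real.log N ^ A := by
    rw [pow_add, ← div_div, ← mul_div_assoc, div_le_iff₀ (by positivity), mul_comm 3]
    have e0 : 0 ≤ (H : ℝ) / Real.log N ^ A := by positivity
    refine mul_le_mul_of_nonneg_left ?_ e0
    nlinarith
  linarith

end Pool.Agent.H43.PX
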