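import Pool.Agent.H43.PX.Fin
import Pool.Agent.H43.PX.Yin
import Pool.Agent.H43.MP.Res
import Pool.Agent.H43.MP.LfuP

/-!
# PX Res: the theorem in the form of the hand-in
-/

set_option autoImplicit false

namespace Pool.Agent.H43.PX

open Finset
open Pool.Agent.H43.MP (solR sols Pn Hn badL_of lfup_all sols_sub solR_finite)

/-- the theorem of the hand-in -/
theorem px_res (θ : ℝ) (h1 : 1 / 10 ≤ θ) (h2 : θ ≤ 1 / 4) (A : ℕ) : ∃ N0 : ℕ, ∀ N : ℕ, N0 ≤ N →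
      ({n : ℕ | N < n ∧ n ≤ 2 * N ∧
        ((solR θ N n).ncard : ℝ) < (N : ℝ) ^ θ / (200 * Real.log N ^ 3)}.ncard : ℝ)
      ≤ N / Real.log N ^ A := by
  classical
  obtain ⟨N0, h⟩ := fin_px θ (by linarith) h2 (badL_of lfup_all θ (by linarith) h2)
    (yin Pool.Agent.H97.VK.vk_class θ h1 h2) A
  refine ⟨N0, fun N hN => ?_⟩
  refine le_trans ?_ (h N hN)
  have hsub : {n : ℕ | N < n ∧ n ≤ 2 * N ∧
        ((solR θ N n).ncard : ℝ) < (N : ℝ) ^ θ / (200 * Real.log N ^ 3)} ⊆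
      (((Ioc N (2 * N)).filter (fun n =>
        ((sols (Pn θ N) (Hn θ N) n).ncard : ℝ) < (N : ℝ) ^ θ / (200 * Real.log N ^ 3)) : Finset ℕ) : Set ℕ) := by
    rintro n ⟨ha, hb, hc⟩
    rw [Finset.mem_coe, mem_filter, mem_Ioc]
    refine ⟨⟨ha, hb⟩, lt_of_le_of_lt ?_ hc⟩
    exact_mod_cast Set.ncard_le_ncard (sols_sub θ N n) (solR_finite θ N n)
  have := Set.ncard_le_ncard hsub (Finset.finite_toSet _)
  rw [Set.ncard_coe_finset] at this
  exact_mod_cast this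

end Pool.Agent.H43.PX
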