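import Pool.Agent.H43.PX.Fin2
import Pool.Agent.H43.PX.LfuG
import Pool.Agent.H43.PX.Yin
import Pool.Agent.H97.VK.VkClass

/-!
# PX Res2: the theorem in the form of the hand-in (small prime factor in `(P, 2P]`, all `exp(L^t) ≤ P ≤ N^(θ/20)`)
-/

set_option autoImplicit false

namespace Pool.Agent.H43.PX

open Finset
open Pool.Agent.H43.MP (sols Pn Hn)

/-- The integers `x` with `|x| ≤ N^θ` such that `φ(n-x)+1 = n-x` (`n-x` is prime) and `n+x = p q` with primes `p, q`, `P < p ≤ 2P`. -/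
def solG (θ : ℝ) (N P n : ℕ) : Set ℤ :=
  {x : ℤ | |(x : ℝ)| ≤ (N : ℝ) ^ θ ∧ 0 < (n : ℤ) - x ∧ 0 < (n : ℤ) + x ∧
    ((Nat.totient ((n : ℤ) - x).toNat : ℤ) + 1 = (n : ℤ) - x) ∧
    ∃ p q : ℕ, p.Prime ∧ q.Prime ∧ P < p ∧ p ≤ 2 * P ∧ (n : ℤ) + x = p * q}

private theorem solG_finite (θ : ℝ) (N P n : ℕ) : (solG θ N P n).Finite := by
  refine Set.Finite.subset (Set.finite_Icc (-⌈(N : ℝ) ^ θ⌉) ⌈(N : ℝ) ^ θ⌉) ?_
  rintro x ⟨hx, -⟩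
  rw [abs_le] at hx
  have h1 := Int.le_ceil ((N : ℝ) ^ θ)
  rw [Set.mem_Icc]
  constructor
  · have : ((-⌈(N : ℝ) ^ θ⌉ : ℤ) : ℝ) ≤ (x : ℝ) := by
      push_cast
      linarith [hx.1]
    exact_mod_cast this
  · have : (x : ℝ) ≤ ((⌈(N : ℝ) ^ θ⌉ : ℤ) : ℝ) := by linarith [hx.2]
    exact_mod_cast this

private theorem solsG_sub (θ : ℝ) (N P n : ℕ) : sols P (Hn θ N) n ⊆ solG θ N P n := by
  rintro x ⟨h1, h2, h3, h4, p, q, hp, hq, h5, h6, h7⟩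
  refine ⟨?_, h2, h3, h4, p, q, hp, hq, h5, h6, h7⟩
  have h8 : (Hn θ N : ℝ) ≤ (N : ℝ) ^ θ := Nat.floor_le (by positivity)
  have h9 : ((|x| : ℤ) : ℝ) ≤ ((Hn θ N : ℤ) : ℝ) := by exact_mod_cast h1
  push_cast at h9
  exact h9.trans h8

/-- the theorem of the hand-in -/
theorem px_res2 (θ : ℝ) (h1 : 1 / 10 ≤ θ) (h2 : θ ≤ 1 / 4) (t : ℝ) (ht : 2 / 3 < t) (ht1 : t < 1) (A : ℕ) :
    ∃ N0 : ℕ, ∀ N : ℕ, N0 ≤ N → ∀ P : ℕ, Real.exp (Real.log N ^ t) ≤ P → (P : ℝ) ≤ (N : ℝ) ^ (θ / 20) →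
      ({n : ℕ | N < n ∧ n ≤ 2 * N ∧
        ((solG θ N P n).ncard : ℝ) < (N : ℝ) ^ θ / (30000 * Real.log N ^ 2 * Real.log P)}.ncard : ℝ)
      ≤ N / Real.log N ^ A := by
  classical
  obtain ⟨N0, h⟩ := fin_px2 θ t (by linarith) (by linarith) h2 (badL_g θ t (by linarith) h2 ht ht1)
    (yin Pool.Agent.H97.VK.vk_class θ h1 h2) A
  refine ⟨N0, fun N hN P hPt hPn => ?_⟩
  refine le_trans ?_ (h N hN P hPt (Nat.le_floor hPn))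
  have hsub : {n : ℕ | N < n ∧ n ≤ 2 * N ∧
        ((solG θ N P n).ncard : ℝ) < (N : ℝ) ^ θ / (30000 * Real.log N ^ 2 * Real.log P)} ⊆
      (((Ioc N (2 * N)).filter (fun n =>
        ((sols P (Hn θ N) n).ncard : ℝ) < (N : ℝ) ^ θ / (30000 * Real.log N ^ 2 * Real.log P)) : Finset ℕ) : Set ℕ) := by
    rintro n ⟨ha, hb, hc⟩
    rw [Finset.mem_coe, mem_filter, mem_Ioc]
    refine ⟨⟨ha, hb⟩, lt_of_le_of_lt ?_ hc⟩
    exact_mod_cast Set.ncard_le_ncard (solsG_sub θ N P n) (solG_finite θ N P n)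
  have := Set.ncard_le_ncard hsub (Finset.finite_toSet _)
  rw [Set.ncard_coe_finset] at this
  exact_mod_cast this

end Pool.Agent.H43.PX
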